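import Mathlib
import Pool.Agent.P.MP_d124bf_nt.Defs

-- part Pool.Agent.P.MP_d124bf_nt.Ex
section

/-!
Binomial averages `Ex q h g = E g(Bin(h,q))`, Stein identity, variance, gradient bound,
and averages over lists of shifts.
-/

namespace Pool.Agent.P.MP_d124bf_nt

noncomputable def Ex (q : ℝ) : ℕ → (ℕ → ℝ) → ℝ
  | 0, g => g 0
  | h + 1, g => Ex q h (fun i => q * g (i + 1) + (1 - q) * g i)

theorem Ex_realize : True := by have := @Ex.eq_def; trivial

variable {q : ℝ}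

theorem Ex_lin (h : ℕ) (a b : ℝ) (f g : ℕ → ℝ) :
    Ex q h (fun i => a * f i + b * g i) = a * Ex q h f + b * Ex q h g := by
  induction h generalizing f g with
  | zero => simp [Ex]
  | succ h ih =>
    simp only [Ex]
    rw [← ih]
    congr 1
    funext i
    ring

theorem Ex_const (h : ℕ) (c : ℝ) : Ex q h (fun _ => c) = c := by
  induction h with
  | zero => simp [Ex]
  | succ h ih =>
    simp only [Ex]
    have : (fun _ : ℕ => q * c + (1 - q) * c) = fun _ => c := by funext i; ring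
    rw [this, ih]

theorem Ex_succ (h : ℕ) (g : ℕ → ℝ) :
    Ex q (h + 1) g = q * Ex q h (fun i => g (i + 1)) + (1 - q) * Ex q h g := by
  simp only [Ex]
  exact Ex_lin h q (1 - q) (fun i => g (i + 1)) g

theorem Ex_mono (h0 : 0 ≤ q) (h1 : q ≤ 1) (h : ℕ) {f g : ℕ → ℝ} (hfg : ∀ i, f i ≤ g i) :
    Ex q h f ≤ Ex q h g := by
  induction h generalizing f g with
  | zero => simpa [Ex] using hfg 0
  | succ h ih =>
    simp only [Ex]
    apply ih
    intro i
    have := mul_le_mul_of_nonneg_left (hfg (i + 1)) h0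
    have := mul_le_mul_of_nonneg_left (hfg i) (sub_nonneg.2 h1)
    linarith

theorem Ex_four (g : ℕ → ℝ) :
    Ex q 4 g = (1 - q) ^ 4 * g 0 + 4 * q * (1 - q) ^ 3 * g 1 + 6 * q ^ 2 * (1 - q) ^ 2 * g 2
      + 4 * q ^ 3 * (1 - q) * g 3 + q ^ 4 * g 4 := by
  simp only [Ex]
  ring

theorem Ex_stein (h : ℕ) (g : ℕ → ℝ) :
    Ex q (h + 1) (fun i => ((i : ℝ) - (h + 1) * q) * g i)
      = (h + 1) * q * (1 - q) * Ex q h (fun i => g (i + 1) - g i) := by
  induction h generalizing g with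
  | zero => simp [Ex]; ring
  | succ h ih =>
    have e1 : Ex q (h + 1 + 1) (fun i => ((i : ℝ) - ((h + 1 : ℕ) + 1) * q) * g i)
        = Ex q (h + 1) (fun i => 1 * (((i : ℝ) - (h + 1) * q) * (q * g (i + 1) + (1 - q) * g i))
          + (q * (1 - q)) * (g (i + 1) - g i)) := by
      rw [Ex]
      congr 1
      funext i
      push_cast
      ring
    rw [e1, Ex_lin, ih]
    have e2 : Ex q h (fun i => q * g (i + 1 + 1) + (1 - q) * g (i + 1) - (q * g (i + 1) + (1 - q) * g i))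
        = Ex q (h + 1) (fun i => g (i + 1) - g i) := by
      rw [Ex]
      congr 1
      funext i
      ring
    rw [e2]
    push_cast
    ring

theorem Ex_var (h : ℕ) : Ex q h (fun i => ((i : ℝ) - h * q) ^ 2) = h * q * (1 - q) := by
  cases h with
  | zero => simp [Ex]
  | succ h =>
    have := Ex_stein (q := q) h (fun i => (i : ℝ) - (h + 1) * q)
    have e : (fun i : ℕ => ((i + 1 : ℕ) : ℝ) - (h + 1) * q - ((i : ℝ) - (h + 1) * q)) = fun _ => 1 := by
      funext i; push_cast; ring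
    rw [e, Ex_const] at this
    have e2 : (fun i : ℕ => ((i : ℝ) - ((h + 1 : ℕ) : ℝ) * q) ^ 2)
        = fun i : ℕ => ((i : ℝ) - (h + 1) * q) * ((i : ℝ) - (h + 1) * q) := by
      funext i; push_cast; ring
    rw [e2, this]
    push_cast
    ring

/-- gradient bound: if `1 ≤ e^2 (h+1) q (1-q)` then a unit shift changes the average of a
`[0,1]`-valued function by at most `e`. -/
theorem Ex_grad (h0 : 0 < q) (h1 : q < 1) (h : ℕ) {e : ℝ} (he0 : 0 < e)
    (he : 1 ≤ e ^ 2 * ((h + 1) * q * (1 - q))) {g : ℕ → ℝ} (hg0 : ∀ i, 0 ≤ g i)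
    (hg1 : ∀ i, g i ≤ 1) : |Ex q h (fun i => g (i + 1)) - Ex q h g| ≤ e := by
  set V : ℝ := (h + 1) * q * (1 - q) with hV
  have hVpos : 0 < V := by
    have : 0 < 1 - q := by linarith
    positivity
  have hs := Ex_stein (q := q) h g
  have hd : Ex q h (fun i => g (i + 1) - g i) = Ex q h (fun i => g (i + 1)) - Ex q h g := by
    have := Ex_lin (q := q) h 1 (-1) (fun i => g (i + 1)) g
    simp only [one_mul, neg_mul] at this
    simpa [sub_eq_add_neg] using this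
  rw [hd, ← hV] at hs
  have hv := Ex_var (q := q) (h + 1)
  push_cast at hv
  rw [← hV] at hv
  have key : ∀ s : ℝ, s = 1 ∨ s = -1 →
      s * Ex q (h + 1) (fun i => ((i : ℝ) - (h + 1) * q) * g i) ≤ e * V := by
    intro s hsgn
    have e1 : s * Ex q (h + 1) (fun i => ((i : ℝ) - (h + 1) * q) * g i)
        = Ex q (h + 1) (fun i => s * (((i : ℝ) - (h + 1) * q) * g i) + 0 * g i) := by
      rw [Ex_lin]; ring
    have e2 : Ex q (h + 1) (fun i => (e / 2) * ((i : ℝ) - (h + 1) * q) ^ 2 + (1 / (2 * e)) * 1)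
        = e / 2 * V + 1 / (2 * e) := by
      rw [Ex_lin, hv, Ex_const]; ring
    have e3 : 1 / (2 * e) ≤ e / 2 * V := by
      rw [div_le_iff₀ (by positivity)]
      nlinarith
    rw [e1]
    refine le_trans (Ex_mono h0.le h1.le _ (fun i => ?_)) (e2.le.trans (by linarith))
    set x : ℝ := (i : ℝ) - (h + 1) * q
    have hx : s * (x * g i) ≤ |x| := by
      have h2 : |s * (x * g i)| ≤ |x| := by
        rw [abs_mul, abs_mul, abs_of_nonneg (hg0 i)]
        have : |s| = 1 := by rcases hsgn with rfl | rfl <;> simp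
        rw [this, one_mul]
        exact mul_le_of_le_one_right (abs_nonneg _) (hg1 i)
      exact (le_abs_self _).trans h2
    have hy : |x| ≤ e / 2 * x ^ 2 + 1 / (2 * e) * 1 := by
      have h3 : e / 2 * x ^ 2 + 1 / (2 * e) * 1 - |x| = (e * |x| - 1) ^ 2 / (2 * e) := by
        rw [← sq_abs x]
        field_simp
        ring
      have h4 : 0 ≤ (e * |x| - 1) ^ 2 / (2 * e) := by positivity
      linarith
    linarith
  have k1 := key 1 (Or.inl rfl)
  have k2 := key (-1) (Or.inr rfl)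
  rw [hs] at k1 k2
  rw [abs_le]
  constructor <;> nlinarith

theorem Ex_shift (h0 : 0 < q) (h1 : q < 1) (h : ℕ) {e : ℝ} (he0 : 0 < e)
    (he : 1 ≤ e ^ 2 * ((h + 1) * q * (1 - q))) {g : ℕ → ℝ} (hg0 : ∀ i, 0 ≤ g i)
    (hg1 : ∀ i, g i ≤ 1) (M : ℕ) : Ex q h g ≤ Ex q h (fun i => g (i + M)) + M * e := by
  induction M with
  | zero => simp
  | succ M ih =>
    have := Ex_grad h0 h1 h he0 he (g := fun i => g (i + M)) (fun i => hg0 _) (fun i => hg1 _)
    have e1 : (fun i => g (i + 1 + M)) = fun i => g (i + (M + 1)) := by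
      funext i; congr 1; ring
    rw [e1, abs_le] at this
    push_cast
    linarith [this.1]

/-- Chebyshev -/
theorem Ex_cheb (h0 : 0 ≤ q) (h1 : q ≤ 1) (h D : ℕ) {t : ℝ} (ht : 0 < t) (hD : h * q + t ≤ D) :
    Ex q h (fun i => if D < i then 1 else 0) ≤ h / t ^ 2 := by
  have e1 : Ex q h (fun i => (1 / t ^ 2) * ((i : ℝ) - h * q) ^ 2 + 0 * 0) = h * q * (1 - q) / t ^ 2 := by
    rw [Ex_lin h (1 / t ^ 2) 0 (fun i => ((i : ℝ) - h * q) ^ 2) (fun _ => 0), Ex_var]; ring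
  refine le_trans (Ex_mono h0 h1 h (fun i => ?_)) (e1.le.trans ?_)
  · split_ifs with hi
    · have : (D : ℝ) ≤ i := by exact_mod_cast hi.le
      have h2 : t ≤ (i : ℝ) - h * q := by linarith
      have h3 : t ^ 2 ≤ ((i : ℝ) - h * q) ^ 2 := by gcongr
      rw [mul_zero, add_zero, one_div, inv_mul_eq_div, le_div_iff₀ (by positivity)]
      linarith
    · positivity
  · gcongr
    have : (0 : ℝ) ≤ h := by positivity
    have h2 : q * (1 - q) ≤ 1 := by nlinarith
    nlinarith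

/-- average over all subset sums of a list of shifts -/
noncomputable def Av : List ℕ → (ℕ → ℝ) → ℕ → ℝ
  | [], g, D => g D
  | M :: Ms, g, D => (Av Ms g D + Av Ms g (D + M)) / 2

theorem Av_realize : True := by have := @Av.eq_def; trivial

theorem Av_lin (L : List ℕ) (a b : ℝ) (f g : ℕ → ℝ) (D : ℕ) :
    Av L (fun i => a * f i + b * g i) D = a * Av L f D + b * Av L g D := by
  induction L generalizing D with
  | nil => simp [Av]
  | cons M Ms ih => simp only [Av, ih]; ring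

theorem Av_shift (L : List ℕ) (g : ℕ → ℝ) (d D : ℕ) :
    Av L (fun i => g (i + d)) D = Av L g (D + d) := by
  induction L generalizing D with
  | nil => simp [Av]
  | cons M Ms ih =>
    simp only [Av, ih]
    rw [show D + M + d = D + d + M by ring]

theorem Av_mono (L : List ℕ) {f g : ℕ → ℝ} (h : ∀ i, f i ≤ g i) (D : ℕ) : Av L f D ≤ Av L g D := by
  induction L generalizing D with
  | nil => simpa [Av] using h D
  | cons M Ms ih =>
    simp only [Av]
    linarith [ih D, ih (D + M)]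

theorem Av_const (L : List ℕ) (c : ℝ) (D : ℕ) : Av L (fun _ => c) D = c := by
  induction L generalizing D with
  | nil => simp [Av]
  | cons M Ms ih => simp [Av, ih]

theorem Av_mul (L : List ℕ) (f g : ℕ → ℝ) (hf : ∀ M ∈ L, ∀ i, f (i + M) = f i) (D : ℕ) :
    Av L (fun i => f i * g i) D = f D * Av L g D := by
  induction L generalizing D with
  | nil => simp [Av]
  | cons M Ms ih =>
    have ih' := ih (fun M' hM' => hf M' (List.mem_cons_of_mem _ hM'))
    simp only [Av, ih', hf M List.mem_cons_self]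
    ring

theorem Av_cons (M : ℕ) (L : List ℕ) (g : ℕ → ℝ) (D : ℕ) :
    Av (M :: L) g D = Av L (fun i => (g i + g (i + M)) / 2) D := by
  have : (fun i => (g i + g (i + M)) / 2) = fun i => (1 / 2) * g i + (1 / 2) * g (i + M) := by
    funext i; ring
  rw [this, Av_lin, Av_shift, Av]
  ring

theorem le_Av (L : List ℕ) (g : ℕ → ℝ) (x : ℝ) (D : ℕ) (h : ∀ M ≤ L.sum, x ≤ g (D + M)) :
    x ≤ Av L g D := by
  induction L generalizing D with
  | nil => simpa [Av] using h 0 (by simp)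
  | cons M Ms ih =>
    simp only [Av]
    have h1 := ih D (fun M' hM' => h M' (by simp; omega))
    have h2 := ih (D + M) (fun M' hM' => by
      rw [add_assoc]; exact h (M + M') (by simp; omega))
    linarith

theorem Ex_Av (h : ℕ) (L : List ℕ) (g : ℕ → ℝ) (D : ℕ) :
    Av L (fun M => Ex q h (fun i => g (i + M))) D = Ex q h (fun i => Av L g (i + D)) := by
  induction L generalizing D with
  | nil => simp [Av]
  | cons M Ms ih =>
    simp only [Av, ih]
    have : (fun i => (Av Ms g (i + D) + Av Ms g (i + D + M)) / 2)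
        = fun i => (1 / 2) * Av Ms g (i + D) + (1 / 2) * Av Ms g (i + (D + M)) := by
      funext i; rw [add_assoc]; ring
    rw [this, Ex_lin]
    ring

/-- a binomial average is almost invariant under the shift average -/
theorem Ex_le_of_Av (h0 : 0 < q) (h1 : q < 1) (h : ℕ) {e : ℝ} (he0 : 0 < e)
    (he : 1 ≤ e ^ 2 * ((h + 1) * q * (1 - q))) {g : ℕ → ℝ} (hg0 : ∀ i, 0 ≤ g i)
    (hg1 : ∀ i, g i ≤ 1) (L : List ℕ) {b : ℝ} (hb : ∀ D, Av L g D ≤ b) :
    Ex q h g ≤ b + L.sum * e := by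
  have h2 : Ex q h g - L.sum * e ≤ Av L (fun M => Ex q h (fun i => g (i + M))) 0 := by
    apply le_Av
    intro M hM
    have := Ex_shift h0 h1 h he0 he hg0 hg1 M
    have h3 : (M : ℝ) ≤ L.sum := by exact_mod_cast hM
    have h4 := mul_le_mul_of_nonneg_right h3 he0.le
    simp only [zero_add]
    linarith
  rw [Ex_Av] at h2
  have h5 : Ex q h (fun i => Av L g (i + 0)) ≤ Ex q h (fun _ => b) :=
    Ex_mono h0.le h1.le h (fun i => hb _)
  rw [Ex_const] at h5
  linarith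

end Pool.Agent.P.MP_d124bf_nt
end

-- part Pool.Agent.P.MP_d124bf_nt.Sys
section

/-!
The abstract system: a majorant `N` of the Fourier coefficient along a Bernoulli lattice path and
an array `ψ` of reals modulo one with `ψ u l = 2 ψ u (l+1) = 3 ψ (u+1) l`.
-/

namespace Pool.Agent.P.MP_d124bf_nt

/-- congruence modulo one -/
def Eqv (x y : ℝ) : Prop := ∃ n : ℤ, x = y + n

/-- distance to the integers at least `e` -/
def Far (e x : ℝ) : Prop := ∀ n : ℤ, e ≤ |x - n|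

theorem Eqv.refl (x : ℝ) : Eqv x x := ⟨0, by simp⟩

theorem Eqv.symm {x y : ℝ} (h : Eqv x y) : Eqv y x := by
  obtain ⟨n, rfl⟩ := h
  exact ⟨-n, by push_cast; ring⟩

theorem Eqv.trans {x y z : ℝ} (h : Eqv x y) (h' : Eqv y z) : Eqv x z := by
  obtain ⟨n, rfl⟩ := h
  obtain ⟨m, rfl⟩ := h'
  exact ⟨m + n, by push_cast; ring⟩

theorem Eqv.mul_int {x y : ℝ} (h : Eqv x y) (k : ℤ) : Eqv (k * x) (k * y) := by
  obtain ⟨n, rfl⟩ := h
  exact ⟨k * n, by push_cast; ring⟩

theorem Eqv.mul_pow {x y : ℝ} (h : Eqv x y) (b k : ℕ) : Eqv ((b : ℝ) ^ k * x) ((b : ℝ) ^ k * y) := by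
  have := h.mul_int ((b : ℤ) ^ k)
  push_cast at this
  exact this

theorem Eqv.of_eq {x y z : ℝ} (h : Eqv x y) (e : y = z) : Eqv x z := e ▸ h

theorem Far.of_eqv {e x y : ℝ} (h : Far e y) (hxy : Eqv x y) : Far e x := by
  obtain ⟨n, rfl⟩ := hxy
  intro m
  have := h (m - n)
  push_cast at this
  rwa [show y + n - m = y - (m - n) by ring]

theorem Far.add_small {e x d t : ℝ} (h : Far e x) (hd : |d| ≤ t) : Far (e - t) (x + d) := by
  intro n
  have h1 := h n
  have h2 : |x - n| ≤ |x + d - n| + |d| := by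
    have := abs_sub (x + d - n) d
    rwa [show x + d - n - d = x - n by ring] at this
  linarith

theorem Far.mono {e e' x : ℝ} (h : Far e x) (he : e' ≤ e) : Far e' x := fun n => he.trans (h n)

theorem far_half : Far (1 / 2) (1 / 2) := by
  intro n
  rcases le_or_gt n 0 with h | h
  · have : (n : ℝ) ≤ 0 := by exact_mod_cast h
    rw [abs_of_nonneg (by linarith)]; linarith
  · have : (1 : ℝ) ≤ n := by exact_mod_cast h
    rw [abs_of_nonpos (by linarith)]; linarith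

theorem far_of_abs {e v : ℝ} (h1 : e ≤ |v|) (h2 : |v| ≤ 1 / 2) : Far e v := by
  intro n
  rcases eq_or_ne n 0 with rfl | h
  · simpa using h1
  · have h3 : (1 : ℝ) ≤ |(n : ℝ)| := by
      rw [← Int.cast_abs]; exact_mod_cast Int.one_le_abs h
    have h4 : |(n : ℝ)| ≤ |v| + |v - n| := by
      have := abs_sub v (v - n)
      rwa [show v - (v - n) = n by ring] at this
    linarith

structure Sys (q c : ℝ) (N ψ : ℕ → ℕ → ℝ) : Prop where
  nn : ∀ u l, 0 ≤ N u l
  le1 : ∀ u l, N u l ≤ 1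
  unit : ∀ u l, N (u + 1) l ≤ q * N u (l + 1) + (1 - q) * N (u + 1) (l + 1)
  gain : ∀ u l, 4 ≤ u → Far (1 / 8) (ψ u l) →
    N u l ≤ Ex q 4 (fun d => N (u - d) (l + 4)) - c * N (u - 1) (l + 4)
  two : ∀ u l, Eqv (ψ u l) (2 * ψ u (l + 1))
  three : ∀ u l, Eqv (ψ u l) (3 * ψ (u + 1) l)
  low : ∀ u l, 1 ≤ u → Far (1 / 3 ^ u) (ψ u l)
  zero : ∀ l, Eqv (ψ 0 l) 0

variable {q c : ℝ} {N ψ : ℕ → ℕ → ℝ}

theorem Sys.two_pow (S : Sys q c N ψ) (u l y : ℕ) : Eqv (ψ u l) (2 ^ y * ψ u (l + y)) := by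
  induction y with
  | zero => simpa using Eqv.refl _
  | succ y ih =>
    have := (S.two u (l + y)).mul_pow 2 y
    push_cast at this
    exact (ih.trans this).of_eq (by rw [add_assoc]; ring)

theorem Sys.three_pow (S : Sys q c N ψ) (u l y : ℕ) : Eqv (ψ u l) (3 ^ y * ψ (u + y) l) := by
  induction y with
  | zero => simpa using Eqv.refl _
  | succ y ih =>
    have := (S.three (u + y) l).mul_pow 3 y
    push_cast at this
    exact (ih.trans this).of_eq (by rw [add_assoc]; ring)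

theorem Sys.three_sub (S : Sys q c N ψ) {u D : ℕ} (h : D ≤ u) (l : ℕ) :
    Eqv (ψ (u - D) l) (3 ^ D * ψ u l) := by
  have := S.three_pow (u - D) l D
  rwa [Nat.sub_add_cancel h] at this

/-- comparison with a stopped walk -/
theorem Sys.cmp (S : Sys q c N ψ) (h0 : 0 ≤ q) (h1 : q ≤ 1) {Q : ℝ} {g : ℕ → ℝ} {u D1 L : ℕ}
    (hu : D1 + 1 ≤ u) (hQ : ∀ l', N (u - (D1 + 1)) l' ≤ Q) (hg : ∀ D ≤ D1, N (u - D) L ≤ g D)
    (hg' : ∀ D, D1 < D → Q ≤ g D) :
    ∀ h D0 l, D0 ≤ D1 + 1 → l + h = L → N (u - D0) l ≤ Ex q h (fun D => g (D0 + D)) := by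
  have stop : ∀ h l, N (u - (D1 + 1)) l ≤ Ex q h (fun D => g (D1 + 1 + D)) := by
    intro h l
    have := Ex_mono h0 h1 h (f := fun _ => Q) (g := fun D => g (D1 + 1 + D))
      (fun i => hg' _ (by omega))
    rw [Ex_const] at this
    exact (hQ l).trans this
  intro h
  induction h with
  | zero =>
    intro D0 l hD hl
    rcases eq_or_lt_of_le hD with rfl | hlt
    · exact stop 0 l
    · have : l = L := by omega
      subst this
      simpa [Ex] using hg D0 (by omega)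
  | succ h ih =>
    intro D0 l hD hl
    rcases eq_or_lt_of_le hD with rfl | hlt
    · exact stop _ l
    · have e : u - D0 = u - (D0 + 1) + 1 := by omega
      have h2 := S.unit (u - (D0 + 1)) l
      rw [← e] at h2
      have i1 := ih (D0 + 1) (l + 1) (by omega) (by omega)
      have i2 := ih D0 (l + 1) (by omega) (by omega)
      rw [Ex_succ]
      have e2 : (fun i => g (D0 + (i + 1))) = fun i => g (D0 + 1 + i) := by
        funext i; congr 1; ring
      rw [e2]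
      have := mul_le_mul_of_nonneg_left i1 h0
      have := mul_le_mul_of_nonneg_left i2 (sub_nonneg.2 h1)
      linarith

/-- the free walk -/
theorem Sys.walk (S : Sys q c N ψ) (h0 : 0 ≤ q) (h1 : q ≤ 1) :
    ∀ h u l, h ≤ u → N u l ≤ Ex q h (fun D => N (u - D) (l + h)) := by
  intro h
  induction h with
  | zero => intro u l _; simp [Ex]
  | succ h ih =>
    intro u l hu
    obtain ⟨u, rfl⟩ : ∃ u', u = u' + 1 := ⟨u - 1, by omega⟩
    have h2 := S.unit u l
    have i1 := ih u (l + 1) (by omega)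
    have i2 := ih (u + 1) (l + 1) (by omega)
    rw [Ex_succ]
    have e2 : (fun i => N (u + 1 - (i + 1)) (l + (h + 1))) = fun i => N (u - i) (l + 1 + h) := by
      funext i; congr 1 <;> omega
    have e3 : l + (h + 1) = l + 1 + h := by ring
    rw [e2, e3]
    have := mul_le_mul_of_nonneg_left i1 h0
    have := mul_le_mul_of_nonneg_left i2 (sub_nonneg.2 h1)
    linarith

/-- one block of four steps against a majorant; `w` is the indicator of a white test -/
theorem Sys.block (S : Sys q c N ψ) (h0 : 0 ≤ q) (h1 : q ≤ 1) (hc : c ≤ 4 * q * (1 - q) ^ 3)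
    {u l : ℕ} (hu : 4 ≤ u) {w : ℝ} (hw : w = 0 ∨ (w = 1 ∧ Far (1 / 8) (ψ u l))) {g : ℕ → ℝ}
    (hg : ∀ d ≤ 4, N (u - d) (l + 4) ≤ g d) :
    N u l ≤ (1 - q) ^ 4 * g 0 + (4 * q * (1 - q) ^ 3 - c * w) * g 1 + 6 * q ^ 2 * (1 - q) ^ 2 * g 2
      + 4 * q ^ 3 * (1 - q) * g 3 + q ^ 4 * g 4 := by
  have hq : 0 ≤ 1 - q := sub_nonneg.2 h1
  have key : N u l ≤ Ex q 4 (fun d => N (u - d) (l + 4)) - c * w * N (u - 1) (l + 4) := by
    rcases hw with rfl | ⟨rfl, hw⟩
    · simpa using S.walk h0 h1 4 u l hu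
    · simpa using S.gain u l hu hw
  have hcw : 0 ≤ 4 * q * (1 - q) ^ 3 - c * w := by
    have : 0 ≤ 4 * q * (1 - q) ^ 3 := by positivity
    rcases hw with rfl | ⟨rfl, _⟩ <;> linarith
  rw [Ex_four] at key
  have a0 := mul_le_mul_of_nonneg_left (hg 0 (by omega)) (show 0 ≤ (1 - q) ^ 4 by positivity)
  have a1 := mul_le_mul_of_nonneg_left (hg 1 (by omega)) hcw
  have a2 := mul_le_mul_of_nonneg_left (hg 2 (by omega))
    (show 0 ≤ 6 * q ^ 2 * (1 - q) ^ 2 by positivity)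
  have a3 := mul_le_mul_of_nonneg_left (hg 3 (by omega))
    (show 0 ≤ 4 * q ^ 3 * (1 - q) by positivity)
  have a4 := mul_le_mul_of_nonneg_left (hg 4 (by omega)) (show 0 ≤ q ^ 4 by positivity)
  linarith

theorem Sys.white (S : Sys q c N ψ) (h0 : 0 ≤ q) (h1 : q ≤ 1) (hc : c ≤ 4 * q * (1 - q) ^ 3)
    {u l thr : ℕ} {B : ℝ} (hu : thr + 4 ≤ u) (hB : ∀ u' l', thr ≤ u' → N u' l' ≤ B)
    (hw : Far (1 / 8) (ψ u l)) : N u l ≤ (1 - c) * B := by
  have := S.block h0 h1 hc (u := u) (l := l) (by omega) (w := 1) (Or.inr ⟨rfl, hw⟩)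
    (g := fun _ => B) (fun d hd => hB _ _ (by omega))
  refine this.trans (le_of_eq ?_)
  ring

theorem Av_add (L : List ℕ) (f g : ℕ → ℝ) (D : ℕ) :
    Av L (fun i => f i + g i) D = Av L f D + Av L g D := by
  simpa using Av_lin L 1 1 f g D

theorem Av_smul (L : List ℕ) (a : ℝ) (f : ℕ → ℝ) (D : ℕ) :
    Av L (fun i => a * f i) D = a * Av L f D := by
  simpa using Av_lin L a 0 f f D

end Pool.Agent.P.MP_d124bf_nt
end

-- part Pool.Agent.P.MP_d124bf_nt.Arith
section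

/-!
Arithmetic of the digits of `-3^{-i}`.
-/

namespace Pool.Agent.P.MP_d124bf_nt

def rr (i s : ℕ) : ℕ := (-((3 : ZMod (2 ^ s)) ^ i)⁻¹).val

theorem rr_lt (i s : ℕ) : rr i s < 2 ^ s := by
  have : NeZero (2 ^ s) := ⟨by positivity⟩
  exact ZMod.val_lt _

theorem cop (i s : ℕ) : Nat.Coprime (3 ^ i) (2 ^ s) := Nat.Coprime.pow i s (by norm_num)

theorem rr_dvd (i s : ℕ) : 2 ^ s ∣ 3 ^ i * rr i s + 1 := by
  have : NeZero (2 ^ s) := ⟨by positivity⟩
  rw [← ZMod.natCast_eq_zero_iff]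
  have := ZMod.coe_mul_inv_eq_one (3 ^ i) (cop i s)
  push_cast at this ⊢
  rw [rr, ZMod.natCast_zmod_val, mul_neg, this]
  ring

theorem rr_uniq {i s r : ℕ} (h1 : r < 2 ^ s) (h2 : 2 ^ s ∣ 3 ^ i * r + 1) : r = rr i s := by
  have h3 : 3 ^ i * r + 1 ≡ 3 ^ i * rr i s + 1 [MOD 2 ^ s] :=
    ((Nat.modEq_zero_iff_dvd).2 h2).trans ((Nat.modEq_zero_iff_dvd).2 (rr_dvd i s)).symm
  have h4 := Nat.ModEq.cancel_left_of_coprime (cop i s).symm (Nat.ModEq.add_right_cancel' 1 h3)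
  exact Nat.ModEq.eq_of_lt_of_lt h4 h1 (rr_lt i s)

theorem rr_succ (i s : ℕ) : rr i (s + 1) = rr i s + 2 ^ s * digit s i := by
  have h1 : rr i (s + 1) % 2 ^ s = rr i s := by
    apply rr_uniq (Nat.mod_lt _ (by positivity))
    have h2 : 2 ^ s ∣ 3 ^ i * rr i (s + 1) + 1 := (pow_dvd_pow 2 (by omega)).trans (rr_dvd i (s + 1))
    have h3 : 3 ^ i * rr i (s + 1) + 1
        = 3 ^ i * (rr i (s + 1) % 2 ^ s) + 1 + 2 ^ s * (3 ^ i * (rr i (s + 1) / 2 ^ s)) := by
      conv_lhs => rw [← Nat.mod_add_div (rr i (s + 1)) (2 ^ s)]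
      ring
    rw [h3] at h2
    exact (Nat.dvd_add_left (Dvd.intro _ rfl)).1 h2
  rw [← h1]
  exact (Nat.mod_add_div _ _).symm

theorem digit_le (s i : ℕ) : digit s i ≤ 1 := by
  have h1 := rr_lt i (s + 1)
  rw [rr_succ, pow_succ] at h1
  by_contra h
  have : 2 ^ s * 2 ≤ 2 ^ s * digit s i := Nat.mul_le_mul_left _ (by omega)
  omega

def mm (i s : ℕ) : ℕ := (3 ^ i * rr i s + 1) / 2 ^ s

theorem mm_spec (i s : ℕ) : 2 ^ s * mm i s = 3 ^ i * rr i s + 1 := Nat.mul_div_cancel' (rr_dvd i s)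

theorem mm_succ (i s : ℕ) : mm i s + 3 ^ i * digit s i = 2 * mm i (s + 1) := by
  apply Nat.eq_of_mul_eq_mul_left (show 0 < 2 ^ s by positivity)
  have h1 := mm_spec i (s + 1)
  rw [rr_succ, pow_succ] at h1
  rw [mul_add, mm_spec, ← mul_assoc (2 ^ s) 2, h1]
  ring

theorem mm_pos (i s : ℕ) : 0 < mm i s := by
  have := mm_spec i s
  rcases Nat.eq_zero_or_pos (mm i s) with h | h
  · rw [h] at this; omega
  · exact h

theorem mm_lt {i : ℕ} (hi : 1 ≤ i) (s : ℕ) : mm i s < 3 ^ i := by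
  apply Nat.lt_of_mul_lt_mul_left (a := 2 ^ s)
  rw [mm_spec]
  have h1 : rr i s + 1 ≤ 2 ^ s := rr_lt i s
  have h2 : 1 < 3 ^ i := Nat.one_lt_pow (by omega) (by norm_num)
  have := Nat.mul_le_mul_left (3 ^ i) h1
  rw [mul_add, mul_one] at this
  rw [mul_comm (2 ^ s)]
  omega

theorem mm_not_dvd {i : ℕ} (hi : 1 ≤ i) (s : ℕ) : ¬ (3 : ℤ) ∣ (mm i s : ℤ) := by
  intro h
  have h1 : 3 ∣ mm i s := by exact_mod_cast h
  have h2 : 3 ∣ 3 ^ i * rr i s + 1 := mm_spec i s ▸ h1.mul_left _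
  have h3 : 3 ∣ 3 ^ i * rr i s := (dvd_pow_self 3 (by omega)).mul_right _
  have := (Nat.dvd_add_right h3).1 h2
  omega

theorem mm_level (i s : ℕ) : ∃ t : ℤ, (mm (i + 1) s : ℤ) = mm i s + 3 ^ i * t := by
  have h1 : (2 : ℤ) ^ s * mm (i + 1) s = 3 ^ (i + 1) * rr (i + 1) s + 1 := by
    exact_mod_cast mm_spec (i + 1) s
  have h2 : (2 : ℤ) ^ s * mm i s = 3 ^ i * rr i s + 1 := by exact_mod_cast mm_spec i s
  have h3 : (3 : ℤ) ^ i ∣ 2 ^ s * ((mm (i + 1) s : ℤ) - mm i s) :=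
    ⟨3 * rr (i + 1) s - rr i s, by rw [mul_sub, h1, h2]; ring⟩
  have h4 : IsCoprime ((3 : ℤ) ^ i) (2 ^ s) := by
    have := Nat.isCoprime_iff_coprime.2 (cop i s)
    push_cast at this
    exact this
  obtain ⟨t, ht⟩ := h4.dvd_of_dvd_mul_left h3
  exact ⟨t, by linarith⟩

def DD (p i s : ℕ) : ℤ := ∑ t ∈ Finset.range p, (2 : ℤ) ^ t * (digit (t + s) i : ℤ)

theorem mm_succ' (i s : ℕ) : (mm i s : ℤ) + 3 ^ i * digit s i = 2 * mm i (s + 1) := by
  exact_mod_cast mm_succ i s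

theorem DD_spec (p i s : ℕ) : 3 ^ i * DD p i s = 2 ^ p * (mm i (s + p) : ℤ) - mm i s := by
  induction p with
  | zero => simp [DD]
  | succ p ih =>
    have h := mm_succ' i (s + p)
    rw [DD, Finset.sum_range_succ, ← DD, mul_add, ih, add_comm p s, ← add_assoc, pow_succ]
    linear_combination (2 : ℤ) ^ p * h

theorem DD_succ (p i s : ℕ) :
    DD p i s + 2 ^ p * digit (s + p) i = digit s i + 2 * DD p i (s + 1) := by
  apply mul_left_cancel₀ (show (3 : ℤ) ^ i ≠ 0 by positivity)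
  have h1 := DD_spec p i s
  have h2 := DD_spec p i (s + 1)
  have h3 := mm_succ' i s
  have h4 := mm_succ' i (s + p)
  rw [show s + 1 + p = s + p + 1 by ring] at h2
  linear_combination h1 - 2 * h2 - h3 + (2 : ℤ) ^ p * h4

/-- the array attached to a unit `z`, a number `a` of dead columns and an offset `P` -/
noncomputable def psi (z : ℤ) (a P u l : ℕ) : ℝ := z * mm (a + u) (l + P) / 3 ^ u

theorem psi_two (z : ℤ) (a P u l : ℕ) : Eqv (psi z a P u l) (2 * psi z a P u (l + 1)) := by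
  refine ⟨-(z * 3 ^ a * digit (l + P) (a + u)), ?_⟩
  have h : (mm (a + u) (l + P) : ℝ) + 3 ^ (a + u) * digit (l + P) (a + u)
      = 2 * mm (a + u) (l + P + 1) := by exact_mod_cast mm_succ (a + u) (l + P)
  rw [psi, psi, show l + 1 + P = l + P + 1 by ring]
  push_cast
  field_simp
  rw [pow_add] at h
  linear_combination (z : ℝ) * h

theorem psi_three (z : ℤ) (a P u l : ℕ) : Eqv (psi z a P u l) (3 * psi z a P (u + 1) l) := by
  obtain ⟨t, ht⟩ := mm_level (a + u) (l + P)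
  refine ⟨-(z * 3 ^ a * t), ?_⟩
  have h : (mm (a + u + 1) (l + P) : ℝ) = mm (a + u) (l + P) + 3 ^ (a + u) * t := by
    exact_mod_cast ht
  rw [psi, psi, ← add_assoc, h]
  push_cast
  field_simp
  ring

theorem psi_low {z : ℤ} (hz : ¬ (3 : ℤ) ∣ z) (a P u l : ℕ) (hu : 1 ≤ u) :
    Far (1 / 3 ^ u) (psi z a P u l) := by
  intro n
  have h1 : z * mm (a + u) (l + P) - 3 ^ u * n ≠ 0 := by
    intro h
    have h2 : (3 : ℤ) ∣ z * mm (a + u) (l + P) := by
      rw [sub_eq_zero.1 h]; exact (dvd_pow_self 3 (by omega)).mul_right _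
    rcases (Int.prime_three.dvd_or_dvd h2) with h3 | h3
    · exact hz h3
    · exact mm_not_dvd (by omega) _ h3
  have h2 : (1 : ℝ) ≤ |((z * mm (a + u) (l + P) - 3 ^ u * n : ℤ) : ℝ)| := by
    rw [← Int.cast_abs]; exact_mod_cast Int.one_le_abs h1
  have e : psi z a P u l - n = ((z * mm (a + u) (l + P) - 3 ^ u * n : ℤ) : ℝ) / 3 ^ u := by
    rw [psi]; push_cast; field_simp
  rw [e, abs_div, abs_of_pos (show (0 : ℝ) < 3 ^ u by positivity)]
  gcongr

theorem psi_zero (z : ℤ) (a P l : ℕ) : Eqv (psi z a P 0 l) 0 :=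
  ⟨z * mm a (l + P), by simp [psi]⟩

theorem theta_step {j : ℕ} (s : ℕ) :
    (mm j (s + 1) : ℝ) / 3 ^ j - digit s j = ((mm j s : ℝ) / 3 ^ j - digit s j) / 2 := by
  have h : (mm j s : ℝ) + 3 ^ j * digit s j = 2 * mm j (s + 1) := by exact_mod_cast mm_succ j s
  field_simp
  linarith

theorem theta_abs {j : ℕ} (hj : 1 ≤ j) (s s' : ℕ) : |(mm j s : ℝ) / 3 ^ j - digit s' j| < 1 := by
  have h1 : (0 : ℝ) < (mm j s : ℝ) / 3 ^ j := by
    have := mm_pos j s
    positivity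
  have h2 : (mm j s : ℝ) / 3 ^ j < 1 := by
    rw [div_lt_one (by positivity)]
    exact_mod_cast mm_lt hj s
  have h3 : (digit s' j : ℝ) ≤ 1 := by exact_mod_cast digit_le s' j
  have h4 : (0 : ℝ) ≤ digit s' j := by positivity
  rw [abs_lt]
  constructor <;> linarith

/-- the phase difference between the levels `s` and `s + 1` in column `j` -/
noncomputable def dl (η : ℤ) (p j s : ℕ) : ℝ := η / 2 ^ p * DD p j s - η / 2 ^ p * DD p j (s + 1)

theorem caseA {η : ℤ} {p j l : ℕ} (hj : 1 ≤ j) (hη : Far (1 / 10) ((η : ℝ) / 2 ^ p))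
    (hw : Far (1 / 8) (psi 1 0 4 j l)) :
    Far (1 / 30) (dl η p j (l + 1)) ∨ Far (1 / 30) (dl η p j (l + 2)) ∨
      Far (1 / 30) (dl η p j (l + 3)) := by
  by_contra hcon
  simp only [not_or] at hcon
  obtain ⟨c1, c2, c3⟩ := hcon
  have step : ∀ s, ¬ Far (1 / 30) (dl η p j s) → ¬ Far (1 / 30) (dl η p j (s + 1)) →
      digit s j = digit (s + 1) j := by
    intro s d1 d2
    simp only [Far, not_forall, not_le] at d1 d2
    obtain ⟨n1, hn1⟩ := d1
    obtain ⟨n2, hn2⟩ := d2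
    have e1 : (DD p j s : ℝ) + 2 ^ p * digit (s + p) j = digit s j + 2 * DD p j (s + 1) := by
      exact_mod_cast DD_succ p j s
    have e2 : (DD p j (s + 1) : ℝ) + 2 ^ p * digit (s + 1 + p) j
        = digit (s + 1) j + 2 * DD p j (s + 1 + 1) := by
      exact_mod_cast DD_succ p j (s + 1)
    have e3 : dl η p j s - 2 * dl η p j (s + 1) = η / 2 ^ p * ((digit s j : ℝ) - digit (s + 1) j)
        + η * ((digit (s + 1 + p) j : ℝ) - digit (s + p) j) := by
      rw [dl, dl]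
      field_simp
      linear_combination (η : ℝ) * e1 - (η : ℝ) * e2
    rw [abs_lt] at hn1 hn2
    by_contra hne
    have a1 := digit_le s j
    have a2 := digit_le (s + 1) j
    rcases (show (digit s j = 1 ∧ digit (s + 1) j = 0) ∨ (digit s j = 0 ∧ digit (s + 1) j = 1) by
      omega) with ⟨b1, b2⟩ | ⟨b1, b2⟩
    · have := hη (n1 - 2 * n2 - η * ((digit (s + 1 + p) j : ℤ) - digit (s + p) j))
      rw [b1, b2] at e3
      push_cast at this e3
      rw [le_abs] at this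
      rcases this with h | h <;> linarith [hn1.1, hn1.2, hn2.1, hn2.2]
    · have := hη (-(n1 - 2 * n2 - η * ((digit (s + 1 + p) j : ℤ) - digit (s + p) j)))
      rw [b1, b2] at e3
      push_cast at this e3
      rw [le_abs] at this
      rcases this with h | h <;> linarith [hn1.1, hn1.2, hn2.1, hn2.2]
  have s1 := step (l + 1) c1 c2
  have s2 := step (l + 2) c2 c3
  have t1 := theta_step (j := j) (l + 1)
  have t2 := theta_step (j := j) (l + 2)
  have t3 := theta_step (j := j) (l + 3)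
  have t0 := theta_abs hj (l + 1) (l + 1)
  have e1 : l + 1 + 1 = l + 2 := rfl
  have e2 : l + 2 + 1 = l + 3 := rfl
  have e3 : l + 3 + 1 = l + 4 := rfl
  rw [e1] at s1 t1
  rw [e2] at s2 t2
  rw [e3] at t3
  rw [← s2, ← s1] at t3
  rw [← s1] at t2
  have := hw (digit (l + 1) j)
  simp only [psi, zero_add, Int.cast_one, one_mul, Int.cast_natCast] at this
  rw [t3, t2, t1, abs_div, abs_div, abs_div, abs_two] at this
  linarith

theorem caseB {z : ℤ} {a p u l : ℕ} (hu : 1 ≤ u) (hη : |((3 ^ a * z : ℤ) : ℝ) / 2 ^ p| ≤ 1 / 10)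
    (hw : Far (1 / 8) (psi z a (4 + p) u l)) : Far (1 / 30) (dl (3 ^ a * z) p (a + u) (l + 3)) := by
  set j := a + u with hj
  have t3 := theta_step (j := j) (l + 3)
  have t0 := theta_abs (j := j) (by omega) (l + 3) (l + 3)
  set lam : ℝ := ((3 ^ a * z : ℤ) : ℝ) / 2 ^ p with hlam
  have hs : |-(lam * ((mm j (l + 3 + 1) : ℝ) / 3 ^ j - digit (l + 3) j))| ≤ 1 / 20 := by
    rw [abs_neg, abs_mul, t3, abs_div _ (2 : ℝ), abs_two]
    have := mul_le_mul hη (show |(mm j (l + 3) : ℝ) / 3 ^ j - digit (l + 3) j| / 2 ≤ 1 / 2 by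
      linarith) (by positivity) (by norm_num)
    linarith
  refine ((hw.add_small hs).mono (by norm_num)).of_eqv ⟨-(3 ^ a * z * digit (l + 3 + p) j), ?_⟩
  have e1 : (3 : ℝ) ^ j * DD p j (l + 3) = 2 ^ p * (mm j (l + 3 + p) : ℝ) - mm j (l + 3) := by
    exact_mod_cast DD_spec p j (l + 3)
  have e2 : (3 : ℝ) ^ j * DD p j (l + 3 + 1)
      = 2 ^ p * (mm j (l + 3 + 1 + p) : ℝ) - mm j (l + 3 + 1) := by
    exact_mod_cast DD_spec p j (l + 3 + 1)
  have e3 : (mm j (l + 3) : ℝ) + 3 ^ j * digit (l + 3) j = 2 * mm j (l + 3 + 1) := by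
    exact_mod_cast mm_succ j (l + 3)
  have e4 : (mm j (l + 3 + p) : ℝ) + 3 ^ j * digit (l + 3 + p) j = 2 * mm j (l + 3 + p + 1) := by
    exact_mod_cast mm_succ j (l + 3 + p)
  rw [show l + 3 + 1 + p = l + 3 + p + 1 by ring] at e2
  have f1 : (DD p j (l + 3) : ℝ) = (2 ^ p * (mm j (l + 3 + p) : ℝ) - mm j (l + 3)) / 3 ^ j := by
    rw [← e1]; field_simp
  have f2 : (DD p j (l + 3 + 1) : ℝ)
      = (2 ^ p * (mm j (l + 3 + p + 1) : ℝ) - mm j (l + 3 + 1)) / 3 ^ j := by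
    rw [← e2]; field_simp
  have f3 : (mm j (l + 3) : ℝ) = 2 * mm j (l + 3 + 1) - 3 ^ j * digit (l + 3) j := by linarith
  have f4 : (mm j (l + 3 + p) : ℝ) = 2 * mm j (l + 3 + p + 1) - 3 ^ j * digit (l + 3 + p) j := by
    linarith
  rw [dl, psi, ← hj, show l + (4 + p) = l + 3 + p + 1 by ring, f1, f2, f3, f4, hlam]
  have h3 : (3 : ℝ) ^ j = 3 ^ a * 3 ^ u := by rw [hj, pow_add]
  rw [h3]
  push_cast
  field_simp
  ring

end Pool.Agent.P.MP_d124bf_nt
end

-- part Pool.Agent.P.MP_d124bf_nt.Bridge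
section

/-!
The Fourier coefficient as the value at `(k, 0)` of a solution of a two-term recursion, and the
reduction to the abstract system.
-/

namespace Pool.Agent.P.MP_d124bf_nt

open Complex

noncomputable def FF (q : ℝ) (E : ℕ → ℕ → ℂ) : ℕ → ℕ → ℂ
  | 0, _ => 1
  | j + 1, l => ∑' n : ℕ, ((q * (1 - q) ^ n : ℝ) : ℂ) * (E (j + 1) (l + n + 1) * FF q E j (l + n + 1))

theorem FF_realize : True := by have := @FF.eq_def; trivial

variable {q : ℝ} {E : ℕ → ℕ → ℂ}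

theorem geo_hasSum (h0 : 0 < q) (h1 : q < 1) : HasSum (fun n : ℕ => q * (1 - q) ^ n) 1 := by
  have := (hasSum_geometric_of_lt_one (show 0 ≤ 1 - q by linarith) (by linarith)).mul_left q
  rwa [sub_sub_cancel, mul_inv_cancel₀ h0.ne'] at this

theorem term_norm (h0 : 0 < q) (h1 : q < 1) {x : ℂ} (hx : ‖x‖ ≤ 1) (n : ℕ) :
    ‖((q * (1 - q) ^ n : ℝ) : ℂ) * x‖ ≤ q * (1 - q) ^ n := by
  have : 0 ≤ q * (1 - q) ^ n := mul_nonneg h0.le (pow_nonneg (by linarith) _)
  rw [norm_mul, Complex.norm_real, Real.norm_of_nonneg this]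
  exact mul_le_of_le_one_right this hx

theorem FF_norm (h0 : 0 < q) (h1 : q < 1) (hE : ∀ j s, ‖E j s‖ = 1) (j l : ℕ) : ‖FF q E j l‖ ≤ 1 := by
  induction j generalizing l with
  | zero => simp [FF]
  | succ j ih =>
    rw [FF]
    exact tsum_of_norm_bounded (geo_hasSum h0 h1)
      (fun n => term_norm h0 h1 (by rw [norm_mul, hE, one_mul]; exact ih _) n)

theorem FF_rec (h0 : 0 < q) (h1 : q < 1) (hE : ∀ j s, ‖E j s‖ = 1) (j l : ℕ) :
    FF q E (j + 1) l = q * (E (j + 1) (l + 1) * FF q E j (l + 1)) + (1 - q) * FF q E (j + 1) (l + 1) := by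
  have hs : Summable (fun n : ℕ => ((q * (1 - q) ^ n : ℝ) : ℂ) *
      (E (j + 1) (l + n + 1) * FF q E j (l + n + 1))) :=
    Summable.of_norm_bounded (geo_hasSum h0 h1).summable
      (fun n => term_norm h0 h1 (by rw [norm_mul, hE, one_mul]; exact FF_norm h0 h1 hE _ _) n)
  rw [FF, hs.tsum_eq_zero_add, FF, ← tsum_mul_left]
  congr 1
  · simp
  · apply tsum_congr
    intro n
    rw [show l + (n + 1) + 1 = l + 1 + n + 1 by ring]
    push_cast
    ring

theorem tail_last {j : ℕ} (x : Fin (j + 1) → ℕ) : tail x (Fin.last j) = x (Fin.last j) := by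
  rw [tail, Finset.sum_filter, Fin.sum_univ_castSucc]
  simp [Fin.castSucc_lt_last, not_le.2]

theorem tail_castSucc {j : ℕ} (x : Fin (j + 1) → ℕ) (i : Fin j) :
    tail x i.castSucc = tail (fun i => x i.castSucc) i + x (Fin.last j) := by
  rw [tail, tail, Finset.sum_filter, Finset.sum_filter, Fin.sum_univ_castSucc]
  simp [Fin.le_last]

theorem FF_hasSum (h0 : 0 < q) (h1 : q < 1) (hE : ∀ j s, ‖E j s‖ = 1) (j : ℕ) :
    Summable (fun y : Fin j → ℕ => ∏ i, q * (1 - q) ^ (y i)) ∧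
    ∀ l, ∑' y : Fin j → ℕ, ((∏ i, q * (1 - q) ^ (y i) : ℝ) : ℂ) *
      ∏ i : Fin j, E (i + 1) (l + tail (fun i => y i + 1) i) = FF q E j l := by
  have hw : ∀ n : ℕ, 0 ≤ q * (1 - q) ^ n := fun n => mul_nonneg h0.le (pow_nonneg (by linarith) _)
  induction j with
  | zero => exact ⟨Summable.of_finite, fun l => by simp [FF]⟩
  | succ j ih =>
    obtain ⟨ih1, ih2⟩ := ih
    have hs : Summable (fun z : ℕ × (Fin j → ℕ) => q * (1 - q) ^ z.1 * ∏ i, q * (1 - q) ^ (z.2 i)) :=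
      (geo_hasSum h0 h1).summable.mul_of_nonneg ih1 hw
        (fun y => Finset.prod_nonneg (fun i _ => hw _))
    refine ⟨?_, fun l => ?_⟩
    · rw [← (Fin.snocEquiv (fun _ : Fin (j + 1) => ℕ)).summable_iff]
      refine hs.congr (fun z => ?_)
      simp [Fin.prod_univ_castSucc, Fin.snocEquiv, mul_comm]
    · rw [← (Fin.snocEquiv (fun _ : Fin (j + 1) => ℕ)).tsum_eq]
      have e : ∀ z : ℕ × (Fin j → ℕ),
          ((∏ i, q * (1 - q) ^ ((Fin.snocEquiv (fun _ : Fin (j + 1) => ℕ)) z i) : ℝ) : ℂ) *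
            ∏ i : Fin (j + 1), E (i + 1)
              (l + tail (fun i => (Fin.snocEquiv (fun _ : Fin (j + 1) => ℕ)) z i + 1) i)
          = ((q * (1 - q) ^ z.1 : ℝ) : ℂ) * E (j + 1) (l + z.1 + 1) *
            (((∏ i, q * (1 - q) ^ (z.2 i) : ℝ) : ℂ) *
              ∏ i : Fin j, E (i + 1) (l + z.1 + 1 + tail (fun i => z.2 i + 1) i)) := by
        intro z
        rw [Fin.prod_univ_castSucc, Fin.prod_univ_castSucc, tail_last]
        simp only [tail_castSucc, Fin.snocEquiv, Equiv.coe_fn_mk, Fin.snoc_castSucc, Fin.snoc_last,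
          Fin.val_castSucc, Fin.val_last]
        have e2 : ∀ i : Fin j, l + (tail (fun i => z.2 i + 1) i + (z.1 + 1))
            = l + z.1 + 1 + tail (fun i => z.2 i + 1) i := fun i => by ring
        simp only [e2]
        rw [← add_assoc l z.1 1]
        push_cast
        ring
      rw [tsum_congr e, Summable.tsum_prod, FF]
      · apply tsum_congr
        intro n
        dsimp only
        rw [tsum_mul_left, ih2, mul_assoc]
      · refine Summable.of_norm_bounded hs (fun z => ?_)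
        rw [norm_mul, norm_mul, norm_mul, hE, norm_prod, Complex.norm_real, Complex.norm_real,
          Real.norm_of_nonneg (hw _), Real.norm_of_nonneg (Finset.prod_nonneg (fun i _ => hw _))]
        simp [hE]

noncomputable def ee (x : ℝ) : ℂ := Complex.exp (2 * Real.pi * Complex.I * x)

theorem ee_norm (x : ℝ) : ‖ee x‖ = 1 := by
  rw [ee, show 2 * Real.pi * Complex.I * x = ((2 * Real.pi * x : ℝ) : ℂ) * Complex.I by
    push_cast; ring]
  exact Complex.norm_exp_ofReal_mul_I _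

theorem ee_add (x y : ℝ) : ee (x + y) = ee x * ee y := by
  rw [ee, ee, ee, ← Complex.exp_add]; congr 1; push_cast; ring

theorem ee_eqv {x y : ℝ} (h : Eqv x y) : ee x = ee y := by
  obtain ⟨n, rfl⟩ := h
  rw [ee_add]
  have : ee n = 1 := by
    rw [ee, show 2 * Real.pi * Complex.I * ((n : ℝ) : ℂ) = n * (2 * Real.pi * Complex.I) by
      push_cast; ring]
    exact Complex.exp_int_mul_two_pi_mul_I n
  rw [this, mul_one]

theorem ee_sum {ι : Type*} (s : Finset ι) (f : ι → ℝ) : ee (∑ i ∈ s, f i) = ∏ i ∈ s, ee (f i) := by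
  classical
  induction s using Finset.induction_on with
  | empty => simp [ee]
  | insert a s ha ih => rw [Finset.sum_insert ha, Finset.prod_insert ha, ee_add, ih]

theorem ee_pair {x y : ℝ} (h : Far (1 / 30) (x - y)) : ‖ee x + ee y‖ ≤ 2 - 1 / 250 := by
  set t := x - y - round (x - y) with ht
  have h1 : 1 / 30 ≤ |t| := h _
  have h2 : |t| ≤ 1 / 2 := abs_sub_round _
  have e1 : ee x + ee y = ee y * (1 + ee t) := by
    rw [mul_add, mul_one, ← ee_add, add_comm]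
    congr 1
    exact ee_eqv ⟨round (x - y), by rw [ht]; ring⟩
  have e2 : ‖1 + ee t‖ ^ 2 = 2 + 2 * Real.cos (2 * Real.pi * t) := by
    rw [ee, show 2 * Real.pi * Complex.I * t = ((2 * Real.pi * t : ℝ) : ℂ) * Complex.I by
      push_cast; ring, Complex.sq_norm, Complex.normSq_apply, add_re, add_im,
      Complex.exp_ofReal_mul_I_re, Complex.exp_ofReal_mul_I_im]
    have := Real.sin_sq_add_cos_sq (2 * Real.pi * t)
    simp only [one_re, one_im]
    nlinarith
  have h3 : Real.cos (2 * Real.pi * t) ≤ 1 - 2 / Real.pi ^ 2 * (2 * Real.pi * t) ^ 2 := by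
    apply Real.cos_le_one_sub_mul_cos_sq
    rw [abs_mul, abs_of_pos (show 0 < 2 * Real.pi by positivity)]
    nlinarith [Real.pi_pos]
  have h4 : 2 / Real.pi ^ 2 * (2 * Real.pi * t) ^ 2 = 8 * |t| ^ 2 := by
    rw [sq_abs]; field_simp; ring
  rw [e1, norm_mul, ee_norm, one_mul]
  apply le_of_sq_le_sq _ (by norm_num)
  nlinarith

theorem FF_four (h0 : 0 < q) (h1 : q < 1) (hE : ∀ j s, ‖E j s‖ = 1) (i l : ℕ) {g : ℝ}
    (hg : ‖E (i + 4) (l + 1) + E (i + 4) (l + 2) + E (i + 4) (l + 3) + E (i + 4) (l + 4)‖ ≤ 4 - g) :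
    ‖FF q E (i + 4) l‖ ≤ Ex q 4 (fun d => ‖FF q E (i + 4 - d) (l + 4)‖)
      - q * (1 - q) ^ 3 * g * ‖FF q E (i + 3) (l + 4)‖ := by
  have r := FF_rec h0 h1 hE
  have hq : 0 ≤ 1 - q := by linarith
  have e : FF q E (i + 4) l = (((1 - q) ^ 4 : ℝ) : ℂ) * FF q E (i + 4) (l + 4)
      + ((q * (1 - q) ^ 3 : ℝ) : ℂ) * ((E (i + 4) (l + 1) + E (i + 4) (l + 2) + E (i + 4) (l + 3)
        + E (i + 4) (l + 4)) * FF q E (i + 3) (l + 4))
      + ((q ^ 2 * (1 - q) ^ 2 : ℝ) : ℂ) * ((E (i + 4) (l + 1) * E (i + 3) (l + 2)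
        + E (i + 4) (l + 1) * E (i + 3) (l + 3) + E (i + 4) (l + 1) * E (i + 3) (l + 4)
        + E (i + 4) (l + 2) * E (i + 3) (l + 3) + E (i + 4) (l + 2) * E (i + 3) (l + 4)
        + E (i + 4) (l + 3) * E (i + 3) (l + 4)) * FF q E (i + 2) (l + 4))
      + ((q ^ 3 * (1 - q) : ℝ) : ℂ) * ((E (i + 4) (l + 1) * E (i + 3) (l + 2) * E (i + 2) (l + 3)
        + E (i + 4) (l + 1) * E (i + 3) (l + 2) * E (i + 2) (l + 4)
        + E (i + 4) (l + 1) * E (i + 3) (l + 3) * E (i + 2) (l + 4)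
        + E (i + 4) (l + 2) * E (i + 3) (l + 3) * E (i + 2) (l + 4)) * FF q E (i + 1) (l + 4))
      + ((q ^ 4 : ℝ) : ℂ) * ((E (i + 4) (l + 1) * E (i + 3) (l + 2) * E (i + 2) (l + 3)
        * E (i + 1) (l + 4)) * FF q E i (l + 4)) := by
    rw [r (i + 3) l, r (i + 2) (l + 1), r (i + 3) (l + 1), r (i + 1) (l + 1 + 1), r (i + 2) (l + 1 + 1),
      r (i + 3) (l + 1 + 1), r i (l + 1 + 1 + 1), r (i + 1) (l + 1 + 1 + 1), r (i + 2) (l + 1 + 1 + 1),
      r (i + 3) (l + 1 + 1 + 1)]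
    push_cast
    simp only [add_assoc, Nat.reduceAdd]
    ring
  have nm : ∀ (a : ℝ) (S x : ℂ) (b : ℝ), 0 ≤ a → ‖S‖ ≤ b → ‖(a : ℂ) * (S * x)‖ ≤ a * b * ‖x‖ := by
    intro a S x b ha hS
    rw [norm_mul, norm_mul, Complex.norm_real, Real.norm_of_nonneg ha, mul_assoc]
    gcongr
  have n2 : ∀ a b c d, ‖E a b * E c d‖ ≤ 1 := fun a b c d => by rw [norm_mul, hE, hE, one_mul]
  have n3 : ∀ a b c d e f, ‖E a b * E c d * E e f‖ ≤ 1 := fun a b c d e f => by
    rw [norm_mul, norm_mul, hE, hE, hE]; norm_num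
  have n4 : ∀ a b c d e f g h, ‖E a b * E c d * E e f * E g h‖ ≤ 1 := fun a b c d e f g h => by
    rw [norm_mul, norm_mul, norm_mul, hE, hE, hE, hE]; norm_num
  have n0 : ‖(((1 - q) ^ 4 : ℝ) : ℂ) * FF q E (i + 4) (l + 4)‖ ≤ (1 - q) ^ 4 * ‖FF q E (i + 4) (l + 4)‖ := by
    rw [norm_mul, Complex.norm_real, Real.norm_of_nonneg (by positivity)]
  rw [e, Ex_four]
  refine (norm_add_le_of_le (norm_add_le_of_le (norm_add_le_of_le (norm_add_le_of_le n0
    (nm _ _ _ _ (by positivity) hg))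
    (nm _ _ _ _ (by positivity) (norm_add_le_of_le (norm_add_le_of_le (norm_add_le_of_le
      (norm_add_le_of_le (norm_add_le_of_le (n2 ..) (n2 ..)) (n2 ..)) (n2 ..)) (n2 ..)) (n2 ..))))
    (nm _ _ _ _ (by positivity) (norm_add_le_of_le (norm_add_le_of_le (norm_add_le_of_le
      (n3 ..) (n3 ..)) (n3 ..)) (n3 ..))))
    (nm _ _ _ _ (by positivity) (n4 ..))).trans (le_of_eq ?_)
  rw [show i + 4 - 0 = i + 4 from rfl, show i + 4 - 1 = i + 3 from rfl,
    show i + 4 - 2 = i + 2 from rfl, show i + 4 - 3 = i + 1 from rfl, show i + 4 - 4 = i from rfl]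
  ring

theorem four_phase {x1 x2 x3 x4 : ℝ}
    (h : Far (1 / 30) (x1 - x2) ∨ Far (1 / 30) (x2 - x3) ∨ Far (1 / 30) (x3 - x4)) :
    ‖ee x1 + ee x2 + ee x3 + ee x4‖ ≤ 4 - 1 / 250 := by
  have n := fun x => (ee_norm x).le
  rcases h with h | h | h
  · exact (norm_add_le_of_le (norm_add_le_of_le (ee_pair h) (n _)) (n _)).trans (by norm_num)
  · rw [add_assoc (ee x1)]
    exact (norm_add_le_of_le (norm_add_le_of_le (n _) (ee_pair h)) (n _)).trans (by norm_num)
  · rw [add_assoc (ee x1 + ee x2)]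
    exact (norm_add_le_of_le (norm_add_le_of_le (n _) (n _)) (ee_pair h)).trans (by norm_num)

noncomputable def EE (η : ℤ) (p j s : ℕ) : ℂ := ee (η / 2 ^ p * DD p j s)

theorem sys_of (h0 : 0 < q) (h1 : q < 1) (η z : ℤ) (hz : ¬ (3 : ℤ) ∣ z) (p a P : ℕ)
    (hw : ∀ u l, 1 ≤ u → Far (1 / 8) (psi z a P u l) → Far (1 / 30) (dl η p (a + u) (l + 1)) ∨
      Far (1 / 30) (dl η p (a + u) (l + 2)) ∨ Far (1 / 30) (dl η p (a + u) (l + 3))) :
    Sys q (q * (1 - q) ^ 3 * (1 / 250)) (fun u l => ‖FF q (EE η p) (a + u) l‖) (psi z a P) := by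
  have hE : ∀ j s, ‖EE η p j s‖ = 1 := fun j s => ee_norm _
  refine ⟨fun u l => norm_nonneg _, fun u l => FF_norm h0 h1 hE _ _, fun u l => ?_,
    fun u l hu hf => ?_, psi_two z a P, psi_three z a P, psi_low hz a P, psi_zero z a P⟩
  · rw [← add_assoc, FF_rec h0 h1 hE]
    refine (norm_add_le _ _).trans (le_of_eq ?_)
    rw [norm_mul, norm_mul, norm_mul, hE, one_mul, Complex.norm_real, Real.norm_of_nonneg h0.le,
      show (1 : ℂ) - q = ((1 - q : ℝ) : ℂ) by push_cast; ring, Complex.norm_real,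
      Real.norm_of_nonneg (by linarith)]
  · obtain ⟨i, rfl⟩ : ∃ i, u = i + 4 := ⟨u - 4, by omega⟩
    have := FF_four h0 h1 hE (a + i) l (g := 1 / 250)
      (four_phase (by simpa only [dl, add_assoc] using hw (i + 4) l (by omega) hf))
    rw [Ex_four] at this ⊢
    exact this

theorem coeff_eq {μ : ℝ} (hμ : 1 < μ) (k p : ℕ) (ξ η n : ℤ) (hη : η = ξ * 3 ^ k + 2 ^ p * n) :
    coeff μ k p ξ = FF μ⁻¹ (EE η p) k 0 := by
  have h0 : 0 < μ⁻¹ := by positivity
  have h1 : μ⁻¹ < 1 := inv_lt_one_of_one_lt₀ hμ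
  rw [← (FF_hasSum (E := EE η p) h0 h1 (fun j s => ee_norm _) k).2 0, coeff]
  apply tsum_congr
  intro y
  congr 1
  simp only [EE, zero_add]
  rw [← ee_sum]
  set x : Fin k → ℕ := fun i => y i + 1
  set T : ℤ := ∑ i : Fin k, DD p (i + 1) (tail x i) with hT
  have hS : Syr k p x = -3 ^ k * T := rfl
  have e1 : Complex.exp (-2 * Real.pi * Complex.I * ξ * ((Syr k p x % 2 ^ p : ℤ) : ℂ) / 2 ^ p)
      = ee (-(ξ * ((Syr k p x % 2 ^ p : ℤ) : ℝ) / 2 ^ p)) := by
    rw [ee]; congr 1; push_cast; ring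
  rw [e1]
  apply ee_eqv
  refine ⟨ξ * (Syr k p x / 2 ^ p) - n * T, ?_⟩
  rw [← Finset.mul_sum, Int.emod_def, hη]
  have : (∑ i : Fin k, (DD p (i + 1) (tail x i) : ℝ)) = T := by rw [hT]; push_cast; rfl
  rw [this]
  have hS' : ((Syr k p x : ℤ) : ℝ) = -3 ^ k * T := by rw [hS]; push_cast; ring
  push_cast
  rw [hS']
  field_simp
  ring

/-- reduction of the Fourier coefficient to the abstract system -/
theorem reduction {μ : ℝ} (hμ : 1 < μ) {k p : ℕ} {ξ : ℤ} (hp : p ≤ k) (hξ0 : 0 < ξ)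
    (hξ1 : ξ < 2 ^ p) : ∃ (N ψ : ℕ → ℕ → ℝ) (u : ℕ),
      Sys μ⁻¹ (μ⁻¹ * (1 - μ⁻¹) ^ 3 * (1 / 250)) N ψ ∧ k ≤ 3 * u ∧ ‖coeff μ k p ξ‖ = N u 0 := by
  have h0 : 0 < μ⁻¹ := by positivity
  have h1 : μ⁻¹ < 1 := inv_lt_one_of_one_lt₀ hμ
  by_cases hA : Far (1 / 10) (((ξ * 3 ^ k : ℤ) : ℝ) / 2 ^ p)
  · refine ⟨_, _, k, sys_of h0 h1 (ξ * 3 ^ k) 1 (by norm_num) p 0 4 (fun u l hu hf => ?_), by omega, ?_⟩
    · rw [zero_add]; exact caseA hu hA hf
    · rw [coeff_eq hμ k p ξ (ξ * 3 ^ k) 0 (by ring), zero_add]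
  · simp only [Far, not_forall, not_le] at hA
    obtain ⟨n, hn⟩ := hA
    set η : ℤ := ξ * 3 ^ k + 2 ^ p * (-n) with hη
    have hη1 : |(η : ℝ) / 2 ^ p| < 1 / 10 := by
      have : (η : ℝ) / 2 ^ p = ((ξ * 3 ^ k : ℤ) : ℝ) / 2 ^ p - n := by
        rw [hη]; push_cast; field_simp; ring
      rwa [this]
    have hη0 : η ≠ 0 := by
      intro h
      have h2 : (2 : ℤ) ^ p ∣ ξ * 3 ^ k := ⟨n, by linarith⟩
      have h3 : IsCoprime ((2 : ℤ) ^ p) (3 ^ k) := by
        have := Nat.isCoprime_iff_coprime.2 (cop k p).symm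
        push_cast at this
        exact this
      have := Int.le_of_dvd hξ0 (h3.dvd_of_dvd_mul_right h2)
      omega
    obtain ⟨a, z, hz, haz⟩ := WfDvdMonoid.max_power_factor hη0 Int.prime_three.irreducible
    have hz0 : z ≠ 0 := by rintro rfl; exact hz (dvd_zero _)
    have ha : 3 * a ≤ 2 * k := by
      have h2 : (3 : ℝ) ^ a ≤ 2 ^ k := by
        rw [abs_div, abs_of_pos (show (0 : ℝ) < 2 ^ p by positivity), div_lt_iff₀ (by positivity),
          haz] at hη1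
        push_cast at hη1
        rw [abs_mul, abs_of_pos (show (0 : ℝ) < 3 ^ a by positivity)] at hη1
        have h3 : (1 : ℝ) ≤ |(z : ℝ)| := by
          rw [← Int.cast_abs]; exact_mod_cast Int.one_le_abs hz0
        have h4 : (2 : ℝ) ^ p ≤ 2 ^ k := pow_le_pow_right₀ (by norm_num) hp
        have h5 : (0 : ℝ) < 3 ^ a := by positivity
        have h6 : (0 : ℝ) < 2 ^ p := by positivity
        nlinarith
      have h3 : 3 ^ a ≤ 2 ^ k := by exact_mod_cast h2
      have h4 : 2 ^ (3 * a) ≤ 2 ^ (2 * k) := by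
        calc 2 ^ (3 * a) = 8 ^ a := by rw [pow_mul]; norm_num
          _ ≤ 9 ^ a := Nat.pow_le_pow_left (by norm_num) a
          _ = (3 ^ a) ^ 2 := by rw [← pow_mul, mul_comm, pow_mul]; norm_num
          _ ≤ (2 ^ k) ^ 2 := Nat.pow_le_pow_left h3 2
          _ = 2 ^ (2 * k) := by rw [← pow_mul, mul_comm]
      exact (Nat.pow_le_pow_iff_right (by norm_num)).1 h4
    refine ⟨_, _, k - a, sys_of h0 h1 η z hz p a (4 + p) (fun u l hu hf => ?_), by omega, ?_⟩
    · right; right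
      rw [haz] at hη1 ⊢
      exact caseB hu hη1.le hf
    · rw [coeff_eq hμ k p ξ η (-n) hη, show a + (k - a) = k by omega]

end Pool.Agent.P.MP_d124bf_nt
end
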