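import Pool.Agent.K.MP_d124bf_nt.C0
import Pool.Agent.K.MP_d124bf_nt.C1

-- part Pool.Agent.P.MP_d124bf_nt.Rows
section

/-!
The gain lemmas with a fixed final row, for systems that vanish on the first columns.
-/

namespace Pool.Agent.P.MP_d124bf_nt

theorem caseC {z : ℤ} {a p u l : ℕ} (hu : 1 ≤ u) (hη : |((3 ^ a * z : ℤ) : ℝ) / 2 ^ p| ≤ 1 / 2)
    (hw : Far (1 / 8) (psi z a (4 + p) u l)) :
    Far (1 / 30) (dl (3 ^ a * z) p (a + u) (l + 1)) ∨ Far (1 / 30) (dl (3 ^ a * z) p (a + u) (l + 2)) ∨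
      Far (1 / 30) (dl (3 ^ a * z) p (a + u) (l + 3)) := by
  rcases le_total |((3 ^ a * z : ℤ) : ℝ) / 2 ^ p| (1 / 10) with h | h
  · exact Or.inr (Or.inr (caseB hu h hw))
  by_cases hθ : Far (1 / 8) (psi 1 0 4 (a + u) l)
  · exact caseA (by omega) (far_of_abs h hη) hθ
  right; right
  set j := a + u with hj
  have t3 := theta_step (j := j) (l + 3)
  have t0 := theta_abs (j := j) (by omega) (l + 3) (l + 3)
  set lam : ℝ := ((3 ^ a * z : ℤ) : ℝ) / 2 ^ p with hlam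
  have t4 : |(mm j (l + 3 + 1) : ℝ) / 3 ^ j - digit (l + 3) j| ≤ 1 / 8 := by
    simp only [Far, not_forall, not_le] at hθ
    obtain ⟨n, hn⟩ := hθ
    simp only [psi, zero_add, Int.cast_one, one_mul] at hn
    have h1 : |(mm j (l + 3 + 1) : ℝ) / 3 ^ j - digit (l + 3) j| < 1 / 2 := by
      rw [t3, abs_div, abs_two]; linarith
    have h2 : |((n - (digit (l + 3) j : ℤ) : ℤ) : ℝ)| < 1 := by
      push_cast
      rw [show l + 4 = l + 3 + 1 from rfl] at hn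
      rw [abs_lt] at h1 hn ⊢
      constructor <;> linarith [h1.1, h1.2, hn.1, hn.2]
    have h3 : n - (digit (l + 3) j : ℤ) = 0 := by
      rw [← Int.cast_abs] at h2
      exact Int.abs_lt_one_iff.1 (by exact_mod_cast h2)
    have h4 : (n : ℝ) = digit (l + 3) j := by exact_mod_cast sub_eq_zero.1 h3
    rw [← h4]
    exact hn.le
  have hs : |-(lam * ((mm j (l + 3 + 1) : ℝ) / 3 ^ j - digit (l + 3) j))| ≤ 1 / 16 := by
    rw [abs_neg, abs_mul]
    have := mul_le_mul hη t4 (abs_nonneg _) (by norm_num)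
    linarith
  refine ((hw.add_small hs).mono (by norm_num)).of_eqv ⟨-(3 ^ a * z * digit (l + 3 + p) j), ?_⟩
  have e1 : (3 : ℝ) ^ j * DD p j (l + 3) = 2 ^ p * (mm j (l + 3 + p) : ℝ) - mm j (l + 3) := by
    exact_mod_cast DD_spec p j (l + 3)
  have e2 : (3 : ℝ) ^ j * DD p j (l + 3 + 1)
      = 2 ^ p * (mm j (l + 3 + 1 + p) : ℝ) - mm j (l + 3 + 1) := by
    exact_mod_cast DD_spec p j (l + 3 + 1)
  have e3 : (mm j (l + 3) : ℝ) + 3 ^ j * digit (l + 3) j = 2 * mm j (l + 3 + 1) := by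
    exact_mod_cast mm_succ j (l + 3)
  have e4 : (mm j (l + 3 + p) : ℝ) + 3 ^ j * digit (l + 3 + p) j = 2 * mm j (l + 3 + p + 1) := by
    exact_mod_cast mm_succ j (l + 3 + p)
  rw [show l + 3 + 1 + p = l + 3 + p + 1 by ring] at e2
  have f1 : (DD p j (l + 3) : ℝ) = (2 ^ p * (mm j (l + 3 + p) : ℝ) - mm j (l + 3)) / 3 ^ j := by
    rw [← e1]; field_simp
  have f2 : (DD p j (l + 3 + 1) : ℝ)
      = (2 ^ p * (mm j (l + 3 + p + 1) : ℝ) - mm j (l + 3 + 1)) / 3 ^ j := by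
    rw [← e2]; field_simp
  have f3 : (mm j (l + 3) : ℝ) = 2 * mm j (l + 3 + 1) - 3 ^ j * digit (l + 3) j := by linarith
  have f4 : (mm j (l + 3 + p) : ℝ) = 2 * mm j (l + 3 + p + 1) - 3 ^ j * digit (l + 3 + p) j := by
    linarith
  rw [dl, psi, ← hj, show l + (4 + p) = l + 3 + p + 1 by ring, f1, f2, f3, f4, hlam]
  have h3 : (3 : ℝ) ^ j = 3 ^ a * 3 ^ u := by rw [hj, pow_add]
  rw [h3]
  push_cast
  field_simp
  ring

variable {q c : ℝ} {N ψ : ℕ → ℕ → ℝ}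

theorem Ex_mono' (h0 : 0 ≤ q) (h1 : q ≤ 1) (h : ℕ) {f g : ℕ → ℝ} (hfg : ∀ i ≤ h, f i ≤ g i) :
    Ex q h f ≤ Ex q h g := by
  induction h generalizing f g with
  | zero => simpa [Ex] using hfg 0 le_rfl
  | succ h ih =>
    simp only [Ex]
    apply ih
    intro i hi
    have := mul_le_mul_of_nonneg_left (hfg (i + 1) (by omega)) h0
    have := mul_le_mul_of_nonneg_left (hfg i (by omega)) (sub_nonneg.2 h1)
    linarith

theorem Ex_pow (h : ℕ) (x A : ℝ) : Ex q h (fun i => A * x ^ i) = A * (q * x + 1 - q) ^ h := by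
  induction h generalizing A with
  | zero => simp [Ex]
  | succ h ih =>
    rw [Ex_succ]
    have : (fun i => A * x ^ (i + 1)) = fun i => (A * x) * x ^ i := by funext i; ring
    rw [this, ih, ih]
    ring

theorem Ex_tail (h0 : 0 ≤ q) (h1 : q ≤ 1) (h D : ℕ) {x : ℝ} (hx : 1 ≤ x) :
    Ex q h (fun i => if D < i then 1 else 0) ≤ (q * x + 1 - q) ^ h / x ^ (D + 1) := by
  have hx0 : 0 < x ^ (D + 1) := by positivity
  refine (Ex_mono h0 h1 h (g := fun i => (x ^ (D + 1))⁻¹ * x ^ i) (fun i => ?_)).trans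
    (le_of_eq (by rw [Ex_pow]; ring))
  split_ifs with hi
  · rw [inv_mul_eq_div, le_div_iff₀ hx0, one_mul]
    exact pow_le_pow_right₀ hx hi
  · positivity

/-- subtracting a harmonic function keeps the system -/
theorem Sys.trunc (S : Sys q c N ψ) (h0 : 0 ≤ q) (h1 : q ≤ 1) (hc : c ≤ 4 * q * (1 - q) ^ 3)
    {T : ℕ → ℕ → ℝ} (hT0 : ∀ u l, 0 ≤ T u l)
    (hT : ∀ u l, T (u + 1) l = q * T u (l + 1) + (1 - q) * T (u + 1) (l + 1)) (hc0 : 0 ≤ c) :
    Sys q c (fun u l => max (N u l - T u l) 0) ψ := by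
  have hq : 0 ≤ 1 - q := sub_nonneg.2 h1
  have m0 : ∀ u l, 0 ≤ max (N u l - T u l) 0 := fun u l => le_max_right _ _
  have m1 : ∀ u l, N u l ≤ max (N u l - T u l) 0 + T u l := fun u l => by
    have := le_max_left (N u l - T u l) 0
    linarith
  refine ⟨m0, fun u l => max_le (by linarith [S.le1 u l, hT0 u l]) (by norm_num), fun u l => ?_,
    fun u l hu hw => ?_, S.two, S.three, S.low, S.zero⟩
  · have a1 := mul_le_mul_of_nonneg_left (m1 u (l + 1)) h0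
    have a2 := mul_le_mul_of_nonneg_left (m1 (u + 1) (l + 1)) hq
    have a3 := mul_nonneg h0 (m0 u (l + 1))
    have a4 := mul_nonneg hq (m0 (u + 1) (l + 1))
    exact max_le (by linarith [S.unit u l, hT u l]) (by linarith)
  · have hb := S.block h0 h1 hc hu (w := 1) (Or.inr ⟨rfl, hw⟩)
      (g := fun d => max (N (u - d) (l + 4) - T (u - d) (l + 4)) 0 + T (u - d) (l + 4))
      (fun d _ => m1 _ _)
    obtain ⟨i, rfl⟩ : ∃ i, u = i + 4 := ⟨u - 4, by omega⟩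
    have e : T (i + 4) l = (1 - q) ^ 4 * T (i + 4) (l + 4) + 4 * q * (1 - q) ^ 3 * T (i + 3) (l + 4)
        + 6 * q ^ 2 * (1 - q) ^ 2 * T (i + 2) (l + 4) + 4 * q ^ 3 * (1 - q) * T (i + 1) (l + 4)
        + q ^ 4 * T i (l + 4) := by
      rw [hT (i + 3) l, hT (i + 2) (l + 1), hT (i + 3) (l + 1), hT (i + 1) (l + 1 + 1),
        hT (i + 2) (l + 1 + 1), hT (i + 3) (l + 1 + 1), hT i (l + 1 + 1 + 1),
        hT (i + 1) (l + 1 + 1 + 1), hT (i + 2) (l + 1 + 1 + 1), hT (i + 3) (l + 1 + 1 + 1)]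
      simp only [add_assoc, Nat.reduceAdd]
      ring
    rw [Ex_four]
    simp only [show i + 4 - 0 = i + 4 from rfl, show i + 4 - 1 = i + 3 from rfl,
      show i + 4 - 2 = i + 2 from rfl, show i + 4 - 3 = i + 1 from rfl,
      show i + 4 - 4 = i from rfl] at hb ⊢
    have a0 := mul_nonneg (show 0 ≤ (1 - q) ^ 4 by positivity) (m0 (i + 4) (l + 4))
    have a1 := mul_nonneg (sub_nonneg.2 hc) (m0 (i + 3) (l + 4))
    have a2 := mul_nonneg (show 0 ≤ 6 * q ^ 2 * (1 - q) ^ 2 by positivity) (m0 (i + 2) (l + 4))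
    have a3 := mul_nonneg (show 0 ≤ 4 * q ^ 3 * (1 - q) by positivity) (m0 (i + 1) (l + 4))
    have a4 := mul_nonneg (show 0 ≤ q ^ 4 by positivity) (m0 i (l + 4))
    have a5 := mul_nonneg hc0 (hT0 (i + 3) (l + 4))
    exact max_le (by linarith) (by linarith)

theorem Sys.walk0 (S : Sys q c N ψ) (h0 : 0 ≤ q) (h1 : q ≤ 1) {F : ℕ}
    (hZ : ∀ u < 4, ∀ l ≤ F, N u l = 0) :
    ∀ h u l, l + h ≤ F → N u l ≤ Ex q h (fun D => N (u - D) (l + h)) := by
  intro h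
  induction h with
  | zero => intro u l _; simp [Ex]
  | succ h ih =>
    intro u l hu
    rcases Nat.eq_zero_or_pos u with rfl | hu0
    · rw [hZ 0 (by norm_num) l (by omega), ← Ex_const (q := q) (h + 1) 0]
      exact Ex_mono h0 h1 _ (fun i => S.nn _ _)
    obtain ⟨u, rfl⟩ : ∃ u', u = u' + 1 := ⟨u - 1, by omega⟩
    have h2 := S.unit u l
    have i1 := ih u (l + 1) (by omega)
    have i2 := ih (u + 1) (l + 1) (by omega)
    rw [Ex_succ]
    have e2 : (fun i => N (u + 1 - (i + 1)) (l + (h + 1))) = fun i => N (u - i) (l + 1 + h) := by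
      funext i; congr 1 <;> omega
    have e3 : l + (h + 1) = l + 1 + h := by ring
    rw [e2, e3]
    have := mul_le_mul_of_nonneg_left i1 h0
    have := mul_le_mul_of_nonneg_left i2 (sub_nonneg.2 h1)
    linarith

theorem Sys.back (S : Sys q c N ψ) (h0 : 0 ≤ q) (h1 : q ≤ 1) {F : ℕ}
    (hZ : ∀ u < 4, ∀ l ≤ F, N u l = 0) {h u l : ℕ} (hl : l + h ≤ F) {Q : ℝ}
    (hQ : ∀ d ≤ h, N (u - d) (l + h) ≤ Q) : N u l ≤ Q := by
  refine (S.walk0 h0 h1 hZ h u l hl).trans ?_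
  rw [← Ex_const (q := q) h Q]
  exact Ex_mono' h0 h1 h hQ

theorem Sys.white' (S : Sys q c N ψ) (h0 : 0 ≤ q) (h1 : q ≤ 1) (hc : c ≤ 4 * q * (1 - q) ^ 3)
    (hc1 : c ≤ 1) {F : ℕ} (hZ : ∀ u < 4, ∀ l ≤ F, N u l = 0) {h u l : ℕ} (hl : l + (h + 4) ≤ F) {Q : ℝ}
    (hQ : ∀ d ≤ h + 4, N (u - d) (l + (h + 4)) ≤ Q) (hw : Far (1 / 8) (ψ u l)) :
    N u l ≤ (1 - c) * Q := by
  rcases lt_or_ge u 4 with hu | hu
  · rw [hZ u hu l (by omega)]
    exact mul_nonneg (by linarith) ((S.nn _ _).trans (hQ 0 (by omega)))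
  have := S.block h0 h1 hc (u := u) (l := l) hu (w := 1) (Or.inr ⟨rfl, hw⟩)
    (g := fun _ => Q) (fun d hd => S.back h0 h1 hZ (h := h) (by omega) (fun e he => by
      have := hQ (d + e) (by omega)
      rwa [← Nat.sub_sub, show l + (h + 4) = l + 4 + h by ring] at this))
  refine this.trans (le_of_eq ?_)
  ring

theorem Sys.small' (S : Sys q c N ψ) (h0 : 0 ≤ q) (h1 : q ≤ 1) (hc : c ≤ 4 * q * (1 - q) ^ 3)
    (hc1 : c ≤ 1) {F : ℕ} (hZ : ∀ u < 4, ∀ l ≤ F, N u l = 0) {Q : ℝ} :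
    ∀ (r u l : ℕ) (v : ℝ), |v| ≤ 3 / 8 → Eqv (ψ u (l + r)) (v / 2 ^ r + 1 / 2) → l + (r + 4) ≤ F →
      (∀ d ≤ r + 4, N (u - d) (l + (r + 4)) ≤ Q) → N u l ≤ (1 - c) * Q := by
  intro r
  induction r with
  | zero =>
    intro u l v hv ht hl hQ
    apply S.white' h0 h1 hc hc1 hZ hl hQ
    have := (far_half.add_small hv).mono (show (1 : ℝ) / 8 ≤ 1 / 2 - 3 / 8 by norm_num)
    exact this.of_eqv (ht.of_eq (by simp; ring))
  | succ r ih =>
    intro u l v hv ht hl hQ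
    have hψ : Eqv (ψ u l) v := by
      have h2 := (S.two_pow u l (r + 1)).trans (by simpa using ht.mul_pow 2 (r + 1))
      refine h2.trans ⟨2 ^ r, ?_⟩
      push_cast
      field_simp
      ring
    by_cases hw : 1 / 8 ≤ |v|
    · exact S.white' h0 h1 hc hc1 hZ hl hQ ((far_of_abs hw (by linarith)).of_eqv hψ)
    · rw [not_le] at hw
      rcases Nat.eq_zero_or_pos u with rfl | hu0
      · rw [hZ 0 (by norm_num) l (by omega)]
        exact mul_nonneg (by linarith) ((S.nn _ _).trans (hQ 0 (by omega)))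
      obtain ⟨u, rfl⟩ : ∃ u', u = u' + 1 := ⟨u - 1, by omega⟩
      have e : l + (r + 1) = l + 1 + r := by ring
      have e' : l + (r + 1 + 4) = l + 1 + (r + 4) := by ring
      rw [e] at ht
      rw [e'] at hQ hl
      have i1 := ih (u + 1) (l + 1) (v / 2) (by rw [abs_div]; norm_num; linarith)
        (ht.of_eq (by rw [pow_succ]; field_simp)) hl (fun d hd => hQ d (by omega))
      have i2 := ih u (l + 1) (3 * v / 2) (by rw [abs_div, abs_mul]; norm_num; linarith)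
        (by
          have h3 := (S.three u (l + 1 + r)).trans (by simpa using ht.mul_int 3)
          refine h3.trans ⟨1, ?_⟩
          rw [pow_succ]; push_cast; field_simp; ring) hl (fun d hd => by
            have := hQ (d + 1) (by omega)
            rwa [Nat.add_sub_add_right] at this)
      have := S.unit u l
      have := mul_le_mul_of_nonneg_left i2 h0
      have := mul_le_mul_of_nonneg_left i1 (sub_nonneg.2 h1)
      linarith

theorem Sys.le_GG' (S : Sys q c N ψ) (h0 : 0 ≤ q) (h1 : q ≤ 1) (hc0 : 0 ≤ c)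
    (hc : c ≤ 4 * q * (1 - q) ^ 3) {F : ℕ} (hZ : ∀ u < 4, ∀ l ≤ F, N u l = 0)
    {u L n Dm : ℕ} {Q : ℝ} (hL : L + 4 * n ≤ F) (hQ : ∀ d ≤ Dm, N (u - d) (L + 4 * n) ≤ Q)
    {R : ℤ} {w : ℝ} (hw : 3 ^ Dm * |w| ≤ 1)
    (hψ : ∀ s < n, Eqv (ψ u (L + 4 * s)) ((w + R) / 2 ^ (4 + 4 * s))) :
    ∀ t s D, s + t = n → D + 4 * t ≤ Dm → N (u - D) (L + 4 * s) ≤ Q * GG q c R t s D := by
  intro t
  induction t with
  | zero =>
    intro s D hs hD
    obtain rfl : s = n := by omega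
    simpa [GG] using hQ D (by omega)
  | succ t ih =>
    intro s D hs hD
    rcases lt_or_ge (u - D) 4 with hu | hu
    · rw [hZ _ hu _ (by omega)]
      exact mul_nonneg ((S.nn _ _).trans (hQ 0 (by omega))) (GG_bounds h0 h1 hc0 hc R _ _ _).1
    have hb := S.block h0 h1 hc (u := u - D) (l := L + 4 * s) hu (w := ind R s D)
      (by
        rcases ind_cases R s D with h | ⟨h, hf⟩
        · exact Or.inl h
        · refine Or.inr ⟨h, ?_⟩
          have e1 := (S.three_sub (u := u) (D := D) (by omega) (L + 4 * s)).trans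
            (by simpa using (hψ s (by omega)).mul_pow 3 D)
          have hs' : |(3 : ℝ) ^ D * w / 2 ^ (4 + 4 * s)| ≤ 1 / 8 := by
            rw [abs_div, abs_mul, abs_of_pos (show (0 : ℝ) < 3 ^ D by positivity),
              abs_of_pos (show (0 : ℝ) < 2 ^ (4 + 4 * s) by positivity),
              div_le_iff₀ (by positivity)]
            have h3 : (3 : ℝ) ^ D ≤ 3 ^ Dm := pow_le_pow_right₀ (by norm_num) (by omega)
            have h4 : (2 : ℝ) ^ 4 ≤ 2 ^ (4 + 4 * s) := pow_le_pow_right₀ (by norm_num) (by omega)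
            have h5 := mul_le_mul_of_nonneg_right h3 (abs_nonneg w)
            linarith
          have := (hf.add_small hs').mono (show (1 : ℝ) / 8 ≤ 1 / 4 - 1 / 8 by norm_num)
          exact this.of_eqv (e1.of_eq (by ring)))
      (g := fun d => Q * GG q c R t (s + 1) (D + d)) (fun d hd => by
        have := ih (s + 1) (D + d) (by omega) (by omega)
        rwa [show u - (D + d) = u - D - d by omega, show L + 4 * (s + 1) = L + 4 * s + 4 by ring]
          at this)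
    refine hb.trans (le_of_eq ?_)
    rw [GG]
    ring

theorem Sys.big' (S : Sys q c N ψ) (h0 : 0 < q) (h1 : q < 1) (hc0 : 0 ≤ c)
    (hc : c ≤ 4 * q * (1 - q) ^ 3) (hc1 : c ≤ 1) {F : ℕ} (hZ : ∀ u < 4, ∀ l ≤ F, N u l = 0)
    {u l r n D1 : ℕ} {Q1 Q2 v e x : ℝ} (hL : l + r + 3 + 4 * n ≤ F)
    (hQ1 : ∀ d ≤ D1 + 4 * n, N (u - d) (l + r + 3 + 4 * n) ≤ Q1)
    (hQ2 : ∀ d ≤ r + 3 + 4 * n, N (u - d) (l + r + 3 + 4 * n) ≤ Q2) (hv : |v| ≤ 1 / 8)
    (ht : Eqv (ψ u (l + r)) (v / 2 ^ r + 1 / 2)) (hD : (3 : ℝ) ^ (D1 + 4 * n) ≤ 2 ^ r)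
    (he0 : 0 < e) (he : 1 ≤ e ^ 2 * ((((r + 3 : ℕ) : ℝ) + 1) * q * (1 - q))) (hx : 1 ≤ x) :
    N u l ≤ Q1 * ((1 - c / 2) ^ n + 2 ^ (4 * n + 1) * e)
      + Q2 * ((q * x + 1 - q) ^ (r + 3) / x ^ (D1 + 1)) := by
  obtain ⟨m, hm⟩ := (S.two_pow u (l + r) (3 + 4 * n)).symm.trans ht
  set R : ℤ := 2 * m + 1 with hRdef
  have hR : Odd R := ⟨m, rfl⟩
  set w : ℝ := 2 * v / 2 ^ r with hwdef
  have hw : (3 : ℝ) ^ (D1 + 4 * n) * |w| ≤ 1 := by
    rw [hwdef, abs_div, abs_mul, abs_of_pos (show (0 : ℝ) < 2 ^ r by positivity), ← mul_div_assoc,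
      div_le_one (by positivity)]
    have : |(2 : ℝ)| * |v| ≤ 1 := by rw [abs_two]; linarith
    have h3 : (0 : ℝ) ≤ 3 ^ (D1 + 4 * n) := by positivity
    nlinarith
  have hψ : ∀ s < n, Eqv (ψ u (l + r + 3 + 4 * s)) ((w + R) / 2 ^ (4 + 4 * s)) := by
    intro s hs
    obtain ⟨j, rfl⟩ : ∃ j, n = s + j := ⟨n - s, by omega⟩
    have h2 := S.two_pow u (l + r + 3 + 4 * s) (4 * j)
    rw [show l + r + 3 + 4 * s + 4 * j = l + r + (3 + 4 * (s + j)) by ring] at h2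
    refine h2.of_eq ?_
    have e1 : ψ u (l + r + (3 + 4 * (s + j))) = (v / 2 ^ r + 1 / 2 + m) / 2 ^ (3 + 4 * (s + j)) := by
      rw [← hm]; field_simp
    rw [e1, hwdef, hRdef]
    push_cast
    field_simp
    ring
  have hG := S.le_GG' h0.le h1.le hc0 hc hZ hL hQ1 hw hψ n 0
  have hB := GG_bounds h0.le h1.le hc0 hc R n 0
  have q1 : 0 ≤ Q1 := (S.nn _ _).trans (hQ1 0 (by omega))
  have q2 : 0 ≤ Q2 := (S.nn _ _).trans (hQ2 0 (by omega))
  have hcmp := (S.walk0 h0.le h1.le hZ (r + 3) u l (by omega)).trans (Ex_mono' h0.le h1.le (r + 3)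
    (g := fun D => Q1 * GG q c R n 0 D + Q2 * (if D1 < D then 1 else 0)) (fun D hD => by
      split_ifs with h
      · have a1 := mul_nonneg q1 (hB D).1
        have a2 : N (u - D) (l + (r + 3)) ≤ Q2 :=
          S.back h0.le h1.le hZ (h := 4 * n) (by omega) (fun d hd => by
            have := hQ2 (D + d) (by omega)
            rwa [← Nat.sub_sub, add_assoc l r 3] at this)
        linarith
      · have := hG D (by omega) (by omega)
        simpa [add_assoc] using this))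
  rw [Ex_lin] at hcmp
  have a1 := Ex_le_of_Av h0 h1 (r + 3) he0 he (fun i => (hB i).1) (fun i => (hB i).2) (Ls n 0)
    (GG_av h0.le h1.le hc0 hc hc1 R hR n 0)
  have a2 := Ex_tail h0.le h1.le (r + 3) D1 hx
  have a3 : (((Ls n 0).sum : ℕ) : ℝ) ≤ 2 ^ (4 * n + 1) := by
    have := Ls_sum n 0
    rw [zero_add] at this
    have h4 : (Ls n 0).sum ≤ 2 ^ (4 * n + 1) := by omega
    exact_mod_cast h4
  have a4 := mul_le_mul_of_nonneg_right a3 he0.le
  have a5 : Ex q (r + 3) (GG q c R n 0) ≤ (1 - c / 2) ^ n + 2 ^ (4 * n + 1) * e := by linarith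
  have := mul_le_mul_of_nonneg_left a5 q1
  have := mul_le_mul_of_nonneg_left a2 q2
  linarith

end Pool.Agent.P.MP_d124bf_nt
end

-- part Pool.Agent.P.MP_d124bf_nt.Conf
section

/-!
Families of systems whose arrays at one site lie in a short interval.
-/

namespace Pool.Agent.P.MP_d124bf_nt

open Finset

variable {ι : Type} {q c : ℝ} {N ψ : ι → ℕ → ℕ → ℝ} {T : Finset ι} {u l : ℕ} {δ : ℝ}

def Conf (ψ : ι → ℕ → ℕ → ℝ) (T : Finset ι) (u l : ℕ) (δ : ℝ) : Prop :=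
  ∃ x : ι → ℝ, (∀ i ∈ T, Eqv (ψ i u l) (x i)) ∧ Set.InjOn x T ∧ ∀ i ∈ T, ∀ j ∈ T, |x i - x j| ≤ δ

theorem Conf.subset (h : Conf ψ T u l δ) {T' : Finset ι} (hT : T' ⊆ T) : Conf ψ T' u l δ := by
  obtain ⟨x, h1, h2, h3⟩ := h
  exact ⟨x, fun i hi => h1 i (hT hi), h2.mono (by exact_mod_cast hT),
    fun i hi j hj => h3 i (hT hi) j (hT hj)⟩

theorem Conf.card_le (h : Conf ψ T u l δ) (hS : ∀ i ∈ T, Sys q c (N i) (ψ i)) (hδ : 0 ≤ δ) :
    (T.card : ℝ) ≤ δ * 3 ^ u + 1 := by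
  obtain ⟨x, h1, h2, h3⟩ := h
  rcases T.eq_empty_or_nonempty with rfl | hne
  · simp only [card_empty, Nat.cast_zero]; positivity
  have hz : ∀ i ∈ T, ∃ z : ℤ, 3 ^ u * x i = z := by
    intro i hi
    obtain ⟨z, hz⟩ := ((hS i hi).three_pow 0 l u).symm.trans ((hS i hi).zero l)
    obtain ⟨n, hn⟩ := h1 i hi
    rw [zero_add, zero_add, hn] at hz
    exact ⟨z - 3 ^ u * n, by push_cast; linarith⟩
  choose! Z hZ using hz
  obtain ⟨i0, hi0, hmin⟩ := exists_min_image T x hne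
  have p3 : (0 : ℝ) < 3 ^ u := by positivity
  have h4 : T.card ≤ (Icc (Z i0) (Z i0 + ⌊δ * 3 ^ u⌋₊)).card := by
    apply card_le_card_of_injOn Z
    · intro i hi
      have hi' : i ∈ T := hi
      have a1 := mul_le_mul_of_nonneg_left (hmin i hi') p3.le
      have a2 := mul_le_mul_of_nonneg_left ((le_abs_self _).trans (h3 i hi' i0 hi0)) p3.le
      rw [mul_sub, hZ i hi', hZ i0 hi0] at a2
      rw [hZ i hi', hZ i0 hi0] at a1
      have a3 : Z i0 ≤ Z i := by exact_mod_cast a1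
      have a4 : Z i - Z i0 ≤ ⌊δ * 3 ^ u⌋ := Int.le_floor.2 (by push_cast; linarith)
      rw [← Int.natCast_floor_eq_floor (by positivity)] at a4
      simp only [coe_Icc, Set.mem_Icc]
      exact ⟨a3, by linarith⟩
    · intro i hi j hj hij
      apply h2 hi hj
      apply mul_left_cancel₀ p3.ne'
      rw [hZ i hi, hZ j hj, hij]
  rw [Int.card_Icc, show Z i0 + ⌊δ * 3 ^ u⌋₊ + 1 - Z i0 = ((⌊δ * 3 ^ u⌋₊ + 1 : ℕ) : ℤ) by
    push_cast; ring, Int.toNat_natCast] at h4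
  refine (Nat.cast_le.2 h4).trans ?_
  push_cast
  linarith [Nat.floor_le (show 0 ≤ δ * 3 ^ u by positivity)]

theorem Conf.left (h : Conf ψ T u l δ) (hS : ∀ i ∈ T, Sys q c (N i) (ψ i)) {d : ℕ} (hd : d ≤ u) :
    Conf ψ T (u - d) l (3 ^ d * δ) := by
  obtain ⟨x, h1, h2, h3⟩ := h
  have p3 : (0 : ℝ) < 3 ^ d := by positivity
  refine ⟨fun i => 3 ^ d * x i, fun i hi => ((hS i hi).three_sub hd l).trans ?_,
    fun i hi j hj hij => h2 hi hj (mul_left_cancel₀ p3.ne' hij), fun i hi j hj => ?_⟩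
  · simpa using (h1 i hi).mul_pow 3 d
  · rw [← mul_sub, abs_mul, abs_of_pos p3]
    exact mul_le_mul_of_nonneg_left (h3 i hi j hj) p3.le

theorem Conf.up (h : Conf ψ T u l δ) (hS : ∀ i ∈ T, Sys q c (N i) (ψ i)) (t : ℕ) :
    ∃ f : ι → ℤ, (∀ i ∈ T, f i ∈ Ico (0 : ℤ) (2 ^ t)) ∧
      ∀ k, Conf ψ (T.filter (fun i => f i = k)) u (l + t) (δ / 2 ^ t) := by
  obtain ⟨x, h1, h2, h3⟩ := h
  have hz : ∀ i ∈ T, ∃ n : ℤ, 2 ^ t * ψ i u (l + t) = x i + n := fun i hi =>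
    ((hS i hi).two_pow u l t).symm.trans (h1 i hi)
  choose! n hn using hz
  have p2 : (0 : ℝ) < 2 ^ t := by positivity
  refine ⟨fun i => n i % 2 ^ t, fun i _ => mem_Ico.2 ⟨Int.emod_nonneg _ (by positivity),
    Int.emod_lt_of_pos _ (by positivity)⟩, fun k => ⟨fun i => (x i + k) / 2 ^ t, fun i hi => ?_,
    fun i hi j hj hij => ?_, fun i hi j hj => ?_⟩⟩
  · obtain ⟨a1, a2⟩ := mem_filter.1 hi
    refine ⟨n i / 2 ^ t, ?_⟩
    have a3 : n i = k + 2 ^ t * (n i / 2 ^ t) := by rw [← a2, Int.emod_add_mul_ediv]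
    have a4 : (n i : ℝ) = k + 2 ^ t * ((n i / 2 ^ t : ℤ) : ℝ) := by exact_mod_cast a3
    have a5 := hn i a1
    field_simp
    linarith
  · have hi' : i ∈ T := (mem_filter.1 hi).1
    have hj' : j ∈ T := (mem_filter.1 hj).1
    apply h2 hi' hj'
    have : (x i + k) / 2 ^ t = (x j + k) / 2 ^ t := hij
    rw [div_left_inj' p2.ne'] at this
    linarith
  · rw [← sub_div, abs_div, abs_of_pos p2, show x i + k - (x j + k) = x i - x j by ring]
    exact div_le_div_of_nonneg_right (h3 i (mem_filter.1 hi).1 j (mem_filter.1 hj).1) p2.le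

theorem Conf.narrow (h : Conf ψ T u l δ) :
    ∃ f : ι → ℕ, (∀ i ∈ T, f i ∈ range (⌊2 * δ⌋₊ + 1)) ∧
      ∀ k, Conf ψ (T.filter (fun i => f i = k)) u l (min δ (1 / 2)) := by
  obtain ⟨x, h1, h2, h3⟩ := h
  rcases T.eq_empty_or_nonempty with rfl | hne
  · exact ⟨fun _ => 0, by simp, fun k => ⟨x, by simp, by simp, by simp⟩⟩
  obtain ⟨i0, hi0, hmin⟩ := exists_min_image T x hne
  refine ⟨fun i => ⌊2 * (x i - x i0)⌋₊, fun i hi => ?_, fun k => ⟨x,
    fun i hi => h1 i (mem_filter.1 hi).1, h2.mono (by exact_mod_cast filter_subset _ _),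
    fun i hi j hj => ?_⟩⟩
  · rw [mem_range, Nat.lt_succ_iff]
    exact Nat.floor_le_floor (by linarith [(le_abs_self _).trans (h3 i hi i0 hi0)])
  · obtain ⟨a1, a2⟩ := mem_filter.1 hi
    obtain ⟨b1, b2⟩ := mem_filter.1 hj
    refine le_min (h3 i a1 j b1) ?_
    have c1 := Nat.floor_le (show 0 ≤ 2 * (x i - x i0) by linarith [hmin i a1])
    have c2 := Nat.floor_le (show 0 ≤ 2 * (x j - x i0) by linarith [hmin j b1])
    have c3 := Nat.lt_floor_add_one (2 * (x i - x i0))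
    have c4 := Nat.lt_floor_add_one (2 * (x j - x i0))
    beta_reduce at a2 b2
    rw [a2] at c1 c3
    rw [b2] at c2 c4
    rw [abs_le]
    constructor <;> linarith

theorem Conf.top (h : Conf ψ T u l δ) (hδ : δ ≤ 1 / 2) {v : ι → ℝ} {s : ℕ} {w : ℝ}
    (hv : ∀ i ∈ T, |v i| ≤ 1 / 8 ∧ Eqv (ψ i u l) (v i) ∧ Eqv (ψ i u (l + s)) (v i / 2 ^ s + w)) :
    Conf ψ T u (l + s) (δ / 2 ^ s) := by
  obtain ⟨x, h1, h2, h3⟩ := h
  have p2 : (0 : ℝ) < 2 ^ s := by positivity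
  have key : ∀ i ∈ T, ∀ j ∈ T, v i - v j = x i - x j := by
    intro i hi j hj
    obtain ⟨n, hn⟩ := (hv i hi).2.1.symm.trans (h1 i hi)
    obtain ⟨m, hm⟩ := (hv j hj).2.1.symm.trans (h1 j hj)
    have a1 := abs_le.1 (hv i hi).1
    have a2 := abs_le.1 (hv j hj).1
    have a3 := abs_le.1 (h3 i hi j hj)
    have a4 : |((n - m : ℤ) : ℝ)| < 1 := by
      push_cast
      rw [abs_lt]
      constructor <;> linarith [a1.1, a1.2, a2.1, a2.2, a3.1, a3.2]
    rw [← Int.cast_abs] at a4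
    have a5 : n - m = 0 := Int.abs_lt_one_iff.1 (by exact_mod_cast a4)
    have a6 : (n : ℝ) = m := by exact_mod_cast sub_eq_zero.1 a5
    linarith
  refine ⟨fun i => v i / 2 ^ s + w, fun i hi => (hv i hi).2.2, fun i hi j hj hij => ?_,
    fun i hi j hj => ?_⟩
  · apply h2 hi hj
    have a1 : v i / 2 ^ s + w = v j / 2 ^ s + w := hij
    rw [add_left_inj, div_left_inj' p2.ne'] at a1
    linarith [key i hi j hj]
  · rw [show v i / 2 ^ s + w - (v j / 2 ^ s + w) = (v i - v j) / 2 ^ s by ring, key i hi j hj,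
      abs_div, abs_of_pos p2]
    exact div_le_div_of_nonneg_right (h3 i hi j hj) p2.le

theorem Sys.below_top {N ψ : ℕ → ℕ → ℝ} (S : Sys q c N ψ) {u l r s : ℕ} {v : ℝ}
    (ht : Eqv (ψ u (l + r)) (v / 2 ^ r + 1 / 2)) (hs : s < r) : Eqv (ψ u (l + s)) (v / 2 ^ s) := by
  obtain ⟨y, rfl⟩ : ∃ y, r = s + (y + 1) := ⟨r - s - 1, by omega⟩
  have h2 := S.two_pow u (l + s) (y + 1)
  rw [add_assoc] at h2
  refine (h2.trans (by simpa using ht.mul_pow 2 (y + 1))).trans ⟨2 ^ y, ?_⟩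
  push_cast
  field_simp
  ring

theorem Sys.run {N ψ : ℕ → ℕ → ℝ} (S : Sys q c N ψ) {u : ℕ} (hu : 1 ≤ u) (l : ℕ) :
    ∃ r : ℕ, ∃ v : ℝ, |v| ≤ 3 / 8 ∧ (r ≠ 0 → |v| ≤ 1 / 8) ∧
      Eqv (ψ u (l + r)) (v / 2 ^ r + 1 / 2) := by
  by_cases hw : Far (1 / 8) (ψ u l)
  · refine ⟨0, Int.fract (ψ u l) - 1 / 2, ?_, fun h => absurd rfl h, ⌊ψ u l⌋, by simp⟩
    have a1 := hw ⌊ψ u l⌋
    have a2 := hw (⌊ψ u l⌋ + 1)
    have a3 := Int.fract_nonneg (ψ u l)
    have a4 := Int.fract_lt_one (ψ u l)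
    rw [Int.self_sub_floor, abs_of_nonneg a3] at a1
    push_cast at a2
    rw [← sub_sub, Int.self_sub_floor, abs_of_neg (by linarith)] at a2
    rw [abs_le]
    constructor <;> linarith
  · obtain ⟨r, v, h1, h2, _⟩ := S.exists_top hu hw
    exact ⟨r, v, by linarith, fun _ => h1, h2⟩

theorem fibre_sum {κ : Type} [DecidableEq κ] {f : ι → κ} {K : Finset κ} (hf : ∀ i ∈ T, f i ∈ K)
    {F : ι → ℝ} {C : ℝ} (h : ∀ k ∈ K, ∑ i ∈ T.filter (fun i => f i = k), F i ≤ C) :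
    ∑ i ∈ T, F i ≤ K.card * C := by
  rw [← sum_fiberwise_of_maps_to hf, ← nsmul_eq_mul]
  exact sum_le_card_nsmul _ _ _ h

theorem exists_Q {f : ℕ → ℝ} (hf : ∀ d, 0 ≤ f d) {B : ℝ} (hB : 0 < B) (D n : ℕ) :
    ∃ Q, 0 ≤ Q ∧ (∀ d ≤ D, f d ≤ Q) ∧ (Q / B) ^ n ≤ ∑ d ∈ range (D + 1), (f d / B) ^ n := by
  obtain ⟨d0, h0, h1⟩ := exists_max_image (range (D + 1)) f ⟨0, by simp⟩
  exact ⟨f d0, hf d0, fun d hd => h1 d (mem_range.2 (by omega)),
    single_le_sum (f := fun d => (f d / B) ^ n) (fun d _ => by have := hf d; positivity) h0⟩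

end Pool.Agent.P.MP_d124bf_nt
end

-- part Pool.Agent.P.MP_d124bf_nt.Params
section

/-!
Choice of the parameters of the counting recursion.
-/

namespace Pool.Agent.P.MP_d124bf_nt

open Filter Topology

variable {q c : ℝ}

/-- an exponent `θ` with `E 3^(θ X) < 2^θ` -/
theorem exists_xy (h0 : 0 < q) (hq : q * Real.log 3 < Real.log 2) :
    ∃ x y : ℝ, 1 < x ∧ x ≤ 3 ∧ q * x + 1 - q < y ∧ y ≤ 2 ∧
      (∀ a b : ℕ, 2 ^ a ≤ 3 ^ b → y ^ a ≤ x ^ b) ∧ ∀ a b : ℕ, 3 ^ b ≤ 2 ^ a → x ^ b ≤ y ^ a := by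
  have l2 : 0 < Real.log 2 := Real.log_pos (by norm_num)
  have l3 : 0 < Real.log 3 := Real.log_pos (by norm_num)
  have l3' : Real.log 3 ≤ 2 := by
    have := Real.log_le_sub_one_of_pos (show (0 : ℝ) < 3 by norm_num)
    linarith
  have h1 : q < 1 := by
    have : Real.log 2 < Real.log 3 := Real.log_lt_log (by norm_num) (by norm_num)
    nlinarith
  set g := Real.log 2 - q * Real.log 3 with hg
  have hg0 : 0 < g := by linarith
  have hg1 : g ≤ 1 := by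
    have := Real.log_two_lt_d9
    have := mul_pos h0 l3
    linarith
  set θ := g / 8 with hθ
  have t0 : 0 < θ := by positivity
  have t1 : θ ≤ 1 / 8 := by linarith
  refine ⟨Real.exp (θ * Real.log 3), Real.exp (θ * Real.log 2), Real.one_lt_exp_iff.2 (by positivity),
    ?_, ?_, ?_, fun a b hab => ?_, fun a b hab => ?_⟩
  · rw [← Real.le_log_iff_exp_le (by norm_num)]; nlinarith
  · have a1 := Real.add_one_le_exp (θ * Real.log 2)
    have a2 : |θ * Real.log 3| ≤ 1 := by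
      rw [abs_of_pos (by positivity)]; nlinarith
    have a3 := (abs_le.1 (Real.abs_exp_sub_one_sub_id_le a2)).2
    have a4 : (θ * Real.log 3) ^ 2 ≤ (θ * 2) ^ 2 :=
      pow_le_pow_left₀ (by positivity) (by nlinarith) 2
    have a5 := mul_le_mul_of_nonneg_left (a3.trans a4) h0.le
    have a6 : q * (θ * 2) ^ 2 ≤ (θ * 2) ^ 2 := mul_le_of_le_one_left (by positivity) h1.le
    have a7 : (θ * 2) ^ 2 < θ * g := by rw [show g = 8 * θ by rw [hθ]; ring]; nlinarith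
    have a8 : θ * g = θ * Real.log 2 - q * (θ * Real.log 3) := by rw [hg]; ring
    linarith
  · rw [← Real.le_log_iff_exp_le (by norm_num)]; nlinarith
  · rw [← Real.exp_nat_mul, ← Real.exp_nat_mul, Real.exp_le_exp]
    have h2 : (2 : ℝ) ^ a ≤ 3 ^ b := by exact_mod_cast hab
    have h3 := Real.log_le_log (by positivity) h2
    rw [Real.log_pow, Real.log_pow] at h3
    nlinarith
  · rw [← Real.exp_nat_mul, ← Real.exp_nat_mul, Real.exp_le_exp]
    have h2 : (3 : ℝ) ^ b ≤ 2 ^ a := by exact_mod_cast hab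
    have h3 := Real.log_le_log (by positivity) h2
    rw [Real.log_pow, Real.log_pow] at h3
    nlinarith

theorem small_pow {a : ℝ} (h0 : 0 ≤ a) (h1 : a < 1) {e : ℝ} (he : 0 < e) :
    ∃ n0 : ℕ, ∀ n, n0 ≤ n → a ^ n ≤ e := by
  obtain ⟨n0, h⟩ := exists_pow_lt_of_lt_one he h1
  exact ⟨n0, fun n hn => (pow_le_pow_of_le_one h0 h1.le hn).trans h.le⟩

theorem params (h0 : 0 < q) (h1 : q < 1) (hc0 : 0 < c) (hc1 : c ≤ 1) {x y : ℝ} (hx : 1 < x)
    (hx3 : x ≤ 3) (hy : q * x + 1 - q < y) (hxy : ∀ a b : ℕ, 2 ^ a ≤ 3 ^ b → y ^ a ≤ x ^ b) (K1 : ℕ) :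
    ∃ n0 L0 : ℕ, 1 ≤ n0 ∧ 1 ≤ L0 ∧
      (∀ r < L0, (1 - c) ^ n0 * ((r + 5 : ℕ) * (2 ^ 4 * (8 * 2 ^ (r + 4)))) ≤ 1 / 2 / (r + 1) ^ 2) ∧
      ∀ r, L0 ≤ r → ∃ n D1 : ℕ, ∃ e : ℝ, K1 * (4 * n) ≤ r ∧ 3 ^ (D1 + 4 * n) ≤ 2 ^ r ∧ 0 < e ∧
        1 ≤ e ^ 2 * ((((r + 3 : ℕ) : ℝ) + 1) * q * (1 - q)) ∧
        (2 * ((1 - c / 2) ^ n + 2 ^ (4 * n + 1) * e)) ^ n0
            * ((D1 + 4 * n + 1 : ℕ) * (2 ^ (3 + 4 * n) * 8))
          + (2 * ((q * x + 1 - q) ^ (r + 3) / x ^ (D1 + 1))) ^ n0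
            * ((r + 3 + 4 * n + 1 : ℕ) * (2 ^ (3 + 4 * n) * (8 * 2 ^ (r + 3 + 4 * n))))
          ≤ 1 / 2 / (r + 1) ^ 2 := by
  set a := q * x + 1 - q with ha
  have a1 : 1 ≤ a := by rw [ha]; nlinarith
  have a3 : a ≤ 3 := by rw [ha]; nlinarith
  have y0 : 0 < y := by linarith
  set ϱ := a / y with hϱ
  have r0 : 0 < ϱ := by positivity
  have r1 : ϱ < 1 := (div_lt_one y0).2 hy
  set σ := (1 + ϱ) / 2 with hσ
  have s0 : 0 < σ := by positivity
  have s1 : σ < 1 := by linarith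
  have s2 : ϱ < σ := by linarith
  have hqq : 0 < q * (1 - q) := mul_pos h0 (by linarith)
  obtain ⟨K0, hK0⟩ := exists_nat_ge (4 / (q * (1 - q)))
  obtain ⟨K, hK1, hK2, hK3⟩ : ∃ K : ℕ, K1 ≤ K ∧ 4 ≤ K ∧ 4 ≤ K * (q * (1 - q)) := by
    refine ⟨K0 + K1 + 4, by omega, by omega, ?_⟩
    rw [← div_le_iff₀ hqq]
    push_cast
    have : (0 : ℝ) ≤ K1 := Nat.cast_nonneg _
    linarith
  obtain ⟨n1, hn1⟩ := small_pow (a := 1 - c / 2) (by linarith) (by linarith) (e := 1 / 8) (by norm_num)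
  have hn1' := hn1 (n1 + 1) (by omega)
  obtain ⟨G, hG⟩ : ∃ G : ℕ, G = K * 16 ^ (4 * (n1 + 1)) := ⟨_, rfl⟩
  have G4 : 4 ≤ G := by
    rw [hG]
    exact hK2.trans (Nat.le_mul_of_pos_right _ (by positivity))
  obtain ⟨L1, hL1⟩ : ∃ L1 : ℕ, ∀ r, L1 ≤ r → (r : ℝ) * (ϱ / σ) ^ r ≤ 1 / 54 := by
    have := tendsto_self_mul_const_pow_of_lt_one (r := ϱ / σ) (by positivity) ((div_lt_one s0).2 s2)
    exact eventually_atTop.1 (this.eventually (ge_mem_nhds (by norm_num)))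
  obtain ⟨L0, hL0⟩ : ∃ L0, L0 = G + L1 := ⟨_, rfl⟩
  obtain ⟨m1, hm1⟩ := small_pow (a := 1 - c) (by linarith) (by linarith)
    (e := 1 / ((L0 + 5) ^ 3 * (256 * 2 ^ (L0 + 4)))) (by positivity)
  obtain ⟨m2, hm2⟩ := small_pow (a := 1 / 2) (by norm_num) (by norm_num)
    (e := 1 / (4096 * (G : ℝ) ^ 8)) (by have : (0 : ℝ) < G := by exact_mod_cast (by omega : 0 < G)
                                        positivity)
  obtain ⟨m3, hm3⟩ := small_pow s0.le s1 (e := 1 / 131072) (by norm_num)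
  refine ⟨m1 + m2 + m3 + 1, L0, by omega, by omega, fun r hr => ?_, fun r hr => ?_⟩
  · have b1 := hm1 (m1 + m2 + m3 + 1) (by omega)
    have b2 : (r : ℝ) ≤ L0 := by exact_mod_cast hr.le
    have b3 : (2 : ℝ) ^ (r + 4) ≤ 2 ^ (L0 + 4) := pow_le_pow_right₀ (by norm_num) (by omega)
    refine (mul_le_mul_of_nonneg_right b1 (by positivity)).trans ?_
    rw [one_div_mul_eq_div, div_le_div_iff₀ (by positivity) (by positivity)]
    push_cast
    calc ((r : ℝ) + 5) * (2 ^ 4 * (8 * 2 ^ (r + 4))) * (r + 1) ^ 2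
        ≤ (L0 + 5) * (2 ^ 4 * (8 * 2 ^ (L0 + 4))) * (L0 + 5) ^ 2 := by gcongr; norm_num
      _ = _ := by ring
  obtain ⟨n0, hn0⟩ : ∃ n0, n0 = m1 + m2 + m3 + 1 := ⟨_, rfl⟩
  rw [← hn0]
  have b2 := hm2 n0 (by omega)
  have b3 := hm3 n0 (by omega)
  have rG : G ≤ r := by omega
  have r4 : 4 ≤ r := by omega
  have b1 := hL1 r (by omega)
  clear hm1 hm2 hm3 hL1 hn1
  obtain ⟨m, hm⟩ : ∃ m, m = Nat.log G r := ⟨_, rfl⟩
  have m1' : 1 ≤ m := by rw [hm]; exact Nat.le_log_of_pow_le (by omega) (by simpa using rG)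
  have g1 : G ^ m ≤ r := by rw [hm]; exact Nat.pow_log_le_self G (by omega)
  have g2 : r ≤ G ^ (2 * m) := by
    have := Nat.lt_pow_succ_log_self (b := G) (by omega) r
    rw [← hm] at this
    exact this.le.trans (Nat.pow_le_pow_right (by omega) (by omega))
  obtain ⟨n, hn⟩ : ∃ n, n = (n1 + 1) * m := ⟨_, rfl⟩
  have g3 : K * 16 ^ (4 * n) ≤ r := by
    refine le_trans ?_ g1
    rw [hG, mul_pow, ← pow_mul, hn, mul_assoc 4]
    exact Nat.mul_le_mul_right _ (Nat.le_self_pow (by omega) K)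
  have g4 : 16 ^ (4 * n) ≤ r := (Nat.le_mul_of_pos_left _ (by omega)).trans g3
  have g5 : 4 * n ≤ 16 ^ (4 * n) := (Nat.lt_pow_self (by norm_num)).le
  have g6 : 4 * n ≤ r := g5.trans g4
  have g7 : 2 ^ (4 * n) ≤ r := (Nat.pow_le_pow_left (by norm_num) _).trans g4
  have g8 : 3 ^ (4 * n) ≤ r := (Nat.pow_le_pow_left (by norm_num) _).trans g4
  have g9 : r ≤ 2 ^ r := Nat.lt_two_pow_self.le
  obtain ⟨Dm, hDm⟩ : ∃ Dm, Dm = Nat.log 3 (2 ^ r) := ⟨_, rfl⟩
  have d1 : 3 ^ Dm ≤ 2 ^ r := by rw [hDm]; exact Nat.pow_log_le_self 3 (by positivity)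
  have d2 : 2 ^ r ≤ 3 ^ (Dm + 1) := by
    rw [hDm]; exact (Nat.lt_pow_succ_log_self (by norm_num) _).le
  have d3 : 4 * n ≤ Dm := by rw [hDm]; exact Nat.le_log_of_pow_le (by norm_num) (g8.trans g9)
  have d4 : Dm ≤ r := (Nat.pow_le_pow_iff_right (by norm_num)).1
    ((Nat.pow_le_pow_left (by norm_num : 2 ≤ 3) Dm).trans d1)
  obtain ⟨D1, rfl⟩ := Nat.exists_eq_add_of_le' d3
  have d5 := hxy _ _ d2
  have k1 : K1 * (4 * n) ≤ r := (Nat.mul_le_mul hK1 g5).trans g3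
  set X : ℝ := 16 ^ n with hX
  have X0 : 0 < X := by positivity
  have c3 : (K : ℝ) * X ^ 4 ≤ r := by
    have : ((K * 16 ^ (4 * n) : ℕ) : ℝ) ≤ r := by exact_mod_cast g3
    push_cast at this
    rwa [mul_comm 4 n, pow_mul] at this
  have c2 : (r : ℝ) ≤ (G : ℝ) ^ (2 * m) := by exact_mod_cast g2
  have c4 : (4 : ℝ) ≤ r := by exact_mod_cast r4
  have c6 : ((4 * n : ℕ) : ℝ) ≤ r := by exact_mod_cast g6
  have c7 : (2 : ℝ) ^ (4 * n) ≤ r := by exact_mod_cast g7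
  have c8 : (3 : ℝ) ^ (4 * n) ≤ r := by exact_mod_cast g8
  have c9 : (r : ℝ) ≤ 2 ^ r := by exact_mod_cast g9
  have c10 : ((D1 + 4 * n : ℕ) : ℝ) ≤ r := by exact_mod_cast d4
  have cG : (1 : ℝ) ≤ G := by exact_mod_cast (by omega : 1 ≤ G)
  have e3 : 3 + 4 * n ≤ 2 * r := by omega
  have e4 : r + 3 + 4 * n ≤ 3 * r := by omega
  have e5 : ((r + 3 + 4 * n + 1 : ℕ) : ℝ) ≤ 4 * r := by
    exact_mod_cast (show r + 3 + 4 * n + 1 ≤ 4 * r by omega)
  have r1' : 1 ≤ r := by omega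
  refine ⟨n, D1, 1 / (2 * X ^ 2), k1, d1, by positivity, ?_, ?_⟩
  · clear d1 d2 g1 g2 g3 g4 g5 g7 g8 g9
    push_cast
    have h2 : 4 * X ^ 4 ≤ (r + 3 + 1) * q * (1 - q) := by
      have := mul_le_mul_of_nonneg_right c3 hqq.le
      have := mul_le_mul_of_nonneg_right hK3 (show 0 ≤ X ^ 4 by positivity)
      nlinarith
    rw [div_pow, one_pow, one_div, inv_mul_eq_div, le_div_iff₀ (by positivity)]
    nlinarith
  clear d1 d2 g1 g2 g3 g4 g5 g7 g8 g9 hDm hm hG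
  have T1 : 2 * ((1 - c / 2) ^ n + 2 ^ (4 * n + 1) * (1 / (2 * X ^ 2))) ≤ (1 / 2) ^ m := by
    have e1 : (2 : ℝ) ^ (4 * n + 1) * (1 / (2 * X ^ 2)) = 1 / X := by
      have : (2 : ℝ) ^ (4 * n + 1) = 2 * X := by
        rw [hX, pow_succ, pow_mul]; norm_num; ring
      rw [this]; field_simp
    have e2 : 1 / X ≤ (1 - c / 2) ^ n := by
      rw [hX, ← one_div_pow]
      exact pow_le_pow_left₀ (by norm_num) (by linarith) n
    have e3 : (1 - c / 2) ^ n ≤ (1 / 8) ^ m := by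
      rw [hn, pow_mul]
      exact pow_le_pow_left₀ (pow_nonneg (by linarith) _) hn1' m
    have e4 : (1 / 8 : ℝ) ^ m = (1 / 4) ^ m * (1 / 2) ^ m := by rw [← mul_pow]; norm_num
    have e5 : (1 / 4 : ℝ) ^ m ≤ 1 / 4 := pow_le_of_le_one (by norm_num) (by norm_num) (by omega)
    have e6 := mul_le_mul_of_nonneg_right e5 (show (0 : ℝ) ≤ (1 / 2) ^ m by positivity)
    rw [e1]
    linarith
  have T2 : 2 * (a ^ (r + 3) / x ^ (D1 + 1)) ≤ σ ^ r := by
    have e1 : a ^ (r + 3) / x ^ (D1 + 1) = a ^ 3 * x ^ (4 * n) * (a ^ r / x ^ (D1 + 4 * n + 1)) := by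
      have : x ≠ 0 := by linarith
      field_simp
      ring
    have e2 : a ^ r / x ^ (D1 + 4 * n + 1) ≤ ϱ ^ r := by
      rw [hϱ, div_pow]
      exact div_le_div_of_nonneg_left (by positivity) (by positivity) d5
    have e3 : a ^ 3 * x ^ (4 * n) ≤ 3 ^ 3 * r :=
      mul_le_mul (pow_le_pow_left₀ (by linarith) a3 3)
        ((pow_le_pow_left₀ (by linarith) hx3 _).trans c8) (by positivity) (by norm_num)
    have e4 := mul_le_mul e3 e2 (by positivity) (by positivity)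
    rw [div_pow, ← mul_div_assoc, div_le_div_iff₀ (by positivity) (by norm_num)] at b1
    rw [e1]
    linarith
  have p0 : 0 ≤ 2 * ((1 - c / 2) ^ n + 2 ^ (4 * n + 1) * (1 / (2 * X ^ 2))) := by
    have : 0 ≤ (1 - c / 2) ^ n := pow_nonneg (by linarith) _
    positivity
  have U1 : (2 * ((1 - c / 2) ^ n + 2 ^ (4 * n + 1) * (1 / (2 * X ^ 2)))) ^ n0
      ≤ 1 / (4096 * (r : ℝ) ^ 4) := by
    refine (pow_le_pow_left₀ p0 T1 n0).trans ?_
    rw [← pow_mul, mul_comm m, pow_mul]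
    refine (pow_le_pow_left₀ (by positivity) b2 m).trans ?_
    rw [one_div_pow, mul_pow]
    apply one_div_le_one_div_of_le (by positivity)
    refine mul_le_mul (le_self_pow₀ (by norm_num) (by omega)) ?_ (by positivity) (by positivity)
    refine (pow_le_pow_left₀ (by positivity) c2 4).trans (le_of_eq ?_)
    rw [← pow_mul, ← pow_mul]; congr 1; ring
  have U2 : (2 * (a ^ (r + 3) / x ^ (D1 + 1))) ^ n0 ≤ 1 / 131072 ^ r := by
    refine (pow_le_pow_left₀ (by positivity) T2 n0).trans ?_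
    rw [← pow_mul, mul_comm r, pow_mul, ← one_div_pow]
    exact pow_le_pow_left₀ (by positivity) b3 r
  have V1 : ((D1 + 4 * n + 1 : ℕ) : ℝ) * (2 ^ (3 + 4 * n) * 8) * (r + 1) ^ 2 ≤ 1024 * (r : ℝ) ^ 4 := by
    have f1 : ((D1 + 4 * n + 1 : ℕ) : ℝ) ≤ 2 * r := by push_cast at c10 ⊢; linarith
    have f2 : (2 : ℝ) ^ (3 + 4 * n) ≤ 8 * r := by rw [pow_add]; norm_num; exact c7
    calc _ ≤ 2 * (r : ℝ) * (8 * r * 8) * (2 * r) ^ 2 := by gcongr; linarith
      _ = 512 * (r : ℝ) ^ 4 := by ring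
      _ ≤ _ := by gcongr; norm_num
  have V2 : ((r + 3 + 4 * n + 1 : ℕ) : ℝ) * (2 ^ (3 + 4 * n) * (8 * 2 ^ (r + 3 + 4 * n))) * (r + 1) ^ 2
      ≤ 131072 ^ r / 4 := by
    have f1 : (2 : ℝ) ^ (3 + 4 * n) ≤ 2 ^ (2 * r) := pow_le_pow_right₀ (by norm_num) e3
    have f2 : (2 : ℝ) ^ (r + 3 + 4 * n) ≤ 2 ^ (3 * r) := pow_le_pow_right₀ (by norm_num) e4
    have f3 : (512 : ℝ) ≤ 512 ^ r := le_self_pow₀ (by norm_num) (by omega)
    calc _ ≤ 4 * (r : ℝ) * (2 ^ (2 * r) * (8 * 2 ^ (3 * r))) * (2 * r) ^ 2 := by gcongr; linarith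
      _ ≤ 4 * (2 : ℝ) ^ r * (2 ^ (2 * r) * (8 * 2 ^ (3 * r))) * (2 * 2 ^ r) ^ 2 := by gcongr
      _ = 512 * (2 ^ 8) ^ r / 4 := by rw [← pow_mul]; ring
      _ ≤ 512 ^ r * (2 ^ 8) ^ r / 4 := by gcongr
      _ = _ := by rw [← mul_pow]; norm_num
  rw [le_div_iff₀ (by positivity), add_mul, mul_assoc, mul_assoc _ _ (((r : ℝ) + 1) ^ 2)]
  have W1 := mul_le_mul U1 V1 (by positivity) (by positivity)
  have W2 := mul_le_mul U2 V2 (by positivity) (by positivity)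
  have e1 : 1 / (4096 * (r : ℝ) ^ 4) * (1024 * (r : ℝ) ^ 4) = 1 / 4 := by field_simp; norm_num
  have e2 : 1 / (131072 : ℝ) ^ r * (131072 ^ r / 4) = 1 / 4 := by field_simp
  linarith

end Pool.Agent.P.MP_d124bf_nt
end

-- part Pool.Agent.P.MP_d124bf_nt.Rec
section

/-!
The counting recursion: a high power of the block majorant is summable over the family.
-/

namespace Pool.Agent.P.MP_d124bf_nt

open Finset

variable {q c : ℝ}

theorem inv_sq_sum (n : ℕ) :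
    ∑ k ∈ range (n + 1), (1 / 2 / ((k : ℝ) + 1) ^ 2 : ℝ) ≤ 1 - 1 / 2 / ((n : ℝ) + 1) := by
  induction n with
  | zero => norm_num
  | succ n ih =>
    rw [sum_range_succ]
    push_cast
    have : 1 / 2 / ((n : ℝ) + 1 + 1) ^ 2 ≤ 1 / 2 / (n + 1) - 1 / 2 / (n + 1 + 1) := by
      rw [div_sub_div _ _ (by positivity) (by positivity), div_le_div_iff₀ (by positivity) (by positivity)]
      have : (0 : ℝ) ≤ n := Nat.cast_nonneg n
      nlinarith
    linarith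

theorem pow3_le {d s : ℕ} (h : d ≤ s) : 4 * ((3 : ℝ) ^ d / 2 ^ s + 1) ≤ 8 * 2 ^ s := by
  have a1 : (3 : ℝ) ^ d ≤ 2 ^ s * 2 ^ s := by
    rw [← mul_pow]
    exact (pow_le_pow_right₀ (by norm_num) h).trans (pow_le_pow_left₀ (by norm_num) (by norm_num) s)
  have a2 : (1 : ℝ) ≤ 2 ^ s := one_le_pow₀ (by norm_num)
  have a3 : (3 : ℝ) ^ d / 2 ^ s ≤ 2 ^ s := by rwa [div_le_iff₀ (by positivity)]
  linarith

theorem flat (h0 : 0 < q) (h1 : q < 1) (hc0 : 0 < c) (hc : c ≤ 4 * q * (1 - q) ^ 3) (hc1 : c ≤ 1)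
    {x y : ℝ} (hx : 1 < x) (hx3 : x ≤ 3) (hy : q * x + 1 - q < y)
    (hxy : ∀ a b : ℕ, 2 ^ a ≤ 3 ^ b → y ^ a ≤ x ^ b) (K1 : ℕ) (hK1 : 1 ≤ K1) :
    ∃ n0 : ℕ, 1 ≤ n0 ∧ ∀ (ι : Type) (N ψ : ι → ℕ → ℕ → ℝ) (B : ι → ℝ) (T0 : Finset ι) (J E g l0 : ℕ),
      (∀ i ∈ T0, Sys q c (N i) (ψ i)) → (∀ i ∈ T0, ∀ u < 4, ∀ l ≤ E + 4 + g, N i u l = 0) →
      (∀ i ∈ T0, 0 < B i) → (∀ i ∈ T0, ∀ u ≤ J, ∀ l, E ≤ l → l ≤ E + 4 + g → N i u l ≤ B i) →
      E ≤ l0 + K1 * g → ∀ h l, E ≤ l + h → l0 ≤ l → l ≤ E + 4 + g → ∀ T ⊆ T0, ∀ u ≤ J, ∀ δ : ℝ,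
        0 ≤ δ → Conf ψ T u l δ → δ * 3 ^ u * 2 ^ l ≤ 2 ^ E →
        ∑ i ∈ T, (N i u l / B i) ^ n0 ≤ 4 * (2 * δ + 1) := by
  classical
  obtain ⟨n0, L0, hn0, hL0, hshort, hlong⟩ := params h0 h1 hc0 hc1 hx hx3 hy hxy K1
  refine ⟨n0, hn0, fun ι N ψ B T0 J E g l0 hS hZ hB0 hB hE => ?_⟩
  have le1 : ∀ i ∈ T0, ∀ u ≤ J, ∀ l ≤ E + 4 + g, (N i u l / B i) ^ n0 ≤ 1 := by
    intro i hi u hu l hl
    refine pow_le_one₀ (div_nonneg ((hS i hi).nn _ _) (hB0 i hi).le) ((div_le_one (hB0 i hi)).2 ?_)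
    rcases le_total E l with h | h
    · exact hB i hi u hu l h hl
    · obtain ⟨t, rfl⟩ := Nat.exists_eq_add_of_le h
      exact (hS i hi).back h0.le h1.le (hZ i hi) (h := t) (by omega)
        (fun d _ => hB i hi _ (by omega) _ le_rfl (by omega))
  have count : ∀ T ⊆ T0, ∀ u ≤ J, ∀ l ≤ E + 4 + g, ∀ (l' : ℕ) (δ : ℝ), 0 ≤ δ → Conf ψ T u l' δ →
      δ * 3 ^ u ≤ 1 → ∑ i ∈ T, (N i u l / B i) ^ n0 ≤ 2 := by
    intro T hT u hu l hl l' δ hδ hC h3
    refine (sum_le_card_nsmul _ _ _ (fun i hi => le1 i (hT hi) u hu l hl)).trans ?_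
    have := hC.card_le (fun i hi => hS i (hT hi)) hδ
    rw [nsmul_eq_mul]
    linarith
  have widen : ∀ l, (∀ T ⊆ T0, ∀ u ≤ J, ∀ δ : ℝ, 0 ≤ δ → δ ≤ 1 / 2 → Conf ψ T u l δ →
      δ * 3 ^ u * 2 ^ l ≤ 2 ^ E → ∑ i ∈ T, (N i u l / B i) ^ n0 ≤ 4) →
      ∀ T ⊆ T0, ∀ u ≤ J, ∀ δ : ℝ, 0 ≤ δ → Conf ψ T u l δ → δ * 3 ^ u * 2 ^ l ≤ 2 ^ E →
        ∑ i ∈ T, (N i u l / B i) ^ n0 ≤ 4 * (2 * δ + 1) := by
    intro l H T hT u hu δ hδ hC h3
    obtain ⟨f, hf, hf'⟩ := hC.narrow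
    refine (fibre_sum hf (C := 4) (fun k _ => H _ ((filter_subset _ _).trans hT) u hu _
      (le_min hδ (by norm_num)) (min_le_right _ _) (hf' k) (le_trans ?_ h3))).trans ?_
    · gcongr
      exact min_le_left _ _
    · rw [card_range]
      push_cast
      linarith [Nat.floor_le (show 0 ≤ 2 * δ by positivity)]
  have base : ∀ l, E ≤ l → l ≤ E + 4 + g → ∀ T ⊆ T0, ∀ u ≤ J, ∀ δ : ℝ, 0 ≤ δ → Conf ψ T u l δ →
      δ * 3 ^ u * 2 ^ l ≤ 2 ^ E → ∑ i ∈ T, (N i u l / B i) ^ n0 ≤ 4 * (2 * δ + 1) := by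
    intro l hl hl' T hT u hu δ hδ hC h3
    have a1 : (2 : ℝ) ^ E ≤ 1 * 2 ^ l := by rw [one_mul]; exact pow_le_pow_right₀ (by norm_num) hl
    have := count T hT u hu l hl' l δ hδ hC (le_of_mul_le_mul_right (h3.trans a1) (by positivity))
    linarith
  intro h
  induction h with
  | zero => intro l hl _ hl'; exact base l hl hl'
  | succ h ih =>
    intro l hl hl0 hl'
    rcases le_or_gt E l with hEl | hEl
    · exact base l hEl hl'
    refine widen l (fun T hT u hu δ hδ hδ' hC h3 => ?_)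
    have hST : ∀ i ∈ T, Sys q c (N i) (ψ i) := fun i hi => hS i (hT hi)
    rcases lt_or_ge u 4 with hu4 | hu4
    · rw [sum_eq_zero (fun i hi => by rw [hZ i (hT hi) u hu4 l hl', zero_div, zero_pow (by omega)])]
      norm_num
    have land : ∀ T' ⊆ T, ∀ r t d : ℕ, 1 ≤ t → l + r + t ≤ E + 4 + g →
        Conf ψ T' u (l + r) (δ / 2 ^ r) → ∑ i ∈ T', (N i (u - d) (l + r + t) / B i) ^ n0
          ≤ 2 ^ t * (4 * (3 ^ d / 2 ^ (r + t) + 1)) := by
      intro T' hT' r t d ht hrow hC'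
      obtain ⟨f, hf, hf'⟩ := hC'.up (fun i hi => hST i (hT' hi)) t
      have hd : min d u ≤ u := min_le_right _ _
      rw [show u - d = u - min d u by omega]
      refine (fibre_sum hf (C := 4 * (3 ^ d / 2 ^ (r + t) + 1)) (fun k _ => ?_)).trans
        (le_of_eq (by rw [Int.card_Ico, sub_zero, show (2 : ℤ) ^ t = ((2 ^ t : ℕ) : ℤ) by push_cast; rfl,
          Int.toNat_natCast]; push_cast; rfl))
      have hsub : T'.filter (fun i => f i = k) ⊆ T := (filter_subset _ _).trans hT'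
      refine (ih (l + r + t) (by omega) (by omega) hrow _ (hsub.trans hT) _ (by omega) _
        (by positivity) ((hf' k).left (fun i hi => hST i (hsub hi)) hd) (le_trans (le_of_eq ?_) h3)).trans ?_
      · have e : (3 : ℝ) ^ u = 3 ^ min d u * 3 ^ (u - min d u) := by
          rw [← pow_add]; congr 1; omega
        rw [e, pow_add, pow_add]
        field_simp
      · have a1 : (3 : ℝ) ^ min d u ≤ 3 ^ d := pow_le_pow_right₀ (by norm_num) (min_le_left _ _)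
        have a2 : 2 * ((3 : ℝ) ^ min d u * (δ / 2 ^ r / 2 ^ t))
            = 3 ^ min d u * (2 * δ) / 2 ^ (r + t) := by rw [pow_add]; field_simp
        have a3 : (3 : ℝ) ^ min d u * (2 * δ) ≤ 3 ^ d * 1 :=
          mul_le_mul a1 (by linarith) (by positivity) (by positivity)
        rw [a2]
        rw [mul_one] at a3
        gcongr
    have hrun : ∀ i ∈ T, ∃ r : ℕ, ∃ v : ℝ, |v| ≤ 3 / 8 ∧ (r ≠ 0 → |v| ≤ 1 / 8) ∧
      Eqv (ψ i u (l + r)) (v / 2 ^ r + 1 / 2) := fun i hi => (hST i hi).run (by omega) l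
    choose! r v hv1 hv2 hv3 using hrun
    obtain ⟨H, rfl⟩ := Nat.exists_eq_add_of_le hEl.le
    rw [← sum_fiberwise_of_maps_to (g := fun i => min (r i) (H + 1)) (t := range (H + 1 + 1))
      (fun i _ => mem_range.2 (by omega)), sum_range_succ]
    have term : ∑ i ∈ T.filter (fun i => min (r i) (H + 1) = H + 1), (N i u l / B i) ^ n0 ≤ 2 := by
      refine count _ ((filter_subset _ _).trans hT) u hu l hl' (l + H) (δ / 2 ^ H) (by positivity)
        ((hC.subset (filter_subset _ _)).top hδ' (v := v) (w := 0) (fun i hi => ?_)) ?_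
      · obtain ⟨a1, a2⟩ := mem_filter.1 hi
        have a3 : H < r i := by omega
        refine ⟨hv2 i a1 (by omega), ?_, ?_⟩
        · simpa using (hST i a1).below_top (s := 0) (hv3 i a1) (by omega)
        · simpa using (hST i a1).below_top (hv3 i a1) a3
      · rw [pow_add, mul_comm ((2 : ℝ) ^ l)] at h3
        have := le_of_mul_le_mul_right h3 (by positivity)
        rw [div_mul_eq_mul_div, div_le_one (by positivity)]
        exact this
    have cls : ∀ k ∈ range (H + 1), ∑ i ∈ T.filter (fun i => min (r i) (H + 1) = k),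
        (N i u l / B i) ^ n0 ≤ 1 / 2 / ((k : ℝ) + 1) ^ 2 := by
      intro k hk
      rw [mem_range] at hk
      set T' := T.filter (fun i => min (r i) (H + 1) = k) with hT'
      have sub : T' ⊆ T := filter_subset _ _
      have rk : ∀ i ∈ T', r i = k := fun i hi => by
        have := (mem_filter.1 hi).2
        omega
      have hC' : Conf ψ T' u (l + k) (δ / 2 ^ k) := by
        rcases Nat.eq_zero_or_pos k with rfl | hk0
        · simpa using hC.subset sub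
        · refine (hC.subset sub).top hδ' (v := v) (w := 1 / 2) (fun i hi => ?_)
          have a1 := sub hi
          have a2 := rk i hi
          refine ⟨hv2 i a1 (by omega), ?_, a2 ▸ hv3 i a1⟩
          simpa using (hST i a1).below_top (s := 0) (hv3 i a1) (by omega)
      rcases lt_or_ge k L0 with hkL | hkL
      · refine le_trans ?_ (hshort k hkL)
        have s1 : ∀ i ∈ T', (N i u l / B i) ^ n0 ≤ (1 - c) ^ n0 *
            ∑ d ∈ range (k + 4 + 1), (N i (u - d) (l + k + 4) / B i) ^ n0 := by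
          intro i hi
          have a1 := sub hi
          have b0 := hB0 i (hT a1)
          obtain ⟨Q, q0, q1, q2⟩ := exists_Q (f := fun d => N i (u - d) (l + k + 4))
            (fun d => (hST i a1).nn _ _) b0 (k + 4) n0
          have a2 := (hST i a1).small' h0.le h1.le hc hc1 (hZ i (hT a1)) k u l (v i) (hv1 i a1)
            (rk i hi ▸ hv3 i a1) (by omega) q1
          refine le_trans ?_ (mul_le_mul_of_nonneg_left q2 (pow_nonneg (by linarith) _))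
          rw [← mul_pow, ← mul_div_assoc]
          exact pow_le_pow_left₀ (div_nonneg ((hST i a1).nn _ _) b0.le)
            (div_le_div_of_nonneg_right a2 b0.le) _
        refine (sum_le_sum s1).trans ?_
        rw [← mul_sum, sum_comm]
        refine mul_le_mul_of_nonneg_left ?_ (pow_nonneg (by linarith) _)
        refine (sum_le_card_nsmul _ _ (2 ^ 4 * (8 * 2 ^ (k + 4))) (fun d hd => ?_)).trans
          (le_of_eq (by rw [card_range, nsmul_eq_mul]))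
        exact (land T' sub k 4 d (by norm_num) (by omega) hC').trans
          (mul_le_mul_of_nonneg_left (pow3_le (by have := mem_range.1 hd; omega)) (by positivity))
      · obtain ⟨n, D1, e, p1, p2, p3, p4, p5⟩ := hlong k hkL
        refine le_trans ?_ p5
        have hng : 4 * n ≤ g := Nat.le_of_mul_le_mul_left (p1.trans (by omega)) hK1
        have p2' : (3 : ℝ) ^ (D1 + 4 * n) ≤ 2 ^ k := by exact_mod_cast p2
        clear p2 p5
        set g1 := (1 - c / 2) ^ n + 2 ^ (4 * n + 1) * e with hg1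
        set g2 := (q * x + 1 - q) ^ (k + 3) / x ^ (D1 + 1) with hg2
        have g10 : 0 ≤ g1 := add_nonneg (pow_nonneg (by linarith) _) (by positivity)
        have g20 : 0 ≤ g2 := div_nonneg (pow_nonneg (by nlinarith) _) (by positivity)
        have s1 : ∀ i ∈ T', (N i u l / B i) ^ n0 ≤ (2 * g1) ^ n0 *
            ∑ d ∈ range (D1 + 4 * n + 1), (N i (u - d) (l + k + (3 + 4 * n)) / B i) ^ n0
            + (2 * g2) ^ n0 *
            ∑ d ∈ range (k + 3 + 4 * n + 1), (N i (u - d) (l + k + (3 + 4 * n)) / B i) ^ n0 := by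
          intro i hi
          have a1 := sub hi
          have b0 := hB0 i (hT a1)
          rw [← add_assoc (l + k)]
          obtain ⟨Q1, q0, q1, q2⟩ := exists_Q (f := fun d => N i (u - d) (l + k + 3 + 4 * n))
            (fun d => (hST i a1).nn _ _) b0 (D1 + 4 * n) n0
          obtain ⟨Q2, q3, q4, q5⟩ := exists_Q (f := fun d => N i (u - d) (l + k + 3 + 4 * n))
            (fun d => (hST i a1).nn _ _) b0 (k + 3 + 4 * n) n0
          have a2 := (hST i a1).big' h0 h1 hc0.le hc hc1 (hZ i (hT a1)) (by omega) q1 q4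
            (hv2 i a1 (by rw [rk i hi]; omega)) (rk i hi ▸ hv3 i a1) p2' p3 p4 hx.le
          have a3 : N i u l / B i ≤ g1 * (Q1 / B i) + g2 * (Q2 / B i) :=
            (div_le_div_of_nonneg_right a2 b0.le).trans (le_of_eq (by ring))
          refine (pow_le_pow_left₀ (div_nonneg ((hST i a1).nn _ _) b0.le) a3 n0).trans ?_
          refine (add_pow_le (by positivity) (by positivity) n0).trans ?_
          refine le_trans ?_ (add_le_add (mul_le_mul_of_nonneg_left q2 (by positivity))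
            (mul_le_mul_of_nonneg_left q5 (by positivity)))
          refine (mul_le_mul_of_nonneg_right (pow_le_pow_right₀ (by norm_num) (Nat.sub_le n0 1))
            (by positivity)).trans (le_of_eq ?_)
          simp only [mul_pow]
          ring
        refine (sum_le_sum s1).trans ?_
        rw [sum_add_distrib, ← mul_sum, ← mul_sum, sum_comm, sum_comm (s := T')]
        refine add_le_add (mul_le_mul_of_nonneg_left ?_ (by positivity))
          (mul_le_mul_of_nonneg_left ?_ (by positivity))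
        · refine (sum_le_card_nsmul _ _ (2 ^ (3 + 4 * n) * 8) (fun d hd => ?_)).trans
            (le_of_eq (by rw [card_range, nsmul_eq_mul]))
          refine (land T' sub k _ d (by omega) (by omega) hC').trans
            (mul_le_mul_of_nonneg_left ?_ (by positivity))
          have a1 : (3 : ℝ) ^ d ≤ 2 ^ (k + (3 + 4 * n)) :=
            ((pow_le_pow_right₀ (by norm_num) (by have := mem_range.1 hd; omega)).trans p2').trans
              (pow_le_pow_right₀ (by norm_num) (by omega))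
          have := (div_le_one (by positivity)).2 a1
          linarith
        · refine (sum_le_card_nsmul _ _ (2 ^ (3 + 4 * n) * (8 * 2 ^ (k + 3 + 4 * n)))
            (fun d hd => ?_)).trans (le_of_eq (by rw [card_range, nsmul_eq_mul]))
          refine (land T' sub k _ d (by omega) (by omega) hC').trans
            (mul_le_mul_of_nonneg_left ?_ (by positivity))
          rw [← add_assoc]
          exact pow3_le (by have := mem_range.1 hd; omega)
    have s2 := (sum_le_sum cls).trans (inv_sq_sum H)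
    have : 0 ≤ 1 / 2 / ((H : ℝ) + 1) := by positivity
    linarith

end Pool.Agent.P.MP_d124bf_nt
end

-- part Pool.Agent.P.MP_d124bf_nt.Chain
section

/-!
One block for a family of systems, and the chain of blocks.
-/

namespace Pool.Agent.P.MP_d124bf_nt

open Finset

variable {q c : ℝ}

theorem blockG (h0 : 0 < q) (hq : q * Real.log 3 < Real.log 2) (hc0 : 0 < c)
    (hc : c ≤ 4 * q * (1 - q) ^ 3) (hc1 : c ≤ 1) :
    ∃ n0 m0 : ℕ, 1 ≤ n0 ∧ 2 ≤ m0 ∧ ∀ (ι : Type) (N ψ : ι → ℕ → ℕ → ℝ) (T : Finset ι),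
      (∀ i ∈ T, Sys q c (N i) (ψ i)) → ∀ u l : ℕ, 9 ≤ u / m0 → Conf ψ T u l 1 →
      ∃ U : ι → ℝ, ∃ Z : Finset (ℕ × ℕ), (∀ i ∈ T, 0 ≤ U i ∧ U i ≤ 1) ∧ ∑ i ∈ T, U i ^ n0 ≤ 12 ∧
        (∀ s ∈ Z, u / m0 ≤ s.1 ∧ s.1 ≤ u) ∧ Z.card ≤ u ^ 2 ∧
        ∀ i ∈ T, N i u l ≤ U i * ∑ s ∈ Z, N i s.1 s.2 + 3 * (1 / 2) ^ (u / m0) := by
  obtain ⟨x, y, hx, hx3, hy, hy2, hxy, -⟩ := exists_xy h0 hq
  have h1 : q < 1 := by
    have l2 : 0 < Real.log 2 := Real.log_pos (by norm_num)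
    have : Real.log 2 < Real.log 3 := Real.log_lt_log (by norm_num) (by norm_num)
    nlinarith
  set a := q * x + 1 - q with ha
  have a1 : 1 ≤ a := by rw [ha]; nlinarith
  have a3 : a ≤ 3 := by rw [ha]; nlinarith
  have y0 : 0 < y := by linarith
  have x0 : 0 < x := by linarith
  have a0 : 0 < a := by linarith
  have r1 : a / y < 1 := (div_lt_one y0).2 hy
  obtain ⟨m1, hm1⟩ := small_pow (a := a / y) (by positivity) r1 (e := 1 / 18) (by norm_num)
  obtain ⟨m0, hm0⟩ : ∃ m0, m0 = m1 + 2 := ⟨_, rfl⟩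
  have hm := hm1 m0 (by omega)
  have m2 : 2 ≤ m0 := by omega
  obtain ⟨n0, hn0, H⟩ := flat h0 h1 hc0 hc hc1 hx hx3 hy hxy (4 * m0) (by omega)
  refine ⟨n0, m0, hn0, m2, fun ι N ψ T hS u l ht hC => ?_⟩
  obtain ⟨t, htu⟩ : ∃ t, t = u / m0 := ⟨_, rfl⟩
  rw [← htu] at ht ⊢
  have u1 : m0 * t ≤ u := by rw [htu]; exact Nat.mul_div_le u m0
  have u2 : u < m0 * (t + 1) := by rw [htu]; exact Nat.lt_mul_div_succ u (by omega)
  have u3 : 2 * t ≤ u := (Nat.mul_le_mul_right t m2).trans u1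
  obtain ⟨g, rfl⟩ : ∃ g, t = 4 + g := ⟨t - 4, by omega⟩
  have u4 : 2 * u ≤ 4 * m0 * g := by
    have : m0 * (2 * (4 + g + 1)) ≤ m0 * (4 * g) := Nat.mul_le_mul_left _ (by omega)
    nlinarith
  obtain ⟨R, r2, r3, r4, r5⟩ : ∃ R : ℕ, 3 ^ u ≤ 2 ^ (R + 1) ∧ 2 ^ R ≤ 3 ^ u ∧ u ≤ R + 1 ∧ R + 1 ≤ 2 * u := by
    have b1 : 2 ^ Nat.log 2 (3 ^ u) ≤ 3 ^ u := Nat.pow_log_le_self 2 (by positivity)
    have b2 : 3 ^ u < 2 ^ (Nat.log 2 (3 ^ u) + 1) := Nat.lt_pow_succ_log_self (by norm_num) _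
    refine ⟨Nat.log 2 (3 ^ u), b2.le, b1, ?_, ?_⟩
    · exact (Nat.pow_le_pow_iff_right (by norm_num)).1
        ((Nat.pow_le_pow_left (by norm_num : 2 ≤ 3) u).trans b2.le)
    · refine (Nat.pow_lt_pow_iff_right (a := 2) (by norm_num)).1 (lt_of_le_of_lt b1 ?_)
      rw [pow_mul]
      exact Nat.pow_lt_pow_left (by norm_num) (by omega)
  have r6 := hxy _ _ r3
  have r7 : (3 : ℝ) ^ u ≤ 2 ^ (R + 1) := by exact_mod_cast r2
  clear r2 r3 hxy
  obtain ⟨E, hE⟩ : ∃ E, E = l + (R + 1) := ⟨_, rfl⟩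
  set W : ℕ → ℕ → ℝ := fun u' l' => x ^ (4 + g) * a ^ (E + 4 + g) / (x ^ u' * a ^ l') with hW
  have W0 : ∀ u' l', 0 ≤ W u' l' := fun u' l' => by simp only [hW]; positivity
  have W1 : ∀ u' l', W (u' + 1) l' = q * W u' (l' + 1) + (1 - q) * W (u' + 1) (l' + 1) := by
    intro u' l'
    simp only [hW, pow_succ]
    field_simp
    rw [ha]; ring
  have W2 : ∀ u' ≤ 4 + g, ∀ l' ≤ E + 4 + g, 1 ≤ W u' l' := by
    intro u' hu l' hl
    simp only [hW]
    rw [one_le_div (by positivity)]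
    exact mul_le_mul (pow_le_pow_right₀ hx.le hu) (pow_le_pow_right₀ a1 hl) (by positivity)
      (by positivity)
  have W3 : W u l ≤ 2 * (1 / 2) ^ (4 + g) := by
    have e1 : W u l = x ^ (4 + g) * a ^ (4 + g) * ((a / y) ^ (R + 1) * (y * (y ^ R / x ^ u))) := by
      simp only [hW]
      rw [hE, div_pow]
      field_simp
      ring
    have e2 : x ^ (4 + g) * a ^ (4 + g) ≤ 9 ^ (4 + g) := by
      rw [← mul_pow]
      exact pow_le_pow_left₀ (by positivity) (by nlinarith) _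
    have e3 : (a / y) ^ (R + 1) ≤ (1 / 18) ^ (4 + g) := by
      refine (pow_le_pow_of_le_one (by positivity) r1.le (u1.trans r4)).trans ?_
      rw [pow_mul]
      exact pow_le_pow_left₀ (by positivity) hm _
    have e4 : y * (y ^ R / x ^ u) ≤ 2 * 1 :=
      mul_le_mul hy2 ((div_le_one (by positivity)).2 r6) (by positivity) (by norm_num)
    rw [e1]
    refine (mul_le_mul e2 (mul_le_mul e3 e4 (by positivity) (by positivity)) (by positivity)
      (by positivity)).trans (le_of_eq ?_)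
    rw [← mul_assoc, ← mul_pow]
    norm_num [mul_comm]
  set Z := Icc (4 + g) u ×ˢ Icc E (E + 4 + g) with hZ
  set N' : ι → ℕ → ℕ → ℝ := fun i u l => max (N i u l - W u l) 0 with hN'
  set B : ι → ℝ := fun i => ∑ s ∈ Z, N i s.1 s.2 + (1 / 2) ^ (4 + g) with hB
  have S' : ∀ i ∈ T, Sys q c (N' i) (ψ i) := fun i hi => (hS i hi).trunc h0.le h1.le hc W0 W1 hc0.le
  have z : ∀ i ∈ T, ∀ u' ≤ 4 + g, ∀ l' ≤ E + 4 + g, N' i u' l' = 0 := fun i hi u' hu l' hl =>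
    max_eq_right (by linarith [(hS i hi).le1 u' l', W2 u' hu l' hl])
  have z' : ∀ i ∈ T, ∀ u' < 4, ∀ l' ≤ E + 4 + g, N' i u' l' = 0 := fun i hi u' hu l' hl =>
    z i hi u' (by omega) l' hl
  have B1 : ∀ i ∈ T, 0 ≤ ∑ s ∈ Z, N i s.1 s.2 := fun i hi => sum_nonneg (fun s _ => (hS i hi).nn _ _)
  have B0 : ∀ i ∈ T, 0 < B i := fun i hi => add_pos_of_nonneg_of_pos (B1 i hi) (by positivity)
  have B2 : ∀ i ∈ T, ∀ u' ≤ u, ∀ l', E ≤ l' → l' ≤ E + 4 + g → N' i u' l' ≤ B i := by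
    intro i hi u' hu l' hl hl'
    rcases le_total u' (4 + g) with h | h
    · rw [z i hi u' h l' hl']; exact (B0 i hi).le
    · have b1 : N i u' l' ≤ ∑ s ∈ Z, N i s.1 s.2 :=
        single_le_sum (f := fun s : ℕ × ℕ => N i s.1 s.2) (a := (u', l')) (fun s _ => (hS i hi).nn _ _)
          (mem_product.2 ⟨mem_Icc.2 ⟨h, hu⟩, mem_Icc.2 ⟨hl, hl'⟩⟩)
      have b2 : (0 : ℝ) < (1 / 2) ^ (4 + g) := by positivity
      refine max_le ?_ (B0 i hi).le
      simp only [hB]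
      linarith [W0 u' l']
  have U1 : ∀ i ∈ T, N' i u l / B i ≤ 1 := fun i hi => (div_le_one (B0 i hi)).2
    ((S' i hi).back h0.le h1.le (z' i hi) (h := R + 1) (by omega)
      (fun d _ => B2 i hi _ (by omega) _ (by omega) (by omega)))
  refine ⟨fun i => N' i u l / B i, Z, fun i hi => ⟨div_nonneg ((S' i hi).nn _ _) (B0 i hi).le, U1 i hi⟩,
    ?_, fun s hs => mem_Icc.1 (mem_product.1 hs).1, ?_, fun i hi => ?_⟩
  · refine (H ι N' ψ B T u E g l S' z' B0 B2 (by omega) (R + 1) l (by omega) le_rfl (by omega) T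
      Subset.rfl u le_rfl 1 (by norm_num) hC ?_).trans (by norm_num)
    rw [hE, pow_add, one_mul, mul_comm]
    exact mul_le_mul_of_nonneg_left r7 (by positivity)
  · rw [hZ, card_product, Nat.card_Icc, Nat.card_Icc, sq]
    exact Nat.mul_le_mul (by omega) (by omega)
  · have b1 : N i u l - W u l ≤ N' i u l := le_max_left _ _
    have b2 : N' i u l = N' i u l / B i * ∑ s ∈ Z, N i s.1 s.2 + N' i u l / B i * (1 / 2) ^ (4 + g) := by
      rw [← mul_add]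
      exact (div_mul_cancel₀ _ (B0 i hi).ne').symm
    have b3 := mul_le_mul_of_nonneg_right (U1 i hi) (show (0 : ℝ) ≤ (1 / 2) ^ (4 + g) by positivity)
    linarith

theorem prod_le_sum_pow {n : ℕ} (hn : 1 ≤ n) (x : Fin n → ℝ) (hx : ∀ j, 0 ≤ x j) :
    ∏ j, x j ≤ ∑ j, x j ^ n := by
  obtain ⟨j0, _, h⟩ := exists_max_image univ x ⟨⟨0, hn⟩, mem_univ _⟩
  refine (prod_le_prod (fun j _ => hx j) h).trans ?_
  rw [prod_const, card_univ, Fintype.card_fin]
  exact single_le_sum (f := fun j => x j ^ n) (fun j _ => pow_nonneg (hx j) n) (mem_univ j0)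

theorem chain (h0 : 0 < q) (hq : q * Real.log 3 < Real.log 2) (hc0 : 0 < c)
    (hc : c ≤ 4 * q * (1 - q) ^ 3) (hc1 : c ≤ 1) :
    ∃ n M : ℕ, 1 ≤ M ∧ ∀ (ι : Type) (N ψ : ι → ℕ → ℕ → ℝ) (T : Finset ι),
      (∀ i ∈ T, Sys q c (N i) (ψ i)) → ∀ (s k : ℕ) (ε : ℝ), 9 ≤ s → 0 ≤ ε →
      (∀ u l, s ≤ u → Conf ψ T u l 1) → (∀ i ∈ T, ∀ u l, s ≤ u → N i u l ≤ ε) →
      ∀ u l, M * s ≤ u → u ≤ k →
        ∑ i ∈ T, N i u l ≤ ((k : ℝ) ^ 2) ^ n * (n * (12 * ε + T.card * (3 * (1 / 2) ^ s))) := by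
  obtain ⟨n0, m0, hn0, hm0, H⟩ := blockG h0 hq hc0 hc hc1
  refine ⟨n0, m0 ^ n0, Nat.one_le_pow _ _ (by omega), fun ι N ψ T hS s k ε hs hε hC hN => ?_⟩
  have key : ∀ b m : ℕ, m + b = n0 → ∀ w : Fin m → ι → ℝ, (∀ j, ∀ i ∈ T, 0 ≤ w j i ∧ w j i ≤ 1) →
      (∀ j, ∑ i ∈ T, w j i ^ n0 ≤ 12) → ∀ u l, m0 ^ b * s ≤ u → u ≤ k →
      ∑ i ∈ T, (∏ j, w j i) * N i u l
        ≤ ((k : ℝ) ^ 2) ^ b * (n0 * (12 * ε) + b * (T.card * (3 * (1 / 2) ^ s))) := by
    intro b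
    induction b with
    | zero =>
      intro m hm w hw hw' u l hu _
      obtain rfl : m = n0 := hm
      rw [pow_zero, one_mul] at hu
      refine (sum_le_sum (fun i hi => mul_le_mul (prod_le_sum_pow hn0 (fun j => w j i)
        (fun j => (hw j i hi).1)) (hN i hi u l hu) ((hS i hi).nn _ _)
        (sum_nonneg (fun j _ => pow_nonneg (hw j i hi).1 _)))).trans ?_
      rw [← sum_mul, sum_comm]
      have := sum_le_card_nsmul univ _ _ (fun j _ => hw' j)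
      rw [card_univ, Fintype.card_fin, nsmul_eq_mul] at this
      have := mul_le_mul_of_nonneg_right this hε
      simp only [pow_zero, Nat.cast_zero]
      linarith
    | succ b ih =>
      intro m hm w hw hw' u l hu hk
      have t1 : m0 ^ b * s ≤ u / m0 := by
        rw [Nat.le_div_iff_mul_le (by omega)]
        refine le_trans (le_of_eq ?_) hu
        ring
      have t2 : s ≤ u / m0 := (Nat.le_mul_of_pos_left _ (by positivity)).trans t1
      have t3 : s ≤ u := t2.trans (Nat.div_le_self _ _)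
      obtain ⟨U, Z, u1, u2, u3, u4, u5⟩ := H ι N ψ T hS u l (hs.trans t2) (hC u l t3)
      have p0 : ∀ i ∈ T, 0 ≤ ∏ j, w j i := fun i hi => prod_nonneg (fun j _ => (hw j i hi).1)
      have p1 : ∀ i ∈ T, ∏ j, w j i ≤ 1 := fun i hi =>
        prod_le_one (fun j _ => (hw j i hi).1) (fun j _ => (hw j i hi).2)
      have e1 : (3 : ℝ) * (1 / 2) ^ (u / m0) ≤ 3 * (1 / 2) ^ s :=
        mul_le_mul_of_nonneg_left (pow_le_pow_of_le_one (by norm_num) (by norm_num) t2) (by norm_num)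
      have s1 : ∀ i ∈ T, (∏ j, w j i) * N i u l ≤
          ∑ z ∈ Z, (∏ j, (Fin.cons U w : Fin (m + 1) → ι → ℝ) j i) * N i z.1 z.2 + 3 * (1 / 2) ^ s := by
        intro i hi
        refine (mul_le_mul_of_nonneg_left (u5 i hi) (p0 i hi)).trans ?_
        rw [mul_add, ← mul_sum, Fin.prod_univ_succ]
        simp only [Fin.cons_zero, Fin.cons_succ]
        have := mul_le_mul (p1 i hi) e1 (by positivity) (by norm_num)
        linarith
      refine (sum_le_sum s1).trans ?_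
      rw [sum_add_distrib, sum_comm, sum_const, nsmul_eq_mul]
      have s2 := sum_le_card_nsmul Z _ _ (fun z hz => ih (m + 1) (by omega) (Fin.cons U w)
        (fun j => Fin.cases u1 hw j) (fun j => Fin.cases u2 hw' j) z.1 z.2
        (t1.trans (u3 z hz).1) ((u3 z hz).2.trans hk))
      rw [nsmul_eq_mul] at s2
      have k1 : (1 : ℝ) ≤ k := by exact_mod_cast (show 1 ≤ k by omega)
      have s3 : (Z.card : ℝ) ≤ (k : ℝ) ^ 2 := by
        exact_mod_cast u4.trans (Nat.pow_le_pow_left hk 2)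
      have s4 := s2.trans (mul_le_mul_of_nonneg_right s3 (by positivity))
      have s5 : (1 : ℝ) ≤ ((k : ℝ) ^ 2) ^ (b + 1) := one_le_pow₀ (one_le_pow₀ k1)
      have s6 := mul_le_mul_of_nonneg_right s5
        (show (0 : ℝ) ≤ T.card * (3 * (1 / 2) ^ s) by positivity)
      push_cast
      rw [pow_succ ((k : ℝ) ^ 2)] at s6 ⊢
      linarith
  intro u l hu hk
  have := key n0 0 (by omega) (fun j => j.elim0) (fun j => j.elim0) (fun j => j.elim0) u l hu hk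
  simp only [univ_eq_empty, prod_empty, one_mul] at this
  exact this.trans (le_of_eq (by ring))

end Pool.Agent.P.MP_d124bf_nt
end

-- part Pool.Agent.P.MP_d124bf_nt.Family
section

/-!
The frequencies as a family of systems; the sum of the coefficients and their large values.
-/

namespace Pool.Agent.P.MP_d124bf_nt

open Finset

theorem cop23' (a b : ℕ) : IsCoprime ((2 : ℤ) ^ a) (3 ^ b) := by
  have := Nat.isCoprime_iff_coprime.2 (cop b a).symm
  push_cast at this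
  exact this

theorem family {μ : ℝ} (hμ : 1 < μ) (k p : ℕ) :
    ∃ (a : ℕ → ℕ) (N ψ : ℕ → ℕ → ℕ → ℝ), (∀ ξ ∈ Ioo 0 (2 ^ p), 3 ^ a ξ ≤ 2 ^ p ∧
      Sys μ⁻¹ (μ⁻¹ * (1 - μ⁻¹) ^ 3 * (1 / 250)) (N ξ) (ψ ξ) ∧
        (a ξ ≤ k → ‖coeff μ k p ξ‖ = N ξ (k - a ξ) 0)) ∧
      ∀ b u l : ℕ, 2 ^ p < 3 ^ (b + u) → Conf ψ ((Ioo 0 (2 ^ p)).filter (fun ξ => a ξ = b)) u l 1 := by
  have h0 : 0 < μ⁻¹ := by positivity
  have h1 : μ⁻¹ < 1 := inv_lt_one_of_one_lt₀ hμ
  have p2 : (0 : ℝ) < 2 ^ p := by positivity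
  have ex : ∀ ξ ∈ Ioo 0 (2 ^ p), ∃ (a : ℕ) (z n : ℤ), ¬ (3 : ℤ) ∣ z ∧
      3 ^ a * z = ((ξ : ℕ) : ℤ) * 3 ^ k + 2 ^ p * n ∧ |((3 ^ a * z : ℤ) : ℝ) / 2 ^ p| ≤ 1 / 2 := by
    intro ξ hξ
    obtain ⟨x1, x2⟩ := mem_Ioo.1 hξ
    set n := round ((((ξ : ℤ) * 3 ^ k : ℤ) : ℝ) / 2 ^ p) with hn
    have hη0 : (ξ : ℤ) * 3 ^ k + 2 ^ p * (-n) ≠ 0 := by
      intro h
      have h2 : (2 : ℤ) ^ p ∣ ξ * 3 ^ k := ⟨n, by linarith⟩
      have h3 := Int.le_of_dvd (by exact_mod_cast x1) ((cop23' p k).dvd_of_dvd_mul_right h2)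
      have h4 : 2 ^ p ≤ ξ := by exact_mod_cast h3
      exact absurd x2 (not_lt.2 h4)
    obtain ⟨a, z, hz, haz⟩ := WfDvdMonoid.max_power_factor hη0 Int.prime_three.irreducible
    refine ⟨a, z, -n, hz, haz.symm, ?_⟩
    rw [← haz]
    refine le_trans (le_of_eq ?_) (abs_sub_round ((((ξ : ℤ) * 3 ^ k : ℤ) : ℝ) / 2 ^ p))
    rw [← hn]
    congr 1
    push_cast
    field_simp
    ring
  choose! a z n hz hη hs using ex
  have hb : ∀ ξ ∈ Ioo 0 (2 ^ p), 2 * |3 ^ a ξ * z ξ| ≤ 2 ^ p := by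
    intro ξ hξ
    have := hs ξ hξ
    rw [abs_div, abs_of_pos p2, div_le_iff₀ p2, ← Int.cast_abs] at this
    have h2 : ((2 * |3 ^ a ξ * z ξ| : ℤ) : ℝ) ≤ ((2 ^ p : ℤ) : ℝ) := by
      rw [Int.cast_mul, Int.cast_pow]; norm_num at this ⊢; linarith
    exact_mod_cast h2
  refine ⟨a, fun ξ u l => ‖FF μ⁻¹ (EE (3 ^ a ξ * z ξ) p) (a ξ + u) l‖,
    fun ξ => psi (z ξ) (a ξ) (4 + p), fun ξ hξ => ⟨?_, sys_of h0 h1 _ _ (hz ξ hξ) p _ _
      (fun u l hu hf => caseC hu (hs ξ hξ) hf), fun hk => ?_⟩, fun b u l hp => ?_⟩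
  · have b1 := hb ξ hξ
    have b2 : 1 ≤ |z ξ| := Int.one_le_abs (by rintro h; exact hz ξ hξ (h ▸ dvd_zero _))
    rw [abs_mul, abs_of_pos (show (0 : ℤ) < 3 ^ a ξ by positivity)] at b1
    have b3 : (0 : ℤ) < 3 ^ a ξ := by positivity
    have b4 : (3 : ℤ) ^ a ξ ≤ 2 ^ p := by nlinarith
    exact_mod_cast b4
  · rw [coeff_eq hμ k p ξ _ _ (hη ξ hξ)]
    beta_reduce
    rw [Nat.add_sub_cancel' hk]
  · refine ⟨fun ξ => Int.fract (psi (z ξ) (a ξ) (4 + p) u l), fun ξ _ => ⟨⌊psi (z ξ) (a ξ) (4 + p) u l⌋,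
      (Int.fract_add_floor _).symm⟩, fun i hi j hj hij => ?_, fun i _ j _ => ?_⟩
    · obtain ⟨i1, i2⟩ := mem_filter.1 hi
      obtain ⟨j1, j2⟩ := mem_filter.1 hj
      obtain ⟨m, hm⟩ := Int.fract_eq_fract.1 hij
      have bi := hb i i1
      have bj := hb j j1
      have ei := hη i i1
      have ej := hη j j1
      rw [psi, psi, i2, j2] at hm
      rw [i2] at bi ei
      rw [j2] at bj ej
      have d1 : (3 : ℤ) ^ u ∣ (z i - z j) * mm (b + u) (l + (4 + p)) := by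
        refine ⟨m, ?_⟩
        have : (((z i - z j) * mm (b + u) (l + (4 + p)) : ℤ) : ℝ) = ((3 ^ u * m : ℤ) : ℝ) := by
          push_cast
          rw [← hm]
          field_simp
        exact_mod_cast this
      have d0 : 1 ≤ b + u := by
        rcases Nat.eq_zero_or_pos (b + u) with h | h
        · rw [h, pow_zero] at hp
          exact absurd hp (not_lt.2 (Nat.one_le_two_pow))
        · exact h
      have d2 : (3 : ℤ) ^ u ∣ z i - z j :=
        (((Int.prime_three.coprime_iff_not_dvd).2 (mm_not_dvd d0 _)).pow_left).dvd_of_dvd_mul_right d1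
      have d3 : (3 : ℤ) ^ (b + u) ∣ 3 ^ b * z i - 3 ^ b * z j := by
        rw [← mul_sub, pow_add]
        exact mul_dvd_mul_left _ d2
      have d4 : 3 ^ b * z i - 3 ^ b * z j = 0 := by
        apply Int.eq_zero_of_abs_lt_dvd d3
        have := abs_sub (3 ^ b * z i) (3 ^ b * z j)
        have hp' : (2 : ℤ) ^ p < 3 ^ (b + u) := by exact_mod_cast hp
        linarith
      have d5 : (2 : ℤ) ^ p ∣ ((i : ℤ) - j) * 3 ^ k := ⟨n j - n i, by linarith⟩
      have d6 := (cop23' p k).dvd_of_dvd_mul_right d5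
      have d7 : (i : ℤ) - j = 0 := by
        apply Int.eq_zero_of_abs_lt_dvd d6
        have i3 : (i : ℤ) < 2 ^ p := by exact_mod_cast (mem_Ioo.1 i1).2
        have j3 : (j : ℤ) < 2 ^ p := by exact_mod_cast (mem_Ioo.1 j1).2
        have i4 : (0 : ℤ) ≤ i := Nat.cast_nonneg _
        have j4 : (0 : ℤ) ≤ j := Nat.cast_nonneg _
        rw [abs_lt]
        constructor <;> linarith
      exact_mod_cast sub_eq_zero.1 d7
    · have a1 := Int.fract_nonneg (psi (z i) (a i) (4 + p) u l)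
      have a2 := Int.fract_nonneg (psi (z j) (a j) (4 + p) u l)
      have a3 := Int.fract_lt_one (psi (z i) (a i) (4 + p) u l)
      have a4 := Int.fract_lt_one (psi (z j) (a j) (4 + p) u l)
      rw [abs_le]
      constructor <;> linarith

theorem asymp {γ β : ℝ} (hγ : 0 < γ) (hβ : 0 < β) (A : ℕ) : ∃ k0 : ℕ, ∀ k : ℕ, k0 ≤ k →
    (k : ℝ) ^ A * (12 * Real.exp (-γ * (Real.log k / 2) ^ 2) + 3 * Real.exp (-(β * k)))
      ≤ Real.exp (-(γ / 8) * Real.log k ^ 2) := by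
  obtain ⟨k1, hk1⟩ := exists_nat_ge (Real.exp (1 + 8 * (A + 4) / γ + 6 * (γ + A + 4) / β))
  refine ⟨k1, fun k hk => ?_⟩
  have k3 : (k1 : ℝ) ≤ k := by exact_mod_cast hk
  have k0 : (0 : ℝ) < k := lt_of_lt_of_le (Real.exp_pos _) (hk1.trans k3)
  set L := Real.log k with hL
  have eL : Real.exp L = k := Real.exp_log k0
  have L1 : 1 + 8 * (A + 4) / γ + 6 * (γ + A + 4) / β ≤ L := by
    rw [← Real.exp_le_exp, eL]; linarith
  have g1 : 0 < 8 * (A + 4) / γ := by positivity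
  have g2 : 0 < 6 * (γ + A + 4) / β := by positivity
  have L3 : 8 * (A + 4) ≤ L * γ := by rw [← div_le_iff₀ hγ]; linarith
  have L2 : 6 * (γ + A + 4) ≤ L * β := by rw [← div_le_iff₀ hβ]; linarith
  have L4 : 1 ≤ L := by linarith
  have A0 : (0 : ℝ) ≤ A := Nat.cast_nonneg A
  have e4 : (k : ℝ) ^ A = Real.exp (A * L) := by rw [Real.exp_nat_mul, eL]
  have four : (24 : ℝ) ≤ Real.exp 4 := by
    have := Real.exp_one_gt_d9
    calc (24 : ℝ) ≤ 2.5 ^ 4 := by norm_num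
      _ ≤ Real.exp 1 ^ 4 := pow_le_pow_left₀ (by norm_num) (by linarith) 4
      _ = _ := by rw [← Real.exp_nat_mul]; norm_num
  have b4 : L ^ 3 / 6 ≤ k := by
    have := Real.pow_div_factorial_le_exp L (by linarith) 3
    rw [eL] at this
    simpa [Nat.factorial] using this
  have c2 : L ≤ L ^ 2 := by nlinarith
  have A1 : 24 * ((k : ℝ) ^ A * Real.exp (-γ * (L / 2) ^ 2)) ≤ Real.exp (-(γ / 8) * L ^ 2) := by
    refine (mul_le_mul_of_nonneg_right four (by positivity)).trans ?_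
    rw [e4, ← Real.exp_add, ← Real.exp_add, Real.exp_le_exp]
    have a3 := mul_le_mul_of_nonneg_right L3 (show 0 ≤ L by linarith)
    linarith
  have A2 : 24 * ((k : ℝ) ^ A * Real.exp (-(β * k))) ≤ Real.exp (-(γ / 8) * L ^ 2) := by
    refine (mul_le_mul_of_nonneg_right four (by positivity)).trans ?_
    rw [e4, ← Real.exp_add, ← Real.exp_add, Real.exp_le_exp]
    have a1 := mul_le_mul_of_nonneg_right L2 (show 0 ≤ L ^ 2 by positivity)
    have a2 := mul_le_mul_of_nonneg_left b4 hβ.le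
    have a3 := mul_le_mul_of_nonneg_left c2 A0
    have a4 : 0 ≤ γ * L ^ 2 := by positivity
    linarith
  have := Real.exp_pos (-(γ / 8) * L ^ 2)
  linarith

theorem basics {μ : ℝ} (hμ : Real.logb 2 3 < μ) : 1 < μ ∧ 0 < μ⁻¹ ∧ μ⁻¹ * Real.log 3 < Real.log 2 ∧
    0 < μ⁻¹ * (1 - μ⁻¹) ^ 3 * (1 / 250) ∧ μ⁻¹ * (1 - μ⁻¹) ^ 3 * (1 / 250) ≤ 4 * μ⁻¹ * (1 - μ⁻¹) ^ 3 ∧
    μ⁻¹ * (1 - μ⁻¹) ^ 3 * (1 / 250) ≤ 1 := by
  have l2 : 0 < Real.log 2 := Real.log_pos (by norm_num)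
  have l23 : Real.log 2 < Real.log 3 := Real.log_lt_log (by norm_num) (by norm_num)
  rw [Real.logb, div_lt_iff₀ l2] at hμ
  have hμ1 : 1 < μ := by nlinarith
  have h0 : 0 < μ⁻¹ := by positivity
  have h1 : μ⁻¹ < 1 := inv_lt_one_of_one_lt₀ hμ1
  have hq : μ⁻¹ * Real.log 3 < Real.log 2 := by
    rw [inv_mul_lt_iff₀ (by linarith)]; exact hμ
  have hb : 0 < 1 - μ⁻¹ := by linarith
  have hb3 : (1 - μ⁻¹) ^ 3 ≤ 1 := pow_le_one₀ hb.le (by linarith)
  have hp : 0 < μ⁻¹ * (1 - μ⁻¹) ^ 3 := by positivity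
  have hp1 : μ⁻¹ * (1 - μ⁻¹) ^ 3 ≤ 1 := mul_le_one₀ h1.le (by positivity) hb3
  exact ⟨hμ1, h0, hq, by positivity, by linarith, by linarith⟩

theorem sum_bound {μ : ℝ} (hμ : Real.logb 2 3 < μ) :
    ∃ c₀ : ℝ, 0 < c₀ ∧ ∃ c : ℝ, 0 < c ∧ ∃ k₀ : ℕ, ∀ k p : ℕ, k₀ ≤ k → (p : ℝ) ≤ c₀ * k →
      ∑ ξ ∈ Ioo (0 : ℕ) (2 ^ p), ‖coeff μ k p (ξ : ℤ)‖ ≤ Real.exp (-c * Real.log k ^ 2) := by
  obtain ⟨hμ1, h0, hq, hc0, hc, hc1⟩ := basics hμ
  obtain ⟨γ, hγ, u0, hqu⟩ := quasi h0 hq hc0 hc hc1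
  obtain ⟨n, M, hM, H⟩ := chain h0 hq hc0 hc hc1
  have M0 : (0 : ℝ) < M := by exact_mod_cast hM
  obtain ⟨k1, hk1⟩ := asymp hγ (β := 1 / (8 * M)) (by positivity) (2 * n + 2)
  refine ⟨1 / (8 * M), by positivity, γ / 8, by positivity, k1 + n + 2 * M * (u0 + 2 * M + 9),
    fun k p hk hp => le_trans ?_ (hk1 k (by omega))⟩
  have p1 : 8 * M * p ≤ k := by
    rw [one_div_mul_eq_div, le_div_iff₀ (by positivity)] at hp
    have : ((8 * M * p : ℕ) : ℝ) ≤ k := by push_cast; linarith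
    exact_mod_cast this
  obtain ⟨s, hs⟩ : ∃ s, s = k / (2 * M) := ⟨_, rfl⟩
  have s1 : u0 + 2 * M + 9 ≤ s := by
    rw [hs, Nat.le_div_iff_mul_le (by omega), mul_comm]; omega
  have s2 : 4 * p ≤ s := by
    rw [hs, Nat.le_div_iff_mul_le (by omega)]
    exact le_trans (le_of_eq (by ring)) p1
  have s3 : 2 * M * s ≤ k := by rw [hs]; exact Nat.mul_div_le k _
  have s4 : k < 2 * M * (s + 1) := by rw [hs]; exact Nat.lt_mul_div_succ k (by omega)
  have s5 : k ≤ s ^ 2 := by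
    have : (2 * M + 9) * s ≤ s * s := Nat.mul_le_mul_right _ (by omega)
    nlinarith
  have s6 : k ≤ 4 * M * s := by nlinarith
  have s7 : 8 * p ≤ k := le_trans (by nlinarith) p1
  have s8 : M * s + p ≤ k := by nlinarith
  have s9 : p + 1 ≤ k := by
    have : s ≤ 2 * M * s := Nat.le_mul_of_pos_left _ (by omega)
    omega
  have s10 : n ≤ k := by omega
  have sp : p < s := by omega
  have s0 : 9 ≤ s := by omega
  have su : u0 ≤ s := by omega
  have k0 : (1 : ℝ) ≤ k := by exact_mod_cast (show 1 ≤ k by omega)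
  obtain ⟨a, N, ψ, F1, F2⟩ := family hμ1 k p
  have ap : ∀ ξ ∈ Ioo 0 (2 ^ p), a ξ ≤ p := fun ξ hξ => (Nat.pow_le_pow_iff_right (by norm_num)).1
    ((Nat.pow_le_pow_left (by norm_num : 2 ≤ 3) _).trans (F1 ξ hξ).1)
  have e1 : Real.exp (-γ * Real.log s ^ 2) ≤ Real.exp (-γ * (Real.log k / 2) ^ 2) := by
    have h4 : (k : ℝ) ≤ (s : ℝ) ^ 2 := by exact_mod_cast s5
    have h5 := Real.log_le_log (by linarith) h4
    rw [Real.log_pow, Nat.cast_ofNat] at h5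
    have h6 : (Real.log k / 2) ^ 2 ≤ Real.log s ^ 2 :=
      pow_le_pow_left₀ (by have := Real.log_natCast_nonneg k; positivity) (by linarith) 2
    rw [Real.exp_le_exp]
    nlinarith
  have e2 : (2 : ℝ) ^ p * (3 * (1 / 2) ^ s) ≤ 3 * Real.exp (-(1 / (8 * M) * k)) := by
    have b1 : (2 : ℝ) ^ p * (1 / 2) ^ s = Real.exp ((p - s) * Real.log 2) := by
      rw [sub_mul, Real.exp_sub, Real.exp_nat_mul, Real.exp_nat_mul, Real.exp_log (by norm_num),
        one_div_pow]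
      ring
    have b2 : (4 * p : ℝ) ≤ s := by exact_mod_cast s2
    have b3 : 1 / (8 * M) * (k : ℝ) ≤ s / 2 := by
      rw [one_div_mul_eq_div, div_le_iff₀ (by positivity)]
      have : (k : ℝ) ≤ 4 * M * s := by exact_mod_cast s6
      linarith
    have b4 := Real.log_two_gt_d9
    have b5 : (0 : ℝ) ≤ p := Nat.cast_nonneg p
    rw [mul_left_comm, b1]
    refine mul_le_mul_of_nonneg_left (Real.exp_le_exp.2 ?_) (by norm_num)
    nlinarith
  refine (fibre_sum (f := a) (K := range (p + 1)) (fun ξ hξ => mem_range.2 (Nat.lt_succ_of_le (ap ξ hξ)))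
    (C := ((k : ℝ) ^ 2) ^ n * (k * (12 * Real.exp (-γ * (Real.log k / 2) ^ 2)
      + 3 * Real.exp (-(1 / (8 * M) * k))))) (fun b hb => ?_)).trans ?_
  · have b1 : b ≤ p := Nat.lt_succ_iff.1 (mem_range.1 hb)
    set T := (Ioo (0 : ℕ) (2 ^ p)).filter (fun ξ => a ξ = b) with hT
    have sub : T ⊆ Ioo 0 (2 ^ p) := filter_subset _ _
    have b2 := H ℕ N ψ T (fun i hi => (F1 i (sub hi)).2.1) s k
      (Real.exp (-γ * (Real.log k / 2) ^ 2)) s0 (Real.exp_pos _).le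
      (fun u l hu => F2 b u l (lt_of_lt_of_le (Nat.pow_lt_pow_right (by norm_num) sp)
        ((Nat.pow_le_pow_left (by norm_num) s).trans (Nat.pow_le_pow_right (by norm_num)
          (hu.trans (Nat.le_add_left _ _))))))
      (fun i hi u l hu => by
        refine (hqu _ _ (F1 i (sub hi)).2.1 u l (su.trans hu)).trans (le_trans ?_ e1)
        have a1 : Real.log s ≤ Real.log u :=
          Real.log_le_log (by exact_mod_cast (lt_of_lt_of_le (by norm_num) s0)) (by exact_mod_cast hu)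
        have a2 := pow_le_pow_left₀ (Real.log_natCast_nonneg s) a1 2
        rw [Real.exp_le_exp]
        nlinarith)
      (k - b) 0 (Nat.le_sub_of_add_le ((Nat.add_le_add_left b1 _).trans s8)) (Nat.sub_le _ _)
    have b3 : (T.card : ℝ) ≤ 2 ^ p := by
      have := card_le_card sub
      rw [Nat.card_Ioo] at this
      exact_mod_cast this.trans ((Nat.sub_le _ _).trans (Nat.sub_le _ _))
    refine le_trans (le_of_eq (sum_congr rfl (fun i hi => ?_))) (b2.trans ?_)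
    · have a1 : a i = b := (mem_filter.1 hi).2
      rw [(F1 i (sub hi)).2.2 (a1 ▸ b1.trans ((Nat.le_succ p).trans s9)), a1]
    · have b4 := (mul_le_mul_of_nonneg_right b3 (by positivity)).trans e2
      have b5 : (n : ℝ) ≤ k := by exact_mod_cast s10
      gcongr
  · rw [card_range]
    have b1 : ((p + 1 : ℕ) : ℝ) ≤ k := by exact_mod_cast s9
    refine (mul_le_mul_of_nonneg_right b1 (by positivity)).trans (le_of_eq ?_)
    rw [← pow_mul]
    ring

theorem large_bound {μ : ℝ} (hμ : Real.logb 2 3 < μ) :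
    ∃ c₁ : ℝ, 0 < c₁ ∧ ∃ n k₀ : ℕ, ∀ k p : ℕ, k₀ ≤ k → p ≤ k → ∀ t : ℝ, (2 : ℝ) ^ (-c₁ * k) ≤ t →
      (((Ioo (0 : ℕ) (2 ^ p)).filter (fun ξ : ℕ => t < ‖coeff μ k p (ξ : ℤ)‖)).card : ℝ)
        ≤ ((k : ℝ) ^ 4 / t) ^ n := by
  obtain ⟨hμ1, h0, hq, hc0, hc, hc1⟩ := basics hμ
  obtain ⟨n, m, hn, hm, H⟩ := blockG h0 hq hc0 hc hc1
  have m0 : (0 : ℝ) < m := by exact_mod_cast (show 0 < m by omega)
  refine ⟨1 / (6 * m), by positivity, n, 30 * m, fun k p hk hp t ht => ?_⟩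
  have t0 : 0 < t := lt_of_lt_of_le (by positivity) ht
  have k1 : (60 : ℝ) ≤ k := by exact_mod_cast (show 60 ≤ k by omega)
  have k2 : 1 ≤ k := by omega
  have pk : 2 ^ p < 3 ^ k := lt_of_le_of_lt (Nat.pow_le_pow_right (by norm_num) hp)
    (Nat.pow_lt_pow_left (by norm_num) (by omega))
  obtain ⟨a, N, ψ, F1, F2⟩ := family hμ1 k p
  have ap : ∀ ξ ∈ Ioo 0 (2 ^ p), 3 * a ξ ≤ 2 * k := by
    intro ξ hξ
    have h3 := (F1 ξ hξ).1.trans (Nat.pow_le_pow_right (by norm_num) hp)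
    refine (Nat.pow_le_pow_iff_right (a := 2) (by norm_num)).1 ?_
    calc 2 ^ (3 * a ξ) = 8 ^ a ξ := by rw [pow_mul]; norm_num
      _ ≤ 9 ^ a ξ := Nat.pow_le_pow_left (by norm_num) _
      _ = (3 ^ a ξ) ^ 2 := by rw [← pow_mul, mul_comm, pow_mul]; norm_num
      _ ≤ (2 ^ k) ^ 2 := Nat.pow_le_pow_left h3 2
      _ = 2 ^ (2 * k) := by rw [← pow_mul, mul_comm]
  set S := (Ioo (0 : ℕ) (2 ^ p)).filter (fun ξ : ℕ => t < ‖coeff μ k p (ξ : ℤ)‖) with hS
  have sub : S ⊆ Ioo 0 (2 ^ p) := filter_subset _ _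
  have key : ∑ _ξ ∈ S, (t / (2 * (k : ℝ) ^ 2)) ^ n ≤ ((range (2 * k / 3 + 1)).card : ℝ) * 12 := by
    refine fibre_sum (f := a) (fun ξ hξ => mem_range.2 (by have := ap ξ (sub hξ); omega))
      (fun b hb => ?_)
    have b1 : 3 * b ≤ 2 * k := by have := mem_range.1 hb; omega
    have b2 : b ≤ k := by omega
    obtain ⟨w, hw⟩ : ∃ w, w = (k - b) / m := ⟨_, rfl⟩
    have w1 : k - b < m * (w + 1) := by rw [hw]; exact Nat.lt_mul_div_succ _ (by omega)
    have w2 : k ≤ 3 * (m * (w + 1)) := by omega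
    have w3 : 9 ≤ w := by
      rw [hw, Nat.le_div_iff_mul_le (by omega)]; omega
    have sub' : S.filter (fun ξ => a ξ = b) ⊆ (Ioo (0 : ℕ) (2 ^ p)).filter (fun ξ => a ξ = b) :=
      filter_subset_filter _ sub
    obtain ⟨U, Z, u1, u2, u3, u4, u5⟩ := H ℕ N ψ (S.filter (fun ξ => a ξ = b))
      (fun i hi => (F1 i (sub (mem_filter.1 hi).1)).2.1) (k - b) 0 (hw ▸ w3)
      ((F2 b (k - b) 0 (by rwa [Nat.add_sub_cancel' b2])).subset sub')
    refine le_trans (sum_le_sum (fun i hi => pow_le_pow_left₀ (by positivity) ?_ n)) u2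
    obtain ⟨i1, i2⟩ := mem_filter.1 hi
    have i3 := (mem_filter.1 i1).2
    rw [(F1 i (sub i1)).2.2 (i2 ▸ b2), i2] at i3
    have a1 := u5 i hi
    rw [← hw] at a1
    have a2 : ∑ s ∈ Z, N i s.1 s.2 ≤ (k : ℝ) ^ 2 := by
      refine (sum_le_card_nsmul _ _ 1 (fun s _ => (F1 i (sub i1)).2.1.le1 _ _)).trans ?_
      rw [nsmul_eq_mul, mul_one]
      exact_mod_cast u4.trans (Nat.pow_le_pow_left (Nat.sub_le _ _) 2)
    have a3 := mul_le_mul_of_nonneg_left a2 (u1 i hi).1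
    have a4 : 3 * (1 / 2 : ℝ) ^ w ≤ t / 2 := by
      have c1 : (2 : ℝ) ^ ((3 : ℝ) - w) ≤ t := by
        refine le_trans (Real.rpow_le_rpow_of_exponent_le (by norm_num) ?_) ht
        have c2 : 1 / (6 * m) * (k : ℝ) ≤ (w + 1) / 2 := by
          rw [one_div_mul_eq_div, div_le_iff₀ (by positivity)]
          have : (k : ℝ) ≤ 3 * (m * (w + 1)) := by exact_mod_cast w2
          linarith
        have c3 : (9 : ℝ) ≤ w := by exact_mod_cast w3
        linarith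
      rw [Real.rpow_sub (by norm_num), Real.rpow_natCast, Real.rpow_ofNat] at c1
      rw [one_div_pow]
      have : (0 : ℝ) < 1 / 2 ^ w := by positivity
      have e : (2 : ℝ) ^ 3 / 2 ^ w = 8 * (1 / 2 ^ w) := by ring
      linarith
    rw [div_le_iff₀ (by positivity)]
    linarith
  rw [sum_const, nsmul_eq_mul, card_range, ← le_div_iff₀ (by positivity)] at key
  refine key.trans ?_
  rw [div_le_iff₀ (by positivity), ← mul_pow]
  have e : (k : ℝ) ^ 4 / t * (t / (2 * k ^ 2)) = k ^ 2 / 2 := by field_simp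
  rw [e]
  have b1 : ((2 * k / 3 + 1 : ℕ) : ℝ) ≤ k := by exact_mod_cast (show 2 * k / 3 + 1 ≤ k by omega)
  have b2 : (k : ℝ) * 12 ≤ k ^ 2 / 2 := by nlinarith
  exact ((mul_le_mul_of_nonneg_right b1 (by norm_num)).trans b2).trans
    (le_self_pow₀ (by nlinarith) (by omega))

end Pool.Agent.P.MP_d124bf_nt
end
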