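import Pool.Agent.K.MP_d124bf_nt.C0

/-!
Polynomial decay of the abstract system for every `0 < q < 1`, from the last columns.
-/

namespace Pool.Agent.P.MP_d124bf_nt

variable {q c : ℝ} {N ψ : ℕ → ℕ → ℝ}

open Classical in
noncomputable def wh (ψ : ℕ → ℕ → ℝ) (u l : ℕ) : ℝ := if Far (1 / 8) (ψ u l) then 1 else 0

noncomputable def G2 (q c : ℝ) (ψ : ℕ → ℕ → ℝ) (n : ℕ) : ℕ → ℕ → ℕ → ℝ
  | 0, _, _ => 1
  | T + 1, u, l => if u < 4 then 1 else if u ≤ n then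
      (1 - q) ^ 4 * G2 q c ψ n T u (l + 4)
      + (4 * q * (1 - q) ^ 3 - c * wh ψ u l) * G2 q c ψ n T (u - 1) (l + 4)
      + 6 * q ^ 2 * (1 - q) ^ 2 * G2 q c ψ n T (u - 2) (l + 4)
      + 4 * q ^ 3 * (1 - q) * G2 q c ψ n T (u - 3) (l + 4) + q ^ 4 * G2 q c ψ n T (u - 4) (l + 4)
    else q * G2 q c ψ n T (u - 1) (l + 1) + (1 - q) * G2 q c ψ n T u (l + 1)

theorem G2_realize : True := by have := @G2.eq_def; trivial

theorem wh_cases (ψ : ℕ → ℕ → ℝ) (u l : ℕ) :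
    wh ψ u l = 0 ∨ (wh ψ u l = 1 ∧ Far (1 / 8) (ψ u l)) := by
  unfold wh
  split_ifs with h
  · exact Or.inr ⟨rfl, h⟩
  · exact Or.inl rfl

theorem Sys.le_G2 (S : Sys q c N ψ) (h0 : 0 ≤ q) (h1 : q ≤ 1) (hc : c ≤ 4 * q * (1 - q) ^ 3)
    (n : ℕ) : ∀ T u l, N u l ≤ G2 q c ψ n T u l := by
  intro T
  induction T with
  | zero => intro u l; exact S.le1 u l
  | succ T ih =>
    intro u l
    rw [G2]
    split_ifs with a b
    · exact S.le1 u l
    · exact S.block h0 h1 hc (by omega) (wh_cases ψ u l) (g := fun d => G2 q c ψ n T (u - d) (l + 4))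
        (fun d _ => ih _ _)
    · obtain ⟨u, rfl⟩ : ∃ u', u = u' + 1 := ⟨u - 1, by omega⟩
      have := S.unit u l
      have := mul_le_mul_of_nonneg_left (ih u (l + 1)) h0
      have := mul_le_mul_of_nonneg_left (ih (u + 1) (l + 1)) (sub_nonneg.2 h1)
      rw [Nat.add_sub_cancel]
      linarith

theorem G2_bounds (h0 : 0 ≤ q) (h1 : q ≤ 1) (hc0 : 0 ≤ c) (hc : c ≤ 4 * q * (1 - q) ^ 3) (n : ℕ) :
    ∀ T u l, 0 ≤ G2 q c ψ n T u l ∧ G2 q c ψ n T u l ≤ 1 := by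
  have hq : 0 ≤ 1 - q := sub_nonneg.2 h1
  intro T
  induction T with
  | zero => intro u l; simp [G2]
  | succ T ih =>
    intro u l
    rw [G2]
    split_ifs with a b
    · simp
    · have hi : 0 ≤ c * wh ψ u l ∧ c * wh ψ u l ≤ c := by
        rcases wh_cases ψ u l with h | ⟨h, _⟩ <;> rw [h] <;> simp [hc0]
      have hcw : 0 ≤ 4 * q * (1 - q) ^ 3 - c * wh ψ u l := by linarith [hi.2]
      have b0 := ih u (l + 4)
      have b1 := ih (u - 1) (l + 4)
      have b2 := ih (u - 2) (l + 4)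
      have b3 := ih (u - 3) (l + 4)
      have b4 := ih (u - 4) (l + 4)
      constructor
      · have := b0.1; have := b1.1; have := b2.1; have := b3.1; have := b4.1
        positivity
      · have a0 := mul_le_mul_of_nonneg_left b0.2 (show 0 ≤ (1 - q) ^ 4 by positivity)
        have a1 := mul_le_mul_of_nonneg_left b1.2 hcw
        have a2 := mul_le_mul_of_nonneg_left b2.2 (show 0 ≤ 6 * q ^ 2 * (1 - q) ^ 2 by positivity)
        have a3 := mul_le_mul_of_nonneg_left b3.2 (show 0 ≤ 4 * q ^ 3 * (1 - q) by positivity)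
        have a4 := mul_le_mul_of_nonneg_left b4.2 (show 0 ≤ q ^ 4 by positivity)
        have : (1 - q) ^ 4 + 4 * q * (1 - q) ^ 3 + 6 * q ^ 2 * (1 - q) ^ 2 + 4 * q ^ 3 * (1 - q)
          + q ^ 4 = 1 := by ring
        linarith [hi.1]
    · have b0 := ih u (l + 1)
      have b1 := ih (u - 1) (l + 1)
      constructor
      · have := b0.1; have := b1.1
        positivity
      · have a0 := mul_le_mul_of_nonneg_left b0.2 hq
        have a1 := mul_le_mul_of_nonneg_left b1.2 h0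
        linarith

theorem two_pow_three_pow (v : ℕ) :
    ∃ t : ℤ, ¬ (3 : ℤ) ∣ t ∧ (2 : ℤ) ^ (2 * 3 ^ v) = 1 + 3 ^ (v + 1) * t := by
  induction v with
  | zero => exact ⟨1, by norm_num, by norm_num⟩
  | succ v ih =>
    obtain ⟨t, h3, ht⟩ := ih
    refine ⟨t + 3 * (3 ^ v * t ^ 2 + 3 ^ (2 * v) * t ^ 3), fun h => h3 ?_, ?_⟩
    · exact (dvd_add_left (Dvd.intro _ rfl)).1 h
    · rw [pow_succ 3 v, ← mul_assoc, pow_mul, ht]
      ring

theorem Sys.int (S : Sys q c N ψ) (u l : ℕ) : ∃ z : ℤ, 3 ^ u * ψ u l = z := by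
  obtain ⟨z, hz⟩ := (S.three_pow 0 l u).symm.trans (S.zero l)
  exact ⟨z, by simpa using hz⟩

theorem Sys.psi_inv (S : Sys q c N ψ) {u v : ℕ} (h : u ≤ v + 1) (l : ℕ) :
    Eqv (ψ u l) (ψ u (l + 2 * 3 ^ v)) := by
  obtain ⟨t, _, ht⟩ := two_pow_three_pow v
  obtain ⟨z, hz⟩ := S.int u (l + 2 * 3 ^ v)
  obtain ⟨w, hw⟩ : ∃ w, v + 1 = u + w := ⟨v + 1 - u, by omega⟩
  have ht' : (2 : ℝ) ^ (2 * 3 ^ v) = 1 + 3 ^ (u + w) * t := by rw [← hw]; exact_mod_cast ht
  refine (S.two_pow u l (2 * 3 ^ v)).trans ⟨3 ^ w * t * z, ?_⟩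
  rw [ht']
  push_cast
  rw [← hz]
  ring

theorem Sys.wh_inv (S : Sys q c N ψ) {u v : ℕ} (h : u ≤ v + 1) (l : ℕ) :
    wh ψ u (l + 2 * 3 ^ v) = wh ψ u l := by
  have e := S.psi_inv h l
  unfold wh
  congr 1
  exact propext ⟨fun h => h.of_eqv e, fun h => h.of_eqv e.symm⟩

theorem Sys.wh_pair (S : Sys q c N ψ) (v l : ℕ) :
    1 ≤ wh ψ (v + 2) l + wh ψ (v + 2) (l + 2 * 3 ^ v) := by
  obtain ⟨t, h3, ht⟩ := two_pow_three_pow v
  obtain ⟨z, hz⟩ := S.int (v + 2) (l + 2 * 3 ^ v)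
  have ht' : (2 : ℝ) ^ (2 * 3 ^ v) = 1 + 3 ^ (v + 1) * t := by exact_mod_cast ht
  have hz' : (3 : ℝ) ^ (v + 1) * ψ (v + 2) (l + 2 * 3 ^ v) = z / 3 := by
    rw [← hz]; ring
  have hz3 : ¬ (3 : ℤ) ∣ z := by
    rintro ⟨m, rfl⟩
    have e := S.three_pow 1 (l + 2 * 3 ^ v) (v + 1)
    rw [show 1 + (v + 1) = v + 2 by ring, hz'] at e
    have := (S.low 1 (l + 2 * 3 ^ v) le_rfl).of_eqv e.symm m
    push_cast at this
    rw [show (3 : ℝ) * m / 3 - m = 0 by ring] at this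
    norm_num at this
  obtain ⟨m, hm⟩ := S.two_pow (v + 2) l (2 * 3 ^ v)
  have e : ψ (v + 2) l = ψ (v + 2) (l + 2 * 3 ^ v) + (t * z : ℤ) / 3 + m := by
    rw [hm, ht']
    push_cast
    linear_combination (t : ℝ) * hz'
  rcases wh_cases ψ (v + 2) l with a | ⟨a, _⟩ <;>
    rcases wh_cases ψ (v + 2) (l + 2 * 3 ^ v) with b | ⟨b, _⟩ <;> try (rw [a, b]; norm_num)
  exfalso
  have na : ¬ Far (1 / 8) (ψ (v + 2) l) := fun h => by
    unfold wh at a; rw [if_pos h] at a; norm_num at a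
  have nb : ¬ Far (1 / 8) (ψ (v + 2) (l + 2 * 3 ^ v)) := fun h => by
    unfold wh at b; rw [if_pos h] at b; norm_num at b
  simp only [Far, not_forall, not_le] at na nb
  obtain ⟨n1, hn1⟩ := na
  obtain ⟨n2, hn2⟩ := nb
  rw [abs_lt] at hn1 hn2
  have k1 : ((t * z - 3 * (n1 - n2 - m) : ℤ) : ℝ) < (1 : ℤ) := by
    push_cast at e ⊢; linarith [hn1.2, hn2.1]
  have k2 : ((-1 : ℤ) : ℝ) < ((t * z - 3 * (n1 - n2 - m) : ℤ) : ℝ) := by
    push_cast at e ⊢; linarith [hn1.1, hn2.2]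
  have k3 : t * z - 3 * (n1 - n2 - m) < 1 := by exact_mod_cast k1
  have k4 : -1 < t * z - 3 * (n1 - n2 - m) := by exact_mod_cast k2
  have k5 : (3 : ℤ) ∣ t * z := ⟨n1 - n2 - m, by omega⟩
  rcases Int.prime_three.dvd_or_dvd k5 with h | h
  · exact h3 h
  · exact hz3 h

theorem Sys.G2_inv (S : Sys q c N ψ) (n v : ℕ) :
    ∀ T u l, u ≤ n → u ≤ v + 1 → G2 q c ψ n T u (l + 2 * 3 ^ v) = G2 q c ψ n T u l := by
  intro T
  induction T with
  | zero => intro u l _ _; simp [G2]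
  | succ T ih =>
    intro u l hn hv
    rw [G2, G2, if_pos hn, if_pos hn, S.wh_inv hv, add_right_comm l (2 * 3 ^ v) 4, ih u _ hn hv,
      ih (u - 1) _ (by omega) (by omega), ih (u - 2) _ (by omega) (by omega),
      ih (u - 3) _ (by omega) (by omega), ih (u - 4) _ (by omega) (by omega)]

def Lt : ℕ → List ℕ
  | 0 => []
  | v + 1 => 2 * 3 ^ v :: Lt v

theorem Lt_realize : True := by have := @Lt.eq_def; trivial

theorem Lt_sum (v : ℕ) : (Lt v).sum ≤ 3 ^ v := by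
  induction v with
  | zero => simp [Lt]
  | succ v ih => simp only [Lt, List.sum_cons, pow_succ]; omega

theorem Sys.G2_low (S : Sys q c N ψ) (h0 : 0 ≤ q) (h1 : q ≤ 1) (hc0 : 0 ≤ c)
    (hc : c ≤ 4 * q * (1 - q) ^ 3) {σ : ℝ} (hσ1 : 1 ≤ σ)
    (hσ : (1 - q + q * σ) ^ 4 - c / 2 * σ ≤ 1) (n : ℕ) :
    ∀ T u, u ≤ n → ∀ w, u ≤ w + 1 → ∀ l,
      Av (Lt w) (G2 q c ψ n T u) l ≤ σ ^ 4 / σ ^ u + (1 - q / 2) ^ T * 2 ^ u := by
  have hq : 0 ≤ 1 - q := sub_nonneg.2 h1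
  have hβ : 0 ≤ 1 - q / 2 := by linarith
  have hσ0 : 0 < σ := by linarith
  intro T
  induction T with
  | zero =>
    intro u _ w _ l
    have e : G2 q c ψ n 0 u = fun _ => 1 := by funext l; rw [G2]
    rw [e, Av_const, pow_zero, one_mul]
    have : (1 : ℝ) ≤ 2 ^ u := one_le_pow₀ (by norm_num)
    have : 0 ≤ σ ^ 4 / σ ^ u := by positivity
    linarith
  | succ T ih =>
    intro u hn
    by_cases hu : u < 4
    · intro w _ l
      have e : G2 q c ψ n (T + 1) u = fun _ => 1 := by funext l; rw [G2, if_pos hu]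
      rw [e, Av_const]
      have : 1 ≤ σ ^ 4 / σ ^ u := by
        rw [le_div_iff₀ (by positivity), one_mul]
        exact pow_le_pow_right₀ hσ1 hu.le
      have : 0 ≤ (1 - q / 2) ^ (T + 1) * 2 ^ u := by positivity
      linarith
    obtain ⟨i, rfl⟩ : ∃ i, u = i + 4 := ⟨u - 4, by omega⟩
    have base : ∀ l, Av (Lt (i + 3)) (G2 q c ψ n (T + 1) (i + 4)) l
        ≤ σ ^ 4 / σ ^ (i + 4) + (1 - q / 2) ^ (T + 1) * 2 ^ (i + 4) := by
      intro l
      have hpt : ∀ x, (G2 q c ψ n (T + 1) (i + 4) x + G2 q c ψ n (T + 1) (i + 4) (x + 2 * 3 ^ (i + 2))) / 2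
          ≤ (1 - q) ^ 4 * ((G2 q c ψ n T (i + 4) (x + 4)
              + G2 q c ψ n T (i + 4) (x + 4 + 2 * 3 ^ (i + 2))) / 2)
            + (4 * q * (1 - q) ^ 3 - c / 2) * G2 q c ψ n T (i + 3) (x + 4)
            + 6 * q ^ 2 * (1 - q) ^ 2 * G2 q c ψ n T (i + 2) (x + 4)
            + 4 * q ^ 3 * (1 - q) * G2 q c ψ n T (i + 1) (x + 4)
            + q ^ 4 * G2 q c ψ n T i (x + 4) := by
        intro x
        rw [G2, G2, if_neg hu, if_neg hu, if_pos hn, if_pos hn,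
          add_right_comm x (2 * 3 ^ (i + 2)) 4, show i + 4 - 1 = i + 3 from rfl,
          show i + 4 - 2 = i + 2 from rfl, show i + 4 - 3 = i + 1 from rfl,
          show i + 4 - 4 = i from rfl,
          S.G2_inv n (i + 2) T (i + 3) _ (by omega) (by omega),
          S.G2_inv n (i + 2) T (i + 2) _ (by omega) (by omega),
          S.G2_inv n (i + 2) T (i + 1) _ (by omega) (by omega),
          S.G2_inv n (i + 2) T i _ (by omega) (by omega)]
        have k := mul_le_mul_of_nonneg_left (S.wh_pair (i + 2) x)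
          (mul_nonneg hc0 (G2_bounds (ψ := ψ) h0 h1 hc0 hc n T (i + 3) (x + 4)).1)
        have e : i + 2 + 2 = i + 4 := rfl
        rw [e] at k
        linarith
      rw [Lt, Av_cons]
      refine (Av_mono _ hpt l).trans ?_
      rw [Av_add, Av_add, Av_add, Av_add, Av_smul, Av_smul, Av_smul, Av_smul, Av_smul,
        Av_shift _ (fun x => (G2 q c ψ n T (i + 4) x + G2 q c ψ n T (i + 4) (x + 2 * 3 ^ (i + 2))) / 2),
        ← Av_cons, Av_shift, Av_shift, Av_shift, Av_shift]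
      have a0 := mul_le_mul_of_nonneg_left (ih (i + 4) hn (i + 3) le_rfl (l + 4))
        (show 0 ≤ (1 - q) ^ 4 by positivity)
      have a1 := mul_le_mul_of_nonneg_left (ih (i + 3) (by omega) (i + 2) le_rfl (l + 4))
        (show 0 ≤ 4 * q * (1 - q) ^ 3 - c / 2 by linarith)
      have a2 := mul_le_mul_of_nonneg_left (ih (i + 2) (by omega) (i + 2) (by omega) (l + 4))
        (show 0 ≤ 6 * q ^ 2 * (1 - q) ^ 2 by positivity)
      have a3 := mul_le_mul_of_nonneg_left (ih (i + 1) (by omega) (i + 2) (by omega) (l + 4))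
        (show 0 ≤ 4 * q ^ 3 * (1 - q) by positivity)
      have a4 := mul_le_mul_of_nonneg_left (ih i (by omega) (i + 2) (by omega) (l + 4))
        (show 0 ≤ q ^ 4 by positivity)
      rw [Lt] at a0
      set A := σ ^ 4 / σ ^ (i + 4) with hA
      set Z := (1 - q / 2) ^ T * 2 ^ i with hZ
      have hA0 : 0 ≤ A := by positivity
      have hZ0 : 0 ≤ Z := by positivity
      have f3 : σ ^ 4 / σ ^ (i + 3) = A * σ := by rw [hA]; field_simp; ring
      have f2 : σ ^ 4 / σ ^ (i + 2) = A * σ ^ 2 := by rw [hA]; field_simp; ring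
      have f1 : σ ^ 4 / σ ^ (i + 1) = A * σ ^ 3 := by rw [hA]; field_simp; ring
      have f0 : σ ^ 4 / σ ^ i = A * σ ^ 4 := by rw [hA]; field_simp; ring
      have g4 : (1 - q / 2) ^ T * 2 ^ (i + 4) = 16 * Z := by rw [hZ]; ring
      have g3 : (1 - q / 2) ^ T * 2 ^ (i + 3) = 8 * Z := by rw [hZ]; ring
      have g2 : (1 - q / 2) ^ T * 2 ^ (i + 2) = 4 * Z := by rw [hZ]; ring
      have g1 : (1 - q / 2) ^ T * 2 ^ (i + 1) = 2 * Z := by rw [hZ]; ring
      have g5 : (1 - q / 2) ^ (T + 1) * 2 ^ (i + 4) = 16 * Z * (1 - q / 2) := by rw [hZ]; ring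
      rw [g4] at a0
      rw [f3, g3] at a1
      rw [f2, g2] at a2
      rw [f1, g1] at a3
      rw [f0] at a4
      rw [g5]
      have k1 := mul_le_mul_of_nonneg_left hσ hA0
      have k2 : (1 - q / 2) ^ 4 ≤ 1 - q / 2 := pow_le_of_le_one hβ (by linarith) (by norm_num)
      have k3 := mul_le_mul_of_nonneg_left k2 (show 0 ≤ 16 * Z by positivity)
      have k4 : 0 ≤ c * Z := by positivity
      have tot : (1 - q) ^ 4 * (A + 16 * Z) + (4 * q * (1 - q) ^ 3 - c / 2) * (A * σ + 8 * Z)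
          + 6 * q ^ 2 * (1 - q) ^ 2 * (A * σ ^ 2 + 4 * Z) + 4 * q ^ 3 * (1 - q) * (A * σ ^ 3 + 2 * Z)
          + q ^ 4 * (A * σ ^ 4 + Z)
          = A * ((1 - q + q * σ) ^ 4 - c / 2 * σ) + 16 * Z * (1 - q / 2) ^ 4 - 4 * (c * Z) := by ring
      linarith
    intro w hw
    induction w with
    | zero => omega
    | succ w ihw =>
      rcases eq_or_lt_of_le hw with h | h
      · have : w + 1 = i + 3 := by omega
        rw [this]; exact base
      · intro l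
        rw [Lt, Av_cons]
        have e : (fun x => (G2 q c ψ n (T + 1) (i + 4) x
            + G2 q c ψ n (T + 1) (i + 4) (x + 2 * 3 ^ w)) / 2) = G2 q c ψ n (T + 1) (i + 4) := by
          funext x
          rw [S.G2_inv n w _ _ _ hn (by omega)]
          ring
        rw [e]
        exact ihw (by omega) l

theorem Sys.G2_high (S : Sys q c N ψ) (h0 : 0 ≤ q) (h1 : q ≤ 1) (hc0 : 0 ≤ c)
    (hc : c ≤ 4 * q * (1 - q) ^ 3) {σ : ℝ} (hσ1 : 1 ≤ σ)
    (hσ : (1 - q + q * σ) ^ 4 - c / 2 * σ ≤ 1) {n : ℕ} (hn : 4 ≤ n) :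
    ∀ T u, n ≤ u → ∀ l,
      Av (Lt n) (G2 q c ψ n T u) l ≤ σ ^ 4 / σ ^ n + (1 - q / 2) ^ T * 2 ^ u := by
  intro T
  induction T with
  | zero =>
    intro u _ l
    have e : G2 q c ψ n 0 u = fun _ => 1 := by funext l; rw [G2]
    rw [e, Av_const, pow_zero, one_mul]
    have : (1 : ℝ) ≤ 2 ^ u := one_le_pow₀ (by norm_num)
    have : 0 ≤ σ ^ 4 / σ ^ n := by positivity
    linarith
  | succ T ih =>
    intro u hu l
    rcases eq_or_lt_of_le hu with rfl | h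
    · exact S.G2_low h0 h1 hc0 hc hσ1 hσ n _ n le_rfl n (by omega) l
    · obtain ⟨u, rfl⟩ : ∃ u', u = u' + 1 := ⟨u - 1, by omega⟩
      have e : G2 q c ψ n (T + 1) (u + 1)
          = fun l => q * G2 q c ψ n T u (l + 1) + (1 - q) * G2 q c ψ n T (u + 1) (l + 1) := by
        funext l; rw [G2, if_neg (by omega), if_neg (by omega), Nat.add_sub_cancel]
      rw [e, Av_lin, Av_shift, Av_shift]
      have a0 := mul_le_mul_of_nonneg_left (ih u (by omega) (l + 1)) h0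
      have a1 := mul_le_mul_of_nonneg_left (ih (u + 1) hu (l + 1)) (sub_nonneg.2 h1)
      have : q * (σ ^ 4 / σ ^ n + (1 - q / 2) ^ T * 2 ^ u)
          + (1 - q) * (σ ^ 4 / σ ^ n + (1 - q / 2) ^ T * 2 ^ (u + 1))
          = σ ^ 4 / σ ^ n + (1 - q / 2) ^ (T + 1) * 2 ^ (u + 1) := by ring
      linarith

theorem G2_walk {n : ℕ} (hn : 4 ≤ n) (T : ℕ) : ∀ h u l, n + h ≤ u →
    G2 q c ψ n (T + h) u l = Ex q h (fun D => G2 q c ψ n T (u - D) (l + h)) := by
  intro h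
  induction h with
  | zero => intro u l _; simp [Ex]
  | succ h ih =>
    intro u l hu
    rw [← add_assoc, G2, if_neg (by omega), if_neg (by omega), ih _ _ (by omega), ih _ _ (by omega),
      Ex_succ]
    have e2 : (fun i => G2 q c ψ n T (u - (i + 1)) (l + (h + 1)))
        = fun i => G2 q c ψ n T (u - 1 - i) (l + 1 + h) := by
      funext i; congr 1 <;> omega
    rw [e2, show l + (h + 1) = l + 1 + h by ring]

theorem G2_shift (h0 : 0 < q) (h1 : q < 1) (hc0 : 0 ≤ c) (hc : c ≤ 4 * q * (1 - q) ^ 3)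
    {n h u : ℕ} (hn : 4 ≤ n) (hu : n + (h + 1) ≤ u) {e : ℝ} (he0 : 0 < e)
    (he : 1 ≤ e ^ 2 * ((h + 1) * q * (1 - q))) (T : ℕ) : ∀ M l,
    G2 q c ψ n (T + M + h) u l ≤ G2 q c ψ n (T + h) u (l + M) + M * e := by
  intro M
  induction M with
  | zero => intro l; simp
  | succ M ih =>
    intro l
    have hb := G2_bounds (ψ := ψ) h0.le h1.le hc0 hc n (T + M)
    have e1 := G2_walk (q := q) (c := c) (ψ := ψ) hn (T + M) (h + 1) u l hu
    have e2 := G2_walk (q := q) (c := c) (ψ := ψ) hn (T + M) h u (l + 1) (by omega)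
    have hg := Ex_grad h0 h1 h he0 he (g := fun D => G2 q c ψ n (T + M) (u - D) (l + 1 + h))
      (fun i => (hb _ _).1) (fun i => (hb _ _).2)
    rw [Ex_succ, show l + (h + 1) = l + 1 + h by ring] at e1
    have i1 := ih (l + 1)
    rw [show T + (M + 1) + h = T + M + (h + 1) by ring, show l + (M + 1) = l + 1 + M by ring, e1]
    rw [e2] at i1
    rw [abs_le] at hg
    have := mul_le_mul_of_nonneg_left hg.2 h0.le
    have := mul_le_mul_of_nonneg_right h1.le he0.le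
    push_cast
    linarith

theorem Sys.end_gain (S : Sys q c N ψ) (h0 : 0 < q) (h1 : q < 1) (hc0 : 0 ≤ c)
    (hc : c ≤ 4 * q * (1 - q) ^ 3) {σ : ℝ} (hσ1 : 1 ≤ σ)
    (hσ : (1 - q + q * σ) ^ 4 - c / 2 * σ ≤ 1) {n h : ℕ} (hn : 4 ≤ n) {e : ℝ} (he0 : 0 < e)
    (he : 1 ≤ e ^ 2 * ((h + 1) * q * (1 - q))) (l : ℕ) :
    N (n + (h + 1)) l ≤ σ ^ 4 / σ ^ n + 3 ^ n * e := by
  set u := n + (h + 1)
  have key : ∀ T, N u l ≤ σ ^ 4 / σ ^ n + 3 ^ n * e + (1 - q / 2) ^ T * 2 ^ u := by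
    intro T
    have k1 : N u l - 3 ^ n * e ≤ Av (Lt n) (G2 q c ψ n (T + h) u) l := by
      apply le_Av
      intro M hM
      have a1 := S.le_G2 h0.le h1.le hc n (T + M + h) u l
      have a2 := G2_shift (ψ := ψ) h0 h1 hc0 hc hn (le_refl u) he0 he T M l
      have a3 : (M : ℝ) ≤ 3 ^ n := by exact_mod_cast hM.trans (Lt_sum n)
      have := mul_le_mul_of_nonneg_right a3 he0.le
      linarith
    have k2 := S.G2_high h0.le h1.le hc0 hc hσ1 hσ hn (T + h) u (by omega) l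
    have k3 : (1 - q / 2) ^ (T + h) ≤ (1 - q / 2) ^ T :=
      pow_le_pow_of_le_one (by linarith) (by linarith) (by omega)
    have := mul_le_mul_of_nonneg_right k3 (show (0 : ℝ) ≤ 2 ^ u by positivity)
    linarith
  apply le_of_forall_pos_le_add
  intro ε hε
  obtain ⟨T, hT⟩ := exists_pow_lt_of_lt_one (show 0 < ε / 2 ^ u by positivity)
    (show 1 - q / 2 < 1 by linarith)
  rw [lt_div_iff₀ (by positivity)] at hT
  linarith [key T]

/-- polynomial decay -/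
theorem poly (h0 : 0 < q) (h1 : q < 1) (hc0 : 0 < c) (hc : c ≤ 4 * q * (1 - q) ^ 3) (hc1 : c ≤ 1) :
    ∃ γ : ℝ, 0 < γ ∧ ∃ u0 : ℕ, ∀ (N ψ : ℕ → ℕ → ℝ), Sys q c N ψ → ∀ u l : ℕ, u0 ≤ u →
      N u l ≤ Real.exp (-γ * Real.log u) := by
  set σ : ℝ := 1 + c / 30 with hσdef
  have hσ1 : 1 < σ := by rw [hσdef]; linarith
  have hσ2 : σ ≤ 2 := by rw [hσdef]; linarith
  have hσ : (1 - q + q * σ) ^ 4 - c / 2 * σ ≤ 1 := by
    have a1 : 1 - q + q * σ ≤ 1 + c / 30 := by rw [hσdef]; nlinarith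
    have a0 : 0 ≤ 1 - q + q * σ := by nlinarith
    have a2 : (1 - q + q * σ) ^ 4 ≤ (1 + c / 30) ^ 4 := pow_le_pow_left₀ a0 a1 4
    have a3 : (1 + c / 30) ^ 4 ≤ 1 + c / 2 := by
      have b2 : c ^ 2 ≤ c := pow_le_of_le_one hc0.le hc1 (by norm_num)
      have b3 : c ^ 3 ≤ c := pow_le_of_le_one hc0.le hc1 (by norm_num)
      have b4 : c ^ 4 ≤ c := pow_le_of_le_one hc0.le hc1 (by norm_num)
      have : (1 + c / 30) ^ 4 = 1 + 4 * c / 30 + 6 * c ^ 2 / 900 + 4 * c ^ 3 / 27000 + c ^ 4 / 810000 := by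
        ring
      linarith
    nlinarith
  have hqq : 0 < q * (1 - q) := mul_pos h0 (by linarith)
  obtain ⟨K, hK⟩ := exists_nat_ge (1 / (q * (1 - q)))
  have hK1 : 1 ≤ K * (q * (1 - q)) := by rwa [← div_le_iff₀ hqq]
  set B := 81 * (K + 1) with hB
  have hB2 : 2 ≤ B := by omega
  have hB1 : (1 : ℝ) < B := by exact_mod_cast hB2
  have lB : 0 < Real.log B := Real.log_pos hB1
  set g := Real.log σ with hg
  have hg0 : 0 < g := Real.log_pos hσ1
  obtain ⟨n0, hn0⟩ := exists_nat_ge (2 * Real.log 17 / g + 4)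
  have l17 : 0 < Real.log 17 := Real.log_pos (by norm_num)
  refine ⟨g / (4 * Real.log B), by positivity, B ^ n0, fun N ψ S u l hu => ?_⟩
  have hu0 : u ≠ 0 := by
    have : 0 < B ^ n0 := by positivity
    omega
  set n := Nat.log B u
  have k1 : n0 ≤ n := Nat.le_log_of_pow_le (by omega) hu
  have k2 : B ^ n ≤ u := Nat.pow_log_le_self B hu0
  have k3 : u < B ^ (n + 1) := Nat.lt_pow_succ_log_self (by omega) u
  have k4 : (n0 : ℝ) ≤ n := by exact_mod_cast k1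
  have k5 : 0 ≤ 2 * Real.log 17 / g := by positivity
  have hn4 : (4 : ℝ) ≤ n := by linarith
  have hn4' : 4 ≤ n := by exact_mod_cast hn4
  have k6 : K * 81 ^ n + n + 1 ≤ u := by
    refine le_trans ?_ k2
    rw [hB, mul_pow]
    have a1 : K + 1 ≤ (K + 1) ^ n := Nat.le_self_pow (by omega) _
    have a2 : n + 1 ≤ 81 ^ n :=
      lt_of_lt_of_le Nat.lt_two_pow_self (Nat.pow_le_pow_left (by norm_num) n)
    nlinarith
  clear_value n
  obtain ⟨h, rfl⟩ : ∃ h, u = n + (h + 1) := ⟨u - n - 1, by omega⟩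
  have hb := S.end_gain h0 h1 hc0.le hc hσ1.le hσ hn4' (h := h) (e := 1 / 9 ^ n) (by positivity) (by
    have a1 : ((K * 81 ^ n : ℕ) : ℝ) ≤ h := by exact_mod_cast (by omega : K * 81 ^ n ≤ h)
    push_cast at a1
    have a2 : ((1 : ℝ) / 9 ^ n) ^ 2 = 1 / 81 ^ n := by
      rw [div_pow, one_pow, ← pow_mul, mul_comm, pow_mul]; norm_num
    rw [a2, one_div, inv_mul_eq_div, le_div_iff₀ (by positivity)]
    have a3 := mul_le_mul_of_nonneg_right a1 hqq.le
    have a4 := mul_le_mul_of_nonneg_right hK1 (show (0 : ℝ) ≤ 81 ^ n by positivity)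
    nlinarith) l
  refine hb.trans ?_
  have a1 : (3 : ℝ) ^ n * (1 / 9 ^ n) ≤ 1 / σ ^ n := by
    rw [← one_div_pow, ← one_div_pow, ← mul_pow]
    apply pow_le_pow_left₀ (by norm_num)
    rw [le_div_iff₀ (by linarith)]
    linarith
  have a2 : σ ^ 4 / σ ^ n ≤ 16 / σ ^ n := by
    gcongr
    calc σ ^ 4 ≤ 2 ^ 4 := pow_le_pow_left₀ (by linarith) hσ2 4
      _ = 16 := by norm_num
  have a3 : 17 / σ ^ n = Real.exp (Real.log 17 - n * g) := by
    rw [Real.exp_sub, Real.exp_log (by norm_num), Real.exp_nat_mul, hg, Real.exp_log (by linarith)]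
  have a4 : σ ^ 4 / σ ^ n + 3 ^ n * (1 / 9 ^ n) ≤ 17 / σ ^ n := by
    have : 17 / σ ^ n = 16 / σ ^ n + 1 / σ ^ n := by ring
    linarith
  refine a4.trans ?_
  rw [a3, Real.exp_le_exp]
  have h6 : 2 * Real.log 17 ≤ n * g := by
    have : 2 * Real.log 17 / g ≤ n := by linarith
    rwa [div_le_iff₀ hg0] at this
  have h7 : Real.log ((n + (h + 1) : ℕ) : ℝ) ≤ 2 * n * Real.log B := by
    have h8 : ((n + (h + 1) : ℕ) : ℝ) ≤ (B : ℝ) ^ (n + 1) := by exact_mod_cast k3.le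
    have h9 := Real.log_le_log (by positivity) h8
    rw [Real.log_pow, Nat.cast_add n 1, Nat.cast_one] at h9
    nlinarith
  have h12 : g / (4 * Real.log B) * Real.log ((n + (h + 1) : ℕ) : ℝ) ≤ n * g / 2 := by
    refine (mul_le_mul_of_nonneg_left h7 (by positivity)).trans (le_of_eq ?_)
    field_simp
    ring
  linarith

end Pool.Agent.P.MP_d124bf_nt
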