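import Pool.Agent.K.MP_d124bf_nt.C2
import Pool.Agent.K.MP_d124bf_nt.C3

-- part Pool.Agent.P.MP_d124bf_nt.RSys
section

/-!
The time-reversed system: the array is multiplied by two at each step and divided by three at
each jump.
-/

namespace Pool.Agent.P.MP_d124bf_nt

noncomputable def arr (Z : ℤ) (P u l : ℕ) : ℝ := Z * 3 ^ u * 2 ^ l / 2 ^ P

theorem arr_col (Z : ℤ) (P u l d : ℕ) : arr Z P (u + d) l = 3 ^ d * arr Z P u l := by
  rw [arr, arr]; ring

theorem arr_row (Z : ℤ) (P u l t : ℕ) : arr Z P u (l + t) = 2 ^ t * arr Z P u l := by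
  rw [arr, arr]; ring

theorem arr_int (Z : ℤ) {P l : ℕ} (u : ℕ) (h : l ≤ P) :
    2 ^ (P - l) * arr Z P u l = ((Z * 3 ^ u : ℤ) : ℝ) := by
  obtain ⟨t, rfl⟩ := Nat.exists_eq_add_of_le h
  rw [arr, Nat.add_sub_cancel_left]
  push_cast
  field_simp
  ring

theorem arr_low {Z : ℤ} (hZ : Odd Z) {P u l : ℕ} (h : l < P) {v : ℝ} (hv : Eqv (arr Z P u l) v) :
    1 ≤ 2 ^ (P - l) * |v| := by
  obtain ⟨n, hn⟩ := hv
  have h1 := arr_int Z u h.le
  obtain ⟨t, ht⟩ : ∃ t, P - l = t + 1 := ⟨P - l - 1, by omega⟩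
  have h2 : Z * 3 ^ u - 2 ^ (P - l) * n ≠ 0 := by
    have a1 : Odd (Z * 3 ^ u) := hZ.mul (Odd.pow (by decide))
    have a2 : Even (2 ^ (P - l) * n) := by rw [ht, pow_succ]; exact ⟨2 ^ t * n, by ring⟩
    intro h3
    rw [sub_eq_zero] at h3
    exact (Int.not_even_iff_odd.2 a1) (h3 ▸ a2)
  have h3 : (1 : ℝ) ≤ |((Z * 3 ^ u - 2 ^ (P - l) * n : ℤ) : ℝ)| := by
    rw [← Int.cast_abs]; exact_mod_cast Int.one_le_abs h2
  have h4 : ((Z * 3 ^ u - 2 ^ (P - l) * n : ℤ) : ℝ) = 2 ^ (P - l) * v := by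
    rw [Int.cast_sub, ← h1, hn]; push_cast; ring
  rwa [h4, abs_mul, abs_of_pos (show (0 : ℝ) < 2 ^ (P - l) by positivity)] at h3

structure RS (q c : ℝ) (S P : ℕ) (Z : ℤ) (N : ℕ → ℕ → ℝ) : Prop where
  nn : ∀ u l, 0 ≤ N u l
  le1 : ∀ u l, N u l ≤ 1
  unit : ∀ u l, l + 1 ≤ S → N (u + 1) l ≤ q * N u (l + 1) + (1 - q) * N (u + 1) (l + 1)
  gain : ∀ u l, 4 ≤ u → l + 4 ≤ S → Far (1 / 7) (arr Z P u l) →
    N u l ≤ Ex q 4 (fun d => N (u - d) (l + 4)) - c * N (u - 1) (l + 4)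
  odd : Odd Z
  le : S ≤ P
  pad : ∀ u < 2 * P + 4, ∀ l, N u l = 0

variable {q c : ℝ} {S P : ℕ} {Z : ℤ} {N : ℕ → ℕ → ℝ}

theorem RS.walk (X : RS q c S P Z N) (h0 : 0 ≤ q) (h1 : q ≤ 1) :
    ∀ h u l, l + h ≤ S → N u l ≤ Ex q h (fun D => N (u - D) (l + h)) := by
  intro h
  induction h with
  | zero => intro u l _; simp [Ex]
  | succ h ih =>
    intro u l hu
    rcases Nat.eq_zero_or_pos u with rfl | hu0
    · rw [X.pad 0 (by omega) l, ← Ex_const (q := q) (h + 1) 0]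
      exact Ex_mono h0 h1 _ (fun i => X.nn _ _)
    obtain ⟨u, rfl⟩ : ∃ u', u = u' + 1 := ⟨u - 1, by omega⟩
    have h2 := X.unit u l (by omega)
    have i1 := ih u (l + 1) (by omega)
    have i2 := ih (u + 1) (l + 1) (by omega)
    rw [Ex_succ]
    have e2 : (fun i => N (u + 1 - (i + 1)) (l + (h + 1))) = fun i => N (u - i) (l + 1 + h) := by
      funext i; congr 1 <;> omega
    have e3 : l + (h + 1) = l + 1 + h := by ring
    rw [e2, e3]
    have := mul_le_mul_of_nonneg_left i1 h0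
    have := mul_le_mul_of_nonneg_left i2 (sub_nonneg.2 h1)
    linarith

theorem RS.back (X : RS q c S P Z N) (h0 : 0 ≤ q) (h1 : q ≤ 1) {h u l : ℕ} (hl : l + h ≤ S) {Q : ℝ}
    (hQ : ∀ d ≤ h, N (u - d) (l + h) ≤ Q) : N u l ≤ Q := by
  refine (X.walk h0 h1 h u l hl).trans ?_
  rw [← Ex_const (q := q) h Q]
  exact Ex_mono' h0 h1 h hQ

theorem RS.block (X : RS q c S P Z N) (h0 : 0 ≤ q) (h1 : q ≤ 1) (hc : c ≤ 4 * q * (1 - q) ^ 3)
    {u l : ℕ} (hu : 4 ≤ u) (hl : l + 4 ≤ S) {w : ℝ}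
    (hw : w = 0 ∨ (w = 1 ∧ Far (1 / 7) (arr Z P u l))) {g : ℕ → ℝ}
    (hg : ∀ d ≤ 4, N (u - d) (l + 4) ≤ g d) :
    N u l ≤ (1 - q) ^ 4 * g 0 + (4 * q * (1 - q) ^ 3 - c * w) * g 1 + 6 * q ^ 2 * (1 - q) ^ 2 * g 2
      + 4 * q ^ 3 * (1 - q) * g 3 + q ^ 4 * g 4 := by
  have hq : 0 ≤ 1 - q := sub_nonneg.2 h1
  have key : N u l ≤ Ex q 4 (fun d => N (u - d) (l + 4)) - c * w * N (u - 1) (l + 4) := by
    rcases hw with rfl | ⟨rfl, hw⟩
    · simpa using X.walk h0 h1 4 u l hl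
    · simpa using X.gain u l hu hl hw
  have hcw : 0 ≤ 4 * q * (1 - q) ^ 3 - c * w := by
    have : 0 ≤ 4 * q * (1 - q) ^ 3 := by positivity
    rcases hw with rfl | ⟨rfl, _⟩ <;> linarith
  rw [Ex_four] at key
  have a0 := mul_le_mul_of_nonneg_left (hg 0 (by omega)) (show 0 ≤ (1 - q) ^ 4 by positivity)
  have a1 := mul_le_mul_of_nonneg_left (hg 1 (by omega)) hcw
  have a2 := mul_le_mul_of_nonneg_left (hg 2 (by omega))
    (show 0 ≤ 6 * q ^ 2 * (1 - q) ^ 2 by positivity)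
  have a3 := mul_le_mul_of_nonneg_left (hg 3 (by omega))
    (show 0 ≤ 4 * q ^ 3 * (1 - q) by positivity)
  have a4 := mul_le_mul_of_nonneg_left (hg 4 (by omega)) (show 0 ≤ q ^ 4 by positivity)
  linarith

theorem RS.white (X : RS q c S P Z N) (h0 : 0 ≤ q) (h1 : q ≤ 1) (hc : c ≤ 4 * q * (1 - q) ^ 3)
    (hc1 : c ≤ 1) {h u l : ℕ} (hl : l + (h + 4) ≤ S) {Q : ℝ}
    (hQ : ∀ d ≤ h + 4, N (u - d) (l + (h + 4)) ≤ Q) (hw : Far (1 / 7) (arr Z P u l)) :
    N u l ≤ (1 - c) * Q := by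
  rcases lt_or_ge u 4 with hu | hu
  · rw [X.pad u (by omega) l]
    exact mul_nonneg (by linarith) ((X.nn _ _).trans (hQ 0 (by omega)))
  have := X.block h0 h1 hc (u := u) (l := l) hu (by omega) (w := 1) (Or.inr ⟨rfl, hw⟩)
    (g := fun _ => Q) (fun d hd => X.back h0 h1 (h := h) (by omega) (fun e he => by
      have := hQ (d + e) (by omega)
      rwa [← Nat.sub_sub, show l + (h + 4) = l + 4 + h by ring] at this))
  refine this.trans (le_of_eq ?_)
  ring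

theorem RS.trunc (X : RS q c S P Z N) (h0 : 0 ≤ q) (h1 : q ≤ 1) (hc : c ≤ 4 * q * (1 - q) ^ 3)
    {T : ℕ → ℕ → ℝ} (hT0 : ∀ u l, 0 ≤ T u l)
    (hT : ∀ u l, T (u + 1) l = q * T u (l + 1) + (1 - q) * T (u + 1) (l + 1)) (hc0 : 0 ≤ c) :
    RS q c S P Z (fun u l => max (N u l - T u l) 0) := by
  have hq : 0 ≤ 1 - q := sub_nonneg.2 h1
  have m0 : ∀ u l, 0 ≤ max (N u l - T u l) 0 := fun u l => le_max_right _ _
  have m1 : ∀ u l, N u l ≤ max (N u l - T u l) 0 + T u l := fun u l => by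
    have := le_max_left (N u l - T u l) 0
    linarith
  refine ⟨m0, fun u l => max_le (by linarith [X.le1 u l, hT0 u l]) (by norm_num), fun u l hl => ?_,
    fun u l hu hl hw => ?_, X.odd, X.le,
    fun u hu l => max_eq_right (by linarith [X.pad u hu l, hT0 u l])⟩
  · have a1 := mul_le_mul_of_nonneg_left (m1 u (l + 1)) h0
    have a2 := mul_le_mul_of_nonneg_left (m1 (u + 1) (l + 1)) hq
    have a3 := mul_nonneg h0 (m0 u (l + 1))
    have a4 := mul_nonneg hq (m0 (u + 1) (l + 1))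
    exact max_le (by linarith [X.unit u l hl, hT u l]) (by linarith)
  · have hb := X.block h0 h1 hc hu hl (w := 1) (Or.inr ⟨rfl, hw⟩)
      (g := fun d => max (N (u - d) (l + 4) - T (u - d) (l + 4)) 0 + T (u - d) (l + 4))
      (fun d _ => m1 _ _)
    obtain ⟨i, rfl⟩ : ∃ i, u = i + 4 := ⟨u - 4, by omega⟩
    have e : T (i + 4) l = (1 - q) ^ 4 * T (i + 4) (l + 4) + 4 * q * (1 - q) ^ 3 * T (i + 3) (l + 4)
        + 6 * q ^ 2 * (1 - q) ^ 2 * T (i + 2) (l + 4) + 4 * q ^ 3 * (1 - q) * T (i + 1) (l + 4)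
        + q ^ 4 * T i (l + 4) := by
      rw [hT (i + 3) l, hT (i + 2) (l + 1), hT (i + 3) (l + 1), hT (i + 1) (l + 1 + 1),
        hT (i + 2) (l + 1 + 1), hT (i + 3) (l + 1 + 1), hT i (l + 1 + 1 + 1),
        hT (i + 1) (l + 1 + 1 + 1), hT (i + 2) (l + 1 + 1 + 1), hT (i + 3) (l + 1 + 1 + 1)]
      simp only [add_assoc, Nat.reduceAdd]
      ring
    rw [Ex_four]
    simp only [show i + 4 - 0 = i + 4 from rfl, show i + 4 - 1 = i + 3 from rfl,
      show i + 4 - 2 = i + 2 from rfl, show i + 4 - 3 = i + 1 from rfl,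
      show i + 4 - 4 = i from rfl] at hb ⊢
    have a0 := mul_nonneg (show 0 ≤ (1 - q) ^ 4 by positivity) (m0 (i + 4) (l + 4))
    have a1 := mul_nonneg (sub_nonneg.2 hc) (m0 (i + 3) (l + 4))
    have a2 := mul_nonneg (show 0 ≤ 6 * q ^ 2 * (1 - q) ^ 2 by positivity) (m0 (i + 2) (l + 4))
    have a3 := mul_nonneg (show 0 ≤ 4 * q ^ 3 * (1 - q) by positivity) (m0 (i + 1) (l + 4))
    have a4 := mul_nonneg (show 0 ≤ q ^ 4 by positivity) (m0 i (l + 4))
    have a5 := mul_nonneg hc0 (hT0 (i + 3) (l + 4))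
    exact max_le (by linarith) (by linarith)

theorem far_third {d : ℤ} (hd : ¬ (3 : ℤ) ∣ d) : Far (1 / 3) ((d : ℝ) / 3) := by
  intro n
  have h1 : d - 3 * n ≠ 0 := fun h => hd ⟨n, by linarith⟩
  have h2 : (1 : ℝ) ≤ |((d - 3 * n : ℤ) : ℝ)| := by
    rw [← Int.cast_abs]; exact_mod_cast Int.one_le_abs h1
  have e : (d : ℝ) / 3 - n = ((d - 3 * n : ℤ) : ℝ) / 3 := by push_cast; ring
  rw [e, abs_div, abs_of_pos (show (0 : ℝ) < 3 by norm_num)]
  gcongr

theorem arr_inside {u0 l r s : ℕ} {v : ℝ} {d : ℤ} (ht : Eqv (arr Z P u0 l) (v / 3 ^ r + d / 3))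
    (hs : s < r) : Eqv (arr Z P (u0 + r - s) l) (v / 3 ^ s) := by
  obtain ⟨y, rfl⟩ : ∃ y, r = s + (y + 1) := ⟨r - s - 1, by omega⟩
  rw [show u0 + (s + (y + 1)) - s = u0 + (y + 1) by omega, arr_col]
  refine Eqv.trans (by simpa using ht.mul_pow 3 (y + 1)) ⟨3 ^ y * d, ?_⟩
  push_cast
  field_simp
  ring

theorem arr_run (hZ : Odd Z) {u l : ℕ} (hu : P ≤ u) (hl : l < P) :
    ∃ (r u0 : ℕ) (v : ℝ) (d : ℤ), u = u0 + r ∧ ¬ (3 : ℤ) ∣ d ∧ |v| ≤ 4 / 21 ∧ (r ≠ 0 → |v| ≤ 1 / 7) ∧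
      Eqv (arr Z P u0 l) (v / 3 ^ r + d / 3) ∧ 3 ^ r ≤ 2 ^ (P - l) := by
  classical
  by_cases hw : Far (1 / 7) (arr Z P u l)
  · have a1 := hw ⌊arr Z P u l⌋
    have a2 := hw (⌊arr Z P u l⌋ + 1)
    have a3 := Int.fract_nonneg (arr Z P u l)
    have a4 := Int.fract_lt_one (arr Z P u l)
    rw [Int.self_sub_floor, abs_of_nonneg a3] at a1
    push_cast at a2
    rw [← sub_sub, Int.self_sub_floor, abs_of_neg (by linarith)] at a2
    rcases le_total (Int.fract (arr Z P u l)) (1 / 2) with h | h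
    · refine ⟨0, u, Int.fract (arr Z P u l) - 1 / 3, 1, rfl, by norm_num, ?_, fun h => absurd rfl h,
        ⟨⌊arr Z P u l⌋, by simp⟩, Nat.one_le_two_pow⟩
      rw [abs_le]; constructor <;> linarith
    · refine ⟨0, u, Int.fract (arr Z P u l) - 2 / 3, 2, rfl, by norm_num, ?_, fun h => absurd rfl h,
        ⟨⌊arr Z P u l⌋, by simp⟩, Nat.one_le_two_pow⟩
      rw [abs_le]; constructor <;> linarith
  simp only [Far, not_forall, not_le] at hw
  obtain ⟨n0, hn0⟩ := hw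
  set v := arr Z P u l - n0 with hv
  have bound : ∀ y : ℕ, Eqv (arr Z P (u - y) l) (v / 3 ^ y) → (3 : ℝ) ^ y * 7 ≤ 2 ^ (P - l) := by
    intro y hy
    have h1 := arr_low hZ hl hy
    rw [abs_div, abs_of_pos (show (0 : ℝ) < 3 ^ y by positivity), ← mul_div_assoc,
      le_div_iff₀ (by positivity)] at h1
    have : (0 : ℝ) < 2 ^ (P - l) := by positivity
    nlinarith
  have hP : ¬ Eqv (arr Z P (u - P) l) (v / 3 ^ P) := by
    intro h
    have h1 := bound _ h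
    have h2 : (2 : ℝ) ^ (P - l) ≤ 3 ^ P := (pow_le_pow_right₀ (by norm_num) (Nat.sub_le _ _)).trans
      (pow_le_pow_left₀ (by norm_num) (by norm_num) P)
    have : (0 : ℝ) < 3 ^ P := by positivity
    linarith
  have ex : ∃ y : ℕ, ¬ Eqv (arr Z P (u - y) l) (v / 3 ^ y) := ⟨P, hP⟩
  have hne : Nat.find ex ≠ 0 := by
    intro h
    have := Nat.find_spec ex
    rw [h] at this
    exact this ⟨n0, by simp [hv]⟩
  obtain ⟨r, hr⟩ := Nat.exists_eq_succ_of_ne_zero hne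
  have hrP : r + 1 ≤ P := by
    have := Nat.find_min' ex hP
    omega
  have h1 : Eqv (arr Z P (u - r) l) (v / 3 ^ r) := by
    have := Nat.find_min ex (m := r) (by omega)
    simpa using this
  have hN : ¬ Eqv (arr Z P (u - (r + 1)) l) (v / 3 ^ (r + 1)) := by
    have := Nat.find_spec ex
    rwa [hr] at this
  have h2 := bound r h1
  obtain ⟨n, hn⟩ := h1
  rw [show u - r = u - (r + 1) + 1 by omega, arr_col, pow_one] at hn
  have e : arr Z P (u - (r + 1)) l = v / 3 ^ (r + 1) + n / 3 := by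
    rw [pow_succ, ← div_div]; linarith
  refine ⟨r + 1, u - (r + 1), v, n, by omega, ?_, by linarith, fun _ => hn0.le, ⟨0, by simp [e]⟩, ?_⟩
  · rintro ⟨m, rfl⟩
    exact hN ⟨m, by rw [e]; push_cast; ring⟩
  · have : (3 : ℝ) ^ (r + 1) ≤ 2 ^ (P - l) := by
      rw [pow_succ]
      have : (0 : ℝ) < 3 ^ r := by positivity
      linarith
    exact_mod_cast this

theorem RS.small (X : RS q c S P Z N) (h0 : 0 ≤ q) (h1 : q ≤ 1) (hc0 : 0 ≤ c)
    (hc : c ≤ 4 * q * (1 - q) ^ 3) (hc1 : c ≤ 1) {Q : ℝ} :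
    ∀ (T r u0 l : ℕ) (v : ℝ) (d : ℤ), ¬ (3 : ℤ) ∣ d → |v| ≤ 2 / 7 → (r = 0 → |v| ≤ 4 / 21) →
      Eqv (arr Z P u0 l) (v / 3 ^ r + d / 3) → l + (T + 4) ≤ S →
      (∀ e ≤ T + 4, N (u0 + r - e) (l + (T + 4)) ≤ Q) →
      N (u0 + r) l ≤ (1 - c + c * (2 ^ r * (1 - q / 2) ^ T)) * Q := by
  intro T
  induction T with
  | zero =>
    intro r u0 l v d _ _ _ _ hl hQ
    have q0 : 0 ≤ Q := (X.nn _ _).trans (hQ 0 (by omega))
    have a1 : (1 : ℝ) ≤ 2 ^ r := one_le_pow₀ (by norm_num)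
    have a2 := mul_le_mul_of_nonneg_left a1 (mul_nonneg hc0 q0)
    have := X.back h0 h1 hl hQ
    rw [pow_zero]
    linarith
  | succ T ih =>
    intro r u0 l v d hd hv hv0 ht hl hQ
    have q0 : 0 ≤ Q := (X.nn _ _).trans (hQ 0 (by omega))
    have fin : Far (1 / 7) (arr Z P (u0 + r) l) →
        N (u0 + r) l ≤ (1 - c + c * (2 ^ r * (1 - q / 2) ^ (T + 1))) * Q := by
      intro hw
      have a1 := X.white h0 h1 hc hc1 hl hQ hw
      have a2 : 0 ≤ c * (2 ^ r * (1 - q / 2) ^ (T + 1)) * Q :=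
        mul_nonneg (mul_nonneg hc0 (mul_nonneg (by positivity) (pow_nonneg (by linarith) _))) q0
      linarith
    rcases Nat.eq_zero_or_pos r with rfl | hr
    · apply fin
      have := ((far_third hd).add_small (hv0 rfl)).mono (show (1 : ℝ) / 7 ≤ 1 / 3 - 4 / 21 by norm_num)
      exact this.of_eqv (ht.of_eq (by simp; ring))
    have hψ : Eqv (arr Z P (u0 + r) l) v := by simpa using arr_inside (s := 0) ht hr
    by_cases hw : 1 / 7 ≤ |v|
    · exact fin ((far_of_abs hw (by linarith)).of_eqv hψ)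
    rw [not_le] at hw
    obtain ⟨r, rfl⟩ : ∃ r', r = r' + 1 := ⟨r - 1, by omega⟩
    have e' : l + (T + 1 + 4) = l + 1 + (T + 4) := by ring
    rw [e'] at hQ hl
    have hd2 : ¬ (3 : ℤ) ∣ 2 * d := fun h => hd (by omega)
    have t2 : Eqv (arr Z P u0 (l + 1)) (2 * (v / 3 ^ (r + 1) + d / 3)) := by
      rw [arr_row, pow_one]
      simpa using ht.mul_int 2
    have i1 := ih (r + 1) u0 (l + 1) (2 * v) (2 * d) hd2 (by rw [abs_mul, abs_two]; linarith)
      (fun h => absurd h (by omega)) (t2.of_eq (by push_cast; ring)) hl (fun e he => hQ e (by omega))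
    have i2 := ih r u0 (l + 1) (2 * v / 3) (2 * d) hd2
      (by rw [abs_div, abs_mul, abs_two]; norm_num; linarith)
      (fun _ => by rw [abs_div, abs_mul, abs_two]; norm_num; linarith)
      (t2.of_eq (by rw [pow_succ]; push_cast; field_simp)) hl (fun e he => by
        have := hQ (e + 1) (by omega)
        rwa [← add_assoc, Nat.add_sub_add_right] at this)
    have a0 := X.unit (u0 + r) l (by omega)
    have a1 := mul_le_mul_of_nonneg_left i2 h0
    have a2 := mul_le_mul_of_nonneg_left i1 (sub_nonneg.2 h1)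
    rw [← add_assoc] at a2 ⊢
    refine a0.trans ((add_le_add a1 a2).trans (le_of_eq ?_))
    ring

end Pool.Agent.P.MP_d124bf_nt
end

-- part Pool.Agent.P.MP_d124bf_nt.RBig
section

/-!
Gain after the exit from a large triangle through its vertical edge.
-/

namespace Pool.Agent.P.MP_d124bf_nt

variable {q c : ℝ} {S P : ℕ} {Z : ℤ} {N : ℕ → ℕ → ℝ}

open Classical in
noncomputable def per (R : ℤ) (n g l : ℕ) : ℝ :=
  if Far (1 / 6) (2 ^ l * R / 3 ^ (n - g + 1)) then 1 / 2 else 0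

theorem wh_per (R : ℤ) (n g l : ℕ) :
    (wh (per R n) g l = 0 ∧ ¬ Far (1 / 6) (2 ^ l * R / 3 ^ (n - g + 1))) ∨
    (wh (per R n) g l = 1 ∧ Far (1 / 6) (2 ^ l * R / 3 ^ (n - g + 1))) := by
  unfold wh per
  by_cases h : Far (1 / 6) (2 ^ l * R / 3 ^ (n - g + 1))
  · right
    rw [if_pos h, if_pos (far_half.mono (by norm_num))]
    exact ⟨rfl, h⟩
  · left
    rw [if_neg h, if_neg (fun h2 => by have := h2 0; norm_num at this)]
    exact ⟨rfl, h⟩

theorem per_shift (R : ℤ) (j v l : ℕ) : ∃ t : ℤ, ¬ (3 : ℤ) ∣ t ∧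
    (2 : ℝ) ^ (l + 2 * 3 ^ v) * R / 3 ^ j = 2 ^ l * R / 3 ^ j + 3 ^ (v + 1) * (2 ^ l * R * t) / 3 ^ j := by
  obtain ⟨t, h3, ht⟩ := two_pow_three_pow v
  have ht' : (2 : ℝ) ^ (2 * 3 ^ v) = 1 + 3 ^ (v + 1) * t := by exact_mod_cast ht
  refine ⟨t, h3, ?_⟩
  rw [pow_add, ht']
  ring

theorem per_inv (R : ℤ) {n g v : ℕ} (h : n - g ≤ v) (l : ℕ) :
    wh (per R n) g (l + 2 * 3 ^ v) = wh (per R n) g l := by
  obtain ⟨t, _, ht⟩ := per_shift R (n - g + 1) v l
  obtain ⟨y, rfl⟩ := Nat.exists_eq_add_of_le h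
  have e : Eqv ((2 : ℝ) ^ (l + 2 * 3 ^ (n - g + y)) * R / 3 ^ (n - g + 1))
      (2 ^ l * R / 3 ^ (n - g + 1)) := ⟨3 ^ y * (2 ^ l * R * t), by
    rw [ht]; push_cast; field_simp; ring⟩
  rcases wh_per R n g (l + 2 * 3 ^ (n - g + y)) with ⟨a, a'⟩ | ⟨a, a'⟩ <;>
    rcases wh_per R n g l with ⟨b, b'⟩ | ⟨b, b'⟩
  · rw [a, b]
  · exact absurd (b'.of_eqv e) a'
  · exact absurd (a'.of_eqv e.symm) b'
  · rw [a, b]

theorem not_three_dvd {R : ℤ} (hR : ¬ (3 : ℤ) ∣ R) (l : ℕ) : ¬ (3 : ℤ) ∣ 2 ^ l * R := by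
  intro h
  rcases Int.prime_three.dvd_or_dvd h with h | h
  · have := Int.prime_three.dvd_of_dvd_pow h
    norm_num at this
  · exact hR h

theorem per_pair {R : ℤ} (hR : ¬ (3 : ℤ) ∣ R) {n g v : ℕ} (h : n - g = v + 1) (l : ℕ) :
    1 ≤ wh (per R n) g l + wh (per R n) g (l + 2 * 3 ^ v) := by
  obtain ⟨t, h3, ht⟩ := per_shift R (n - g + 1) v l
  rcases wh_per R n g (l + 2 * 3 ^ v) with ⟨a, a'⟩ | ⟨a, a'⟩ <;>
    rcases wh_per R n g l with ⟨b, b'⟩ | ⟨b, b'⟩ <;> try (rw [a, b]; norm_num)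
  exfalso
  simp only [Far, not_forall, not_le] at a' b'
  obtain ⟨n1, hn1⟩ := a'
  obtain ⟨n2, hn2⟩ := b'
  have hd : ¬ (3 : ℤ) ∣ 2 ^ l * R * t := fun h =>
    (Int.prime_three.dvd_or_dvd h).elim (not_three_dvd hR l) h3
  have h4 := far_third hd (n1 - n2)
  have e : (3 : ℝ) ^ (v + 1) * (2 ^ l * R * t) / 3 ^ (n - g + 1) = 2 ^ l * R * t / 3 := by
    rw [h]; field_simp; ring
  rw [e] at ht
  rw [ht] at hn1
  push_cast at h4
  rw [abs_lt] at hn1 hn2
  rw [le_abs] at h4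
  rcases h4 with h4 | h4 <;> linarith [hn1.1, hn1.2, hn2.1, hn2.2]

theorem per_last {R : ℤ} (hR : ¬ (3 : ℤ) ∣ R) (n l : ℕ) : wh (per R n) n l = 1 := by
  rcases wh_per R n n l with ⟨_, a⟩ | ⟨a, _⟩
  · exfalso
    apply a
    have := (far_third (not_three_dvd hR l)).mono (show (1 : ℝ) / 6 ≤ 1 / 3 by norm_num)
    simpa using this
  · exact a

def Lm : ℕ → ℕ → List ℕ
  | 0, _ => []
  | t + 1, s => 2 * 3 ^ s :: Lm t (s + 1)

theorem Lm_realize : True := by have := @Lm.eq_def; trivial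

theorem Lm_sum (t s : ℕ) : (Lm t s).sum + 3 ^ s = 3 ^ (s + t) := by
  induction t generalizing s with
  | zero => simp [Lm]
  | succ t ih =>
    have := ih (s + 1)
    simp only [Lm, List.sum_cons]
    rw [show s + 1 + t = s + (t + 1) by ring, pow_succ] at this
    omega

theorem Lm_mem (t s M : ℕ) (h : M ∈ Lm t s) : ∃ u, s ≤ u ∧ M = 2 * 3 ^ u := by
  induction t generalizing s with
  | zero => simp [Lm] at h
  | succ t ih =>
    simp only [Lm, List.mem_cons] at h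
    rcases h with h | h
    · exact ⟨s, le_rfl, h⟩
    · obtain ⟨u, hu, e⟩ := ih _ h
      exact ⟨u, by omega, e⟩

theorem per_low (h0 : 0 ≤ q) (h1 : q ≤ 1) (hc0 : 0 ≤ c) (hc : c ≤ 4 * q * (1 - q) ^ 3) {σ : ℝ}
    (hσ1 : 1 ≤ σ) (hσ : (1 - q + q * σ) ^ 4 - c / 2 * σ ≤ 1) {R : ℤ} (hR : ¬ (3 : ℤ) ∣ R) (n : ℕ) :
    ∀ T u, u ≤ n → ∀ t s, s + t = n → s ≤ n - u - 1 → ∀ l,
      Av (Lm t s) (G2 q c (per R n) n T u) l ≤ σ ^ 4 / σ ^ u + (1 - q / 2) ^ T * 2 ^ u := by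
  have hq : 0 ≤ 1 - q := sub_nonneg.2 h1
  have hβ : 0 ≤ 1 - q / 2 := by linarith
  have hσ0 : 0 < σ := by linarith
  intro T
  induction T with
  | zero =>
    intro u _ t s _ _ l
    have e : G2 q c (per R n) n 0 u = fun _ => 1 := by funext l; rw [G2]
    rw [e, Av_const, pow_zero, one_mul]
    have : (1 : ℝ) ≤ 2 ^ u := one_le_pow₀ (by norm_num)
    have : 0 ≤ σ ^ 4 / σ ^ u := by positivity
    linarith
  | succ T ih =>
    intro u hn t s hst hs l
    by_cases hu : u < 4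
    · have e : G2 q c (per R n) n (T + 1) u = fun _ => 1 := by funext l; rw [G2, if_pos hu]
      rw [e, Av_const]
      have : 1 ≤ σ ^ 4 / σ ^ u := by
        rw [le_div_iff₀ (by positivity), one_mul]
        exact pow_le_pow_right₀ hσ1 hu.le
      have : 0 ≤ (1 - q / 2) ^ (T + 1) * 2 ^ u := by positivity
      linarith
    obtain ⟨i, rfl⟩ : ∃ i, u = i + 4 := ⟨u - 4, by omega⟩
    set β := σ ^ 4 / σ ^ (i + 3) + (1 - q / 2) ^ T * 2 ^ (i + 3) with hβdef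
    have β0 : 0 ≤ β := by positivity
    have co : ∀ x, 0 ≤ 4 * q * (1 - q) ^ 3 - c * wh (per R n) (i + 4) x := fun x => by
      rcases wh_per R n (i + 4) x with ⟨h, _⟩ | ⟨h, _⟩ <;> rw [h] <;> linarith
    have inner : ∀ t s, s + t = n → s = n - (i + 4) → ∀ l, Av (Lm t s) (fun x =>
        (4 * q * (1 - q) ^ 3 - c * wh (per R n) (i + 4) x) * G2 q c (per R n) n T (i + 3) (x + 4)) l
        ≤ (4 * q * (1 - q) ^ 3 - c * wh (per R n) (i + 4) l) * β := by
      intro t s hst hs l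
      rw [Av_mul _ (fun x => 4 * q * (1 - q) ^ 3 - c * wh (per R n) (i + 4) x) _ (fun M hM x => by
        obtain ⟨v, hv, rfl⟩ := Lm_mem _ _ _ hM
        simp only [per_inv R (hs ▸ hv)]), Av_shift]
      exact mul_le_mul_of_nonneg_left (ih (i + 3) (by omega) t s hst (by omega) (l + 4)) (co l)
    have prod : ∀ t s, s + t = n → s ≤ n - (i + 4) - 1 → ∀ l, Av (Lm t s) (fun x =>
        (4 * q * (1 - q) ^ 3 - c * wh (per R n) (i + 4) x) * G2 q c (per R n) n T (i + 3) (x + 4)) l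
        ≤ (4 * q * (1 - q) ^ 3 - c / 2) * β := by
      intro t
      induction t with
      | zero => intro s h1 h2; omega
      | succ t iht =>
        intro s h1 h2 l
        rcases eq_or_lt_of_le hn with hn' | hn'
        · refine (inner _ s h1 (by omega) l).trans (mul_le_mul_of_nonneg_right ?_ β0)
          rw [hn', per_last hR]
          linarith
        rw [Lm, Av]
        rcases eq_or_lt_of_le h2 with h3 | h3
        · have k1 := inner t (s + 1) (by omega) (by omega) l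
          have k2 := inner t (s + 1) (by omega) (by omega) (l + 2 * 3 ^ s)
          have k3 := mul_le_mul_of_nonneg_left (per_pair hR (n := n) (g := i + 4) (v := s) (by omega) l)
            (mul_nonneg hc0 β0)
          linarith
        · linarith [iht (s + 1) (by omega) (by omega) l, iht (s + 1) (by omega) (by omega) (l + 2 * 3 ^ s)]
    have e : G2 q c (per R n) n (T + 1) (i + 4) = fun x =>
        (1 - q) ^ 4 * G2 q c (per R n) n T (i + 4) (x + 4)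
        + (4 * q * (1 - q) ^ 3 - c * wh (per R n) (i + 4) x) * G2 q c (per R n) n T (i + 3) (x + 4)
        + 6 * q ^ 2 * (1 - q) ^ 2 * G2 q c (per R n) n T (i + 2) (x + 4)
        + 4 * q ^ 3 * (1 - q) * G2 q c (per R n) n T (i + 1) (x + 4)
        + q ^ 4 * G2 q c (per R n) n T i (x + 4) := by
      funext x; rw [G2, if_neg hu, if_pos hn]; rfl
    rw [e, Av_add, Av_add, Av_add, Av_add, Av_smul, Av_smul, Av_smul, Av_smul,
      Av_shift, Av_shift, Av_shift, Av_shift]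
    have a0 := mul_le_mul_of_nonneg_left (ih (i + 4) hn t s hst hs (l + 4))
      (show 0 ≤ (1 - q) ^ 4 by positivity)
    have a1 := prod t s hst hs l
    have a2 := mul_le_mul_of_nonneg_left (ih (i + 2) (by omega) t s hst (by omega) (l + 4))
      (show 0 ≤ 6 * q ^ 2 * (1 - q) ^ 2 by positivity)
    have a3 := mul_le_mul_of_nonneg_left (ih (i + 1) (by omega) t s hst (by omega) (l + 4))
      (show 0 ≤ 4 * q ^ 3 * (1 - q) by positivity)
    have a4 := mul_le_mul_of_nonneg_left (ih i (by omega) t s hst (by omega) (l + 4))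
      (show 0 ≤ q ^ 4 by positivity)
    rw [hβdef] at a1
    set A := σ ^ 4 / σ ^ (i + 4) with hA
    set Y := (1 - q / 2) ^ T * 2 ^ i with hY
    have hA0 : 0 ≤ A := by positivity
    have hY0 : 0 ≤ Y := by positivity
    have f3 : σ ^ 4 / σ ^ (i + 3) = A * σ := by rw [hA]; field_simp; ring
    have f2 : σ ^ 4 / σ ^ (i + 2) = A * σ ^ 2 := by rw [hA]; field_simp; ring
    have f1 : σ ^ 4 / σ ^ (i + 1) = A * σ ^ 3 := by rw [hA]; field_simp; ring
    have f0 : σ ^ 4 / σ ^ i = A * σ ^ 4 := by rw [hA]; field_simp; ring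
    have g4 : (1 - q / 2) ^ T * 2 ^ (i + 4) = 16 * Y := by rw [hY]; ring
    have g3 : (1 - q / 2) ^ T * 2 ^ (i + 3) = 8 * Y := by rw [hY]; ring
    have g2 : (1 - q / 2) ^ T * 2 ^ (i + 2) = 4 * Y := by rw [hY]; ring
    have g1 : (1 - q / 2) ^ T * 2 ^ (i + 1) = 2 * Y := by rw [hY]; ring
    have g5 : (1 - q / 2) ^ (T + 1) * 2 ^ (i + 4) = 16 * Y * (1 - q / 2) := by rw [hY]; ring
    rw [g4] at a0
    rw [f3, g3] at a1
    rw [f2, g2] at a2
    rw [f1, g1] at a3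
    rw [f0] at a4
    rw [g5]
    have k1 := mul_le_mul_of_nonneg_left hσ hA0
    have k2 : (1 - q / 2) ^ 4 ≤ 1 - q / 2 := pow_le_of_le_one hβ (by linarith) (by norm_num)
    have k3 := mul_le_mul_of_nonneg_left k2 (show 0 ≤ 16 * Y by positivity)
    have k4 : 0 ≤ c * Y := by positivity
    have tot : (1 - q) ^ 4 * (A + 16 * Y) + (4 * q * (1 - q) ^ 3 - c / 2) * (A * σ + 8 * Y)
        + 6 * q ^ 2 * (1 - q) ^ 2 * (A * σ ^ 2 + 4 * Y) + 4 * q ^ 3 * (1 - q) * (A * σ ^ 3 + 2 * Y)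
        + q ^ 4 * (A * σ ^ 4 + Y)
        = A * ((1 - q + q * σ) ^ 4 - c / 2 * σ) + 16 * Y * (1 - q / 2) ^ 4 - 4 * (c * Y) := by ring
    linarith

theorem per_high (h0 : 0 ≤ q) (h1 : q ≤ 1) (hc0 : 0 ≤ c) (hc : c ≤ 4 * q * (1 - q) ^ 3) {σ : ℝ}
    (hσ1 : 1 ≤ σ) (hσ : (1 - q + q * σ) ^ 4 - c / 2 * σ ≤ 1) {R : ℤ} (hR : ¬ (3 : ℤ) ∣ R) {n : ℕ}
    (hn : 4 ≤ n) : ∀ T u, n ≤ u → ∀ l,
      Av (Lm n 0) (G2 q c (per R n) n T u) l ≤ σ ^ 4 / σ ^ n + (1 - q / 2) ^ T * 2 ^ u := by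
  intro T
  induction T with
  | zero =>
    intro u _ l
    have e : G2 q c (per R n) n 0 u = fun _ => 1 := by funext l; rw [G2]
    rw [e, Av_const, pow_zero, one_mul]
    have : (1 : ℝ) ≤ 2 ^ u := one_le_pow₀ (by norm_num)
    have : 0 ≤ σ ^ 4 / σ ^ n := by positivity
    linarith
  | succ T ih =>
    intro u hu l
    rcases eq_or_lt_of_le hu with rfl | h
    · exact per_low h0 h1 hc0 hc hσ1 hσ hR n _ n le_rfl n 0 (by omega) (by omega) l
    · obtain ⟨u, rfl⟩ : ∃ u', u = u' + 1 := ⟨u - 1, by omega⟩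
      have e : G2 q c (per R n) n (T + 1) (u + 1) = fun l => q * G2 q c (per R n) n T u (l + 1)
          + (1 - q) * G2 q c (per R n) n T (u + 1) (l + 1) := by
        funext l; rw [G2, if_neg (by omega), if_neg (by omega), Nat.add_sub_cancel]
      rw [e, Av_lin, Av_shift, Av_shift]
      have a0 := mul_le_mul_of_nonneg_left (ih u (by omega) (l + 1)) h0
      have a1 := mul_le_mul_of_nonneg_left (ih (u + 1) hu (l + 1)) (sub_nonneg.2 h1)
      have : q * (σ ^ 4 / σ ^ n + (1 - q / 2) ^ T * 2 ^ u)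
          + (1 - q) * (σ ^ 4 / σ ^ n + (1 - q / 2) ^ T * 2 ^ (u + 1))
          = σ ^ 4 / σ ^ n + (1 - q / 2) ^ (T + 1) * 2 ^ (u + 1) := by ring
      linarith

theorem RS.le_G2 (X : RS q c S P Z N) (h0 : 0 < q) (h1 : q < 1) (hc0 : 0 ≤ c)
    (hc : c ≤ 4 * q * (1 - q) ^ 3) {w0 l n H U : ℕ} {R : ℤ} {w x b Q1 Q2 : ℝ} (hx : 1 ≤ x)
    (hb : x * b = q + (1 - q) * x) (hl : l + H ≤ S) (hw : 2 ^ H * |w| ≤ 1 / 14)
    (hψ : arr Z P w0 l = (w + R) / 3 ^ (n + 1)) (q1 : 0 ≤ Q1) (q2 : 0 ≤ Q2)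
    (hQ1 : ∀ g < 4, ∀ l' ≤ H, N (w0 + g) (l + l') ≤ Q1)
    (hQ2 : ∀ g ≤ U, ∀ l' ≤ H, H < l' + 4 → N (w0 + g) (l + l') ≤ Q2) :
    ∀ T g l' m, l' + m = H → m ≤ T → g ≤ U →
      N (w0 + g) (l + l') ≤ Q1 * G2 q c (per R n) n T g l' + Q2 * (x ^ g * b ^ m / b ^ 4) := by
  have x0 : 0 < x := by linarith
  have hq : 0 < 1 - q := by linarith
  have b0 : 0 < b := by
    have : 0 < x * b := by rw [hb]; positivity
    exact (mul_pos_iff_of_pos_left x0).1 this
  have b1 : b ≤ 1 := by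
    have : x * b ≤ x * 1 := by rw [hb]; nlinarith
    exact le_of_mul_le_mul_left this x0
  have stop : ∀ T g l' m, l' + m = H → m < 4 → g ≤ U →
      N (w0 + g) (l + l') ≤ Q1 * G2 q c (per R n) n T g l' + Q2 * (x ^ g * b ^ m / b ^ 4) := by
    intro T g l' m hm hm4 hg
    have a1 := mul_nonneg q1 (G2_bounds (ψ := per R n) h0.le h1.le hc0 hc n T g l').1
    have a2 : 1 ≤ x ^ g * b ^ m / b ^ 4 := by
      rw [one_le_div (by positivity)]
      exact (pow_le_pow_of_le_one b0.le b1 hm4.le).trans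
        (le_mul_of_one_le_left (by positivity) (one_le_pow₀ hx))
    have a3 := mul_le_mul_of_nonneg_left a2 q2
    linarith [hQ2 g hg l' (by omega) (by omega)]
  intro T
  induction T with
  | zero => intro g l' m hm hT hg; exact stop 0 g l' m hm (by omega) hg
  | succ T ih =>
    intro g l' m hm hT hg
    rcases lt_or_ge m 4 with hm4 | hm4
    · exact stop _ g l' m hm hm4 hg
    rw [G2]
    split_ifs with a a'
    · have : 0 ≤ Q2 * (x ^ g * b ^ m / b ^ 4) := by positivity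
      linarith [hQ1 g a l' (by omega)]
    · obtain ⟨m, rfl⟩ : ∃ m', m = m' + 4 := ⟨m - 4, by omega⟩
      obtain ⟨i, rfl⟩ : ∃ i, g = i + 4 := ⟨g - 4, by omega⟩
      have hblk := X.block h0.le h1.le hc (u := w0 + (i + 4)) (l := l + l') (by omega) (by omega)
        (w := wh (per R n) (i + 4) l') (by
          rcases wh_per R n (i + 4) l' with ⟨h, _⟩ | ⟨h, hf⟩
          · exact Or.inl h
          · refine Or.inr ⟨h, ?_⟩
            obtain ⟨j, rfl⟩ := Nat.exists_eq_add_of_le a'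
            rw [Nat.add_sub_cancel_left] at hf
            have hs : |(2 : ℝ) ^ l' * w / 3 ^ (j + 1)| ≤ 1 / 42 := by
              rw [abs_div, abs_mul, abs_of_pos (show (0 : ℝ) < 2 ^ l' by positivity),
                abs_of_pos (show (0 : ℝ) < 3 ^ (j + 1) by positivity), div_le_iff₀ (by positivity)]
              have h3 : (2 : ℝ) ^ l' ≤ 2 ^ H := pow_le_pow_right₀ (by norm_num) (by omega)
              have h4 : (3 : ℝ) ^ 1 ≤ 3 ^ (j + 1) := pow_le_pow_right₀ (by norm_num) (by omega)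
              have h5 := mul_le_mul_of_nonneg_right h3 (abs_nonneg w)
              linarith
            refine ((hf.add_small hs).mono (by norm_num)).of_eqv ((Eqv.refl _).of_eq ?_)
            rw [arr_row, arr_col, hψ]
            field_simp
            ring)
        (g := fun d => Q1 * G2 q c (per R n) n T (i + 4 - d) (l' + 4)
          + Q2 * (x ^ (i + 4 - d) * b ^ m / b ^ 4)) (fun d hd => by
          have := ih (i + 4 - d) (l' + 4) m (by omega) (by omega) (by omega)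
          rwa [← Nat.add_sub_assoc (by omega), ← add_assoc l] at this)
      simp only [show i + 4 - 0 = i + 4 from rfl, show i + 4 - 1 = i + 3 from rfl,
        show i + 4 - 2 = i + 2 from rfl, show i + 4 - 3 = i + 1 from rfl,
        show i + 4 - 4 = i from rfl] at hblk ⊢
      have e : x ^ (i + 4) * b ^ (m + 4) / b ^ 4 = x ^ i * b ^ m / b ^ 4 * (q + (1 - q) * x) ^ 4 := by
        rw [← hb]; ring
      have k : 0 ≤ c * wh (per R n) (i + 4) l' * (Q2 * (x ^ (i + 3) * b ^ m / b ^ 4)) := by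
        rcases wh_per R n (i + 4) l' with ⟨h, _⟩ | ⟨h, _⟩ <;> rw [h] <;> positivity
      rw [e]
      refine hblk.trans (le_trans (le_add_of_nonneg_right k) (le_of_eq ?_))
      ring
    · obtain ⟨m, rfl⟩ : ∃ m', m = m' + 1 := ⟨m - 1, by omega⟩
      obtain ⟨g, rfl⟩ : ∃ g', g = g' + 1 := ⟨g - 1, by omega⟩
      have a0 := X.unit (w0 + g) (l + l') (by omega)
      have a1 := mul_le_mul_of_nonneg_left (ih g (l' + 1) m (by omega) (by omega) (by omega)) h0.le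
      have a2 := mul_le_mul_of_nonneg_left (ih (g + 1) (l' + 1) m (by omega) (by omega) hg) hq.le
      have e : x ^ (g + 1) * b ^ (m + 1) / b ^ 4 = x ^ g * b ^ m / b ^ 4 * (q + (1 - q) * x) := by
        rw [← hb]; ring
      rw [Nat.add_sub_cancel, e, ← add_assoc]
      rw [← add_assoc l] at a1 a2
      rw [← add_assoc w0] at a2
      refine a0.trans ((add_le_add a1 a2).trans (le_of_eq ?_))
      ring

theorem RS.big (X : RS q c S P Z N) (h0 : 0 < q) (h1 : q < 1) (hc0 : 0 ≤ c)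
    (hc : c ≤ 4 * q * (1 - q) ^ 3) {σ : ℝ} (hσ1 : 1 ≤ σ) (hσ : (1 - q + q * σ) ^ 4 - c / 2 * σ ≤ 1)
    {w0 l n H h : ℕ} {d : ℤ} {v x b e Q1 Q2 : ℝ} (hx : 1 ≤ x) (hb : x * b = q + (1 - q) * x)
    (hn : 4 ≤ n) (hl : l + H ≤ S) (hd : ¬ (3 : ℤ) ∣ d) (hv : |v| ≤ 1 / 7)
    (ht : Eqv (arr Z P (w0 + n) l) (v / 3 ^ (h + 1) + d / 3)) (hH : (6 : ℝ) * 2 ^ H ≤ 3 ^ (h + 1))
    (he0 : 0 < e) (he : 1 ≤ e ^ 2 * ((h + 1) * q * (1 - q))) (q1 : 0 ≤ Q1) (q2 : 0 ≤ Q2)
    (hQ1 : ∀ g < 4, ∀ l' ≤ H, N (w0 + g) (l + l') ≤ Q1)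
    (hQ2 : ∀ g ≤ n + (h + 1), ∀ l' ≤ H, H < l' + 4 → N (w0 + g) (l + l') ≤ Q2) :
    N (w0 + (n + (h + 1))) l
      ≤ Q1 * (σ ^ 4 / σ ^ n + 3 ^ n * e) + Q2 * (x ^ (n + (h + 1)) * b ^ H / b ^ 4) := by
  obtain ⟨m, hm⟩ := ht
  set R : ℤ := d + 3 * m with hRdef
  have hR : ¬ (3 : ℤ) ∣ R := fun h => hd ((dvd_add_left (Dvd.intro _ rfl)).1 h)
  have hψ : arr Z P w0 l = (3 * v / 3 ^ (h + 1) + R) / 3 ^ (n + 1) := by
    rw [arr_col] at hm
    rw [eq_div_iff (by positivity), hRdef, pow_succ 3 n]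
    push_cast
    linear_combination 3 * hm
  have hw : (2 : ℝ) ^ H * |3 * v / 3 ^ (h + 1)| ≤ 1 / 14 := by
    rw [abs_div, abs_mul, abs_of_pos (show (0 : ℝ) < 3 ^ (h + 1) by positivity),
      abs_of_pos (show (0 : ℝ) < 3 by norm_num), ← mul_div_assoc, div_le_iff₀ (by positivity)]
    have := mul_le_mul_of_nonneg_left hv (show (0 : ℝ) ≤ 2 ^ H by positivity)
    linarith
  have cmp := X.le_G2 h0 h1 hc0 hc hx hb hl hw hψ q1 q2 hQ1 hQ2
  set u := n + (h + 1) with hu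
  set τ := Q2 * (x ^ u * b ^ H / b ^ 4) with hτ
  have key : ∀ T, N (w0 + u) l ≤ Q1 * (σ ^ 4 / σ ^ n + 3 ^ n * e) + τ + Q1 * 2 ^ u * (1 - q / 2) ^ T := by
    intro T
    have k1 : N (w0 + u) l - τ - Q1 * (3 ^ n * e)
        ≤ Av (Lm n 0) (fun M => Q1 * G2 q c (per R n) n (T + H + h) u M) 0 := by
      apply le_Av
      intro M hM
      have a1 := cmp (T + H + M + h) u 0 H (by omega) (by omega) le_rfl
      have a2 := G2_shift (ψ := per R n) h0 h1 hc0 hc hn (le_refl u) he0 he (T + H) M 0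
      have a3 : (M : ℝ) ≤ 3 ^ n := by
        have := Lm_sum n 0
        rw [zero_add] at this
        exact_mod_cast hM.trans (by omega)
      have a4 := mul_le_mul_of_nonneg_left (mul_le_mul_of_nonneg_right a3 he0.le) q1
      have a5 := mul_le_mul_of_nonneg_left a2 q1
      rw [add_zero] at a1
      linarith
    rw [Av_smul] at k1
    have k2 := mul_le_mul_of_nonneg_left
      (per_high h0.le h1.le hc0 hc hσ1 hσ hR hn (T + H + h) u (by omega) 0) q1
    have k3 : (1 - q / 2) ^ (T + H + h) ≤ (1 - q / 2) ^ T :=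
      pow_le_pow_of_le_one (by linarith) (by linarith) (by omega)
    have := mul_le_mul_of_nonneg_left k3 (show (0 : ℝ) ≤ Q1 * 2 ^ u by positivity)
    linarith
  apply le_of_forall_pos_le_add
  intro ε hε
  obtain ⟨T, hT⟩ := exists_pow_lt_of_lt_one (show 0 < ε / (Q1 * 2 ^ u + 1) by positivity)
    (show 1 - q / 2 < 1 by linarith)
  rw [lt_div_iff₀ (by positivity)] at hT
  have : 0 ≤ (1 - q / 2) ^ T := pow_nonneg (by linarith) _
  linarith [key T]

end Pool.Agent.P.MP_d124bf_nt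
end

-- part Pool.Agent.P.MP_d124bf_nt.RPar
section

/-!
Parameters for the reversed system, and its decay over a chain of scales.
-/

namespace Pool.Agent.P.MP_d124bf_nt

variable {q c : ℝ}

theorem exists_xb (h0 : 0 < q) (h1 : q < 1) (hq : Real.log 2 < q * Real.log 3) :
    ∃ x y b : ℝ, 1 < x ∧ x ≤ 3 ∧ 0 < y ∧ y ≤ 2 ∧ 0 < b ∧ b ≤ 1 ∧ x * b = q + (1 - q) * x ∧ y * b < 1 ∧
      ∀ a e : ℕ, 3 ^ e ≤ 2 ^ a → x ^ e ≤ y ^ a := by
  have l2 : 0 < Real.log 2 := Real.log_pos (by norm_num)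
  have l3 : 0 < Real.log 3 := Real.log_pos (by norm_num)
  have l3' : Real.log 3 ≤ 2 := by
    have := Real.log_le_sub_one_of_pos (show (0 : ℝ) < 3 by norm_num)
    linarith
  set g := q * Real.log 3 - Real.log 2 with hg
  have hg0 : 0 < g := by linarith
  have hg1 : g ≤ 2 := by nlinarith
  set θ := g / 16 with hθ
  have t0 : 0 < θ := by positivity
  have t1 : θ ≤ 1 / 8 := by linarith
  have e1 : Real.exp (-(θ * Real.log 3)) ≤ 1 := Real.exp_le_one_iff.2 (by nlinarith)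
  have e0 := Real.exp_pos (-(θ * Real.log 3))
  refine ⟨Real.exp (θ * Real.log 3), Real.exp (θ * Real.log 2), q * Real.exp (-(θ * Real.log 3)) + 1 - q,
    Real.one_lt_exp_iff.2 (by positivity), ?_, Real.exp_pos _, ?_, by nlinarith, by nlinarith, ?_, ?_,
    fun a b hab => ?_⟩
  · rw [← Real.le_log_iff_exp_le (by norm_num)]; nlinarith
  · rw [← Real.le_log_iff_exp_le (by norm_num)]; nlinarith
  · rw [Real.exp_neg]; field_simp; ring
  · have a1 := Real.add_one_le_exp (-(θ * Real.log 2))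
    have a2 : |-(θ * Real.log 3)| ≤ 1 := by
      rw [abs_neg, abs_of_pos (by positivity)]; nlinarith
    have a3 := (abs_le.1 (Real.abs_exp_sub_one_sub_id_le a2)).2
    have a4 : (-(θ * Real.log 3)) ^ 2 ≤ (θ * 2) ^ 2 := by
      rw [neg_sq]
      exact pow_le_pow_left₀ (by positivity) (by nlinarith) 2
    have a5 := mul_le_mul_of_nonneg_left (a3.trans a4) h0.le
    have a6 : q * (θ * 2) ^ 2 ≤ (θ * 2) ^ 2 := mul_le_of_le_one_left (by positivity) h1.le
    have a7 : (θ * 2) ^ 2 < θ * g := by rw [show g = 16 * θ by rw [hθ]; ring]; nlinarith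
    have a8 : θ * g = q * (θ * Real.log 3) - θ * Real.log 2 := by rw [hg]; ring
    have a9 : q * Real.exp (-(θ * Real.log 3)) + 1 - q < Real.exp (-(θ * Real.log 2)) := by linarith
    have := mul_lt_mul_of_pos_left a9 (Real.exp_pos (θ * Real.log 2))
    rwa [← Real.exp_add, add_neg_cancel, Real.exp_zero] at this
  · rw [← Real.exp_nat_mul, ← Real.exp_nat_mul, Real.exp_le_exp]
    have h2 : (3 : ℝ) ^ b ≤ 2 ^ a := by exact_mod_cast hab
    have h3 := Real.log_le_log (by positivity) h2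
    rw [Real.log_pow, Real.log_pow] at h3
    nlinarith

theorem bigR (h0 : 0 < q) (h1 : q < 1) (hq : Real.log 2 < q * Real.log 3) (hc0 : 0 < c)
    (hc : c ≤ 4 * q * (1 - q) ^ 3) (hc1 : c ≤ 1) :
    ∃ m K : ℕ, 1 ≤ m ∧ 1 ≤ K ∧ ∀ n r : ℕ, 4 ≤ n → K * 81 ^ n ≤ r → n ≤ r / (2 * (m + 1)) ∧
      ∃ H : ℕ, 4 ≤ H ∧ H ≤ 2 * r ∧ 2 ^ H ≤ 3 ^ r ∧ (∀ P', 3 ^ r ≤ 2 ^ P' → (m + 1) * H ≤ m * P') ∧
        ∀ (S P : ℕ) (Z : ℤ) (N : ℕ → ℕ → ℝ), RS q c S P Z N → ∀ (w0 l : ℕ) (d : ℤ) (v Q1 Q2 : ℝ),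
          l + H ≤ S → ¬ (3 : ℤ) ∣ d → |v| ≤ 1 / 7 → Eqv (arr Z P (w0 + n) l) (v / 3 ^ r + d / 3) →
          0 ≤ Q1 → 0 ≤ Q2 → (∀ g < 4, ∀ l' ≤ H, N (w0 + g) (l + l') ≤ Q1) →
          (∀ g ≤ n + r, ∀ l' ≤ H, H < l' + 4 → N (w0 + g) (l + l') ≤ Q2) →
          N (w0 + (n + r)) l ≤ Q1 * (17 / (1 + c / 30) ^ n) + Q2 * ((1 / 2) ^ (r / (2 * (m + 1))) / 2) := by
  obtain ⟨x, y, b, hx, hx3, y0, y2, b0, b1, hb, hyb, hxy⟩ := exists_xb h0 h1 hq
  set σ : ℝ := 1 + c / 30 with hσdef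
  have hσ1 : 1 < σ := by rw [hσdef]; linarith
  have hσ2 : σ ≤ 2 := by rw [hσdef]; linarith
  have hσ : (1 - q + q * σ) ^ 4 - c / 2 * σ ≤ 1 := by
    have a1 : 1 - q + q * σ ≤ 1 + c / 30 := by rw [hσdef]; nlinarith
    have a0 : 0 ≤ 1 - q + q * σ := by nlinarith
    have a2 : (1 - q + q * σ) ^ 4 ≤ (1 + c / 30) ^ 4 := pow_le_pow_left₀ a0 a1 4
    have a3 : (1 + c / 30) ^ 4 ≤ 1 + c / 2 := by
      have b2 : c ^ 2 ≤ c := pow_le_of_le_one hc0.le hc1 (by norm_num)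
      have b3 : c ^ 3 ≤ c := pow_le_of_le_one hc0.le hc1 (by norm_num)
      have b4 : c ^ 4 ≤ c := pow_le_of_le_one hc0.le hc1 (by norm_num)
      have : (1 + c / 30) ^ 4 = 1 + 4 * c / 30 + 6 * c ^ 2 / 900 + 4 * c ^ 3 / 27000 + c ^ 4 / 810000 := by
        ring
      linarith
    nlinarith
  set ϱ := y * b with hϱ
  have r0 : 0 < ϱ := by positivity
  obtain ⟨m1, hm1⟩ := small_pow r0.le hyb (e := 1 / 6) (by norm_num)
  obtain ⟨m, hm⟩ : ∃ m, m = m1 + 1 := ⟨_, rfl⟩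
  have hm' := hm1 m (by omega)
  have m0 : 1 ≤ m := by omega
  have hqq : 0 < q * (1 - q) := mul_pos h0 (by linarith)
  set C := 18 / (ϱ ^ 2 * b ^ 4) with hC
  have C0 : 0 < C := by positivity
  obtain ⟨K, hK⟩ := exists_nat_ge (2 * C + 1 / (q * (1 - q)) + 1)
  have p1 : 0 < 1 / (q * (1 - q)) := by positivity
  have K1 : 1 ≤ K := by exact_mod_cast (show (1 : ℝ) ≤ K by linarith)
  have K2 : 2 * C ≤ K := by linarith
  have K3 : 1 ≤ K * (q * (1 - q)) := by rw [← div_le_iff₀ hqq]; linarith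
  refine ⟨m, 2 * (m + 1) * K, m0, Nat.mul_pos (by omega) K1, fun n r hn hr => ?_⟩
  obtain ⟨t', ht'⟩ : ∃ t', t' = r / (2 * (m + 1)) := ⟨_, rfl⟩
  obtain ⟨t, ht⟩ : ∃ t, t = r / (m + 1) := ⟨_, rfl⟩
  rw [← ht']
  have a1 : K * 81 ^ n ≤ t' := by
    rw [ht', Nat.le_div_iff_mul_le (by omega)]
    exact le_trans (le_of_eq (by ring)) hr
  have a2 : 2 * t' ≤ t := by
    rw [ht, Nat.le_div_iff_mul_le (by omega), ht']
    exact le_trans (le_of_eq (by ring)) (Nat.div_mul_le_self r _)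
  have a3 : (m + 1) * t ≤ r := by rw [ht]; exact Nat.mul_div_le r _
  have a4 : r < (m + 1) * (t + 1) := by rw [ht]; exact Nat.lt_mul_div_succ r (by omega)
  have a5 : n ≤ t' := ((Nat.lt_pow_self (by norm_num)).le.trans
    (Nat.le_mul_of_pos_left (81 ^ n) K1)).trans a1
  have a6 : t ≤ m * t := Nat.le_mul_of_pos_left _ m0
  have a7 : K * 81 ^ n ≤ r := a1.trans (by nlinarith)
  have a1' : (K : ℝ) * 81 ^ n ≤ t' := by exact_mod_cast a1
  have a7' : (K : ℝ) * 81 ^ n ≤ r := by exact_mod_cast a7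
  clear a1 a7 hr ht ht' hm1
  obtain ⟨r', rfl⟩ : ∃ r', r = r' + t + 2 := ⟨r - t - 2, by rw [add_mul] at a3; omega⟩
  have b2 : m * t ≤ r' + 2 := by rw [add_mul] at a3; omega
  have b3 : (m + 1) * r' ≤ m * (r' + t + 2) := by nlinarith
  obtain ⟨H, c1, c2, c3, c4⟩ : ∃ H, 2 ^ H ≤ 3 ^ r' ∧ 3 ^ r' ≤ 2 ^ (H + 1) ∧ r' ≤ H ∧ H ≤ 2 * r' := by
    have d1 : 2 ^ Nat.log 2 (3 ^ r') ≤ 3 ^ r' := Nat.pow_log_le_self 2 (by positivity)
    refine ⟨Nat.log 2 (3 ^ r'), d1, (Nat.lt_pow_succ_log_self (by norm_num) _).le,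
      Nat.le_log_of_pow_le (by norm_num) (Nat.pow_le_pow_left (by norm_num) _), ?_⟩
    refine (Nat.pow_le_pow_iff_right (a := 2) (by norm_num)).1 (d1.trans ?_)
    rw [pow_mul]
    exact Nat.pow_le_pow_left (by norm_num) _
  have c5 := hxy _ _ c2
  have c6 : (2 : ℝ) ^ H ≤ 3 ^ r' := by exact_mod_cast c1
  have c7 : 4 ≤ H := by omega
  have c8 : H ≤ 2 * (r' + t + 2) := by omega
  have c9 : m * t ≤ H + 2 := by omega
  refine ⟨a5, H, c7, c8, c1.trans (Nat.pow_le_pow_right (by norm_num) (by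
    rw [add_assoc]; exact Nat.le_add_right _ _)), fun P' hP => ?_, ?_⟩
  · refine (Nat.pow_le_pow_iff_right (a := 2) (by norm_num)).1 ?_
    calc 2 ^ ((m + 1) * H) = (2 ^ H) ^ (m + 1) := by rw [← pow_mul, mul_comm]
      _ ≤ (3 ^ r') ^ (m + 1) := Nat.pow_le_pow_left c1 _
      _ = 3 ^ ((m + 1) * r') := by rw [← pow_mul, mul_comm]
      _ ≤ 3 ^ (m * (r' + t + 2)) := Nat.pow_le_pow_right (by norm_num) b3
      _ = (3 ^ (r' + t + 2)) ^ m := by rw [← pow_mul, mul_comm]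
      _ ≤ (2 ^ P') ^ m := Nat.pow_le_pow_left hP _
      _ = _ := by rw [← pow_mul, mul_comm]
  clear c1 c2
  intro S P Z N X w0 l d v Q1 Q2 hl hd hv ht q1 q2 hQ1 hQ2
  have hbig := X.big h0 h1 hc0.le hc hσ1.le hσ (h := r' + t + 1) (e := 1 / 9 ^ n) hx.le hb hn hl hd hv ht
    (by
      have : (3 : ℝ) ^ r' * 1 * 9 ≤ 3 ^ r' * 3 ^ t * 9 := by
        gcongr; exact one_le_pow₀ (by norm_num)
      have e : (3 : ℝ) ^ (r' + t + 1 + 1) = 3 ^ r' * 3 ^ t * 9 := by ring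
      have : (0 : ℝ) < 3 ^ r' := by positivity
      linarith) (by positivity) (by
      have a2 : ((1 : ℝ) / 9 ^ n) ^ 2 = 1 / 81 ^ n := by
        rw [div_pow, one_pow, ← pow_mul, mul_comm, pow_mul]; norm_num
      rw [a2, one_div, inv_mul_eq_div, le_div_iff₀ (by positivity)]
      have a3 := mul_le_mul_of_nonneg_right a7' hqq.le
      have a4 := mul_le_mul_of_nonneg_right K3 (show (0 : ℝ) ≤ 81 ^ n by positivity)
      push_cast at a3 ⊢
      linarith) q1 q2 hQ1 hQ2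
  refine hbig.trans (add_le_add (mul_le_mul_of_nonneg_left ?_ q1) (mul_le_mul_of_nonneg_left ?_ q2))
  · have a1 : (3 : ℝ) ^ n * (1 / 9 ^ n) ≤ 1 / σ ^ n := by
      rw [← one_div_pow, ← one_div_pow, ← mul_pow]
      apply pow_le_pow_left₀ (by norm_num)
      rw [le_div_iff₀ (by linarith)]
      linarith
    have a2 : σ ^ 4 / σ ^ n ≤ 16 / σ ^ n := by
      gcongr
      calc σ ^ 4 ≤ 2 ^ 4 := pow_le_pow_left₀ (by linarith) hσ2 4
        _ = 16 := by norm_num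
    have : 17 / σ ^ n = 16 / σ ^ n + 1 / σ ^ n := by ring
    linarith
  · have x0 : 0 < x := by linarith
    have e1 : x ^ (n + (r' + t + 1 + 1)) * b ^ H / b ^ 4 = x ^ (n + t + 2) * (x ^ r' * b ^ H) / b ^ 4 := by
      ring
    have e2 : x ^ r' * b ^ H ≤ 2 * ((1 / 6) ^ t / ϱ ^ 2) := by
      have f1 : x ^ r' * b ^ H ≤ y ^ (H + 1) * b ^ H := mul_le_mul_of_nonneg_right c5 (by positivity)
      have f2 : y ^ (H + 1) * b ^ H = y * (ϱ ^ (H + 2) / ϱ ^ 2) := by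
        rw [hϱ]; field_simp; ring
      have f3 : ϱ ^ (H + 2) ≤ (1 / 6) ^ t := by
        refine (pow_le_pow_of_le_one r0.le hyb.le c9).trans ?_
        rw [pow_mul]
        exact pow_le_pow_left₀ (by positivity) hm' t
      rw [f2] at f1
      refine f1.trans ?_
      gcongr
    have e3 : x ^ (n + t + 2) ≤ 3 ^ (n + t + 2) := pow_le_pow_left₀ x0.le hx3 _
    have e4 : (3 : ℝ) ^ (n + t + 2) * (2 * ((1 / 6) ^ t / ϱ ^ 2)) / b ^ 4 = C * 3 ^ n * (1 / 2) ^ t := by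
      have : (1 / 2 : ℝ) ^ t = 3 ^ t * (1 / 6) ^ t := by rw [← mul_pow]; norm_num
      rw [this, hC]; field_simp; ring
    have e5 : (1 / 2 : ℝ) ^ t ≤ (1 / 2) ^ t' * (1 / 2) ^ t' := by
      rw [← pow_add, ← two_mul]
      exact pow_le_pow_of_le_one (by norm_num) (by norm_num) a2
    have e6 : C * 3 ^ n * (1 / 2) ^ t' ≤ 1 / 2 := by
      have f1 : (t' : ℝ) ≤ 2 ^ t' := by exact_mod_cast Nat.lt_two_pow_self.le
      have f2 : (3 : ℝ) ^ n ≤ 81 ^ n := pow_le_pow_left₀ (by norm_num) (by norm_num) n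
      have f3 := mul_le_mul K2 f2 (by positivity) (by positivity)
      rw [one_div_pow, mul_one_div, div_le_iff₀ (by positivity)]
      linarith
    rw [e1]
    calc _ ≤ (3 : ℝ) ^ (n + t + 2) * (2 * ((1 / 6) ^ t / ϱ ^ 2)) / b ^ 4 := by gcongr
      _ ≤ C * 3 ^ n * ((1 / 2) ^ t' * (1 / 2) ^ t') := by rw [e4]; gcongr
      _ = C * 3 ^ n * (1 / 2) ^ t' * (1 / 2) ^ t' := by ring
      _ ≤ 1 / 2 * (1 / 2) ^ t' := by gcongr
      _ = _ := by ring

theorem short_gain (h0 : 0 < q) (h1 : q < 1) (hc0 : 0 ≤ c) : ∃ T0 : ℕ, ∀ r L : ℕ, r < L →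
    1 - c + c * (2 ^ r * (1 - q / 2) ^ (T0 * L)) ≤ 1 - c / 2 := by
  obtain ⟨T0, hT⟩ := small_pow (a := 1 - q / 2) (by linarith) (by linarith) (e := 1 / 2) (by norm_num)
  refine ⟨T0, fun r L hr => ?_⟩
  have a1 : (1 - q / 2) ^ (T0 * L) ≤ (1 / 2) ^ (r + 1) := by
    rw [pow_mul]
    exact (pow_le_pow_left₀ (pow_nonneg (by linarith) _) (hT T0 le_rfl) L).trans
      (pow_le_pow_of_le_one (by norm_num) (by norm_num) hr)
  have a2 := mul_le_mul_of_nonneg_left a1 (show (0 : ℝ) ≤ 2 ^ r by positivity)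
  have a3 : (2 : ℝ) ^ r * (1 / 2) ^ (r + 1) = 1 / 2 := by
    rw [pow_succ, ← mul_assoc, ← mul_pow]; norm_num
  have := mul_le_mul_of_nonneg_left (a2.trans a3.le) hc0
  linarith

theorem scalesR (h0 : 0 < q) (h1 : q < 1) (hq : Real.log 2 < q * Real.log 3) (hc0 : 0 < c)
    (hc : c ≤ 4 * q * (1 - q) ^ 3) (hc1 : c ≤ 1) :
    ∃ m W : ℕ, 2 ≤ m ∧ ∀ (S P : ℕ) (Z : ℤ) (N : ℕ → ℕ → ℝ), RS q c S P Z N → ∀ n Y : ℕ, 4 ≤ n →
      P ≤ S + Y → n * (W * 81 ^ n) ≤ Y → ∀ j u l, l + Y * m ^ j ≤ P →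
        N u l ≤ (18 / (1 + c / 30) ^ n) ^ j := by
  obtain ⟨m, K, hm, hK, hbig⟩ := bigR h0 h1 hq hc0 hc hc1
  obtain ⟨T0, hT0⟩ := short_gain h0 h1 hc0.le
  set σ : ℝ := 1 + c / 30 with hσ
  have σ1 : 1 ≤ σ := by rw [hσ]; linarith
  have σ2 : σ ≤ 2 := by rw [hσ]; linarith
  have σ3 : (1 - c / 2) * σ ≤ 1 := by rw [hσ]; nlinarith
  refine ⟨m + 2, T0 * K + 4, by omega, fun S P Z N X n Y hn hP hY => ?_⟩
  obtain ⟨L, hL⟩ : ∃ L, L = K * 81 ^ n := ⟨_, rfl⟩
  obtain ⟨W, hW⟩ : ∃ W, W = (T0 * K + 4) * 81 ^ n := ⟨_, rfl⟩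
  rw [← hW] at hY
  have w1 : T0 * L + 4 ≤ W := by
    have : 1 ≤ 81 ^ n := Nat.one_le_pow _ _ (by norm_num)
    rw [hL, hW]; nlinarith
  have hbig' := fun r (hr : L ≤ r) => hbig n r hn (hL ▸ hr)
  clear hL hW hbig
  have window : ∀ (thr : ℕ) (Q : ℝ), 0 ≤ Q → P ≤ S + thr → (∀ u l, l + thr ≤ P → N u l ≤ Q) →
      ∀ i ≤ n, ∀ u l, l + ((m + 1) * thr + i * W) ≤ P → N u l ≤ 18 / σ ^ i * Q := by
    intro thr Q hQ0 hthr hQ i
    have t1 : thr ≤ (m + 1) * thr := Nat.le_mul_of_pos_left _ (by omega)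
    induction i with
    | zero =>
      intro _ u l hl
      have := hQ u l (by omega)
      simp only [pow_zero]
      linarith
    | succ i ih =>
      intro hi u l hl
      rw [add_mul i, one_mul] at hl
      rcases lt_or_ge u (2 * P + 4) with hu | hu
      · rw [X.pad u hu l]; positivity
      obtain ⟨r, u0, v, d, rfl, hd, hv, hv', ht, hr⟩ := arr_run X.odd (u := u) (l := l) (P := P)
        (by omega) (by omega)
      rcases lt_or_ge r L with hrL | hrL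
      · clear hr
        refine (X.small h0.le h1.le hc0.le hc hc1 (T0 * L) r u0 l v d hd (by linarith) (fun _ => hv) ht
          (by omega) (fun e _ => ih (by omega) _ _ (by omega))).trans ?_
        refine (mul_le_mul_of_nonneg_right (hT0 r L hrL) (by positivity)).trans ?_
        have e : (1 - c / 2) * (18 / σ ^ i * Q) = (1 - c / 2) * σ * (18 / σ ^ (i + 1) * Q) := by
          field_simp; ring
        rw [e]
        exact mul_le_of_le_one_left (by positivity) σ3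
      · obtain ⟨b1, H, b2, b3, b4, b5, b6⟩ := hbig' r hrL
        have c1 := b5 _ hr
        have c2 : r ≤ P - l := (Nat.pow_le_pow_iff_right (by norm_num)).1
          ((Nat.pow_le_pow_left (by norm_num : 2 ≤ 3) r).trans hr)
        have c3 : n ≤ r := b1.trans (Nat.div_le_self _ _)
        clear hr b4 b5
        have c4 : l + H + thr ≤ P := by
          have : (m + 1) * (H + thr) ≤ (m + 1) * (P - l) := by
            rw [mul_add, add_mul m 1 (P - l)]; omega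
          have := Nat.le_of_mul_le_mul_left this (by omega)
          omega
        obtain ⟨w0, rfl⟩ : ∃ w0, u0 = w0 + n := ⟨u0 - n, by omega⟩
        rw [add_assoc]
        refine (b6 S P Z N X w0 l d v Q Q (by omega) hd (hv' (by omega)) ht hQ0 hQ0
          (fun g _ l' hl' => hQ _ _ (by omega)) (fun g _ l' hl' _ => hQ _ _ (by omega))).trans ?_
        have d1 : (1 / 2 : ℝ) ^ (r / (2 * (m + 1))) ≤ 1 / σ ^ n := by
          refine (pow_le_pow_of_le_one (by norm_num) (by norm_num) b1).trans ?_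
          rw [← one_div_pow]
          exact pow_le_pow_left₀ (by norm_num) (one_div_le_one_div_of_le (by linarith) σ2) n
        have d2 : 18 / σ ^ n ≤ 18 / σ ^ (i + 1) :=
          div_le_div_of_nonneg_left (by norm_num) (by positivity) (pow_le_pow_right₀ σ1 hi)
        have d3 : 18 / σ ^ n = 17 / σ ^ n + 1 / σ ^ n := by ring
        have d4 : (0 : ℝ) ≤ (1 / 2) ^ (r / (2 * (m + 1))) := by positivity
        rw [← mul_add, mul_comm]
        exact mul_le_mul_of_nonneg_right (by linarith) hQ0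
  intro j
  induction j with
  | zero => intro u l _; simpa using X.le1 u l
  | succ j ih =>
    intro u l hl
    have h2 : Y ≤ Y * (m + 2) ^ j := Nat.le_mul_of_pos_right _ (by positivity)
    have h3 : Y * (m + 2) ^ (j + 1) = (m + 1) * (Y * (m + 2) ^ j) + Y * (m + 2) ^ j := by ring
    have := window (Y * (m + 2) ^ j) _ (by positivity) (by omega) ih n le_rfl u l (by omega)
    rw [pow_succ]
    linarith

end Pool.Agent.P.MP_d124bf_nt
end

-- part Pool.Agent.P.MP_d124bf_nt.RRec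
section

/-!
The counting recursion for the reversed system.
-/

namespace Pool.Agent.P.MP_d124bf_nt

open Finset

variable {q c : ℝ}

section conf

variable {ι : Type} {Z : ι → ℤ} {T : Finset ι} {P u l : ℕ} {δ : ℝ}

theorem cardR (h : Conf (fun i => arr (Z i) P) T u l δ) (hl : l ≤ P) (hδ : 0 ≤ δ) :
    (T.card : ℝ) ≤ δ * 2 ^ (P - l) + 1 := by
  obtain ⟨x, h1, h2, h3⟩ := h
  rcases T.eq_empty_or_nonempty with rfl | hne
  · simp only [card_empty, Nat.cast_zero]; positivity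
  have hz : ∀ i ∈ T, ∃ z : ℤ, 2 ^ (P - l) * x i = z := by
    intro i hi
    have hz := arr_int (Z i) u hl
    obtain ⟨n, hn⟩ := h1 i hi
    beta_reduce at hn
    rw [hn] at hz
    exact ⟨Z i * 3 ^ u - 2 ^ (P - l) * n, by rw [Int.cast_sub, ← hz]; push_cast; ring⟩
  choose! Y hY using hz
  obtain ⟨i0, hi0, hmin⟩ := exists_min_image T x hne
  have p3 : (0 : ℝ) < 2 ^ (P - l) := by positivity
  have h4 : T.card ≤ (Icc (Y i0) (Y i0 + ⌊δ * 2 ^ (P - l)⌋₊)).card := by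
    apply card_le_card_of_injOn Y
    · intro i hi
      have hi' : i ∈ T := hi
      have a1 := mul_le_mul_of_nonneg_left (hmin i hi') p3.le
      have a2 := mul_le_mul_of_nonneg_left ((le_abs_self _).trans (h3 i hi' i0 hi0)) p3.le
      rw [mul_sub, hY i hi', hY i0 hi0] at a2
      rw [hY i hi', hY i0 hi0] at a1
      have a3 : Y i0 ≤ Y i := by exact_mod_cast a1
      have a4 : Y i - Y i0 ≤ ⌊δ * 2 ^ (P - l)⌋ := Int.le_floor.2 (by push_cast; linarith)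
      rw [← Int.natCast_floor_eq_floor (by positivity)] at a4
      simp only [coe_Icc, Set.mem_Icc]
      exact ⟨a3, by linarith⟩
    · intro i hi j hj hij
      apply h2 hi hj
      apply mul_left_cancel₀ p3.ne'
      rw [hY i hi, hY j hj, hij]
  rw [Int.card_Icc, show Y i0 + ⌊δ * 2 ^ (P - l)⌋₊ + 1 - Y i0 = ((⌊δ * 2 ^ (P - l)⌋₊ + 1 : ℕ) : ℤ) by
    push_cast; ring, Int.toNat_natCast] at h4
  refine (Nat.cast_le.2 h4).trans ?_
  push_cast
  linarith [Nat.floor_le (show 0 ≤ δ * 2 ^ (P - l) by positivity)]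

theorem moveR (h : Conf (fun i => arr (Z i) P) T u l δ) (e t : ℕ) :
    Conf (fun i => arr (Z i) P) T (u + e) (l + t) (3 ^ e * 2 ^ t * δ) := by
  obtain ⟨x, h1, h2, h3⟩ := h
  have p3 : (0 : ℝ) < 3 ^ e * 2 ^ t := by positivity
  refine ⟨fun i => 3 ^ e * 2 ^ t * x i, fun i hi => ?_,
    fun i hi j hj hij => h2 hi hj (mul_left_cancel₀ p3.ne' hij), fun i hi j hj => ?_⟩
  · have := (h1 i hi).mul_int (3 ^ e * 2 ^ t)
    push_cast at this
    beta_reduce
    rwa [arr_col, arr_row, ← mul_assoc]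
  · rw [← mul_sub, abs_mul, abs_of_pos p3]
    exact mul_le_mul_of_nonneg_left (h3 i hi j hj) p3.le

theorem splitR {t : ℕ} (h : Conf (fun i => arr (Z i) P) T (u + t) l δ) :
    ∃ f : ι → ℤ, (∀ i ∈ T, f i ∈ Ico (0 : ℤ) (3 ^ t)) ∧
      ∀ k, Conf (fun i => arr (Z i) P) (T.filter (fun i => f i = k)) u l (δ / 3 ^ t) := by
  obtain ⟨x, h1, h2, h3⟩ := h
  have hz : ∀ i ∈ T, ∃ n : ℤ, 3 ^ t * arr (Z i) P u l = x i + n := fun i hi => by
    rw [← arr_col]; exact h1 i hi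
  choose! n hn using hz
  have p2 : (0 : ℝ) < 3 ^ t := by positivity
  refine ⟨fun i => n i % 3 ^ t, fun i _ => mem_Ico.2 ⟨Int.emod_nonneg _ (by positivity),
    Int.emod_lt_of_pos _ (by positivity)⟩, fun k => ⟨fun i => (x i + k) / 3 ^ t, fun i hi => ?_,
    fun i hi j hj hij => ?_, fun i hi j hj => ?_⟩⟩
  · obtain ⟨a1, a2⟩ := mem_filter.1 hi
    refine ⟨n i / 3 ^ t, ?_⟩
    have a3 : n i = k + 3 ^ t * (n i / 3 ^ t) := by rw [← a2, Int.emod_add_mul_ediv]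
    have a4 : (n i : ℝ) = k + 3 ^ t * ((n i / 3 ^ t : ℤ) : ℝ) := by exact_mod_cast a3
    have a5 := hn i a1
    field_simp
    linarith
  · have hi' : i ∈ T := (mem_filter.1 hi).1
    have hj' : j ∈ T := (mem_filter.1 hj).1
    apply h2 hi' hj'
    have : (x i + k) / 3 ^ t = (x j + k) / 3 ^ t := hij
    rw [div_left_inj' p2.ne'] at this
    linarith
  · rw [← sub_div, abs_div, abs_of_pos p2, show x i + k - (x j + k) = x i - x j by ring]
    exact div_le_div_of_nonneg_right (h3 i (mem_filter.1 hi).1 j (mem_filter.1 hj).1) p2.le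

theorem topR {ψ : ι → ℕ → ℕ → ℝ} (h : Conf ψ T u l δ) (hδ : δ ≤ 1 / 2) {v : ι → ℝ} {u' s : ℕ}
    (hv : ∀ i ∈ T, |v i| ≤ 1 / 7 ∧ Eqv (ψ i u l) (v i) ∧ Eqv (ψ i u' l) (v i / 3 ^ s)) :
    Conf ψ T u' l (δ / 3 ^ s) := by
  obtain ⟨x, h1, h2, h3⟩ := h
  have p2 : (0 : ℝ) < 3 ^ s := by positivity
  have key : ∀ i ∈ T, ∀ j ∈ T, v i - v j = x i - x j := by
    intro i hi j hj
    obtain ⟨n, hn⟩ := (hv i hi).2.1.symm.trans (h1 i hi)
    obtain ⟨m, hm⟩ := (hv j hj).2.1.symm.trans (h1 j hj)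
    have a1 := abs_le.1 (hv i hi).1
    have a2 := abs_le.1 (hv j hj).1
    have a3 := abs_le.1 (h3 i hi j hj)
    have a4 : |((n - m : ℤ) : ℝ)| < 1 := by
      push_cast
      rw [abs_lt]
      constructor <;> linarith [a1.1, a1.2, a2.1, a2.2, a3.1, a3.2]
    rw [← Int.cast_abs] at a4
    have a5 : n - m = 0 := Int.abs_lt_one_iff.1 (by exact_mod_cast a4)
    have a6 : (n : ℝ) = m := by exact_mod_cast sub_eq_zero.1 a5
    linarith
  refine ⟨fun i => v i / 3 ^ s, fun i hi => (hv i hi).2.2, fun i hi j hj hij => ?_,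
    fun i hi j hj => ?_⟩
  · apply h2 hi hj
    have a1 : v i / 3 ^ s = v j / 3 ^ s := hij
    rw [div_left_inj' p2.ne'] at a1
    linarith [key i hi j hj]
  · rw [← sub_div, key i hi j hj, abs_div, abs_of_pos p2]
    exact div_le_div_of_nonneg_right (h3 i hi j hj) p2.le

end conf

theorem exists_Q' {κ : Type} {f : κ → ℝ} (hf : ∀ d, 0 ≤ f d) {B : ℝ} (hB : 0 < B) (s : Finset κ)
    (n : ℕ) (hn : 1 ≤ n) :
    ∃ Q, 0 ≤ Q ∧ (∀ d ∈ s, f d ≤ Q) ∧ (Q / B) ^ n ≤ ∑ d ∈ s, (f d / B) ^ n := by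
  rcases s.eq_empty_or_nonempty with rfl | hne
  · exact ⟨0, le_rfl, by simp, by simp [zero_pow (show n ≠ 0 by omega)]⟩
  obtain ⟨d0, h0, h1⟩ := exists_max_image s f hne
  exact ⟨f d0, hf d0, h1,
    single_le_sum (f := fun d => (f d / B) ^ n) (fun d _ => by have := hf d; positivity) h0⟩

theorem paramsR (hc0 : 0 < c) (hc1 : c ≤ 1) (m K K1 T0 : ℕ) (hK : 1 ≤ K) :
    ∃ n0 L0 : ℕ, 1 ≤ n0 ∧ 1 ≤ L0 ∧
      (1 - c / 2) ^ n0 * ((T0 * L0 + 4 + 1 : ℕ) * (3 ^ (T0 * L0 + 4) * (8 * 2 ^ (T0 * L0 + 4)))) ≤ 1 / 2 ∧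
      ∀ r, L0 ≤ r → ∃ n : ℕ, 4 ≤ n ∧ K * 81 ^ n ≤ r ∧ K1 * n ≤ r ∧ ∀ H ≤ 2 * r,
        (2 * (17 / (1 + c / 30) ^ n)) ^ n0 * ((4 * (H + 1) : ℕ) * (3 ^ (n + 1) * 8))
          + (2 * ((1 / 2) ^ (r / (2 * (m + 1))) / 2)) ^ n0
            * (((n + r + 1) * 4 : ℕ) * (3 ^ (n + 1) * (8 * 2 ^ H))) ≤ (1 / 2 / (r + 1) ^ 2 : ℝ) := by
  set σ : ℝ := 1 + c / 30 with hσ
  have σ1 : 1 < σ := by rw [hσ]; linarith
  obtain ⟨n1, hn1⟩ := small_pow (a := 1 / σ) (by positivity) ((div_lt_one (by linarith)).2 σ1)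
    (e := 1 / 68) (by norm_num)
  have hn1' := hn1 (n1 + 4) (by omega)
  obtain ⟨G, hG⟩ : ∃ G : ℕ, G = (K + K1) * 81 ^ (n1 + 4) := ⟨_, rfl⟩
  have G4 : 4 ≤ G := by
    have a1 : n1 + 4 ≤ 81 ^ (n1 + 4) := (Nat.lt_pow_self (by norm_num)).le
    have a2 : 81 ^ (n1 + 4) ≤ (K + K1) * 81 ^ (n1 + 4) := Nat.le_mul_of_pos_left _ (by omega)
    rw [hG]
    exact le_trans (Nat.le_add_left 4 n1) (a1.trans a2)
  obtain ⟨L0, hL0⟩ : ∃ L0, L0 = G + 2 * (m + 1) := ⟨_, rfl⟩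
  obtain ⟨m1, hm1⟩ := small_pow (a := 1 - c / 2) (by linarith) (by linarith)
    (e := 1 / 2 / ((T0 * L0 + 4 + 1 : ℕ) * (3 ^ (T0 * L0 + 4) * (8 * 2 ^ (T0 * L0 + 4))))) (by positivity)
  obtain ⟨m2, hm2⟩ := small_pow (a := 1 / 2) (by norm_num) (by norm_num)
    (e := 1 / (4608 * (G : ℝ) ^ 8)) (by have : (0 : ℝ) < G := by exact_mod_cast (by omega : 0 < G)
                                        positivity)
  obtain ⟨m3, hm3⟩ := small_pow (a := 1 / 2) (by norm_num) (by norm_num)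
    (e := (1 / 294912) ^ (4 * (m + 1))) (by positivity)
  refine ⟨m1 + m2 + m3 + 1, L0, by omega, by omega, ?_, fun r hr => ?_⟩
  · have b1 := hm1 (m1 + m2 + m3 + 1) (by omega)
    rwa [le_div_iff₀ (by positivity)] at b1
  obtain ⟨n0, hn0⟩ : ∃ n0, n0 = m1 + m2 + m3 + 1 := ⟨_, rfl⟩
  rw [← hn0]
  have b2 := hm2 n0 (by omega)
  have b3 := hm3 n0 (by omega)
  have rG : G ≤ r := by omega
  have r4 : 4 ≤ r := by omega
  have rm : 2 * (m + 1) ≤ r := by omega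
  clear hm1 hm2 hm3 hn1
  obtain ⟨j, hj⟩ : ∃ j, j = Nat.log G r := ⟨_, rfl⟩
  have j1 : 1 ≤ j := by rw [hj]; exact Nat.le_log_of_pow_le (by omega) (by simpa using rG)
  have g1 : G ^ j ≤ r := by rw [hj]; exact Nat.pow_log_le_self G (by omega)
  have g2 : r ≤ G ^ (2 * j) := by
    have := Nat.lt_pow_succ_log_self (b := G) (by omega) r
    rw [← hj] at this
    exact this.le.trans (Nat.pow_le_pow_right (by omega) (by omega))
  obtain ⟨n, hn⟩ : ∃ n, n = (n1 + 4) * j := ⟨_, rfl⟩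
  have n4 : 4 ≤ n := by rw [hn]; nlinarith
  have g3 : (K + K1) * 81 ^ n ≤ r := by
    refine le_trans ?_ g1
    rw [hG, mul_pow, ← pow_mul, hn]
    exact Nat.mul_le_mul_right _ (Nat.le_self_pow (by omega) _)
  have g4 : K * 81 ^ n ≤ r := (Nat.mul_le_mul_right _ (Nat.le_add_right K K1)).trans g3
  have g5 : n ≤ 81 ^ n := (Nat.lt_pow_self (by norm_num)).le
  have g6 : K1 * n ≤ r := (Nat.mul_le_mul (Nat.le_add_left K1 K) g5).trans g3
  have g7 : 81 ^ n ≤ r := (Nat.le_mul_of_pos_left _ hK).trans g4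
  have g8 : 3 ^ n ≤ r := (Nat.pow_le_pow_left (by norm_num) _).trans g7
  have c1 : (n : ℝ) ≤ r := by exact_mod_cast g5.trans g7
  have c2 : (r : ℝ) ≤ (G : ℝ) ^ (2 * j) := by exact_mod_cast g2
  have c4 : (4 : ℝ) ≤ r := by exact_mod_cast r4
  have c8 : (3 : ℝ) ^ n ≤ r := by exact_mod_cast g8
  have c9 : (r : ℝ) ≤ 2 ^ r := by exact_mod_cast Nat.lt_two_pow_self.le
  obtain ⟨t, ht⟩ : ∃ t, t = r / (2 * (m + 1)) := ⟨_, rfl⟩
  have t1 : r ≤ 4 * (m + 1) * t := by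
    have a1 : r < 2 * (m + 1) * (t + 1) := by rw [ht]; exact Nat.lt_mul_div_succ r (by omega)
    have a2 : 1 ≤ t := by rw [ht, Nat.le_div_iff_mul_le (by omega)]; omega
    nlinarith
  rw [← ht]
  refine ⟨n, n4, g4, g6, fun H hH => ?_⟩
  clear g1 g2 g3 g4 g5 g7 g8 hj hG ht
  have c5 : (H : ℝ) ≤ 2 * r := by exact_mod_cast hH
  have T1 : 2 * (17 / σ ^ n) ≤ (1 / 2) ^ j := by
    have e3 : (1 / σ) ^ n ≤ (1 / 68) ^ j := by
      rw [hn, pow_mul]
      exact pow_le_pow_left₀ (by positivity) hn1' j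
    have e4 : (1 / 68 : ℝ) ^ j = (1 / 34) ^ j * (1 / 2) ^ j := by rw [← mul_pow]; norm_num
    have e5 : (1 / 34 : ℝ) ^ j ≤ 1 / 34 := pow_le_of_le_one (by norm_num) (by norm_num) (by omega)
    have e6 := mul_le_mul_of_nonneg_right e5 (show (0 : ℝ) ≤ (1 / 2) ^ j by positivity)
    rw [one_div_pow] at e3
    have e7 : 17 / σ ^ n = 17 * (1 / σ ^ n) := by ring
    linarith
  have U1 : (2 * (17 / σ ^ n)) ^ n0 ≤ 1 / (4608 * (r : ℝ) ^ 4) := by
    refine (pow_le_pow_left₀ (by positivity) T1 n0).trans ?_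
    rw [← pow_mul, mul_comm j, pow_mul]
    refine (pow_le_pow_left₀ (by positivity) b2 j).trans ?_
    rw [one_div_pow, mul_pow]
    apply one_div_le_one_div_of_le (by positivity)
    refine mul_le_mul (le_self_pow₀ (by norm_num) (by omega)) ?_ (by positivity) (by positivity)
    refine (pow_le_pow_left₀ (by positivity) c2 4).trans (le_of_eq ?_)
    rw [← pow_mul, ← pow_mul]; congr 1; ring
  have U2 : (2 * ((1 / 2 : ℝ) ^ t / 2)) ^ n0 ≤ 1 / 294912 ^ r := by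
    rw [mul_div_cancel₀ _ (by norm_num), ← pow_mul, mul_comm t, pow_mul, ← one_div_pow]
    refine (pow_le_pow_left₀ (by positivity) b3 t).trans ?_
    rw [← pow_mul]
    exact pow_le_pow_of_le_one (by norm_num) (by norm_num) t1
  have f2 : (3 : ℝ) ^ (n + 1) ≤ 3 * r := by rw [pow_succ]; linarith
  have V1 : ((4 * (H + 1) : ℕ) : ℝ) * (3 ^ (n + 1) * 8) * (r + 1) ^ 2 ≤ 1152 * (r : ℝ) ^ 4 := by
    have f1 : ((4 * (H + 1) : ℕ) : ℝ) ≤ 12 * r := by push_cast; linarith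
    calc _ ≤ 12 * (r : ℝ) * (3 * r * 8) * (2 * r) ^ 2 := by gcongr; linarith
      _ = _ := by ring
  have V2 : (((n + r + 1) * 4 : ℕ) : ℝ) * (3 ^ (n + 1) * (8 * 2 ^ H)) * (r + 1) ^ 2 ≤ 294912 ^ r / 4 := by
    have f1 : (((n + r + 1) * 4 : ℕ) : ℝ) ≤ 12 * r := by push_cast; linarith
    have f3 : (2 : ℝ) ^ H ≤ 2 ^ (2 * r) := pow_le_pow_right₀ (by norm_num) hH
    have f4 : (4608 : ℝ) ≤ 4608 ^ r := le_self_pow₀ (by norm_num) (by omega)
    calc _ ≤ 12 * (r : ℝ) * (3 * r * (8 * 2 ^ (2 * r))) * (2 * r) ^ 2 := by gcongr; linarith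
      _ ≤ 12 * (2 : ℝ) ^ r * (3 * 2 ^ r * (8 * 2 ^ (2 * r))) * (2 * 2 ^ r) ^ 2 := by gcongr
      _ = 4608 * (2 ^ 6) ^ r / 4 := by rw [← pow_mul]; ring
      _ ≤ 4608 ^ r * (2 ^ 6) ^ r / 4 := by gcongr
      _ = _ := by rw [← mul_pow]; norm_num
  rw [le_div_iff₀ (by positivity), add_mul, mul_assoc, mul_assoc _ _ (((r : ℝ) + 1) ^ 2)]
  have W1 := mul_le_mul U1 V1 (by positivity) (by positivity)
  have W2 := mul_le_mul U2 V2 (by positivity) (by positivity)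
  have e1 : 1 / (4608 * (r : ℝ) ^ 4) * (1152 * (r : ℝ) ^ 4) = 1 / 4 := by field_simp; norm_num
  have e2 : 1 / (294912 : ℝ) ^ r * (294912 ^ r / 4) = 1 / 4 := by field_simp
  linarith

theorem flatR (h0 : 0 < q) (h1 : q < 1) (hq : Real.log 2 < q * Real.log 3) (hc0 : 0 < c)
    (hc : c ≤ 4 * q * (1 - q) ^ 3) (hc1 : c ≤ 1) (K1 : ℕ) (hK1 : 1 ≤ K1) :
    ∃ n0 T1 m : ℕ, 1 ≤ n0 ∧ ∀ (ι : Type) (Z : ι → ℤ) (N : ι → ℕ → ℕ → ℝ) (B : ι → ℝ) (T0 : Finset ι)
      (S P J E g l0 R : ℕ), (∀ i ∈ T0, RS q c S P (Z i) (N i)) →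
      (∀ i ∈ T0, ∀ u, E ≤ u → ∀ l, R ≤ l → N i u l = 0) → (∀ i ∈ T0, 0 < B i) →
      (∀ i ∈ T0, ∀ u, E ≤ u → u ≤ E + g → ∀ l, l0 ≤ l → N i u l ≤ B i) →
      J ≤ E + g + K1 * g → T1 ≤ g → R + T1 ≤ S → S ≤ P → R + (m + 1) * (P - S) ≤ P →
      ∀ h u l, u + R ≤ h + l → E ≤ u → u ≤ J → l0 ≤ l → ∀ T ⊆ T0, ∀ δ : ℝ, 0 ≤ δ →
        Conf (fun i => arr (Z i) P) T u l δ → δ * 2 ^ P * 3 ^ (E + g) ≤ 3 ^ u * 2 ^ l →
        ∑ i ∈ T, (N i u l / B i) ^ n0 ≤ 4 * (2 * δ + 1) := by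
  classical
  obtain ⟨m, K, hm, hK, hbig⟩ := bigR h0 h1 hq hc0 hc hc1
  obtain ⟨T2, hT2⟩ := short_gain h0 h1 hc0.le
  obtain ⟨n0, L0, hn0, hL0, hshort, hlong⟩ := paramsR hc0 hc1 m K K1 T2 hK
  refine ⟨n0, T2 * L0 + 4, m, hn0, fun ι Z N B T0 S P J E g l0 R hS hZ hB0 hB hJ hg hR hSP hRP => ?_⟩
  obtain ⟨T3, hT3⟩ : ∃ T3, T3 = T2 * L0 := ⟨_, rfl⟩
  rw [← hT3] at hshort hg hR
  have hT2' : ∀ r < L0, 1 - c + c * (2 ^ r * (1 - q / 2) ^ T3) ≤ 1 - c / 2 := fun r hr =>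
    hT3 ▸ hT2 r L0 hr
  clear hT2 hT3
  have le0 : ∀ i ∈ T0, ∀ h u l, R ≤ l + h → E ≤ u → l0 ≤ l → N i u l ≤ B i := by
    intro i hi h
    induction h with
    | zero => intro u l hl hu _; rw [hZ i hi u hu l hl]; exact (hB0 i hi).le
    | succ h ih =>
      intro u l hl hu hl0
      rcases le_or_gt R l with h2 | h2
      · rw [hZ i hi u hu l h2]; exact (hB0 i hi).le
      rcases le_or_gt u (E + g) with h3 | h3
      · exact hB i hi u hu h3 l hl0
      obtain ⟨u, rfl⟩ : ∃ u', u = u' + 1 := ⟨u - 1, by omega⟩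
      have a0 := (hS i hi).unit u l (by omega)
      have a1 := mul_le_mul_of_nonneg_left (ih u (l + 1) (by omega) (by omega) (by omega)) h0.le
      have a2 := mul_le_mul_of_nonneg_left (ih (u + 1) (l + 1) (by omega) hu (by omega))
        (sub_nonneg.2 h1.le)
      linarith
  have count : ∀ T ⊆ T0, ∀ u l, E ≤ u → l0 ≤ l → l ≤ P → ∀ (u' : ℕ) (δ : ℝ), 0 ≤ δ →
      Conf (fun i => arr (Z i) P) T u' l δ → δ * 2 ^ P ≤ 2 ^ l →
      ∑ i ∈ T, (N i u l / B i) ^ n0 ≤ 2 := by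
    intro T hT u l hu hl hl' u' δ hδ hC h3
    refine (sum_le_card_nsmul _ _ 1 (fun i hi => pow_le_one₀ (div_nonneg ((hS i (hT hi)).nn _ _)
      (hB0 i (hT hi)).le) ((div_le_one (hB0 i (hT hi))).2
        (le0 i (hT hi) R u l (by omega) hu hl)))).trans ?_
    have a1 := cardR hC hl' hδ
    obtain ⟨t, rfl⟩ := Nat.exists_eq_add_of_le hl'
    rw [Nat.add_sub_cancel_left] at a1
    have a2 : δ * 2 ^ t * 2 ^ l ≤ 1 * 2 ^ l := by rw [pow_add] at h3; linarith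
    have := le_of_mul_le_mul_right a2 (by positivity)
    rw [nsmul_eq_mul]
    linarith
  have zero : ∀ u l, E ≤ u → R ≤ l → ∀ T ⊆ T0, ∑ i ∈ T, (N i u l / B i) ^ n0 = 0 := fun u l hu hl T hT =>
    sum_eq_zero (fun i hi => by rw [hZ i (hT hi) u hu l hl, zero_div, zero_pow (by omega)])
  intro h
  induction h with
  | zero =>
    intro u l hl hu _ _ T hT δ hδ _ _
    rw [zero u l hu (by omega) T hT]; positivity
  | succ h ih =>
    intro u l hl hu huJ hl0 T' hT' δ' hδ0 hC' h3'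
    rcases le_or_gt R l with hRl | hRl
    · rw [zero u l hu hRl T' hT']; positivity
    rcases le_or_gt u (E + g) with hEu | hEu
    · have a1 : (3 : ℝ) ^ u * 2 ^ l ≤ 2 ^ l * 3 ^ (E + g) := by
        rw [mul_comm]
        exact mul_le_mul_of_nonneg_left (pow_le_pow_right₀ (by norm_num) hEu) (by positivity)
      have := count T' hT' u l hu hl0 (by omega) u δ' hδ0 hC'
        (le_of_mul_le_mul_right (h3'.trans a1) (by positivity))
      linarith
    suffices H : ∀ T ⊆ T0, ∀ δ : ℝ, 0 ≤ δ → δ ≤ 1 / 2 → Conf (fun i => arr (Z i) P) T u l δ →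
        δ * 2 ^ P * 3 ^ (E + g) ≤ 3 ^ u * 2 ^ l → ∑ i ∈ T, (N i u l / B i) ^ n0 ≤ 4 by
      obtain ⟨f, hf, hf'⟩ := hC'.narrow
      refine (fibre_sum hf (C := 4) (fun k _ => H _ ((filter_subset _ _).trans hT') _
        (le_min hδ0 (by norm_num)) (min_le_right _ _) (hf' k) (le_trans ?_ h3'))).trans ?_
      · gcongr
        exact min_le_left _ _
      · rw [card_range]
        push_cast
        linarith [Nat.floor_le (show 0 ≤ 2 * δ' by positivity)]
    clear hC' h3' hT' hδ0 T' δ'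
    intro T hT δ hδ hδ' hC h3
    have hST : ∀ i ∈ T, RS q c S P (Z i) (N i) := fun i hi => hS i (hT hi)
    rcases lt_or_ge u (2 * P + 4) with hu4 | hu4
    · rw [sum_eq_zero (fun i hi => by rw [(hST i hi).pad u hu4 l, zero_div, zero_pow (by omega)])]
      norm_num
    have land : ∀ T' ⊆ T, ∀ w t s a b : ℕ, w + t + s = u → E ≤ w → w + a ≤ u → w + a + 1 ≤ u + b →
        Conf (fun i => arr (Z i) P) T' (w + t) l (δ / 3 ^ s) →
        ∑ i ∈ T', (N i (w + a) (l + b) / B i) ^ n0 ≤ 3 ^ t * (4 * (3 ^ a * 2 ^ b / 3 ^ (t + s) + 1)) := by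
      intro T' hT' w t s a b e1 e2 e3 e4 hC'
      obtain ⟨f, hf, hf'⟩ := splitR hC'
      refine (fibre_sum hf (C := 4 * (3 ^ a * 2 ^ b / 3 ^ (t + s) + 1)) (fun k _ => ?_)).trans
        (le_of_eq (by rw [Int.card_Ico, sub_zero, show (3 : ℤ) ^ t = ((3 ^ t : ℕ) : ℤ) by push_cast; rfl,
          Int.toNat_natCast]; push_cast; rfl))
      refine (ih (w + a) (l + b) (by omega) (by omega) (by omega) (by omega) _
        (((filter_subset _ _).trans hT').trans hT) _ (by positivity) (moveR (hf' k) a b) ?_).trans ?_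
      · rw [← e1] at h3
        have := mul_le_mul_of_nonneg_left h3 (show (0 : ℝ) ≤ 3 ^ a * 2 ^ b / 3 ^ s / 3 ^ t by positivity)
        refine le_trans (le_of_eq (by ring)) (this.trans (le_of_eq ?_))
        simp only [pow_add]
        field_simp
      · have a2 : 2 * ((3 : ℝ) ^ a * 2 ^ b * (δ / 3 ^ s / 3 ^ t))
            = 3 ^ a * 2 ^ b * (2 * δ) / 3 ^ (t + s) := by rw [pow_add]; field_simp
        have a3 : (3 : ℝ) ^ a * 2 ^ b * (2 * δ) ≤ 3 ^ a * 2 ^ b :=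
          mul_le_of_le_one_right (by positivity) (by linarith)
        rw [a2]
        gcongr
    have hrun := fun i (hi : i ∈ T) => arr_run (hST i hi).odd (u := u) (l := l) (P := P)
      (by omega) (by omega)
    choose! r u0 v d hu0 hd hv1 hv2 hv3 hv4 using hrun
    have ins : ∀ i ∈ T, ∀ s < r i, Eqv (arr (Z i) P (u - s) l) (v i / 3 ^ s) := fun i hi s hs => by
      have := arr_inside (hv3 i hi) hs
      rwa [← hu0 i hi] at this
    obtain ⟨Hc, hHc⟩ : ∃ Hc, u = E + g + Hc := ⟨u - (E + g), by omega⟩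
    rw [← sum_fiberwise_of_maps_to (g := fun i => if r i < L0 then 0 else min (r i) (Hc + 1))
      (t := range (Hc + 1 + 1)) (fun i _ => mem_range.2 (by split_ifs <;> omega)), sum_range_succ]
    have term : ∑ i ∈ T.filter (fun i => (if r i < L0 then 0 else min (r i) (Hc + 1)) = Hc + 1),
        (N i u l / B i) ^ n0 ≤ 2 := by
      refine count _ ((filter_subset _ _).trans hT) u l hu hl0 (by omega) (u - Hc) (δ / 3 ^ Hc)
        (by positivity) (topR (hC.subset (filter_subset _ _)) hδ' (v := v) (fun i hi => ?_)) ?_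
      · obtain ⟨a1, a2⟩ := mem_filter.1 hi
        have a3 : Hc < r i := by split_ifs at a2 <;> omega
        exact ⟨hv2 i a1 (by omega), by simpa using ins i a1 0 (by omega), ins i a1 Hc a3⟩
      · rw [hHc, pow_add 3 (E + g)] at h3
        have a1 : δ * 2 ^ P * 3 ^ (E + g) ≤ 2 ^ l * 3 ^ Hc * 3 ^ (E + g) := by linarith
        have := le_of_mul_le_mul_right a1 (by positivity)
        rwa [div_mul_eq_mul_div, div_le_iff₀ (by positivity)]
    have cls : ∀ k ∈ range (Hc + 1), ∑ i ∈ T.filter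
        (fun i => (if r i < L0 then 0 else min (r i) (Hc + 1)) = k),
        (N i u l / B i) ^ n0 ≤ 1 / 2 / ((k : ℝ) + 1) ^ 2 := by
      intro k hk
      rw [mem_range] at hk
      set T' := T.filter (fun i => (if r i < L0 then 0 else min (r i) (Hc + 1)) = k) with hT'
      have sub : T' ⊆ T := filter_subset _ _
      rcases Nat.eq_zero_or_pos k with rfl | hk0
      · have rk : ∀ i ∈ T', r i < L0 := fun i hi => by
          have := (mem_filter.1 hi).2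
          split_ifs at this <;> omega
        refine le_trans ?_ (hshort.trans (by norm_num))
        have s1 : ∀ i ∈ T', (N i u l / B i) ^ n0 ≤ (1 - c / 2) ^ n0 *
            ∑ e ∈ range (T3 + 4 + 1), (N i (u - e) (l + (T3 + 4)) / B i) ^ n0 := by
          intro i hi
          have a1 := sub hi
          have b0 := hB0 i (hT a1)
          obtain ⟨Q, q0, q1, q2⟩ := exists_Q (f := fun e => N i (u - e) (l + (T3 + 4)))
            (fun e => (hST i a1).nn _ _) b0 (T3 + 4) n0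
          have a2 := (hST i a1).small h0.le h1.le hc0.le hc hc1 T3 (r i) (u0 i) l (v i) (d i) (hd i a1)
            (by linarith [hv1 i a1]) (fun _ => hv1 i a1) (hv3 i a1) (by omega) (hu0 i a1 ▸ q1)
          rw [← hu0 i a1] at a2
          have a3 := a2.trans (mul_le_mul_of_nonneg_right (hT2' _ (rk i hi)) q0)
          refine le_trans ?_ (mul_le_mul_of_nonneg_left q2 (pow_nonneg (by linarith) _))
          rw [← mul_pow, ← mul_div_assoc]
          exact pow_le_pow_left₀ (div_nonneg ((hST i a1).nn _ _) b0.le)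
            (div_le_div_of_nonneg_right a3 b0.le) _
        refine (sum_le_sum s1).trans ?_
        rw [← mul_sum, sum_comm]
        refine mul_le_mul_of_nonneg_left ?_ (pow_nonneg (by linarith) _)
        refine (sum_le_card_nsmul _ _ (3 ^ (T3 + 4) * (8 * 2 ^ (T3 + 4))) (fun e he => ?_)).trans
          (le_of_eq (by rw [card_range, nsmul_eq_mul]))
        have he' := mem_range.1 he
        refine (land T' sub (u - e) e 0 0 (T3 + 4) (by omega) (by omega) (by omega) (by omega) (by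
          rw [show u - e + e = u by omega]
          simpa using hC.subset sub)).trans ?_
        have a1 : (3 : ℝ) ^ 0 * 2 ^ (T3 + 4) / 3 ^ (e + 0) ≤ 2 ^ (T3 + 4) := by
          rw [pow_zero, one_mul]
          exact div_le_self (by positivity) (one_le_pow₀ (by norm_num))
        have a2 : (1 : ℝ) ≤ 2 ^ (T3 + 4) := one_le_pow₀ (by norm_num)
        exact mul_le_mul (pow_le_pow_right₀ (by norm_num) (by omega)) (by linarith) (by positivity)
          (by positivity)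
      rcases lt_or_ge k L0 with hkL | hkL
      · rw [sum_eq_zero (fun i hi => by
          have := (mem_filter.1 hi).2
          split_ifs at this <;> omega)]
        positivity
      have rk : ∀ i ∈ T', r i = k := fun i hi => by
        have := (mem_filter.1 hi).2
        split_ifs at this <;> omega
      obtain ⟨n, p1, p2, p3, p4⟩ := hlong k hkL
      obtain ⟨-, H, b2, b3, b4, b5, b6⟩ := hbig n k p1 p2
      refine le_trans ?_ (p4 H b3)
      have hng : n ≤ g := Nat.le_of_mul_le_mul_left (p3.trans (by omega)) hK1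
      have b4' : (2 : ℝ) ^ H ≤ 3 ^ k := by exact_mod_cast b4
      clear p2 p4 b4
      obtain ⟨w0, hw0⟩ : ∃ w0, u = w0 + (n + k) := ⟨u - (n + k), by omega⟩
      obtain ⟨k', rfl⟩ : ∃ k', k = k' + 1 := ⟨k - 1, by omega⟩
      have hC' : Conf (fun i => arr (Z i) P) T' (w0 + (n + 1)) l (δ / 3 ^ k') := by
        refine topR (hC.subset sub) hδ' (v := v) (fun i hi => ?_)
        have a1 := sub hi
        have a2 := rk i hi
        refine ⟨hv2 i a1 (by omega), by simpa using ins i a1 0 (by omega), ?_⟩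
        have := ins i a1 k' (by omega)
        rwa [show u - k' = w0 + (n + 1) by omega] at this
      set g1 : ℝ := 17 / (1 + c / 30) ^ n with hg1
      set g2 : ℝ := (1 / 2) ^ ((k' + 1) / (2 * (m + 1))) / 2 with hg2
      have g10 : 0 ≤ g1 := by positivity
      have g20 : 0 ≤ g2 := by positivity
      have s1 : ∀ i ∈ T', (N i u l / B i) ^ n0 ≤ (2 * g1) ^ n0 *
          ∑ z ∈ range 4 ×ˢ range (H + 1), (N i (w0 + z.1) (l + z.2) / B i) ^ n0
          + (2 * g2) ^ n0 * ∑ z ∈ range (n + (k' + 1) + 1) ×ˢ Icc (H - 3) H,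
            (N i (w0 + z.1) (l + z.2) / B i) ^ n0 := by
        intro i hi
        have a1 := sub hi
        have b0 := hB0 i (hT a1)
        obtain ⟨Q1, q0, q1, q2⟩ := exists_Q' (f := fun z : ℕ × ℕ => N i (w0 + z.1) (l + z.2))
          (fun d => (hST i a1).nn _ _) b0 (range 4 ×ˢ range (H + 1)) n0 hn0
        obtain ⟨Q2, q3, q4, q5⟩ := exists_Q' (f := fun z : ℕ × ℕ => N i (w0 + z.1) (l + z.2))
          (fun d => (hST i a1).nn _ _) b0 (range (n + (k' + 1) + 1) ×ˢ Icc (H - 3) H) n0 hn0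
        have c1 := b5 _ (rk i hi ▸ hv4 i a1)
        have c2 : l + H ≤ S := by
          have : (m + 1) * (H + (P - S)) ≤ (m + 1) * (P - l) := by
            rw [mul_add, add_mul m 1 (P - l)]; omega
          have := Nat.le_of_mul_le_mul_left this (by omega)
          omega
        have c3 : u0 i = w0 + n := by have := hu0 i a1; have := rk i hi; omega
        have a2 := b6 S P _ _ (hST i a1) w0 l (d i) (v i) Q1 Q2 c2 (hd i a1)
          (hv2 i a1 (by rw [rk i hi]; omega)) (by rw [← c3, ← rk i hi]; exact hv3 i a1) q0 q3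
          (fun a ha b hb => q1 (a, b) (mem_product.2 ⟨mem_range.2 ha, mem_range.2 (by omega)⟩))
          (fun a ha b hb hb' => q4 (a, b) (mem_product.2 ⟨mem_range.2 (by omega),
            mem_Icc.2 ⟨by omega, hb⟩⟩))
        rw [← hw0] at a2
        have a3 : N i u l / B i ≤ g1 * (Q1 / B i) + g2 * (Q2 / B i) :=
          (div_le_div_of_nonneg_right a2 b0.le).trans (le_of_eq (by ring))
        refine (pow_le_pow_left₀ (div_nonneg ((hST i a1).nn _ _) b0.le) a3 n0).trans ?_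
        refine (add_pow_le (by positivity) (by positivity) n0).trans ?_
        refine le_trans ?_ (add_le_add (mul_le_mul_of_nonneg_left q2 (by positivity))
          (mul_le_mul_of_nonneg_left q5 (by positivity)))
        refine (mul_le_mul_of_nonneg_right (pow_le_pow_right₀ (by norm_num) (Nat.sub_le n0 1))
          (by positivity)).trans (le_of_eq ?_)
        simp only [mul_pow]
        ring
      refine (sum_le_sum s1).trans ?_
      rw [sum_add_distrib, ← mul_sum, ← mul_sum, sum_comm, sum_comm (s := T')]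
      refine add_le_add (mul_le_mul_of_nonneg_left ?_ (by positivity))
        (mul_le_mul_of_nonneg_left ?_ (by positivity))
      · refine (sum_le_card_nsmul _ _ (3 ^ (n + 1) * 8) (fun z hz => ?_)).trans
          (le_of_eq (by rw [card_product, card_range, card_range, nsmul_eq_mul]))
        have z1 := mem_range.1 (mem_product.1 hz).1
        have z2 := mem_range.1 (mem_product.1 hz).2
        refine (land T' sub w0 (n + 1) k' z.1 z.2 (by omega) (by omega) (by omega) (by omega) hC').trans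
          (mul_le_mul_of_nonneg_left ?_ (by positivity))
        have a1 : (3 : ℝ) ^ z.1 * 2 ^ z.2 ≤ 3 ^ (n + 1 + k') := by
          rw [add_assoc, pow_add 3 n, add_comm 1 k']
          exact mul_le_mul (pow_le_pow_right₀ (by norm_num) (by omega))
            ((pow_le_pow_right₀ (by norm_num) (by omega)).trans b4') (by positivity) (by positivity)
        have := (div_le_one (by positivity)).2 a1
        linarith
      · refine (sum_le_card_nsmul _ _ (3 ^ (n + 1) * (8 * 2 ^ H)) (fun z hz => ?_)).trans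
          (le_of_eq (by rw [card_product, card_range, Nat.card_Icc, nsmul_eq_mul,
            show H + 1 - (H - 3) = 4 by omega]))
        have z1 := mem_range.1 (mem_product.1 hz).1
        have z2 := mem_Icc.1 (mem_product.1 hz).2
        refine (land T' sub w0 (n + 1) k' z.1 z.2 (by omega) (by omega) (by omega) (by omega) hC').trans
          (mul_le_mul_of_nonneg_left ?_ (by positivity))
        have a1 : (3 : ℝ) ^ z.1 * 2 ^ z.2 / 3 ^ (n + 1 + k') ≤ 2 ^ H := by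
          rw [div_le_iff₀ (by positivity), mul_comm]
          exact mul_le_mul (pow_le_pow_right₀ (by norm_num) z2.2)
            (pow_le_pow_right₀ (by norm_num) (by omega)) (by positivity) (by positivity)
        have a2 : (1 : ℝ) ≤ 2 ^ H := one_le_pow₀ (by norm_num)
        linarith
    have s2 := (sum_le_sum cls).trans (inv_sq_sum Hc)
    have : 0 ≤ 1 / 2 / ((Hc : ℝ) + 1) := by positivity
    linarith

end Pool.Agent.P.MP_d124bf_nt
end

-- part Pool.Agent.P.MP_d124bf_nt.RChain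
section

/-!
One block for a family of reversed systems, and the chain of blocks.
-/

namespace Pool.Agent.P.MP_d124bf_nt

open Finset

variable {q c : ℝ}

theorem RS.le0 {S P : ℕ} {Z : ℤ} {N : ℕ → ℕ → ℝ} (X : RS q c S P Z N) (h0 : 0 ≤ q) (h1 : q ≤ 1)
    {E F R l0 : ℕ} {B : ℝ} (hR : R ≤ S) (hEF : E ≤ F) (hz : ∀ u, E ≤ u → ∀ l, R ≤ l → N u l ≤ B)
    (hB : ∀ u, E ≤ u → u ≤ F → ∀ l, l0 ≤ l → N u l ≤ B) :
    ∀ h u l, R ≤ l + h → E ≤ u → l0 ≤ l → N u l ≤ B := by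
  intro h
  induction h with
  | zero => intro u l hl hu _; exact hz u hu l hl
  | succ h ih =>
    intro u l hl hu hl0
    rcases le_or_gt R l with h2 | h2
    · exact hz u hu l h2
    rcases le_or_gt u F with h3 | h3
    · exact hB u hu h3 l hl0
    obtain ⟨u, rfl⟩ : ∃ u', u = u' + 1 := ⟨u - 1, by omega⟩
    have a0 := X.unit u l (by omega)
    have a1 := mul_le_mul_of_nonneg_left (ih u (l + 1) (by omega) (by omega) (by omega)) h0
    have a2 := mul_le_mul_of_nonneg_left (ih (u + 1) (l + 1) (by omega) hu (by omega))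
      (sub_nonneg.2 h1)
    linarith

theorem blockR (h0 : 0 < q) (h1 : q < 1) (hq : Real.log 2 < q * Real.log 3) (hc0 : 0 < c)
    (hc : c ≤ 4 * q * (1 - q) ^ 3) (hc1 : c ≤ 1) :
    ∃ n0 m0 m1 T1 : ℕ, 1 ≤ n0 ∧ 2 ≤ m0 ∧ 1 ≤ T1 ∧ ∀ (ι : Type) (Z : ι → ℤ) (N : ι → ℕ → ℕ → ℝ)
      (T : Finset ι) (S P : ℕ), S ≤ P → (∀ i ∈ T, RS q c S P (Z i) (N i)) → ∀ u l a : ℕ, l + a = P →
      m1 * (P - S) + T1 ≤ a / m0 → Conf (fun i => arr (Z i) P) T u l 1 →
      ∃ U : ι → ℝ, ∃ A : Finset (ℕ × ℕ), (∀ i ∈ T, 0 ≤ U i ∧ U i ≤ 1) ∧ ∑ i ∈ T, U i ^ n0 ≤ 12 ∧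
        (∀ s ∈ A, s.2 + a / m0 ≤ P) ∧ A.card ≤ a ^ 2 ∧
        ∀ i ∈ T, N i u l ≤ U i * ∑ s ∈ A, N i s.1 s.2 + 4 * (1 / 2) ^ (a / m0) := by
  obtain ⟨x, y, b, hx, hx3, y0, y2, b0, b1, hb, hyb, hxy⟩ := exists_xb h0 h1 hq
  have x0 : 0 < x := by linarith
  obtain ⟨m2, hm2⟩ := small_pow (a := y * b) (by positivity) hyb (e := b / 6) (by positivity)
  obtain ⟨m0, hm0⟩ : ∃ m0, m0 = m2 + 2 := ⟨_, rfl⟩
  have hm := hm2 m0 (by omega)
  have m2' : 2 ≤ m0 := by omega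
  obtain ⟨n0, T1, m, hn0, H⟩ := flatR h0 h1 hq hc0 hc hc1 (2 * m0) (by omega)
  refine ⟨n0, m0, m + 1, T1 + 1, hn0, m2', by omega, fun ι Z N T S P hSP hS u l a ha ht hC => ?_⟩
  obtain ⟨t, htu⟩ : ∃ t, t = a / m0 := ⟨_, rfl⟩
  rw [← htu] at ht ⊢
  rcases lt_or_ge u (2 * P + 4) with hu | hu
  · refine ⟨fun _ => 0, ∅, fun i _ => by norm_num, ?_, by simp, by simp, fun i hi => ?_⟩
    · rw [sum_eq_zero (fun i _ => zero_pow (by omega))]; norm_num
    · rw [(hS i hi).pad u hu l]; positivity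
  have u1 : m0 * t ≤ a := by rw [htu]; exact Nat.mul_div_le a m0
  have u2 : a < m0 * (t + 1) := by rw [htu]; exact Nat.lt_mul_div_succ a (by omega)
  have u3 : 2 * t ≤ a := (Nat.mul_le_mul_right t m2').trans u1
  have u4 : a ≤ 2 * m0 * t := by
    have : m0 * (t + 1) ≤ m0 * (2 * t) := Nat.mul_le_mul_left _ (by omega)
    nlinarith
  have u5 : P - S ≤ (m + 1) * (P - S) := Nat.le_mul_of_pos_left _ (by omega)
  obtain ⟨n, r2, r3, r4⟩ : ∃ n : ℕ, 2 ^ a ≤ 3 ^ (n + 1) ∧ 3 ^ n ≤ 2 ^ a ∧ n + 1 ≤ a := by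
    have c1 : 3 ^ Nat.log 3 (2 ^ a) ≤ 2 ^ a := Nat.pow_log_le_self 3 (by positivity)
    have c2 : 2 ^ a < 3 ^ (Nat.log 3 (2 ^ a) + 1) := Nat.lt_pow_succ_log_self (by norm_num) _
    refine ⟨Nat.log 3 (2 ^ a), c2.le, c1, ?_⟩
    refine (Nat.pow_lt_pow_iff_right (a := 3) (by norm_num)).1 (lt_of_le_of_lt c1 ?_)
    exact Nat.pow_lt_pow_left (by norm_num) (by omega)
  have r6 := hxy _ _ r3
  have r7 : (2 : ℝ) ^ a ≤ 3 ^ (n + 1) := by exact_mod_cast r2
  clear r2 r3 hxy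
  obtain ⟨E, rfl⟩ : ∃ E, u = E + t + (n + 1) := ⟨u - (n + 1) - t, by omega⟩
  obtain ⟨e, rfl⟩ : ∃ e, a = e + t := ⟨a - t, by omega⟩
  obtain ⟨R, hR⟩ : ∃ R, R = l + e := ⟨_, rfl⟩
  set W : ℕ → ℕ → ℝ := fun u' l' => x ^ u' * b ^ R / (x ^ E * b ^ l') with hW
  have W0 : ∀ u' l', 0 ≤ W u' l' := fun u' l' => by simp only [hW]; positivity
  have W1 : ∀ u' l', W (u' + 1) l' = q * W u' (l' + 1) + (1 - q) * W (u' + 1) (l' + 1) := by
    intro u' l'
    simp only [hW, pow_succ]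
    field_simp
    linarith
  have W2 : ∀ u', E ≤ u' → ∀ l', R ≤ l' → 1 ≤ W u' l' := by
    intro u' hu l' hl
    simp only [hW]
    rw [one_le_div (by positivity)]
    exact mul_le_mul (pow_le_pow_right₀ hx.le hu) (pow_le_pow_of_le_one b0.le b1 hl) (by positivity)
      (by positivity)
  have W3 : W (E + t + (n + 1)) l ≤ 3 * (1 / 2) ^ t := by
    have e1 : W (E + t + (n + 1)) l = x * (x ^ t * ((x ^ n / y ^ (e + t)) * ((y * b) ^ (e + t) / b ^ t))) := by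
      simp only [hW]
      rw [hR, mul_pow]
      field_simp
      ring
    have e2 : x ^ t ≤ 3 ^ t := pow_le_pow_left₀ x0.le hx3 _
    have e3 : (y * b) ^ (e + t) / b ^ t ≤ (1 / 6) ^ t := by
      rw [div_le_iff₀ (by positivity), ← mul_pow]
      refine (pow_le_pow_of_le_one (by positivity) hyb.le u1).trans ?_
      rw [pow_mul]
      exact pow_le_pow_left₀ (by positivity) (by linarith) _
    have e4 : x ^ n / y ^ (e + t) ≤ 1 := (div_le_one (by positivity)).2 r6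
    rw [e1]
    refine (mul_le_mul hx3 (mul_le_mul e2 (mul_le_mul e4 e3 (by positivity) (by positivity))
      (by positivity) (by positivity)) (by positivity) (by positivity)).trans (le_of_eq ?_)
    rw [one_mul, ← mul_pow]
    norm_num
  set A := Icc E (E + t) ×ˢ Icc l R with hA
  set N' : ι → ℕ → ℕ → ℝ := fun i u l => max (N i u l - W u l) 0 with hN'
  set B : ι → ℝ := fun i => ∑ s ∈ A, N i s.1 s.2 + (1 / 2) ^ t with hB
  have S' : ∀ i ∈ T, RS q c S P (Z i) (N' i) := fun i hi => (hS i hi).trunc h0.le h1.le hc W0 W1 hc0.le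
  have z : ∀ i ∈ T, ∀ u', E ≤ u' → ∀ l', R ≤ l' → N' i u' l' = 0 := fun i hi u' hu l' hl =>
    max_eq_right (by linarith [(hS i hi).le1 u' l', W2 u' hu l' hl])
  have B1 : ∀ i ∈ T, 0 ≤ ∑ s ∈ A, N i s.1 s.2 := fun i hi => sum_nonneg (fun s _ => (hS i hi).nn _ _)
  have B0 : ∀ i ∈ T, 0 < B i := fun i hi => add_pos_of_nonneg_of_pos (B1 i hi) (by positivity)
  have B2 : ∀ i ∈ T, ∀ u', E ≤ u' → u' ≤ E + t → ∀ l', l ≤ l' → N' i u' l' ≤ B i := by
    intro i hi u' hu hu' l' hl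
    rcases le_total R l' with h | h
    · rw [z i hi u' hu l' h]; exact (B0 i hi).le
    · have c1 : N i u' l' ≤ ∑ s ∈ A, N i s.1 s.2 :=
        single_le_sum (f := fun s : ℕ × ℕ => N i s.1 s.2) (a := (u', l')) (fun s _ => (hS i hi).nn _ _)
          (mem_product.2 ⟨mem_Icc.2 ⟨hu, hu'⟩, mem_Icc.2 ⟨hl, h⟩⟩)
      have c2 : (0 : ℝ) < (1 / 2) ^ t := by positivity
      refine max_le ?_ (B0 i hi).le
      simp only [hB]
      linarith [W0 u' l']
  have U1 : ∀ i ∈ T, N' i (E + t + (n + 1)) l / B i ≤ 1 := fun i hi => (div_le_one (B0 i hi)).2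
    ((S' i hi).le0 h0.le h1.le (R := R) (by omega) (Nat.le_add_right E t)
      (fun u' hu l' hl => (z i hi u' hu l' hl).trans_le (B0 i hi).le) (B2 i hi) R _ _ (by omega)
      (by omega) le_rfl)
  refine ⟨fun i => N' i (E + t + (n + 1)) l / B i, A,
    fun i hi => ⟨div_nonneg ((S' i hi).nn _ _) (B0 i hi).le, U1 i hi⟩,
    ?_, fun s hs => ?_, ?_, fun i hi => ?_⟩
  · refine (H ι Z N' B T S P (E + t + (n + 1)) E t l R S' z B0 B2 (by omega) (by omega) (by omega) hSP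
      (by omega) (E + t + (n + 1) + R) _ l (by omega) (by omega) le_rfl le_rfl T
      Subset.rfl 1 (by norm_num) hC ?_).trans (by norm_num)
    rw [← ha, pow_add 2 l, pow_add 3 (E + t)]
    have := mul_le_mul_of_nonneg_left r7 (show (0 : ℝ) ≤ 2 ^ l * 3 ^ (E + t) by positivity)
    linarith
  · have := (mem_Icc.1 (mem_product.1 hs).2).2
    omega
  · rw [hA, card_product, Nat.card_Icc, Nat.card_Icc, sq]
    exact Nat.mul_le_mul (by omega) (by omega)
  · have c1 : N i (E + t + (n + 1)) l - W (E + t + (n + 1)) l ≤ N' i (E + t + (n + 1)) l :=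
      le_max_left _ _
    have c2 : N' i (E + t + (n + 1)) l = N' i (E + t + (n + 1)) l / B i * ∑ s ∈ A, N i s.1 s.2
        + N' i (E + t + (n + 1)) l / B i * (1 / 2) ^ t := by
      rw [← mul_add]
      exact (div_mul_cancel₀ _ (B0 i hi).ne').symm
    have c3 := mul_le_mul_of_nonneg_right (U1 i hi) (show (0 : ℝ) ≤ (1 / 2) ^ t by positivity)
    linarith

theorem chainR (h0 : 0 < q) (h1 : q < 1) (hq : Real.log 2 < q * Real.log 3) (hc0 : 0 < c)
    (hc : c ≤ 4 * q * (1 - q) ^ 3) (hc1 : c ≤ 1) :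
    ∃ n M m1 T1 : ℕ, 1 ≤ M ∧ ∀ (ι : Type) (Z : ι → ℤ) (N : ι → ℕ → ℕ → ℝ) (T : Finset ι) (S P : ℕ),
      S ≤ P → (∀ i ∈ T, RS q c S P (Z i) (N i)) → ∀ (s : ℕ) (ε : ℝ), m1 * (P - S) + T1 ≤ s → 0 ≤ ε →
      (∀ u l, l + s ≤ P → Conf (fun i => arr (Z i) P) T u l 1) →
      (∀ i ∈ T, ∀ u l, l + s ≤ P → N i u l ≤ ε) → ∀ u l, l + M * s ≤ P →
        ∑ i ∈ T, N i u l ≤ ((P : ℝ) ^ 2) ^ n * (n * (12 * ε + T.card * (4 * (1 / 2) ^ s))) := by
  obtain ⟨n0, m0, m1, T1, hn0, hm0, hT1, H⟩ := blockR h0 h1 hq hc0 hc hc1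
  refine ⟨n0, m0 ^ n0, m1, T1, Nat.one_le_pow _ _ (by omega),
    fun ι Z N T S P hSP hS s ε hs hε hC hN => ?_⟩
  have key : ∀ b m : ℕ, m + b = n0 → ∀ w : Fin m → ι → ℝ, (∀ j, ∀ i ∈ T, 0 ≤ w j i ∧ w j i ≤ 1) →
      (∀ j, ∑ i ∈ T, w j i ^ n0 ≤ 12) → ∀ u l, l + m0 ^ b * s ≤ P →
      ∑ i ∈ T, (∏ j, w j i) * N i u l
        ≤ ((P : ℝ) ^ 2) ^ b * (n0 * (12 * ε) + b * (T.card * (4 * (1 / 2) ^ s))) := by
    intro b
    induction b with
    | zero =>
      intro m hm w hw hw' u l hu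
      obtain rfl : m = n0 := hm
      rw [pow_zero, one_mul] at hu
      refine (sum_le_sum (fun i hi => mul_le_mul (prod_le_sum_pow hn0 (fun j => w j i)
        (fun j => (hw j i hi).1)) (hN i hi u l hu) ((hS i hi).nn _ _)
        (sum_nonneg (fun j _ => pow_nonneg (hw j i hi).1 _)))).trans ?_
      rw [← sum_mul, sum_comm]
      have := sum_le_card_nsmul univ _ _ (fun j _ => hw' j)
      rw [card_univ, Fintype.card_fin, nsmul_eq_mul] at this
      have := mul_le_mul_of_nonneg_right this hε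
      simp only [pow_zero, Nat.cast_zero]
      linarith
    | succ b ih =>
      intro m hm w hw hw' u l hu
      obtain ⟨a, ha⟩ : ∃ a, l + a = P := ⟨P - l, by omega⟩
      have t1 : m0 ^ b * s ≤ a / m0 := by
        rw [Nat.le_div_iff_mul_le (by omega)]
        refine le_trans (le_of_eq ?_) (show m0 ^ (b + 1) * s ≤ a by omega)
        ring
      have t2 : s ≤ a / m0 := (Nat.le_mul_of_pos_left _ (by positivity)).trans t1
      have t3 : s ≤ a := t2.trans (Nat.div_le_self _ _)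
      obtain ⟨U, A, u1, u2, u3, u4, u5⟩ := H ι Z N T S P hSP hS u l a ha (hs.trans t2)
        (hC u l (by omega))
      have p0 : ∀ i ∈ T, 0 ≤ ∏ j, w j i := fun i hi => prod_nonneg (fun j _ => (hw j i hi).1)
      have p1 : ∀ i ∈ T, ∏ j, w j i ≤ 1 := fun i hi =>
        prod_le_one (fun j _ => (hw j i hi).1) (fun j _ => (hw j i hi).2)
      have e1 : (4 : ℝ) * (1 / 2) ^ (a / m0) ≤ 4 * (1 / 2) ^ s :=
        mul_le_mul_of_nonneg_left (pow_le_pow_of_le_one (by norm_num) (by norm_num) t2) (by norm_num)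
      have s1 : ∀ i ∈ T, (∏ j, w j i) * N i u l ≤
          ∑ z ∈ A, (∏ j, (Fin.cons U w : Fin (m + 1) → ι → ℝ) j i) * N i z.1 z.2 + 4 * (1 / 2) ^ s := by
        intro i hi
        refine (mul_le_mul_of_nonneg_left (u5 i hi) (p0 i hi)).trans ?_
        rw [mul_add, ← mul_sum, Fin.prod_univ_succ]
        simp only [Fin.cons_zero, Fin.cons_succ]
        have := mul_le_mul (p1 i hi) e1 (by positivity) (by norm_num)
        linarith
      refine (sum_le_sum s1).trans ?_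
      rw [sum_add_distrib, sum_comm, sum_const, nsmul_eq_mul]
      have s2 := sum_le_card_nsmul A _ _ (fun z hz => ih (m + 1) (by omega) (Fin.cons U w)
        (fun j => Fin.cases u1 hw j) (fun j => Fin.cases u2 hw' j) z.1 z.2
        (by have := u3 z hz; omega))
      rw [nsmul_eq_mul] at s2
      have k1 : (1 : ℝ) ≤ P := by exact_mod_cast (show 1 ≤ P by omega)
      have s3 : (A.card : ℝ) ≤ (P : ℝ) ^ 2 := by
        exact_mod_cast u4.trans (Nat.pow_le_pow_left (by omega) 2)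
      have s4 := s2.trans (mul_le_mul_of_nonneg_right s3 (by positivity))
      have s5 : (1 : ℝ) ≤ ((P : ℝ) ^ 2) ^ (b + 1) := one_le_pow₀ (one_le_pow₀ k1)
      have s6 := mul_le_mul_of_nonneg_right s5
        (show (0 : ℝ) ≤ T.card * (4 * (1 / 2) ^ s) by positivity)
      push_cast
      rw [pow_succ ((P : ℝ) ^ 2)] at s6 ⊢
      linarith
  intro u l hu
  have := key n0 0 (by omega) (fun j => j.elim0) (fun j => j.elim0) (fun j => j.elim0) u l hu
  simp only [univ_eq_empty, prod_empty, one_mul] at this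
  exact this.trans (le_of_eq (by ring))

end Pool.Agent.P.MP_d124bf_nt
end

-- part Pool.Agent.P.MP_d124bf_nt.RBridge
section

/-!
The amplitudes of the walk after a fixed number of steps form a reversed system.
-/

namespace Pool.Agent.P.MP_d124bf_nt

open Finset

noncomputable def PU (q : ℝ) (e : ℕ → ℕ → ℂ) (a : ℕ) : ℕ → ℕ → ℂ
  | 0, u => if u = a then 1 else 0
  | s + 1, 0 => (1 - q) * PU q e a s 0
  | s + 1, u + 1 => q * (e (u + 1) (s + 1) * PU q e a s u) + (1 - q) * PU q e a s (u + 1)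

theorem PU_realize : True := by have := @PU.eq_def; trivial

variable {q : ℝ} {e : ℕ → ℕ → ℂ} {a : ℕ}

theorem PU_low : ∀ s u, u < a → PU q e a s u = 0 := by
  intro s
  induction s with
  | zero => intro u hu; rw [PU, if_neg hu.ne]
  | succ s ih =>
    intro u hu
    cases u with
    | zero => rw [PU, ih 0 hu, mul_zero]
    | succ u => rw [PU, ih u (by omega), ih (u + 1) hu]; simp

theorem PU_high : ∀ s u, a + s < u → PU q e a s u = 0 := by
  intro s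
  induction s with
  | zero => intro u hu; rw [PU, if_neg (by omega)]
  | succ s ih =>
    intro u hu
    obtain ⟨u, rfl⟩ : ∃ u', u = u' + 1 := ⟨u - 1, by omega⟩
    rw [PU, ih u (by omega), ih (u + 1) (by omega)]; simp

theorem PU_step (h0 : 0 < q) (h1 : q < 1) (hE : ∀ j s, ‖e j s‖ = 1) (s u : ℕ) :
    ‖PU q e a (s + 1) (u + 1)‖ ≤ q * ‖PU q e a s u‖ + (1 - q) * ‖PU q e a s (u + 1)‖ := by
  rw [PU]
  refine (norm_add_le _ _).trans (le_of_eq ?_)
  rw [norm_mul, norm_mul, norm_mul, hE, one_mul, Complex.norm_real, Real.norm_of_nonneg h0.le,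
    show (1 : ℂ) - q = ((1 - q : ℝ) : ℂ) by push_cast; ring, Complex.norm_real,
    Real.norm_of_nonneg (by linarith)]

theorem PU_norm (h0 : 0 < q) (h1 : q < 1) (hE : ∀ j s, ‖e j s‖ = 1) (ha : 0 < a) :
    ∀ s u, ‖PU q e a s u‖ ≤ 1 := by
  intro s
  induction s with
  | zero => intro u; rw [PU]; split_ifs <;> simp
  | succ s ih =>
    intro u
    cases u with
    | zero => rw [PU_low _ _ ha]; simp
    | succ u =>
      have a1 := mul_le_mul_of_nonneg_left (ih u) h0.le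
      have a2 := mul_le_mul_of_nonneg_left (ih (u + 1)) (sub_nonneg.2 h1.le)
      linarith [PU_step (a := a) h0 h1 hE s u]

theorem PU_four (h0 : 0 < q) (h1 : q < 1) (hE : ∀ j s, ‖e j s‖ = 1) (i s : ℕ) {g : ℝ}
    (hg : ‖e (i + 4) (s + 1) + e (i + 4) (s + 2) + e (i + 4) (s + 3) + e (i + 4) (s + 4)‖ ≤ 4 - g) :
    ‖PU q e a (s + 4) (i + 4)‖ ≤ Ex q 4 (fun d => ‖PU q e a s (i + 4 - d)‖)
      - q * (1 - q) ^ 3 * g * ‖PU q e a s (i + 3)‖ := by
  have r : ∀ s u, PU q e a (s + 1) (u + 1)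
      = q * (e (u + 1) (s + 1) * PU q e a s u) + (1 - q) * PU q e a s (u + 1) := fun s u => by rw [PU]
  have hq : 0 ≤ 1 - q := by linarith
  have e0 : PU q e a (s + 4) (i + 4) = (((1 - q) ^ 4 : ℝ) : ℂ) * PU q e a s (i + 4)
      + ((q * (1 - q) ^ 3 : ℝ) : ℂ) * ((e (i + 4) (s + 1) + e (i + 4) (s + 2) + e (i + 4) (s + 3)
        + e (i + 4) (s + 4)) * PU q e a s (i + 3))
      + ((q ^ 2 * (1 - q) ^ 2 : ℝ) : ℂ) * ((e (i + 3) (s + 1) * e (i + 4) (s + 2)
        + e (i + 3) (s + 1) * e (i + 4) (s + 3) + e (i + 3) (s + 1) * e (i + 4) (s + 4)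
        + e (i + 3) (s + 2) * e (i + 4) (s + 3) + e (i + 3) (s + 2) * e (i + 4) (s + 4)
        + e (i + 3) (s + 3) * e (i + 4) (s + 4)) * PU q e a s (i + 2))
      + ((q ^ 3 * (1 - q) : ℝ) : ℂ) * ((e (i + 2) (s + 1) * e (i + 3) (s + 2) * e (i + 4) (s + 3)
        + e (i + 2) (s + 1) * e (i + 3) (s + 2) * e (i + 4) (s + 4)
        + e (i + 2) (s + 1) * e (i + 3) (s + 3) * e (i + 4) (s + 4)
        + e (i + 2) (s + 2) * e (i + 3) (s + 3) * e (i + 4) (s + 4)) * PU q e a s (i + 1))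
      + ((q ^ 4 : ℝ) : ℂ) * ((e (i + 1) (s + 1) * e (i + 2) (s + 2) * e (i + 3) (s + 3)
        * e (i + 4) (s + 4)) * PU q e a s i) := by
    rw [r (s + 3) (i + 3), r (s + 2) (i + 2), r (s + 2) (i + 3), r (s + 1) (i + 1), r (s + 1) (i + 2),
      r (s + 1) (i + 3), r s i, r s (i + 1), r s (i + 2), r s (i + 3)]
    push_cast
    simp only [add_assoc, Nat.reduceAdd]
    ring
  have nm : ∀ (a : ℝ) (S x : ℂ) (b : ℝ), 0 ≤ a → ‖S‖ ≤ b → ‖(a : ℂ) * (S * x)‖ ≤ a * b * ‖x‖ := by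
    intro a S x b ha hS
    rw [norm_mul, norm_mul, Complex.norm_real, Real.norm_of_nonneg ha, mul_assoc]
    gcongr
  have n2 : ∀ a b c d, ‖e a b * e c d‖ ≤ 1 := fun a b c d => by rw [norm_mul, hE, hE, one_mul]
  have n3 : ∀ a b c d f g, ‖e a b * e c d * e f g‖ ≤ 1 := fun a b c d f g => by
    rw [norm_mul, norm_mul, hE, hE, hE]; norm_num
  have n4 : ∀ a b c d f g h j, ‖e a b * e c d * e f g * e h j‖ ≤ 1 := fun a b c d f g h j => by
    rw [norm_mul, norm_mul, norm_mul, hE, hE, hE, hE]; norm_num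
  have n0 : ‖(((1 - q) ^ 4 : ℝ) : ℂ) * PU q e a s (i + 4)‖ ≤ (1 - q) ^ 4 * ‖PU q e a s (i + 4)‖ := by
    rw [norm_mul, Complex.norm_real, Real.norm_of_nonneg (by positivity)]
  rw [e0, Ex_four]
  refine (norm_add_le_of_le (norm_add_le_of_le (norm_add_le_of_le (norm_add_le_of_le n0
    (nm _ _ _ _ (by positivity) hg))
    (nm _ _ _ _ (by positivity) (norm_add_le_of_le (norm_add_le_of_le (norm_add_le_of_le
      (norm_add_le_of_le (norm_add_le_of_le (n2 ..) (n2 ..)) (n2 ..)) (n2 ..)) (n2 ..)) (n2 ..))))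
    (nm _ _ _ _ (by positivity) (norm_add_le_of_le (norm_add_le_of_le (norm_add_le_of_le
      (n3 ..) (n3 ..)) (n3 ..)) (n3 ..))))
    (nm _ _ _ _ (by positivity) (n4 ..))).trans (le_of_eq ?_)
  rw [show i + 4 - 0 = i + 4 from rfl, show i + 4 - 1 = i + 3 from rfl,
    show i + 4 - 2 = i + 2 from rfl, show i + 4 - 3 = i + 1 from rfl, show i + 4 - 4 = i from rfl]
  ring

theorem FF_split {E : ℕ → ℕ → ℂ} (h0 : 0 < q) (h1 : q < 1) (hE : ∀ j s, ‖E j s‖ = 1) (k a : ℕ) :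
    ∀ s ≤ k, FF q E k 0 = ∑ d ∈ range (s + 1),
      PU q (fun u => E (k + 1 + (a + 1) - u)) (a + 1) s (a + 1 + d) * FF q E (k - d) s := by
  intro s
  induction s with
  | zero => intro _; simp [PU]
  | succ s ih =>
    intro hs
    set G := PU q (fun u => E (k + 1 + (a + 1) - u)) (a + 1) with hG
    have e1 : ∑ d ∈ range (s + 1), G s (a + 1 + (d + 1)) * FF q E (k - (d + 1)) (s + 1)
        + G s (a + 1 + 0) * FF q E (k - 0) (s + 1)
        = ∑ d ∈ range (s + 1), G s (a + 1 + d) * FF q E (k - d) (s + 1) := by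
      rw [← sum_range_succ' (fun d => G s (a + 1 + d) * FF q E (k - d) (s + 1)), sum_range_succ,
        hG, PU_high s (a + 1 + (s + 1)) (by omega), zero_mul, add_zero]
    have e2 : G (s + 1) (a + 1 + 0) = (1 - q) * G s (a + 1 + 0) := by
      rw [hG, add_zero, PU, PU_low s a (by omega)]; ring
    have e3 : ∀ d ∈ range (s + 1), G (s + 1) (a + 1 + (d + 1)) * FF q E (k - (d + 1)) (s + 1)
        = G s (a + 1 + d) * FF q E (k - d) s - (1 - q) * (G s (a + 1 + d) * FF q E (k - d) (s + 1))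
          + (1 - q) * (G s (a + 1 + (d + 1)) * FF q E (k - (d + 1)) (s + 1)) := by
      intro d hd
      have := mem_range.1 hd
      have e4 := FF_rec h0 h1 hE (k - (d + 1)) s
      rw [show k - (d + 1) + 1 = k - d by omega] at e4
      rw [e4, hG, show a + 1 + (d + 1) = a + 1 + d + 1 from rfl, PU, show k + 1 + (a + 1) - (a + 1 + d + 1) = k - d by omega]
      ring
    rw [ih (by omega), sum_range_succ' _ (s + 1), sum_congr rfl e3, sum_add_distrib, sum_sub_distrib,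
      ← mul_sum, ← mul_sum, e2, ← e1]
    ring

theorem rr_odd (i s : ℕ) : Odd (rr i (s + 1) : ℤ) := by
  have h1 : (2 : ℤ) ∣ 3 ^ i * rr i (s + 1) + 1 := by
    exact_mod_cast (dvd_pow_self 2 (by omega)).trans (rr_dvd i (s + 1))
  rw [← Int.not_even_iff_odd]
  rintro ⟨t, ht⟩
  rw [ht, ← two_mul, mul_left_comm] at h1
  omega

theorem arr_psi (z : ℤ) {v p S u l i : ℕ} (hv : v ≤ p) (hl : l + 4 ≤ S) :
    Eqv (psi (2 ^ v * z) 0 (4 + p) i (S - l - 4)) (arr (z * rr (u + i) (S + p)) (S + p - v) u l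
      + ((2 ^ v * z : ℤ) : ℝ) / 2 ^ p / (3 ^ i * 2 ^ (S - l))) := by
  obtain ⟨s, rfl⟩ : ∃ s, S = l + (s + 4) := ⟨S - l - 4, by omega⟩
  obtain ⟨w, rfl⟩ := Nat.exists_eq_add_of_le hv
  rw [show l + (s + 4) - l - 4 = s by omega, show l + (s + 4) - l = s + 4 by omega,
    show l + (s + 4) + (v + w) - v = l + (s + 4) + w by omega, psi, zero_add]
  have h1 : (2 : ℤ) ^ (s + (4 + (v + w))) ∣ 3 ^ (u + i) * rr (u + i) (l + (s + 4) + (v + w)) + 1 := by
    exact_mod_cast (pow_dvd_pow 2 (by omega)).trans (rr_dvd (u + i) _)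
  have h2 : (2 : ℤ) ^ (s + (4 + (v + w))) ∣ 3 ^ i * rr i (s + (4 + (v + w))) + 1 := by
    exact_mod_cast rr_dvd i _
  have h3 : (2 : ℤ) ^ (s + (4 + (v + w))) ∣ ((rr i (s + (4 + (v + w))) : ℤ)
      - 3 ^ u * rr (u + i) (l + (s + 4) + (v + w))) * 3 ^ i := by
    refine (dvd_sub h2 h1).trans (dvd_of_eq ?_)
    ring
  obtain ⟨n, hn⟩ := (cop23' _ i).dvd_of_dvd_mul_right h3
  have h4 : (2 : ℝ) ^ (s + (4 + (v + w))) * mm i (s + (4 + (v + w)))
      = 3 ^ i * rr i (s + (4 + (v + w))) + 1 := by exact_mod_cast mm_spec i _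
  have h5 : (rr i (s + (4 + (v + w))) : ℝ) = 3 ^ u * rr (u + i) (l + (s + 4) + (v + w))
      + 2 ^ (s + (4 + (v + w))) * n := by
    have : (((rr i (s + (4 + (v + w))) : ℤ) - 3 ^ u * rr (u + i) (l + (s + 4) + (v + w)) : ℤ) : ℝ)
      = ((2 ^ (s + (4 + (v + w))) * n : ℤ) : ℝ) := by rw [hn]
    push_cast at this
    linarith
  have h6 : (mm i (s + (4 + (v + w))) : ℝ) = (3 ^ i * (3 ^ u * rr (u + i) (l + (s + 4) + (v + w))
      + 2 ^ (s + (4 + (v + w))) * n) + 1) / 2 ^ (s + (4 + (v + w))) := by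
    rw [← h5, ← h4]; field_simp
  refine ⟨2 ^ v * z * n, ?_⟩
  rw [h6, arr]
  push_cast
  field_simp
  ring

theorem rs_of (h0 : 0 < q) (h1 : q < 1) {z : ℤ} (hz : Odd z) {v p S k : ℕ} (hv : v < p) (hS : S ≤ k)
    (hη : |((2 ^ v * z : ℤ) : ℝ) / 2 ^ p| ≤ 1 / 2) {a : ℕ} (ha : 2 * (S + p) + 4 ≤ a) :
    RS q (q * (1 - q) ^ 3 * (1 / 250)) S (S + p - v) (z * rr (k + 1 + a) (S + p))
      (fun u l => ‖PU q (fun u => EE (2 ^ v * z) p (k + 1 + a - u)) a (S - l) u‖) := by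
  have hE : ∀ j s, ‖(fun u => EE (2 ^ v * z) p (k + 1 + a - u)) j s‖ = 1 := fun j s => ee_norm _
  refine ⟨fun u l => norm_nonneg _, fun u l => PU_norm h0 h1 hE (by omega) _ _, fun u l hl => ?_,
    fun u l hu hl hf => ?_, hz.mul ?_, by omega, fun u hu l => ?_⟩
  · rw [show S - l = S - (l + 1) + 1 by omega]
    exact PU_step h0 h1 hE _ _
  · obtain ⟨i, rfl⟩ : ∃ i, u = i + 4 := ⟨u - 4, by omega⟩
    rcases lt_or_ge (k + a) (i + 4) with h | h
    · rw [PU_high (S - l) (i + 4) (by omega), norm_zero, Ex_four]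
      have hq : 0 ≤ 1 - q := by linarith
      have := fun d => norm_nonneg (PU q (fun u => EE (2 ^ v * z) p (k + 1 + a - u)) a (S - (l + 4)) d)
      have a0 := mul_nonneg (show 0 ≤ (1 - q) ^ 4 by positivity) (this (i + 4 - 0))
      have a1 := mul_nonneg (show 0 ≤ q * (1 - q) ^ 3 by positivity) (this (i + 4 - 1))
      have a2 := mul_nonneg (show 0 ≤ 6 * q ^ 2 * (1 - q) ^ 2 by positivity) (this (i + 4 - 2))
      have a3 := mul_nonneg (show 0 ≤ 4 * q ^ 3 * (1 - q) by positivity) (this (i + 4 - 3))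
      have a4 := mul_nonneg (show 0 ≤ q ^ 4 by positivity) (this (i + 4 - 4))
      linarith
    obtain ⟨j, hj⟩ : ∃ j, k + 1 + a = i + 4 + j := ⟨k + 1 + a - (i + 4), by omega⟩
    have b1 := arr_psi z (u := i + 4) (i := j) hv.le hl
    have b2 : |((2 ^ v * z : ℤ) : ℝ) / 2 ^ p / (3 ^ j * 2 ^ (S - l))| ≤ 1 / 56 := by
      rw [abs_div _ (_ * _), abs_of_pos (show (0 : ℝ) < 3 ^ j * 2 ^ (S - l) by positivity),
        div_le_iff₀ (by positivity)]
      have c1 : (3 : ℝ) ^ 1 ≤ 3 ^ j := pow_le_pow_right₀ (by norm_num) (by omega)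
      have c2 : (2 : ℝ) ^ 4 ≤ 2 ^ (S - l) := pow_le_pow_right₀ (by norm_num) (by omega)
      have := mul_le_mul c1 c2 (by positivity) (by positivity)
      linarith
    rw [hj] at hf
    have b3 := ((hf.add_small b2).mono (show (1 : ℝ) / 8 ≤ 1 / 7 - 1 / 56 by norm_num)).of_eqv b1
    have b4 := caseC (a := 0) (z := 2 ^ v * z) (p := p) (u := j) (l := S - l - 4) (by omega)
      (by rwa [pow_zero, one_mul]) b3
    have := PU_four (a := a) h0 h1 hE i (S - l - 4) (g := 1 / 250) (by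
      simp only [EE, show k + 1 + a - (i + 4) = j by omega]
      exact four_phase (by simpa only [dl, add_assoc, pow_zero, one_mul, zero_add] using b4))
    rw [show S - l - 4 + 4 = S - l by omega, Nat.sub_sub] at this
    exact this
  · obtain ⟨t, ht⟩ : ∃ t, S + p = t + 1 := ⟨S + p - 1, by omega⟩
    rw [ht]
    exact rr_odd _ _
  · rw [PU_low _ _ (by omega), norm_zero]

theorem familyR {μ : ℝ} (hμ : 1 < μ) (k p S : ℕ) (hS : S ≤ k) :
    ∃ (v : ℕ → ℕ) (Z : ℕ → ℤ) (N : ℕ → ℕ → ℕ → ℝ) (a : ℕ), (∀ ξ ∈ Ioo 0 (2 ^ p), v ξ < p ∧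
      RS μ⁻¹ (μ⁻¹ * (1 - μ⁻¹) ^ 3 * (1 / 250)) S (S + p - v ξ) (Z ξ) (N ξ) ∧
        ‖coeff μ k p ξ‖ ≤ ∑ d ∈ range (S + 1), N ξ (a + d) 0) ∧
      ∀ b u l : ℕ, l ≤ S → Conf (fun ξ => arr (Z ξ) (S + p - b))
        ((Ioo 0 (2 ^ p)).filter (fun ξ => v ξ = b)) u l 1 := by
  have h0 : 0 < μ⁻¹ := by positivity
  have h1 : μ⁻¹ < 1 := inv_lt_one_of_one_lt₀ hμ
  have p2 : (0 : ℝ) < 2 ^ p := by positivity
  have ex : ∀ ξ ∈ Ioo 0 (2 ^ p), ∃ (v : ℕ) (z n : ℤ), Odd z ∧ v < p ∧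
      2 ^ v * z = ((ξ : ℕ) : ℤ) * 3 ^ k + 2 ^ p * n ∧ |((2 ^ v * z : ℤ) : ℝ) / 2 ^ p| ≤ 1 / 2 := by
    intro ξ hξ
    obtain ⟨x1, x2⟩ := mem_Ioo.1 hξ
    set n := round ((((ξ : ℤ) * 3 ^ k : ℤ) : ℝ) / 2 ^ p) with hn
    have nd : ¬ (2 : ℤ) ^ p ∣ (ξ : ℤ) * 3 ^ k + 2 ^ p * (-n) := by
      intro h
      have h2 : (2 : ℤ) ^ p ∣ ξ * 3 ^ k := (dvd_add_left (Dvd.intro _ rfl)).1 h
      have h3 := Int.le_of_dvd (by exact_mod_cast x1) ((cop23' p k).dvd_of_dvd_mul_right h2)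
      have h4 : 2 ^ p ≤ ξ := by exact_mod_cast h3
      exact absurd x2 (not_lt.2 h4)
    have hη0 : (ξ : ℤ) * 3 ^ k + 2 ^ p * (-n) ≠ 0 := fun h => nd (h ▸ dvd_zero _)
    obtain ⟨a, z, hz, haz⟩ := WfDvdMonoid.max_power_factor hη0 Int.prime_two.irreducible
    refine ⟨a, z, -n, Int.not_even_iff_odd.1 (fun h => hz h.two_dvd), ?_, haz.symm, ?_⟩
    · by_contra h
      exact nd (haz ▸ (pow_dvd_pow 2 (not_lt.1 h)).mul_right z)
    rw [← haz]
    refine le_trans (le_of_eq ?_) (abs_sub_round ((((ξ : ℤ) * 3 ^ k : ℤ) : ℝ) / 2 ^ p))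
    rw [← hn]
    congr 1
    push_cast
    field_simp
    ring
  choose! v z n hz hv hη hs using ex
  obtain ⟨a, ha⟩ : ∃ a, a = 2 * (S + p) + 4 := ⟨_, rfl⟩
  refine ⟨v, fun ξ => z ξ * rr (k + 1 + (a + 1)) (S + p),
    fun ξ u l => ‖PU μ⁻¹ (fun u => EE (2 ^ v ξ * z ξ) p (k + 1 + (a + 1) - u)) (a + 1) (S - l) u‖, a + 1,
    fun ξ hξ => ⟨hv ξ hξ, rs_of h0 h1 (hz ξ hξ) (hv ξ hξ) hS (hs ξ hξ) (by omega), ?_⟩,
    fun b u l hl => ?_⟩
  · have hE : ∀ j s, ‖EE (2 ^ v ξ * z ξ) p j s‖ = 1 := fun j s => ee_norm _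
    rw [coeff_eq hμ k p ξ _ _ (hη ξ hξ), FF_split h0 h1 hE k a S hS]
    refine (norm_sum_le _ _).trans (sum_le_sum (fun d _ => ?_))
    rw [norm_mul]
    exact mul_le_of_le_one_right (norm_nonneg _) (FF_norm h0 h1 hE _ _)
  · set r : ℤ := ((rr (k + 1 + (a + 1)) (S + p) : ℕ) : ℤ) with hr
    refine ⟨fun ξ => Int.fract (arr (z ξ * r) (S + p - b) u l), fun ξ _ => ⟨⌊arr (z ξ * r) (S + p - b) u l⌋,
      (Int.fract_add_floor _).symm⟩, fun i hi j hj hij => ?_, fun i _ j _ => ?_⟩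
    · obtain ⟨i1, i2⟩ := mem_filter.1 hi
      obtain ⟨j1, j2⟩ := mem_filter.1 hj
      obtain ⟨m, hm⟩ := Int.fract_eq_fract.1 hij
      have vb : b < p := i2 ▸ hv i i1
      have ei := hη i i1
      have ej := hη j j1
      rw [i2] at ei
      rw [j2] at ej
      have ai := arr_int (z i * r) u (show l ≤ S + p - b by omega)
      have aj := arr_int (z j * r) u (show l ≤ S + p - b by omega)
      have d1 : (2 : ℤ) ^ (S + p - b - l) ∣ (z i - z j) * (r * 3 ^ u) := by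
        refine ⟨m, ?_⟩
        have : (((z i - z j) * (r * 3 ^ u) : ℤ) : ℝ) = ((2 ^ (S + p - b - l) * m : ℤ) : ℝ) := by
          rw [Int.cast_mul _ m, ← hm, mul_sub]
          push_cast at ai aj ⊢
          linarith
        exact_mod_cast this
      have d0 : Odd (r * 3 ^ u) := by
        obtain ⟨t, ht⟩ : ∃ t, S + p = t + 1 := ⟨S + p - 1, by omega⟩
        rw [hr, ht]
        exact (rr_odd _ _).mul (Odd.pow (by decide))
      have d2 : (2 : ℤ) ^ (p - b) ∣ z i - z j :=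
        (((Int.prime_two.coprime_iff_not_dvd).2 (fun h => Int.not_even_iff_odd.2 d0
          (even_iff_two_dvd.2 h))).pow_left).dvd_of_dvd_mul_right ((pow_dvd_pow 2 (by omega)).trans d1)
      have d3 : (2 : ℤ) ^ p ∣ 2 ^ b * z i - 2 ^ b * z j := by
        rw [← mul_sub]
        refine (dvd_of_eq ?_).trans (mul_dvd_mul_left _ d2)
        rw [← pow_add]; congr 1; omega
      have d5 : (2 : ℤ) ^ p ∣ ((i : ℤ) - j) * 3 ^ k := by
        obtain ⟨t, ht⟩ := d3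
        exact ⟨t + n j - n i, by linarith⟩
      have d6 := (cop23' p k).dvd_of_dvd_mul_right d5
      have d7 : (i : ℤ) - j = 0 := by
        apply Int.eq_zero_of_abs_lt_dvd d6
        have i3 : (i : ℤ) < 2 ^ p := by exact_mod_cast (mem_Ioo.1 i1).2
        have j3 : (j : ℤ) < 2 ^ p := by exact_mod_cast (mem_Ioo.1 j1).2
        have i4 : (0 : ℤ) ≤ i := Nat.cast_nonneg _
        have j4 : (0 : ℤ) ≤ j := Nat.cast_nonneg _
        rw [abs_lt]
        constructor <;> linarith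
      exact_mod_cast sub_eq_zero.1 d7
    · have a1 := Int.fract_nonneg (arr (z i * r) (S + p - b) u l)
      have a2 := Int.fract_nonneg (arr (z j * r) (S + p - b) u l)
      have a3 := Int.fract_lt_one (arr (z i * r) (S + p - b) u l)
      have a4 := Int.fract_lt_one (arr (z j * r) (S + p - b) u l)
      rw [abs_le]
      constructor <;> linarith

end Pool.Agent.P.MP_d124bf_nt
end

-- part Pool.Agent.P.MP_d124bf_nt.RFamily
section

/-!
The sum of the coefficients for a small mean, and the two ranges of the mean together.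
-/

namespace Pool.Agent.P.MP_d124bf_nt

open Finset

theorem asympR {γ β : ℝ} (hγ : 0 < γ) (hβ : 0 < β) (A : ℕ) : ∃ k0 : ℕ, ∀ k : ℕ, k0 ≤ k → ∀ D : ℝ,
    2 * (A + 4) / γ ≤ D → D ≤ Real.log k →
    (k : ℝ) ^ A * (12 * Real.exp (-γ * Real.log k * D) + 4 * Real.exp (-(β * k)))
      ≤ Real.exp (-(γ / 2) * Real.log k * D) := by
  obtain ⟨k1, hk1⟩ := exists_nat_ge (Real.exp (1 + 6 * (γ + A + 4) / β))
  refine ⟨k1, fun k hk D hD hD' => ?_⟩
  have k3 : (k1 : ℝ) ≤ k := by exact_mod_cast hk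
  have k0 : (0 : ℝ) < k := lt_of_lt_of_le (Real.exp_pos _) (hk1.trans k3)
  set L := Real.log k with hL
  have eL : Real.exp L = k := Real.exp_log k0
  have L1 : 1 + 6 * (γ + A + 4) / β ≤ L := by
    rw [← Real.exp_le_exp, eL]; linarith
  have g2 : 0 < 6 * (γ + A + 4) / β := by positivity
  have L3 : 2 * (A + 4) ≤ D * γ := by rwa [← div_le_iff₀ hγ]
  have L2 : 6 * (γ + A + 4) ≤ L * β := by rw [← div_le_iff₀ hβ]; linarith
  have L4 : 1 ≤ L := by linarith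
  have A0 : (0 : ℝ) ≤ A := Nat.cast_nonneg A
  have e4 : (k : ℝ) ^ A = Real.exp (A * L) := by rw [Real.exp_nat_mul, eL]
  have four : (24 : ℝ) ≤ Real.exp 4 := by
    have := Real.exp_one_gt_d9
    calc (24 : ℝ) ≤ 2.5 ^ 4 := by norm_num
      _ ≤ Real.exp 1 ^ 4 := pow_le_pow_left₀ (by norm_num) (by linarith) 4
      _ = _ := by rw [← Real.exp_nat_mul]; norm_num
  have b4 : L ^ 3 / 6 ≤ k := by
    have := Real.pow_div_factorial_le_exp L (by linarith) 3
    rw [eL] at this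
    simpa [Nat.factorial] using this
  have c2 : L ≤ L ^ 2 := by nlinarith
  have A1 : 24 * ((k : ℝ) ^ A * Real.exp (-γ * L * D)) ≤ Real.exp (-(γ / 2) * L * D) := by
    refine (mul_le_mul_of_nonneg_right four (by positivity)).trans ?_
    rw [e4, ← Real.exp_add, ← Real.exp_add, Real.exp_le_exp]
    have a3 := mul_le_mul_of_nonneg_right L3 (show 0 ≤ L by linarith)
    linarith
  have A2 : 24 * ((k : ℝ) ^ A * Real.exp (-(β * k))) ≤ Real.exp (-(γ / 2) * L * D) := by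
    refine (mul_le_mul_of_nonneg_right four (by positivity)).trans ?_
    rw [e4, ← Real.exp_add, ← Real.exp_add, Real.exp_le_exp]
    have a1 := mul_le_mul_of_nonneg_right L2 (show 0 ≤ L ^ 2 by positivity)
    have a2 := mul_le_mul_of_nonneg_left b4 hβ.le
    have a3 := mul_le_mul_of_nonneg_left c2 A0
    have a4 : 0 ≤ γ * L ^ 2 := by positivity
    have a5 := mul_le_mul_of_nonneg_left hD' (show 0 ≤ γ * L by positivity)
    linarith
  have := Real.exp_pos (-(γ / 2) * L * D)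
  linarith

theorem quasiR {q c : ℝ} (h0 : 0 < q) (h1 : q < 1) (hq : Real.log 2 < q * Real.log 3) (hc0 : 0 < c)
    (hc : c ≤ 4 * q * (1 - q) ^ 3) (hc1 : c ≤ 1) (M : ℕ) (hM : 1 ≤ M) :
    ∃ γ : ℝ, 0 < γ ∧ ∃ K k0 : ℕ, ∀ k p s : ℕ, k0 ≤ k → 1 ≤ p → K * p ≤ k → K ≤ Real.log (k / p) →
      k ≤ M * s → ∀ (S P : ℕ) (Z : ℤ) (N : ℕ → ℕ → ℝ), RS q c S P Z N → P ≤ S + p → ∀ u l, l + s ≤ P →
        N u l ≤ Real.exp (-γ * Real.log k * Real.log (k / p)) := by
  obtain ⟨m, W, hm, H⟩ := scalesR h0 h1 hq hc0 hc hc1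
  set σ : ℝ := 1 + c / 30 with hσ
  have g0 : 0 < Real.log σ := Real.log_pos (by rw [hσ]; linarith)
  have σ0 : 0 < σ := by rw [hσ]; linarith
  set g := Real.log σ with hg
  have lm : 0 < Real.log m := Real.log_pos (by exact_mod_cast hm)
  have lB : 0 < Real.log 26244 := Real.log_pos (by norm_num)
  obtain ⟨n1, hn1⟩ := exists_nat_ge (4 + 36 / g)
  obtain ⟨C, hC⟩ : ∃ C, C = M ^ 2 * (2 + 2 * W ^ 2) := ⟨_, rfl⟩
  have C0 : 1 ≤ C := by rw [hC]; exact Nat.mul_pos (by positivity) (by omega)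
  refine ⟨g / (2 * Real.log 26244) / (4 * Real.log m), by positivity, 2 * (C * m ^ 2), 26244 ^ n1,
    fun k p s hk hp hK hD hs S P Z N X hP u l hl => ?_⟩
  have k0 : 1 ≤ k := (Nat.one_le_pow _ _ (by norm_num)).trans hk
  obtain ⟨n, hn⟩ : ∃ n, n = Nat.log 26244 k := ⟨_, rfl⟩
  have n0 : n1 ≤ n := hn ▸ Nat.le_log_of_pow_le (by norm_num) hk
  have n2 : 26244 ^ n ≤ k := hn ▸ Nat.pow_log_le_self _ (by omega)
  have n3 : k < 26244 ^ (n + 1) := hn ▸ Nat.lt_pow_succ_log_self (by norm_num) _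
  have n4 : 4 + 36 / g ≤ n := hn1.trans (by exact_mod_cast n0)
  have n5 : 0 < 36 / g := by positivity
  have n6 : 4 ≤ n := by exact_mod_cast (show ((4 : ℕ) : ℝ) ≤ n by push_cast; linarith)
  obtain ⟨V, hV⟩ : ∃ V, V = n * (W * 81 ^ n) := ⟨_, rfl⟩
  have m1 : 1 ≤ m ^ 2 := Nat.one_le_pow _ _ (by omega)
  have c1 : C ≤ 2 * (C * m ^ 2) := by nlinarith
  have pk : p ≤ k := le_trans (Nat.le_mul_of_pos_left _ (by omega)) hK
  have v1 : V ^ 2 ≤ W ^ 2 * k := by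
    have a1 : V ≤ W * 162 ^ n := by
      rw [hV, show 162 = 2 * 81 by norm_num, mul_pow, mul_left_comm]
      exact Nat.mul_le_mul_left _ (Nat.mul_le_mul_right _ Nat.lt_two_pow_self.le)
    refine (Nat.pow_le_pow_left a1 2).trans ?_
    rw [mul_pow, ← pow_mul, mul_comm n, pow_mul]
    exact Nat.mul_le_mul_left _ n2
  have v2 : (M * (p + V)) ^ 2 ≤ C * (p * k) := by
    have a1 : (p + V) ^ 2 ≤ 2 * p ^ 2 + 2 * V ^ 2 := by
      zify
      nlinarith [sq_nonneg ((p : ℤ) - V)]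
    have a2 : p ^ 2 ≤ p * k := by rw [sq]; exact Nat.mul_le_mul_left _ pk
    have a3 : W ^ 2 * k ≤ W ^ 2 * (p * k) := Nat.mul_le_mul_left _ (Nat.le_mul_of_pos_left _ hp)
    rw [mul_pow, hC, mul_assoc]
    refine Nat.mul_le_mul_left _ ?_
    rw [add_mul, mul_assoc 2 (W ^ 2)]
    omega
  have v3 : p + V ≤ s := by
    refine Nat.le_of_mul_le_mul_left (le_trans ?_ hs) hM
    refine (Nat.pow_le_pow_iff_left (n := 2) (by norm_num)).1 (v2.trans ?_)
    rw [sq, ← mul_assoc]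
    exact Nat.mul_le_mul_right _ ((Nat.mul_le_mul_right _ c1).trans hK)
  obtain ⟨j, hj⟩ : ∃ j, j = Nat.log m (s / (p + V)) := ⟨_, rfl⟩
  have j1 : (p + V) * m ^ j ≤ s := by
    have a1 : m ^ j ≤ s / (p + V) := hj ▸ Nat.pow_log_le_self _ (Nat.div_pos v3 (by omega)).ne'
    exact (Nat.mul_le_mul_left _ a1).trans (Nat.mul_div_le _ _)
  have j2 : s < m ^ (j + 1) * (p + V) := by
    rw [← Nat.div_lt_iff_lt_mul (by omega), hj]
    exact Nat.lt_pow_succ_log_self (by omega) _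
  have j3 : k ≤ C * m ^ 2 * m ^ (2 * j) * p := by
    refine Nat.le_of_mul_le_mul_right (c := k) ?_ k0
    have a1 : k ≤ m ^ (j + 1) * (M * (p + V)) := by
      rw [mul_left_comm]
      exact hs.trans (Nat.mul_le_mul_left _ j2.le)
    have a2 := Nat.pow_le_pow_left a1 2
    rw [mul_pow] at a2
    rw [← sq]
    refine a2.trans ((Nat.mul_le_mul_left _ v2).trans (le_of_eq ?_))
    ring
  have p0 : (0 : ℝ) < p := by exact_mod_cast hp
  have k1 : (1 : ℝ) ≤ k := by exact_mod_cast k0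
  have j4 : Real.log (k / p) ≤ 4 * Real.log m * j := by
    have a0 : (0 : ℝ) < (C * m ^ 2 : ℕ) := by exact_mod_cast (show 0 < C * m ^ 2 by omega)
    have a1 : (k : ℝ) / p ≤ (C * m ^ 2 : ℕ) * (m : ℝ) ^ (2 * j) := by
      rw [div_le_iff₀ p0]; exact_mod_cast j3
    have a2 := Real.log_le_log (by positivity) a1
    rw [Real.log_mul a0.ne' (by positivity), Real.log_pow] at a2
    have a3 := Real.log_le_sub_one_of_pos a0
    rw [Nat.cast_mul 2] at hD a2
    push_cast at hD a2 a3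
    linarith
  have e1 : 18 / σ ^ n ≤ Real.exp (-(g / (2 * Real.log 26244) * Real.log k)) := by
    have a1 : σ ^ n = Real.exp (n * g) := by rw [Real.exp_nat_mul, hg, Real.exp_log σ0]
    have a2 : Real.log k ≤ (n + 1) * Real.log 26244 := by
      have : (k : ℝ) ≤ 26244 ^ (n + 1) := by exact_mod_cast n3.le
      have := Real.log_le_log (by linarith) this
      rwa [Real.log_pow, Nat.cast_add_one] at this
    have a3 : g / (2 * Real.log 26244) * Real.log k ≤ g / 2 * (n + 1) := by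
      refine (mul_le_mul_of_nonneg_left a2 (by positivity)).trans (le_of_eq ?_)
      field_simp
    have a4 : 36 ≤ (n - 4) * g := by rw [← div_le_iff₀ g0]; linarith
    rw [a1, div_le_iff₀ (Real.exp_pos _), ← Real.exp_add]
    refine le_trans ?_ (Real.add_one_le_exp _)
    nlinarith
  refine (H S P Z N X n (p + V) n6 (by omega) (by omega) j u l (by omega)).trans
    ((pow_le_pow_left₀ (by positivity) e1 j).trans ?_)
  rw [← Real.exp_nat_mul, Real.exp_le_exp]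
  have a1 : 0 ≤ g / (2 * Real.log 26244) / (4 * Real.log m) * Real.log k :=
    mul_nonneg (by positivity) (Real.log_nonneg k1)
  have a2 := mul_le_mul_of_nonneg_left j4 a1
  have a3 : g / (2 * Real.log 26244) / (4 * Real.log m) * Real.log k * (4 * Real.log m * j)
      = j * (g / (2 * Real.log 26244) * Real.log k) := by field_simp
  linarith

theorem sum_boundR {μ : ℝ} (hμ1 : 1 < μ) (hμ : μ < Real.logb 2 3) :
    ∃ c₀ : ℝ, 0 < c₀ ∧ ∃ c : ℝ, 0 < c ∧ ∃ k₀ : ℕ, ∀ k p : ℕ, k₀ ≤ k → 1 ≤ p → (p : ℝ) ≤ c₀ * k →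
      ∑ ξ ∈ Ioo (0 : ℕ) (2 ^ p), ‖coeff μ k p (ξ : ℤ)‖
        ≤ Real.exp (-c * Real.log k * Real.log (k / p)) := by
  have l2 : 0 < Real.log 2 := Real.log_pos (by norm_num)
  rw [Real.logb, lt_div_iff₀ l2] at hμ
  have h0 : 0 < μ⁻¹ := by positivity
  have h1 : μ⁻¹ < 1 := inv_lt_one_of_one_lt₀ hμ1
  have hq : Real.log 2 < μ⁻¹ * Real.log 3 := by
    rw [lt_inv_mul_iff₀ (by linarith)]; exact hμ
  have hb : 0 < 1 - μ⁻¹ := by linarith
  have hb3 : (1 - μ⁻¹) ^ 3 ≤ 1 := pow_le_one₀ hb.le (by linarith)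
  have hp0 : 0 < μ⁻¹ * (1 - μ⁻¹) ^ 3 := by positivity
  have hp1 : μ⁻¹ * (1 - μ⁻¹) ^ 3 ≤ 1 := mul_le_one₀ h1.le (by positivity) hb3
  have hc0 : 0 < μ⁻¹ * (1 - μ⁻¹) ^ 3 * (1 / 250) := by positivity
  have hc : μ⁻¹ * (1 - μ⁻¹) ^ 3 * (1 / 250) ≤ 4 * μ⁻¹ * (1 - μ⁻¹) ^ 3 := by linarith
  have hc1 : μ⁻¹ * (1 - μ⁻¹) ^ 3 * (1 / 250) ≤ 1 := by linarith
  obtain ⟨n, M, m1, T1, hM, H⟩ := chainR h0 h1 hq hc0 hc hc1
  obtain ⟨γ, hγ, K, k0, hqu⟩ := quasiR h0 h1 hq hc0 hc hc1 (2 * M) (by omega)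
  have M0 : (0 : ℝ) < M := by exact_mod_cast hM
  obtain ⟨k1, hk1⟩ := asympR hγ (β := 1 / (4 * M)) (by positivity) (4 * n + 4)
  obtain ⟨K1, hK1⟩ : ∃ K1, K1 = K + M * (m1 + T1 + 4) := ⟨_, rfl⟩
  set D0 : ℝ := K1 + 2 * (((4 * n + 4 : ℕ) : ℝ) + 4) / γ with hD0
  refine ⟨Real.exp (-D0), Real.exp_pos _, γ / 2, by positivity, k0 + k1 + n + 2,
    fun k p hk hp' hp => ?_⟩
  have p0 : (1 : ℝ) ≤ p := by exact_mod_cast hp'
  have kk : (2 : ℝ) ≤ k := by exact_mod_cast (show 2 ≤ k by omega)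
  have d0 : 0 < 2 * (((4 * n + 4 : ℕ) : ℝ) + 4) / γ := by positivity
  have d1 : Real.exp D0 ≤ k / p := by
    rw [Real.exp_neg, inv_mul_eq_div, le_div_iff₀ (Real.exp_pos _)] at hp
    rw [le_div_iff₀ (by linarith)]
    linarith
  have d2 : D0 ≤ Real.log (k / p) := by
    rwa [Real.le_log_iff_exp_le (by positivity)]
  have d3 : K1 * p ≤ k := by
    have a1 : (K1 : ℝ) ≤ k / p := by linarith [Real.add_one_le_exp D0]
    rw [le_div_iff₀ (by linarith)] at a1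
    exact_mod_cast a1
  have d4 : Real.log (k / p) ≤ Real.log k :=
    Real.log_le_log (by positivity) (div_le_self (by linarith) p0)
  have d5 : (K : ℝ) ≤ Real.log (k / p) := by
    have : (K : ℝ) ≤ K1 := by exact_mod_cast (show K ≤ K1 by omega)
    linarith
  have K0 : (0 : ℝ) ≤ K1 := Nat.cast_nonneg _
  refine le_trans ?_ (hk1 k (by omega) _ (by linarith) d4)
  obtain ⟨s, hs⟩ : ∃ s, s = k / M := ⟨_, rfl⟩
  have s1 : (m1 + T1 + 4) * p ≤ s := by
    rw [hs, Nat.le_div_iff_mul_le (by omega)]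
    refine le_trans ?_ d3
    rw [hK1, add_mul K]
    exact le_trans (le_of_eq (by ring)) (Nat.le_add_left _ _)
  have s0 : T1 ≤ T1 * p := Nat.le_mul_of_pos_right _ hp'
  rw [add_mul, add_mul] at s1
  have s3 : M * s ≤ k := by rw [hs]; exact Nat.mul_div_le k _
  have s4 : k < M * (s + 1) := by rw [hs]; exact Nat.lt_mul_div_succ k (by omega)
  have s6 : k ≤ 2 * M * s := by
    have : M * (s + 1) ≤ M * (2 * s) := Nat.mul_le_mul_left _ (by omega)
    nlinarith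
  have s7 : s ≤ k := hs ▸ Nat.div_le_self _ _
  obtain ⟨v, Z, N, a, F1, F2⟩ := familyR hμ1 k p k le_rfl
  have e2 : (2 : ℝ) ^ p * (4 * (1 / 2) ^ s) ≤ 4 * Real.exp (-(1 / (4 * M) * k)) := by
    have b1 : (2 : ℝ) ^ p * (1 / 2) ^ s = Real.exp ((p - s) * Real.log 2) := by
      rw [sub_mul, Real.exp_sub, Real.exp_nat_mul, Real.exp_nat_mul, Real.exp_log (by norm_num),
        one_div_pow]
      ring
    have b2 : (4 * p : ℝ) ≤ s := by exact_mod_cast (show 4 * p ≤ s by omega)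
    have b3 : 1 / (4 * M) * (k : ℝ) ≤ s / 2 := by
      rw [one_div_mul_eq_div, div_le_iff₀ (by positivity)]
      have : (k : ℝ) ≤ 2 * M * s := by exact_mod_cast s6
      linarith
    have b4 := Real.log_two_gt_d9
    rw [mul_left_comm, b1]
    refine mul_le_mul_of_nonneg_left (Real.exp_le_exp.2 ?_) (by norm_num)
    nlinarith
  refine (fibre_sum (f := v) (K := range p) (fun ξ hξ => mem_range.2 (F1 ξ hξ).1)
    (C := (k : ℝ) ^ 2 * ((((k : ℝ) ^ 2) ^ 2) ^ n * (k * (12 * Real.exp (-γ * Real.log k * Real.log (k / p))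
      + 4 * Real.exp (-(1 / (4 * M) * k)))))) (fun b hb => ?_)).trans ?_
  · have b1 : b < p := mem_range.1 hb
    set T := (Ioo (0 : ℕ) (2 ^ p)).filter (fun ξ => v ξ = b) with hT
    have sub : T ⊆ Ioo 0 (2 ^ p) := filter_subset _ _
    have X : ∀ i ∈ T, RS μ⁻¹ (μ⁻¹ * (1 - μ⁻¹) ^ 3 * (1 / 250)) k (k + p - b) (Z i) (N i) :=
      fun i hi => (mem_filter.1 hi).2 ▸ (F1 i (sub hi)).2.1
    have b0 : m1 * (k + p - b - k) ≤ m1 * p := Nat.mul_le_mul_left _ (by omega)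
    have b2 := fun u => H ℕ Z N T k (k + p - b) (by omega) X s
      (Real.exp (-γ * Real.log k * Real.log (k / p))) (by omega) (Real.exp_pos _).le
      (fun u l hu => F2 b u l (by omega))
      (fun i hi u l hu => hqu k p s (by omega) hp' ((Nat.mul_le_mul_right _ (by omega)).trans d3) d5 s6
        _ _ _ _ (X i hi) (by omega) u l hu) u 0 (by omega)
    have b3 : (T.card : ℝ) ≤ 2 ^ p := by
      have := card_le_card sub
      rw [Nat.card_Ioo] at this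
      exact_mod_cast this.trans ((Nat.sub_le _ _).trans (Nat.sub_le _ _))
    refine (sum_le_sum (fun i hi => (F1 i (sub hi)).2.2)).trans ?_
    rw [sum_comm]
    refine (sum_le_card_nsmul _ _ _ (fun d _ => b2 (a + d))).trans ?_
    rw [card_range, nsmul_eq_mul]
    have b4 := (mul_le_mul_of_nonneg_right b3 (by positivity)).trans e2
    have b5 : (n : ℝ) ≤ k := by exact_mod_cast (show n ≤ k by omega)
    have b6 : ((k + 1 : ℕ) : ℝ) ≤ (k : ℝ) ^ 2 := by push_cast; nlinarith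
    have b7 : ((k + p - b : ℕ) : ℝ) ≤ (k : ℝ) ^ 2 := by
      have : ((k + p - b : ℕ) : ℝ) ≤ ((2 * k : ℕ) : ℝ) := Nat.cast_le.2 (by omega)
      push_cast at this ⊢
      nlinarith
    gcongr
  · rw [card_range]
    have b1 : (p : ℝ) ≤ k := by exact_mod_cast (show p ≤ k by omega)
    refine (mul_le_mul_of_nonneg_right b1 (by positivity)).trans (le_of_eq ?_)
    rw [← pow_mul, ← pow_mul]
    ring

theorem sum_both {μ : ℝ} (hμ : 1 < μ) (hne : μ ≠ Real.logb 2 3) :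
    ∃ c₀ : ℝ, 0 < c₀ ∧ ∃ c : ℝ, 0 < c ∧ ∃ k₀ : ℕ, ∀ k p : ℕ, k₀ ≤ k → 1 ≤ p → (p : ℝ) ≤ c₀ * k →
      ∑ ξ ∈ Ioo (0 : ℕ) (2 ^ p), ‖coeff μ k p (ξ : ℤ)‖
        ≤ Real.exp (-c * Real.log k * Real.log (k / p)) := by
  rcases lt_or_gt_of_ne hne with h | h
  · exact sum_boundR hμ h
  · obtain ⟨c₀, h0, c, hc, k₀, H⟩ := sum_bound h
    refine ⟨c₀, h0, c, hc, k₀ + 1, fun k p hk hp' hp => (H k p (by omega) hp).trans ?_⟩
    have p0 : (1 : ℝ) ≤ p := by exact_mod_cast hp'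
    have k1 : (1 : ℝ) ≤ k := by exact_mod_cast (show 1 ≤ k by omega)
    have a1 : Real.log (k / p) ≤ Real.log k :=
      Real.log_le_log (by positivity) (div_le_self (by linarith) p0)
    have a2 := mul_le_mul_of_nonneg_left a1 (mul_nonneg hc.le (Real.log_nonneg k1))
    rw [Real.exp_le_exp]
    linarith

end Pool.Agent.P.MP_d124bf_nt
end
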